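import Pool.Agent.P.MP_e94e4b_nt.PAR.IfE

/-! Step CW1. -/

namespace Pool.Agent.P.PAR

open Finset Real Filter Topology MeasureTheory
open Pool.Agent.P.MP_e86632_nt (ee ee_add norm_ee ee_neg ee_zero)
open Pool.Agent.P.MP_8be758_nt.Avg (gs nsq gs_pos gs_le_one gs_neg gs_anti)
open Pool.Agent.P.MP_e94e4b_nt.PF (sgm)
open Pool.Agent.P.E2
open ArithmeticFunction (cardFactors vonMangoldt)

namespace CW1b

lemma key {k c N N' m : ℕ} (hk : 3 ≤ k) (hc : 2 * c + 3 = 3 * k ^ 2)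
    (hu : 20 * k ^ 2 ≤ 2 * N + 1) (hN : k * (2 * N + 1) = 2 * N' + 1) (hm : m ∈ iu k (2 * N + 1)) :
    ∃ a b : ℕ, m = N ^ 2 + a + 1 ∧ 2 ≤ a ∧ a ≤ 2 * N ∧ k ^ 2 * m = c + (N' ^ 2 + b + 1) ∧ 2 ≤ b ∧
      b ≤ 2 * N' ∧ (N' + 1) ^ 2 - b = k ^ 2 * ((N + 1) ^ 2 - a) := by
  obtain ⟨-, h1, h2⟩ := mem_filter.1 hm
  have k2 : 9 ≤ k ^ 2 := by nlinarith
  have e1 : (2 * N + 1) ^ 2 = 4 * N ^ 2 + 4 * N + 1 := by ring
  have a1 : N ^ 2 + 3 ≤ m := by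
    by_contra h
    have : k * (4 * m + (4 * N - 7)) ≤ k * (2 * N + 1) ^ 2 := Nat.mul_le_mul_left k (by omega)
    have h3 : 3 * (4 * N - 7) ≤ k * (4 * N - 7) := Nat.mul_le_mul_right _ hk
    rw [mul_add] at this
    omega
  have a2 : m ≤ N ^ 2 + 2 * N + 1 := by
    by_contra h
    have : k * ((2 * N + 1) ^ 2 + (4 * N + 7)) ≤ k * (4 * m) := Nat.mul_le_mul_left k (by omega)
    have h3 : 3 * (4 * N + 7) ≤ k * (4 * N + 7) := Nat.mul_le_mul_right _ hk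
    rw [mul_add] at this
    omega
  have e2 : k ^ 2 * (2 * N + 1) ^ 2 = 4 * N' ^ 2 + 4 * N' + 1 := by rw [← mul_pow, hN]; ring
  have b0 : 60 * k ^ 2 ≤ 2 * N' + 1 := by
    rw [← hN]
    calc 60 * k ^ 2 = 3 * (20 * k ^ 2) := by ring
      _ ≤ _ := Nat.mul_le_mul hk hu
  have b1 : 4 * (k ^ 2 * m) ≤ 4 * N' ^ 2 + 4 * N' + 1 + (2 * N' + 1) := by
    rw [← e2, ← hN]
    calc _ = k * (k * (4 * m)) := by ring
      _ ≤ k * (k * (2 * N + 1) ^ 2 + (2 * N + 1)) := Nat.mul_le_mul_left k h1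
      _ = _ := by ring
  have b2 : 4 * N' ^ 2 + 4 * N' + 1 ≤ 4 * (k ^ 2 * m) + (2 * N' + 1) := by
    rw [← e2, ← hN]
    calc _ = k * (k * (2 * N + 1) ^ 2) := by ring
      _ ≤ k * (k * (4 * m) + (2 * N + 1)) := Nat.mul_le_mul_left k h2
      _ = _ := by ring
  obtain ⟨a, rfl⟩ : ∃ a, m = N ^ 2 + a + 1 := ⟨m - N ^ 2 - 1, by omega⟩
  obtain ⟨b, hb⟩ : ∃ b, k ^ 2 * (N ^ 2 + a + 1) = c + (N' ^ 2 + b + 1) :=
    ⟨k ^ 2 * (N ^ 2 + a + 1) - c - N' ^ 2 - 1, by omega⟩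
  refine ⟨a, b, rfl, by omega, by omega, hb, by omega, by omega, ?_⟩
  obtain ⟨d, hd⟩ : ∃ d, (N + 1) ^ 2 = a + d := Nat.exists_eq_add_of_le (by nlinarith)
  rw [hd, Nat.add_sub_cancel_left]
  refine Nat.sub_eq_of_eq_add ?_
  have e3 : 2 * (k ^ 2 * (N ^ 2 + a + 1)) + 2 * (k ^ 2 * d) =
      k ^ 2 * (2 * N + 1) ^ 2 + 3 * k ^ 2 := by
    have : 2 * (N ^ 2 + a + 1) + 2 * d = (2 * N + 1) ^ 2 + 3 := by nlinarith
    calc _ = k ^ 2 * (2 * (N ^ 2 + a + 1) + 2 * d) := by ring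
      _ = _ := by rw [this]; ring
  have e4 : (N' + 1) ^ 2 = N' ^ 2 + 2 * N' + 1 := by ring
  omega

end CW1b

theorem q_CW1 :
    L_CW1 := by
  intro k c u τ ok hk hc ou hu
  obtain ⟨N', hN⟩ := ok.mul ou
  obtain ⟨N, rfl⟩ := ou
  rw [hN, show (2 * N + 1) / 2 = N by omega, show (2 * N' + 1) / 2 = N' by omega]
  let p : ℕ → ℕ → Prop := fun N a => (par (N ^ 2 + a + 1) == par ((N + 1) ^ 2 - a)) ≠ τ
  refine (card_le_card (t := ((iu k (2 * N + 1)).filter fun m => p N (m - N ^ 2 - 1)) ∪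
    (iu k (2 * N + 1)).filter fun m => p N' (k ^ 2 * m - c - N' ^ 2 - 1)) fun m hm => ?_).trans
    ((card_union_le _ _).trans (add_le_add ?_ ?_))
  · obtain ⟨h1, h2⟩ := mem_filter.1 hm
    obtain ⟨a, b, e1, -, a2, e2, -, -, e3⟩ := CW1b.key hk hc hu hN h1
    rw [mem_union, mem_filter, mem_filter, and_iff_right h1, and_iff_right h1,
      show m - N ^ 2 - 1 = a by omega, show k ^ 2 * m - c - N' ^ 2 - 1 = b by omega]
    rw [show k ^ 2 * m - c = N' ^ 2 + b + 1 by omega] at h2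
    have e4 : (N + 1) ^ 2 = N ^ 2 + 2 * N + 1 := by ring
    simp only [p, e3, par_sq_mul (show k ≠ 0 by omega) (show (N + 1) ^ 2 - a ≠ 0 by omega), ← e1]
    revert h2
    cases par m <;> cases par (N' ^ 2 + b + 1) <;> cases par ((N + 1) ^ 2 - a) <;> cases τ <;> simp
  · refine card_le_card_of_injOn (fun m => m - N ^ 2 - 1) (fun m hm => ?_) fun m hm m' hm' e => ?_
    · obtain ⟨h1, h2⟩ := mem_filter.1 (mem_coe.1 hm)
      obtain ⟨a, b, e1, a1, a2, -⟩ := CW1b.key hk hc hu hN h1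
      exact mem_coe.2 (mem_filter.2 ⟨mem_Icc.2 (by beta_reduce; omega), h2⟩)
    · obtain ⟨a, b, e1, -⟩ := CW1b.key hk hc hu hN (mem_filter.1 (mem_coe.1 hm)).1
      obtain ⟨a', b', e1', -⟩ := CW1b.key hk hc hu hN (mem_filter.1 (mem_coe.1 hm')).1
      simp only at e
      omega
  · refine card_le_card_of_injOn (fun m => k ^ 2 * m - c - N' ^ 2 - 1) (fun m hm => ?_)
      fun m hm m' hm' e => ?_
    · obtain ⟨h1, h2⟩ := mem_filter.1 (mem_coe.1 hm)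
      obtain ⟨a, b, -, -, -, e2, b1, b2, -⟩ := CW1b.key hk hc hu hN h1
      exact mem_coe.2 (mem_filter.2 ⟨mem_Icc.2 (by beta_reduce; omega), h2⟩)
    · obtain ⟨a, b, -, -, -, e2, -⟩ := CW1b.key hk hc hu hN (mem_filter.1 (mem_coe.1 hm)).1
      obtain ⟨a', b', -, -, -, e2', -⟩ := CW1b.key hk hc hu hN (mem_filter.1 (mem_coe.1 hm')).1
      simp only at e
      exact Nat.eq_of_mul_eq_mul_left (show 0 < k ^ 2 by positivity) (by omega)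

end Pool.Agent.P.PAR
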