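import Pool.Agent.P.MP_e94e4b_nt.PAR.IfM

/-! Step T2. -/

namespace Pool.Agent.P.PAR

open Finset Real Filter Topology MeasureTheory
open Pool.Agent.P.MP_e86632_nt (ee ee_add norm_ee ee_neg ee_zero)
open Pool.Agent.P.MP_8be758_nt.Avg (gs nsq gs_pos gs_le_one gs_neg gs_anti)
open Pool.Agent.P.MP_e94e4b_nt.PF (sgm)
open Pool.Agent.P.E2
open ArithmeticFunction (cardFactors vonMangoldt)

namespace T2b

theorem ana {F G R : ℝ → ℂ} (hF : Bd F) (hG : Bd G) (hR : Bd R) {Z a b : ℝ} (hZ : 0 < Z)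
    (ha : 0 < a) (l : ℕ) :
    ∫ t in {t : ℝ | a < ‖F t‖ ∧ ‖G t‖ ≤ b}, gs (t / Z) * ‖G t * R t‖ ^ 2 ≤
      b ^ 2 / a ^ (2 * l) * ∫ t, gs (t / Z) * (‖F t‖ ^ (2 * l) * ‖R t‖ ^ 2) := by
  have h1 := (hF.pow l).mul hR
  have e : ∀ t, ‖F t‖ ^ (2 * l) * ‖R t‖ ^ 2 = ‖F t ^ l * R t‖ ^ 2 := fun t => by
    rw [norm_mul, norm_pow]; ring
  simp only [e]
  refine le_trans ?_ (mul_le_mul_of_nonneg_left
    (h1.set_le hZ {t : ℝ | a < ‖F t‖ ∧ ‖G t‖ ≤ b}) (by positivity))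
  rw [← integral_const_mul]
  refine setIntegral_mono_on ((hG.mul hR).int hZ).integrableOn
    ((h1.int hZ).const_mul _).integrableOn ((meas_lt a hF.1).inter (meas_le b hG.1)) fun t ht => ?_
  rw [← e, mul_left_comm]
  refine mul_le_mul_of_nonneg_left ?_ (gs_pos _).le
  rw [norm_mul, mul_pow, ← mul_assoc]
  refine mul_le_mul_of_nonneg_right ?_ (by positivity)
  refine (pow_le_pow_left₀ (norm_nonneg _) ht.2 2).trans ?_
  rw [div_mul_eq_mul_div, le_div_iff₀ (by positivity)]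
  exact mul_le_mul_of_nonneg_left (pow_le_pow_left₀ ha.le ht.1.le _) (by positivity)

theorem num {ρ α L L' : ℝ} {l : ℕ} (hρ : 8 ≤ ρ) (h0 : 0 ≤ α) (h1 : α ≤ 1 / 2) (h2 : ρ ^ 6 ≤ L')
    (h3 : L' ≤ 2 * ρ ^ 12) (h4 : Real.exp (ρ ^ 2) ≤ L) (h5 : L ≤ 2 * Real.exp (2 * ρ ^ 2))
    (h6 : l * L' ≤ L + L') :
    Real.exp (L * (1 - (α + 1 / ρ ^ 3))) ^ 2 / Real.exp (L' * (1 - α)) ^ (2 * l) *
      ((Real.exp L' ^ l / Real.exp L) ^ 2 * (6 * l : ℝ) ^ (2 * l)) ≤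
      Real.exp (2 * ρ ^ 12 - Real.exp (ρ ^ 2) / ρ ^ 3) := by
  have r0 : 0 < ρ := by linarith
  have r2 : 64 ≤ ρ ^ 2 := by nlinarith
  have r6 : 24 ≤ ρ ^ 6 := by
    have : ρ ^ 2 ≤ ρ ^ 6 := pow_le_pow_right₀ (by linarith) (by norm_num)
    linarith
  have a1 : ρ ^ 6 ≤ L := by
    have h := Real.pow_div_factorial_le_exp (ρ ^ 2) (by positivity) 4
    have e : (ρ ^ 2) ^ 4 = ρ ^ 6 * ρ ^ 2 := by ring
    norm_num [Nat.factorial] at h
    nlinarith [pow_pos r0 6]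
  have l0 : (0 : ℝ) ≤ l := Nat.cast_nonneg l
  have a2 : l * ρ ^ 6 ≤ 2 * L := by
    rcases Nat.eq_zero_or_pos l with rfl | hl
    · simp; linarith
    obtain ⟨m, rfl⟩ : ∃ m, l = m + 1 := ⟨l - 1, by omega⟩
    push_cast at h6 ⊢
    have := mul_le_mul_of_nonneg_left h2 (Nat.cast_nonneg (α := ℝ) m)
    linarith
  have a3 : (6 * l : ℝ) ≤ Real.exp (2 * ρ ^ 2) := by
    have := mul_le_mul_of_nonneg_left r6 l0
    linarith
  have a4 : (6 * l : ℝ) ^ (2 * l) ≤ Real.exp (L / ρ ^ 3) := by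
    refine (pow_le_pow_left₀ (by positivity) a3 _).trans ?_
    rw [← Real.exp_nat_mul, Real.exp_le_exp, le_div_iff₀ (by positivity)]
    push_cast
    have : l * ρ ^ 5 * 8 ≤ l * ρ ^ 5 * ρ := mul_le_mul_of_nonneg_left hρ (by positivity)
    nlinarith
  refine (mul_le_mul_of_nonneg_left (mul_le_mul_of_nonneg_left a4 (by positivity))
    (by positivity)).trans ?_
  simp only [← Real.exp_nat_mul, ← Real.exp_sub, ← Real.exp_add, Real.exp_le_exp]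
  push_cast
  have a5 : Real.exp (ρ ^ 2) / ρ ^ 3 ≤ L / ρ ^ 3 := by gcongr
  have a6 := mul_le_mul_of_nonneg_left h6 h0
  have a7 := mul_le_mul_of_nonneg_right h1 (show 0 ≤ L' by linarith)
  have e : L * (1 / ρ ^ 3) = L / ρ ^ 3 := by ring
  nlinarith

end T2b

theorem q_T2 (hMOM : L_MOM) :
    L_T2 := by
  obtain ⟨C, hC, hM⟩ := hMOM
  refine ⟨72 * C, by positivity, fun ρ α Z X u v s1 s2 h0 h1 hZ hZX hu hv => ?_⟩
  have p1 : 0 < sP ρ := Real.exp_pos _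
  have p2 : 0 < sP (nx ρ) := Real.exp_pos _
  set Y' := yy (sP ρ) (sd ρ) u with hY'
  set Y := yy (sP (nx ρ)) (sd (nx ρ)) v with hY
  have y1 : 4 ≤ Y' := s1.p4.trans (le_yy p1.le s1.d0.le u)
  have y2 : 4 ≤ Y := s2.p4.trans (le_yy p2.le s2.d0.le v)
  have y3 : 0 < Y' := by linarith
  have y4 : 0 < Y := by linarith
  have l1 : ρ ^ 6 ≤ Real.log Y' := (Real.le_log_iff_exp_le y3).2 (s1.yl u)
  have l2 : Real.log Y' ≤ 2 * ρ ^ 12 := (Real.log_le_iff_le_exp y3).2 (s1.yu u hu.le)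
  have l3 : Real.exp (ρ ^ 2) ≤ Real.log Y :=
    nx_pow_six ρ ▸ (Real.le_log_iff_exp_le y4).2 (s2.yl v)
  have l4 : Real.log Y ≤ 2 * Real.exp (2 * ρ ^ 2) :=
    nx_pow_twelve ρ ▸ (Real.log_le_iff_le_exp y4).2 (s2.yu v hv.le)
  have l5 : 0 < Real.log Y' := Real.log_pos (by linarith)
  have l6 : 0 < Real.log Y := Real.log_pos (by linarith)
  set l := ⌈Real.log Y / Real.log Y'⌉₊ with hl
  have l7 : 1 ≤ l := Nat.ceil_pos.2 (div_pos l6 l5)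
  have l8 : Real.log Y ≤ l * Real.log Y' := (div_le_iff₀ l5).1 (Nat.le_ceil _)
  have l9 : l * Real.log Y' ≤ Real.log Y + Real.log Y' := by
    have := (Nat.ceil_lt_add_one (div_pos l6 l5).le).le
    rw [div_add_one l5.ne', le_div_iff₀ l5] at this
    exact this
  have hn := T2b.num s1.r8 h0 h1 l1 l2 l3 l4 l9
  rw [← Real.rpow_def_of_pos y4, ← Real.rpow_def_of_pos y3, Real.exp_log y3, Real.exp_log y4] at hn
  have w1 : 1 ≤ Y' ^ l / Y := by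
    rw [one_le_div y4, ← Real.log_le_log_iff y4 (by positivity), Real.log_pow]; exact l8
  have u1 : yy (sP ρ) (sd ρ) (u + 1) ≤ 3 / 2 * Y' := by
    rw [yy_succ]; exact mul_le_mul_of_nonneg_right (by linarith [s1.d1]) y3.le
  have u2 := Nat.floor_le (yy_pos p1 s1.d0.le (u + 1)).le
  have hrs : rs (pv (sP ρ) (sd ρ) u) ≤ 1 := by
    refine (sum_le_card_nsmul _ _ (1 / Y') fun p hp => one_div_le_one_div_of_le y3
      ((mem_pv p1.le s1.d0.le).1 hp).1.1.le).trans ?_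
    rw [nsmul_eq_mul, mul_one_div, div_le_one y3]
    refine le_trans (Nat.cast_le.2 (card_filter_le _ _)) ?_
    rw [Nat.card_Ioc, Nat.cast_sub (Nat.floor_le_floor (yy_mono p1.le s1.d0.le u.le_succ))]
    linarith [Nat.lt_floor_add_one Y']
  have hm := hM (pv (sP ρ) (sd ρ) u) (rg X (sP (nx ρ)) (sd (nx ρ)) v) lc
    ⌊yy (sP ρ) (sd ρ) (u + 1)⌋₊ ⌊8 * X / Y⌋₊ l Z
    (fun p hp => ⟨(mem_filter.1 hp).2, (mem_Ioc.1 (mem_filter.1 hp).1).2⟩) hrs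
    (rg_subset _ _ _ _) norm_lc_le l7 hZ
  refine (T2b.ana (bd_qv _ _ u) (bd_qv _ _ v) (bd_rv X _ _ v) (by linarith)
    (Real.rpow_pos_of_pos y3 _) l).trans ?_
  refine (mul_le_mul_of_nonneg_left hm (by positivity)).trans ?_
  refine le_trans ?_ (mul_le_mul_of_nonneg_left hn (by positivity))
  rw [mul_left_comm (72 * C * _)]
  refine mul_le_mul_of_nonneg_left ?_ (by positivity)
  have x0 : (0 : ℝ) ≤ X := Nat.cast_nonneg X
  have t1 : (1 : ℝ) ≤ 2 ^ l := one_le_pow₀ (by norm_num)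
  have w2 : (⌊yy (sP ρ) (sd ρ) (u + 1)⌋₊ : ℝ) ^ l * (⌊8 * X / Y⌋₊ : ℕ) ≤
      8 * (2 ^ l * (X * (Y' ^ l / Y))) := by
    refine (mul_le_mul (pow_le_pow_left₀ (by positivity) (show _ ≤ 2 * Y' by linarith) l)
      (Nat.floor_le (by positivity)) (by positivity) (by positivity)).trans_eq ?_
    rw [mul_pow]; ring
  have w3 : Z ≤ 2 ^ l * (X * (Y' ^ l / Y)) :=
    (hZX.trans (le_mul_of_one_le_right x0 w1)).trans (le_mul_of_one_le_left (by positivity) t1)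
  calc _ ≤ C * (9 * (2 ^ l * (X * (Y' ^ l / Y)))) * (8 * (2 ^ l * (X * (Y' ^ l / Y)))) *
        (3 * l : ℝ) ^ (2 * l) := by gcongr; linarith
    _ = _ := by
      rw [show (6 * l : ℝ) = 2 * (3 * l) by ring, mul_pow 2, pow_mul' 2]; ring

end Pool.Agent.P.PAR
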