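import Pool.Agent.P.MP_e94e4b_nt.PAR.IfE

/-! Step BK1. -/

namespace Pool.Agent.P.PAR

open Finset Real Filter Topology MeasureTheory
open Pool.Agent.P.MP_e86632_nt (ee ee_add norm_ee ee_neg ee_zero)
open Pool.Agent.P.MP_8be758_nt.Avg (gs nsq gs_pos gs_le_one gs_neg gs_anti)
open Pool.Agent.P.MP_e94e4b_nt.PF (sgm)
open Pool.Agent.P.E2
open ArithmeticFunction (cardFactors vonMangoldt)

namespace BK1b

theorem ivt (V : ℕ → Prop) {x y : ℕ} (h : x ≤ y) (h1 : ¬ (V x ↔ V y)) :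
    ∃ z, x ≤ z ∧ z < y ∧ ¬ (V z ↔ V (z + 1)) := by
  induction y, h using Nat.le_induction with
  | base => exact absurd Iff.rfl h1
  | succ y hy ih =>
    by_cases h2 : V x ↔ V y
    · exact ⟨y, hy, y.lt_succ_self, fun h3 => h1 (h2.trans h3)⟩
    · obtain ⟨z, a, b, c⟩ := ih h2
      exact ⟨z, a, by omega, c⟩

theorem img {Y Y' : ℕ} {g g' : ℕ → Prop} (f : ℕ → ℕ) {K : ℝ} (hK : 0 ≤ K)
    (h : ∀ b, 1 ≤ b → b ≤ Y → g b → ∃ z, 1 ≤ z ∧ z ≤ Y' ∧ g' z ∧ f z = b ∧ (z : ℝ) ≤ K * b) :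
    lm Y g ≤ K * lm Y' g' := by
  classical
  set T := (Icc 1 Y').filter fun z => g' z ∧ 1 ≤ f z ∧ (z : ℝ) ≤ K * f z
  refine (lm_le_sum (S := T.image f) fun b h1 h2 h3 => ?_).trans ?_
  · obtain ⟨z, a1, a2, a3, rfl, a5⟩ := h b h1 h2 h3
    exact mem_image_of_mem f (mem_filter.2 ⟨mem_Icc.2 ⟨a1, a2⟩, a3, h1, a5⟩)
  refine (sum_image_le_of_nonneg fun _ _ => by positivity).trans (le_trans ?_
    (mul_le_mul_of_nonneg_left (le_lm (S := T) fun z hz => ?_) hK))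
  · rw [mul_sum]
    refine sum_le_sum fun z hz => ?_
    obtain ⟨a1, -, a2, a3⟩ := mem_filter.1 hz
    have b1 : (0 : ℝ) < z := by exact_mod_cast (mem_Icc.1 a1).1
    have b2 : (0 : ℝ) < f z := by exact_mod_cast a2
    rw [mul_one_div, div_le_div_iff₀ b2 b1]; linarith
  · obtain ⟨a1, a2, -⟩ := mem_filter.1 hz
    exact ⟨(mem_Icc.1 a1).1, (mem_Icc.1 a1).2, a2⟩

theorem fib (V : ℕ → Prop) {Z q L : ℕ} (hq : 1 ≤ q) (hL : q ≤ L) :
    lm Z (fun m => L < m ∧ V m) ≤ 2 * lm Z fun b => ∃ m, V m ∧ q * m / L = b := by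
  classical
  have L0 : 0 < L := by omega
  rw [lm_eq, lm_eq, mul_sum, ← sum_fiberwise_of_maps_to (g := fun m => q * m / L)
    (t := (Icc 1 Z).filter fun b => ∃ m, V m ∧ q * m / L = b) fun m hm => ?_]
  · refine sum_le_sum fun b hb => ?_
    have b1 : 1 ≤ b := (mem_Icc.1 (mem_filter.1 hb).1).1
    have ex : ∃ x, b * L ≤ q * x := ⟨b * L, Nat.le_mul_of_pos_left _ hq⟩
    have b2 : (0 : ℝ) < b := by exact_mod_cast b1
    have b3 : (0 : ℝ) < L := by exact_mod_cast L0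
    have key : ∀ m, q * m / L = b → b * L ≤ q * m ∧ q * m < b * L + L := fun m hm =>
      ⟨hm ▸ Nat.div_mul_le_self _ _, by rw [← hm, mul_comm _ L]; exact Nat.lt_mul_div_succ _ L0⟩
    refine (sum_le_card_nsmul _ _ (q / (b * L) : ℝ) fun m hm => ?_).trans ?_
    · obtain ⟨a1, a2⟩ := mem_filter.1 hm
      have a3 : (0 : ℝ) < m := by exact_mod_cast (mem_Icc.1 (mem_filter.1 a1).1).1
      have a4 : (b : ℝ) * L ≤ q * m := by exact_mod_cast (key m a2).1
      rw [div_le_div_iff₀ a3 (by positivity)]; linarith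
    have sub : ((Icc 1 Z).filter fun m => L < m ∧ V m).filter (fun m => q * m / L = b) ⊆
        Icc (Nat.find ex) (Nat.find ex + L / q) := fun m hm => by
      obtain ⟨a1, a2⟩ := key m (mem_filter.1 hm).2
      have a3 := Nat.find_min' ex a1
      have a4 := Nat.find_spec ex
      obtain ⟨d, rfl⟩ := Nat.exists_eq_add_of_le a3
      refine mem_Icc.2 ⟨a3, Nat.add_le_add_left ((Nat.le_div_iff_mul_le hq).2 ?_) _⟩
      rw [mul_add, mul_comm q d] at a2
      omega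
    have c1 := card_le_card sub
    rw [Nat.card_Icc, add_assoc, Nat.add_sub_cancel_left] at c1
    have c2 := (Nat.mul_le_mul_right q c1).trans
      (show (L / q + 1) * q ≤ 2 * L by have := Nat.div_mul_le_self L q; rw [add_mul]; omega)
    have c3 := (Nat.cast_le (α := ℝ)).2 c2
    push_cast at c3
    rw [nsmul_eq_mul, ← mul_div_assoc, mul_one_div, div_le_div_iff₀ (by positivity) b2]
    nlinarith
  · obtain ⟨a1, a2, a3⟩ := mem_filter.1 hm
    refine mem_filter.2 ⟨mem_Icc.2 ⟨(Nat.le_div_iff_mul_le L0).2 ?_,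
      (Nat.div_le_of_le_mul (Nat.mul_le_mul_right m hL)).trans (mem_Icc.1 a1).2⟩, m, a3, rfl⟩
    have := Nat.mul_le_mul_right m hq
    omega

end BK1b

theorem q_BK1 :
    L_BK1 := by
  intro V c Z q L B hV hq hL
  have L0 : 0 < L := by omega
  have h1 := lm_le_add Z L V
  have h2 := BK1b.fib V (Z := Z) hq hL
  have h3 : lm Z (fun b => ∃ m, V m ∧ q * m / L = b) ≤
      lm Z (fun b => ∀ n, b * L ≤ n → n < (b + 2) * L → V (n / q)) +
      lm Z fun b => ∃ d ∈ range 3, ∃ z, ¬ (V z ↔ V (z + 1)) ∧ 1 ≤ z ∧ z ≤ 3 * L * b ∧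
        q * z / L + d - 1 = b := by
    refine le_trans (lm_mono fun b b1 _ hb => ?_) (lm_or_le _ _ _)
    obtain ⟨m, hm, hb⟩ := hb
    refine or_iff_not_imp_left.2 fun hn => ?_
    push Not at hn
    obtain ⟨n, n1, n2, n3⟩ := hn
    have m1 : b * L ≤ q * m := hb ▸ Nat.div_mul_le_self _ _
    have m2 : q * m < (b + 2) * L := by
      have := Nat.lt_mul_div_succ (q * m) L0
      rw [hb] at this
      nlinarith
    have m3 : q * (n / q) < (b + 2) * L := (Nat.mul_div_le n q).trans_lt n2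
    obtain ⟨z, z1, z2, z3⟩ : ∃ z, b * L / q ≤ z ∧ q * z < (b + 2) * L ∧ ¬ (V z ↔ V (z + 1)) := by
      rcases le_total m (n / q) with h | h
      · obtain ⟨z, a1, a2, a3⟩ := BK1b.ivt V h fun e => n3 (e.1 hm)
        exact ⟨z, (Nat.div_le_of_le_mul m1).trans a1, (Nat.mul_le_mul_left q a2.le).trans_lt m3, a3⟩
      · obtain ⟨z, a1, a2, a3⟩ := BK1b.ivt V h fun e => n3 (e.2 hm)
        exact ⟨z, (Nat.div_le_div_right n1).trans a1, (Nat.mul_le_mul_left q a2.le).trans_lt m2, a3⟩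
    have x1 : q * z / L < b + 2 := (Nat.div_lt_iff_lt_mul L0).2 z2
    have x2 : b - 1 ≤ q * z / L := by
      rw [Nat.le_div_iff_mul_le L0, Nat.sub_one_mul]
      have := (Nat.div_lt_iff_lt_mul hq).1 (Nat.lt_succ_of_le z1)
      rw [Nat.succ_mul, mul_comm z] at this
      omega
    have x3 : 1 ≤ z := le_trans ((Nat.le_div_iff_mul_le hq).2 (by nlinarith)) z1
    refine ⟨b + 1 - q * z / L, mem_range.2 (by omega), z, z3, x3, ?_, by omega⟩
    have := Nat.mul_le_mul_right z hq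
    nlinarith
  have h4 := lm_exists_le Z (range 3) fun d b => ∃ z, ¬ (V z ↔ V (z + 1)) ∧ 1 ≤ z ∧
    z ≤ 3 * L * b ∧ q * z / L + d - 1 = b
  have h5 : ∀ d ∈ range 3, lm Z (fun b => ∃ z, ¬ (V z ↔ V (z + 1)) ∧ 1 ≤ z ∧
      z ≤ 3 * L * b ∧ q * z / L + d - 1 = b) ≤ 3 * L * B := fun d _ => by
    refine (BK1b.img (Y' := 3 * L * Z) (fun z => q * z / L + d - 1) (K := 3 * L) (by positivity)
      fun b _ b2 hb => ?_).trans (mul_le_mul_of_nonneg_left (hV.bd _) (by positivity))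
    obtain ⟨z, a1, a2, a3, a4⟩ := hb
    exact ⟨z, a2, a3.trans (Nat.mul_le_mul_left _ b2), a1, a4, by exact_mod_cast a3⟩
  have h6 := sum_le_card_nsmul _ _ _ h5
  rw [card_range, nsmul_eq_mul] at h6
  have h7 := Real.log_natCast_nonneg L
  push_cast at h6
  linarith

end Pool.Agent.P.PAR
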