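import Pool.Agent.P.MP_e94e4b_nt.PAR.IfE

/-! Step BK2. -/

namespace Pool.Agent.P.PAR

open Finset Real Filter Topology MeasureTheory
open Pool.Agent.P.MP_e86632_nt (ee ee_add norm_ee ee_neg ee_zero)
open Pool.Agent.P.MP_8be758_nt.Avg (gs nsq gs_pos gs_le_one gs_neg gs_anti)
open Pool.Agent.P.MP_e94e4b_nt.PF (sgm)
open Pool.Agent.P.E2
open ArithmeticFunction (cardFactors vonMangoldt)

namespace BK2b

end BK2b

theorem q_BK2 (hBK1 : L_BK1) :
    L_BK2 := by
  classical
  intro δ B L hδ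
  filter_upwards [ev_log (1 + Real.log L + 9 * L * B + δ / 8) (c := δ / 8) (by positivity)]
    with Z hZ V a c P hV hP hp hm
  have hp' : (0 : ℝ) < (pq a P).card := by exact_mod_cast hp
  have h1 : ((pq a P).card : ℝ) * (δ / 2 * Real.log Z - (1 + Real.log L + 9 * L * B)) ≤
      ∑ q ∈ pq a P, lm Z fun b => ∀ n, b * L ≤ n → n < (b + 2) * L → V (n / q) := by
    rw [← nsmul_eq_mul]
    refine card_nsmul_le_sum _ _ _ fun q hq => ?_
    have h2 := (mem_pq.1 hq).1
    linarith [hBK1 V c Z q L B hV (by omega) (by omega)]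
  have h2 : (∑ q ∈ pq a P, lm Z fun b => ∀ n, b * L ≤ n → n < (b + 2) * L → V (n / q)) =
      ∑ b ∈ Icc 1 Z, ((cb V a P L b).card : ℝ) * (1 / b) := by
    simp only [lm_ite]
    rw [sum_comm]
    refine sum_congr rfl fun b _ => ?_
    rw [← sum_filter, sum_const, nsmul_eq_mul]
    congr 3
  have h3 : ∑ b ∈ Icc 1 Z, ((cb V a P L b).card : ℝ) * (1 / b) ≤
      (pq a P).card * lm Z (fun b => δ / 8 * (pq a P).card ≤ (cb V a P L b).card) +
        δ / 8 * (pq a P).card * ∑ b ∈ Icc 1 Z, 1 / (b : ℝ) := by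
    rw [lm_ite, mul_sum, mul_sum, ← sum_add_distrib]
    refine sum_le_sum fun b _ => ?_
    have h4 : (0 : ℝ) ≤ 1 / b := by positivity
    have h5 : ((cb V a P L b).card : ℝ) ≤ (pq a P).card := by
      exact_mod_cast card_le_card (cb_subset V a P L b)
    split_ifs with h
    · exact le_add_of_le_of_nonneg (mul_le_mul_of_nonneg_right h5 h4) (by positivity)
    · rw [mul_zero, zero_add]
      exact mul_le_mul_of_nonneg_right (not_le.1 h).le h4
  have h4 := mul_le_mul_of_nonneg_left (harm_le Z)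
    (show 0 ≤ δ / 8 * ((pq a P).card : ℝ) by positivity)
  refine le_of_mul_le_mul_left ?_ hp'
  nlinarith [mul_le_mul_of_nonneg_left hZ hp'.le]

end Pool.Agent.P.PAR
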