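import Pool.Agent.P.MP_e94e4b_nt.PAR.IfE

/-! Step BS. -/

namespace Pool.Agent.P.PAR

open Finset Real Filter Topology MeasureTheory
open Pool.Agent.P.MP_e86632_nt (ee ee_add norm_ee ee_neg ee_zero)
open Pool.Agent.P.MP_8be758_nt.Avg (gs nsq gs_pos gs_le_one gs_neg gs_anti)
open Pool.Agent.P.MP_e94e4b_nt.PF (sgm)
open Pool.Agent.P.E2
open ArithmeticFunction (cardFactors vonMangoldt)

namespace BSb

end BSb

theorem q_BS :
    L_BS := by
  classical
  intro R L Z hL
  set T := (Icc 1 Z ×ˢ range L).filter fun x : ℕ × ℕ => R (x.1 * L + x.2) with hT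
  have mem : ∀ x ∈ T, (1 ≤ x.1 ∧ x.1 ≤ Z) ∧ x.2 < L ∧ R (x.1 * L + x.2) := fun x hx => by
    simpa only [hT, mem_filter, mem_product, mem_Icc, mem_range, and_assoc] using hx
  have inj : Set.InjOn (fun x : ℕ × ℕ => x.1 * L + x.2) T := fun x hx y hy e => by
    have a := (mem x hx).2.1
    have b := (mem y hy).2.1
    have e' : x.1 * L + x.2 = y.1 * L + y.2 := e
    have c : (x.1 * L + x.2) % L = (y.1 * L + y.2) % L := by rw [e']
    rw [Nat.mul_add_mod_self_right, Nat.mul_add_mod_self_right, Nat.mod_eq_of_lt a,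
      Nat.mod_eq_of_lt b] at c
    exact Prod.ext (Nat.eq_of_mul_eq_mul_right hL (by omega)) c
  have h1 := le_lm (Y := (Z + 1) * L) (g := R) (S := T.image fun x => x.1 * L + x.2) fun n hn => by
    obtain ⟨x, hx, rfl⟩ := mem_image.1 hn
    obtain ⟨⟨a, b⟩, c, d⟩ := mem x hx
    have := Nat.mul_le_mul_right L a
    have := Nat.mul_le_mul_right L b
    exact ⟨by omega, by rw [add_mul]; omega, d⟩
  rw [sum_image inj] at h1
  refine le_trans ?_ (mul_le_mul_of_nonneg_left h1 zero_le_two)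
  have h2 : ∑ b ∈ Icc 1 Z, 1 / (b : ℝ) * fq L (fun i => R (b * L + i)) =
      ∑ x ∈ T, 1 / ((x.1 : ℝ) * L) := by
    rw [hT, sum_filter, sum_product]
    refine sum_congr rfl fun b _ => ?_
    rw [fq_eq, ← sum_filter]
    simp only [sum_const, nsmul_eq_mul]
    ring
  rw [h2, mul_sum]
  refine sum_le_sum fun x hx => ?_
  obtain ⟨⟨a, -⟩, c, -⟩ := mem x hx
  have a' : (1 : ℝ) ≤ x.1 := by exact_mod_cast a
  have c' : (x.2 : ℝ) ≤ L := by exact_mod_cast c.le
  have l : (1 : ℝ) ≤ L := by exact_mod_cast hL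
  have := Nat.cast_nonneg (α := ℝ) x.2
  push_cast
  rw [mul_one_div, div_le_div_iff₀ (by positivity) (by positivity)]
  nlinarith

end Pool.Agent.P.PAR
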