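import Pool.Agent.P.MP_e94e4b_nt.PAR.IfM

/-! Step CH. -/

namespace Pool.Agent.P.PAR

open Finset Real Filter Topology MeasureTheory
open Pool.Agent.P.MP_e86632_nt (ee ee_add norm_ee ee_neg ee_zero)
open Pool.Agent.P.MP_8be758_nt.Avg (gs nsq gs_pos gs_le_one gs_neg gs_anti)
open Pool.Agent.P.MP_e94e4b_nt.PF (sgm)
open Pool.Agent.P.E2
open ArithmeticFunction (cardFactors vonMangoldt)

theorem q_CH (hSG : L_SG) (hST1 : L_ST1) (hST2 : L_ST2) (hLD1 : L_LD1) :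
    L_CH := by
  intro α ε b hα hε
  obtain ⟨C1, c1, h1⟩ := hST1
  obtain ⟨C2, c2, h2⟩ := hST2
  obtain ⟨R, hR⟩ := eventually_atTop.1 ((show ∀ᶠ ρ : ℝ in atTop, Sg ρ from hSG).and h2)
  set a := min α (1 / 2) / 2 with ha
  have a0 : 0 < a := half_pos (lt_min hα (by norm_num))
  have a1 : 2 * a ≤ α := by linarith [min_le_left α (1 / 2)]
  have a2 : 2 * a ≤ 1 / 2 := by linarith [min_le_right α (1 / 2)]
  obtain ⟨ρ, k1, k2, k3, k4, k5, k6⟩ := ((h1 a a0).and ((eventually_ge_atTop R).and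
    ((eventually_ge_atTop 12).and
    (((tendsto_pow_atTop (α := ℝ) three_ne_zero).eventually_ge_atTop (2 / a)).and
    ((Real.tendsto_log_atTop.eventually_ge_atTop (2 * C1 / ε)).and
    ((tendsto_pow_atTop (α := ℝ) two_ne_zero).eventually_ge_atTop (24 * C2 / ε))))))).exists
  obtain ⟨l1, l2, l3⟩ := hLD1 ρ b k3
  have r0 : 0 < ρ := by linarith
  refine ⟨Real.exp (2 * ρ ^ 12), Real.one_le_exp (by positivity), ?_⟩
  filter_upwards [l3, eventually_ge_atTop 2] with r ⟨J, j1, j2⟩ hr X hX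
  have m0 : ∀ j, ρ ≤ nx^[j] ρ := fun j => l2 (Nat.zero_le j)
  have m1 : ∀ j ≤ J, 2 * (nx^[j] ρ) ^ 12 ≤ r := fun j hj =>
    le_trans (by linarith [pow_le_pow_left₀ (r0.le.trans (m0 j)) (l2 hj) 12]) j2
  have m2 : 3 * r ≤ r ^ 13 := by
    have := pow_le_pow_left₀ (by norm_num) hr 12
    rw [pow_succ]; nlinarith
  have m3 : ∀ j ≤ J, Real.exp (5 * (nx^[j] ρ) ^ 12) ≤ X := fun j hj => by
    rw [hX]; exact Real.exp_le_exp.2 (by linarith [m1 j hj])
  have e0 := Real.exp_pos (2 * ρ ^ 12)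
  have z1 : 1 ≤ X / Real.exp (2 * ρ ^ 12) := by
    rw [le_div_iff₀ e0, one_mul, hX]
    exact Real.exp_le_exp.2 (by linarith [show 2 * ρ ^ 12 ≤ r from m1 0 J.zero_le])
  have z2 : X / Real.exp (2 * ρ ^ 12) ≤ X :=
    div_le_self X.cast_nonneg (Real.one_le_exp (by positivity))
  have s0 : ∀ j, 0 ≤ ∑ i ∈ range j, 1 / (nx^[i] ρ) ^ 3 := fun j =>
    sum_nonneg fun i _ => by have := r0.trans_le (m0 i); positivity
  have s1 : ∀ j, ∑ i ∈ range j, 1 / (nx^[i] ρ) ^ 3 ≤ a := fun j => (l1 j).1.trans (by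
    rw [div_le_iff₀ (by positivity)]; rw [div_le_iff₀ a0] at k4; linarith)
  have main : ∀ j ≤ J, mq X (X / Real.exp (2 * ρ ^ 12))
      (bad (nx^[j] ρ) (a + ∑ i ∈ range j, 1 / (nx^[i] ρ) ^ 3))ᶜ ≤
      C1 * X ^ 2 / Real.log ρ + C2 * X ^ 2 * ∑ i ∈ range j, 1 / Real.log (nx^[i + 1] ρ) := by
    intro j
    induction j with
    | zero =>
      intro _
      simpa using k1 a _ X le_rfl (m3 0 J.zero_le) z1 (div_mul_cancel₀ _ e0.ne').le
    | succ j ih =>
      intro hj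
      have u := (hR _ (k2.trans (m0 j))).2 (a + ∑ i ∈ range j, 1 / (nx^[i] ρ) ^ 3) _ X
        (by linarith [s0 j]) (by linarith [s1 j])
        (by simpa only [Function.iterate_succ_apply'] using m3 _ hj) z1 z2
      rw [sum_range_succ, sum_range_succ, mul_add, ← add_assoc, ← add_assoc, mul_one_div,
        Function.iterate_succ_apply']
      refine le_trans ((mq_mono X (by linarith) fun t ht => ?_).trans
        (mq_union X (by linarith) (meas_bad _ _).compl)) (add_le_add (ih (by omega)) u)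
      by_cases h : t ∈ bad (nx^[j] ρ) (a + ∑ i ∈ range j, 1 / (nx^[i] ρ) ^ 3)
      exacts [Or.inr ⟨h, ht⟩, Or.inl h]
  refine ⟨_, _, (hR _ (k2.trans (m0 J))).1, j1, j2, by linarith [s1 J], (main J le_rfl).trans ?_⟩
  have g0 : 0 < Real.log ρ := Real.log_pos (by linarith)
  have g1 : C1 / Real.log ρ ≤ ε / 2 := by
    rw [div_le_iff₀ g0]; rw [div_le_iff₀ hε] at k5; linarith
  have g2 : C2 * (12 / ρ ^ 2) ≤ ε / 2 := by
    rw [← mul_div_assoc, div_le_iff₀ (by positivity)]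
    rw [div_le_iff₀ hε] at k6; linarith
  have g3 := mul_le_mul_of_nonneg_left (l1 J).2 c2.le
  have g4 : (0 : ℝ) ≤ X ^ 2 := by positivity
  have g5 := mul_le_mul_of_nonneg_right g1 g4
  have g6 := mul_le_mul_of_nonneg_right (g3.trans g2) g4
  calc _ = C1 / Real.log ρ * X ^ 2 + (C2 * ∑ i ∈ range J, 1 / Real.log (nx^[i + 1] ρ)) * X ^ 2 := by
        ring
    _ ≤ _ := by linarith

end Pool.Agent.P.PAR
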