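import Pool.Agent.P.MP_e94e4b_nt.PAR.IfE

/-! Step CHER. -/

namespace Pool.Agent.P.PAR

open Finset Real Filter Topology MeasureTheory
open Pool.Agent.P.MP_e86632_nt (ee ee_add norm_ee ee_neg ee_zero)
open Pool.Agent.P.MP_8be758_nt.Avg (gs nsq gs_pos gs_le_one gs_neg gs_anti)
open Pool.Agent.P.MP_e94e4b_nt.PF (sgm)
open Pool.Agent.P.E2
open ArithmeticFunction (cardFactors vonMangoldt)

namespace CHERb

theorem exp_le {y : ℝ} (h0 : 0 ≤ y) (h1 : y ≤ 1 / 2) : Real.exp (-y) ≤ 1 - 3 / 4 * y := by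
  have h2 := Real.quadratic_le_exp_of_nonneg h0
  have h3 : 0 < 1 + y + y ^ 2 / 2 := by positivity
  rw [Real.exp_neg]
  refine (inv_anti₀ h3 h2).trans ?_
  rw [inv_eq_one_div, div_le_iff₀ h3]
  nlinarith [mul_nonneg h0 h0, mul_nonneg (mul_nonneg h0 h0) (sub_nonneg.2 h1),
    mul_nonneg h0 (sub_nonneg.2 h1)]

theorem one (q : ℕ) (hq : 0 < q) (g : ℕ → ℝ) {R : ℝ} (hR : 0 < R)
    (hg : ∀ y, 0 ≤ g y ∧ g y ≤ R) :
    ∑ y ∈ range q, Real.exp (-(g y / (2 * R))) ≤
      q * Real.exp (-(3 / (8 * R) * ((∑ y ∈ range q, g y) / q))) := by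
  have hq' : (0 : ℝ) < q := by exact_mod_cast hq
  have h1 : ∑ y ∈ range q, Real.exp (-(g y / (2 * R))) ≤
      ∑ y ∈ range q, (1 - 3 / (8 * R) * g y) := by
    refine sum_le_sum fun y _ => (exp_le (div_nonneg (hg y).1 (by positivity)) ?_).trans_eq ?_
    · rw [div_le_div_iff₀ (by positivity) (by norm_num)]
      linarith [(hg y).2]
    · field_simp
      ring
  refine h1.trans ?_
  rw [sum_sub_distrib, ← mul_sum, sum_const, card_range, nsmul_eq_mul, mul_one]
  have h2 := Real.add_one_le_exp (-(3 / (8 * R) * ((∑ y ∈ range q, g y) / q)))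
  refine le_trans (le_of_eq ?_) (mul_le_mul_of_nonneg_left h2 hq'.le)
  field_simp
  ring

end CHERb

theorem q_CHER (hCRT : L_CRT) :
    L_CHER := by
  intro S f R w hS hR hw hf h2
  have h1 : (((range (∏ q ∈ S, q)).filter fun y => ∑ q ∈ S, f q y ≤ w).card : ℝ) ≤
      ∑ y ∈ range (∏ q ∈ S, q),
        Real.exp (w / (2 * R)) * ∏ q ∈ S, Real.exp (-(f q y / (2 * R))) := by
    rw [card_eq_sum_ones, Nat.cast_sum]
    refine le_trans (sum_le_sum fun y hy => ?_)
      (sum_le_sum_of_subset_of_nonneg (filter_subset _ _) fun y _ _ => by positivity)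
    rw [← Real.exp_sum, ← Real.exp_add, Nat.cast_one]
    refine Real.one_le_exp ?_
    rw [sum_neg_distrib, ← sum_div, ← sub_eq_add_neg, ← sub_div]
    exact div_nonneg (sub_nonneg.2 (mem_filter.1 hy).2) (by positivity)
  refine h1.trans ?_
  rw [← mul_sum, hCRT S (fun q y => Real.exp (-(f q y / (2 * R)))) hS
    (fun q hq y => by simp only [(hf q hq y).1])]
  have h3 : ∏ q ∈ S, ∑ y ∈ range q, Real.exp (-(f q y / (2 * R))) ≤
      ∏ q ∈ S, (q : ℝ) * Real.exp (-(3 / (8 * R) * ((∑ y ∈ range q, f q y) / q))) :=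
    prod_le_prod (fun q _ => sum_nonneg fun y _ => (Real.exp_pos _).le) fun q hq =>
      CHERb.one q (hS q hq).pos (f q) hR fun y => (hf q hq y).2
  refine (mul_le_mul_of_nonneg_left h3 (Real.exp_pos _).le).trans ?_
  rw [prod_mul_distrib, ← Real.exp_sum, Nat.cast_prod, mul_comm (∏ q ∈ S, (q : ℝ)), ← mul_assoc,
    ← Real.exp_add]
  refine mul_le_mul_of_nonneg_right (Real.exp_le_exp.2 ?_) (by positivity)
  rw [sum_neg_distrib, ← mul_sum]
  have h4 := mul_le_mul_of_nonneg_left h2 (show 0 ≤ 3 / (8 * R) by positivity)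
  have h5 : w / (2 * R) - 3 / (8 * R) * (2 * w) = -(w / (4 * R)) := by
    field_simp
    ring
  linarith

end Pool.Agent.P.PAR
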