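import Pool.Agent.P.MP_e94e4b_nt.PAR.IfE

/-! Step CHN. -/

namespace Pool.Agent.P.PAR

open Finset Real Filter Topology MeasureTheory
open Pool.Agent.P.MP_e86632_nt (ee ee_add norm_ee ee_neg ee_zero)
open Pool.Agent.P.MP_8be758_nt.Avg (gs nsq gs_pos gs_le_one gs_neg gs_anti)
open Pool.Agent.P.MP_e94e4b_nt.PF (sgm)
open Pool.Agent.P.E2
open ArithmeticFunction (cardFactors vonMangoldt)

namespace CHNb

theorem shift_card (S T : Finset ℕ) (u v : ℕ) (h : ∀ i ∈ S, v ≤ i + u ∧ i + u - v ∈ T) :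
    S.card ≤ T.card := by
  refine card_le_card_of_injOn (fun i => i + u - v) (fun i hi => (h i hi).2) ?_
  intro i hi j hj hij
  have h1 := (h i hi).1
  have h2 := (h j hj).1
  simp only at hij
  omega

theorem core (x : ℕ → BB) (K E1 E2 E3 E4 g : ℕ) (h1 : E1 ≤ 2 * K) (h2 : E2 ≤ 2 * K)
    (h3 : E3 ≤ 2 * K) (h : E2 + E4 = E1 + E3 + g) :
    ((Ico (4 * K) (6 * K)).filter fun i => (x i).1 ≠ (x (i + g)).1).card ≤
      ((range (8 * K)).filter fun j => (x (j + E1)).1 ≠ (x j).2).card +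
      ((range (8 * K)).filter fun j => (x (j + E2)).1 ≠ (x j).2).card +
      ((range (8 * K)).filter fun j => (x (j + E3)).1 ≠ (x j).2).card +
      ((range (8 * K)).filter fun j => (x (j + E4)).1 ≠ (x j).2).card := by
  classical
  set I := Ico (4 * K) (6 * K) with hI
  let A : ℕ → ℕ → ℕ → Finset ℕ := fun E u v =>
    I.filter fun i => (x (i + u - v + E)).1 ≠ (x (i + u - v)).2
  have hA : ∀ E u v : ℕ, u ≤ 2 * K → v ≤ 4 * K → (A E u v).card ≤
      ((range (8 * K)).filter fun j => (x (j + E)).1 ≠ (x j).2).card := by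
    intro E u v hu hv
    refine shift_card _ _ u v ?_
    intro i hi
    simp only [A, hI, mem_filter, mem_Ico] at hi
    refine ⟨by omega, mem_filter.2 ⟨mem_range.2 (by omega), hi.2⟩⟩
  have hsub : (I.filter fun i => (x i).1 ≠ (x (i + g)).1) ⊆
      A E1 0 E1 ∪ A E2 0 E1 ∪ A E3 E2 (E1 + E3) ∪ A E4 E2 (E1 + E3) := by
    intro i hi
    have hiI := (mem_filter.1 hi).1
    have hne := (mem_filter.1 hi).2
    have hb := mem_Ico.1 (hI ▸ hiI)
    have e1 : i + 0 - E1 + E1 = i := by omega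
    have e3 : i + E2 - (E1 + E3) + E3 = i + 0 - E1 + E2 := by omega
    have e4 : i + E2 - (E1 + E3) + E4 = i + g := by omega
    simp only [A, mem_union, mem_filter, hiI, true_and, e1, e3, e4]
    by_contra hc
    simp only [not_or, not_not] at hc
    obtain ⟨⟨⟨c1, c2⟩, c3⟩, c4⟩ := hc
    exact hne (c1.trans (c2.symm.trans (c3.trans c4.symm)))
  have k1 := hA E1 0 E1 (by omega) (by omega)
  have k2 := hA E2 0 E1 (by omega) (by omega)
  have k3 := hA E3 E2 (E1 + E3) h2 (by omega)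
  have k4 := hA E4 E2 (E1 + E3) h2 (by omega)
  have u1 := card_union_le (A E1 0 E1 ∪ A E2 0 E1 ∪ A E3 E2 (E1 + E3)) (A E4 E2 (E1 + E3))
  have u2 := card_union_le (A E1 0 E1 ∪ A E2 0 E1) (A E3 E2 (E1 + E3))
  have u3 := card_union_le (A E1 0 E1) (A E2 0 E1)
  have u0 := card_le_card hsub
  omega

end CHNb

theorem q_CHN :
    L_CHN := by
  intro a c P q1 q2 q3 q4 d x h1 h2 h3 h
  have m1 := Nat.mul_le_mul_left c h1
  have m2 := Nat.mul_le_mul_left c h2
  have m3 := Nat.mul_le_mul_left c h3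
  have m4 : c * eh a q2 + c * eh a q4 = c * eh a q1 + c * eh a q3 + c * d := by
    rw [← Nat.mul_add, h, Nat.mul_add, Nat.mul_add]
  have r : c * (2 * P) = 2 * (c * P) := by ring
  rw [r] at m1 m2 m3
  have := CHNb.core x (c * P) _ _ _ _ _ m1 m2 m3 m4
  unfold chg dis
  simp only [mul_assoc]
  exact this

end Pool.Agent.P.PAR
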