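import Pool.Agent.P.MP_e94e4b_nt.PAR.IfE

/-! Step CNT. -/

namespace Pool.Agent.P.PAR

open Finset Real Filter Topology MeasureTheory
open Pool.Agent.P.MP_e86632_nt (ee ee_add norm_ee ee_neg ee_zero)
open Pool.Agent.P.MP_8be758_nt.Avg (gs nsq gs_pos gs_le_one gs_neg gs_anti)
open Pool.Agent.P.MP_e94e4b_nt.PF (sgm)
open Pool.Agent.P.E2
open ArithmeticFunction (cardFactors vonMangoldt)

namespace CNTb

theorem pt (A B s t : ℕ) (hs : s < 2) (ht : t < 2) :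
    4 * (if cardFactors A % 2 = s ∧ cardFactors B % 2 = t then (1 : ℝ) else 0) =
      2 * (if (par A == par B) ≠ decide (s ≠ t) then 1 else 0) +
        (-1) ^ s * lam A + (-1) ^ t * lam B := by
  have hA := par_iff_mod (n := A)
  have hB := par_iff_mod (n := B)
  rw [lam_par, lam_par]
  rcases Nat.mod_two_eq_zero_or_one (cardFactors A) with h1 | h1 <;>
  rcases Nat.mod_two_eq_zero_or_one (cardFactors B) with h2 | h2 <;>
  interval_cases s <;> interval_cases t <;> simp [h1, h2] at hA hB ⊢ <;> simp [hA, hB] <;> norm_num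

theorem sg (s : ℕ) (x y : ℝ) (h : |x| ≤ y) : -y ≤ (-1) ^ s * x := by
  have : |(-1) ^ s * x| ≤ y := by rwa [abs_mul, abs_pow, abs_neg, abs_one, one_pow, one_mul]
  exact (abs_le.1 this).1

theorem cut {a b c : ℕ} (h1 : a ≤ b) (h2 : b ≤ c) :
    |∑ n ∈ Ioc b c, lam n| ≤ |∑ n ∈ Ioc a c, lam n| + (b - a : ℕ) ∧
    |∑ n ∈ Ioc a b, lam n| ≤ |∑ n ∈ Ioc a c, lam n| + (c - b : ℕ) := by
  have e := sum_Ioc_consecutive lam h1 h2
  have g1 := abs_sum_lam_le (Ioc a b)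
  have g2 := abs_sum_lam_le (Ioc b c)
  rw [Nat.card_Ioc] at g1 g2
  rw [← e]
  constructor
  · have := abs_sub (∑ n ∈ Ioc a b, lam n + ∑ n ∈ Ioc b c, lam n) (∑ n ∈ Ioc a b, lam n)
    rw [add_sub_cancel_left] at this
    linarith
  · have := abs_sub (∑ n ∈ Ioc a b, lam n + ∑ n ∈ Ioc b c, lam n) (∑ n ∈ Ioc b c, lam n)
    rw [add_sub_cancel_right] at this
    linarith

end CNTb

theorem q_CNT :
    L_CNT := by
  intro N s t hN hs ht
  have e : (N + 1) ^ 2 = N ^ 2 + 2 * N + 1 := by ring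
  have hA : ∑ k ∈ Icc 2 (2 * N), lam (N ^ 2 + k + 1) =
      ∑ n ∈ Ioc (N ^ 2 + 2) ((N + 1) ^ 2), lam n :=
    sum_nbij' (fun k => N ^ 2 + k + 1) (fun n => n - (N ^ 2 + 1))
      (fun k hk => by simp only [mem_Icc, mem_Ioc] at hk ⊢; omega)
      (fun k hk => by simp only [mem_Icc, mem_Ioc] at hk ⊢; omega)
      (fun k hk => by simp only [mem_Icc] at hk; omega)
      (fun k hk => by simp only [mem_Ioc] at hk; omega) fun _ _ => rfl
  have hB : ∑ k ∈ Icc 2 (2 * N), lam ((N + 1) ^ 2 - k) =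
      ∑ n ∈ Ioc (N ^ 2) ((N + 1) ^ 2 - 2), lam n :=
    sum_nbij' (fun k => (N + 1) ^ 2 - k) (fun n => (N + 1) ^ 2 - n)
      (fun k hk => by simp only [mem_Icc, mem_Ioc] at hk ⊢; omega)
      (fun k hk => by simp only [mem_Icc, mem_Ioc] at hk ⊢; omega)
      (fun k hk => by simp only [mem_Icc] at hk; omega)
      (fun k hk => by simp only [mem_Ioc] at hk; omega) fun _ _ => rfl
  have h1 := (CNTb.cut (a := N ^ 2) (b := N ^ 2 + 2) (c := (N + 1) ^ 2) (by omega) (by omega)).1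
  have h2 := (CNTb.cut (a := N ^ 2) (b := (N + 1) ^ 2 - 2) (c := (N + 1) ^ 2) (by omega)
    (by omega)).2
  rw [show N ^ 2 + 2 - N ^ 2 = 2 by omega, ← hA] at h1
  rw [show (N + 1) ^ 2 - ((N + 1) ^ 2 - 2) = 2 by omega, ← hB] at h2
  have h3 := sum_congr (rfl : Icc 2 (2 * N) = _) fun k _ =>
    CNTb.pt (N ^ 2 + k + 1) ((N + 1) ^ 2 - k) s t hs ht
  rw [sum_add_distrib, sum_add_distrib, ← mul_sum, ← mul_sum, ← mul_sum, ← mul_sum, sum_boole,
    sum_boole] at h3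
  have h4 := CNTb.sg s _ _ h1
  have h5 := CNTb.sg t _ _ h2
  rw [dd, cnt]
  push_cast at h4 h5
  linarith

end Pool.Agent.P.PAR
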