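import Pool.Agent.P.MP_e94e4b_nt.PAR.IfE

/-! Step CRT. -/

namespace Pool.Agent.P.PAR

open Finset Real Filter Topology MeasureTheory
open Pool.Agent.P.MP_e86632_nt (ee ee_add norm_ee ee_neg ee_zero)
open Pool.Agent.P.MP_8be758_nt.Avg (gs nsq gs_pos gs_le_one gs_neg gs_anti)
open Pool.Agent.P.MP_e94e4b_nt.PF (sgm)
open Pool.Agent.P.E2
open ArithmeticFunction (cardFactors vonMangoldt)

namespace CRTb

theorem crt_per (f : ℕ → ℝ) (q : ℕ) (h : ∀ y, f (y + q) = f y) (k y : ℕ) : f (y + q * k) = f y := by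
  induction k with
  | zero => simp
  | succ k ih => rw [Nat.mul_succ, ← add_assoc, h, ih]

theorem crt_mod (f : ℕ → ℝ) (q : ℕ) (h : ∀ y, f (y + q) = f y) (y : ℕ) : f (y % q) = f y := by
  conv_rhs => rw [← Nat.mod_add_div y q]
  rw [crt_per f q h]

theorem crt_two (f g : ℕ → ℝ) (m n : ℕ) (hm : 0 < m) (hn : 0 < n) (hc : m.Coprime n)
    (hf : ∀ y, f (y + m) = f y) (hg : ∀ y, g (y + n) = g y) :
    ∑ y ∈ range (m * n), f y * g y = (∑ y ∈ range m, f y) * ∑ y ∈ range n, g y := by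
  rw [sum_mul_sum, ← sum_product']
  refine sum_bij (fun y _ => (y % m, y % n)) (fun y _ => ?_) (fun y hy y' hy' h => ?_)
    (fun p hp => ?_) (fun y _ => by rw [crt_mod f m hf, crt_mod g n hg])
  · simp [Nat.mod_lt, hm, hn]
  · simp only [Prod.mk.injEq] at h
    exact Nat.ModEq.eq_of_lt_of_lt ((Nat.modEq_and_modEq_iff_modEq_mul hc).1 h)
      (mem_range.1 hy) (mem_range.1 hy')
  · simp only [mem_product, mem_range] at hp
    obtain ⟨k, h1, h2⟩ := Nat.chineseRemainder hc p.1 p.2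
    refine ⟨k % (m * n), mem_range.2 (Nat.mod_lt _ (by positivity)), Prod.ext ?_ ?_⟩
    · simp only [Nat.mod_mul_right_mod]
      rw [h1, Nat.mod_eq_of_lt hp.1]
    · simp only [Nat.mod_mul_left_mod]
      rw [h2, Nat.mod_eq_of_lt hp.2]

end CRTb

theorem q_CRT :
    L_CRT := by
  intro C g hC hg
  induction C using Finset.induction_on with
  | empty => simp
  | insert q C hq ih =>
    have hC' : ∀ p ∈ C, p.Prime := fun p hp => hC p (mem_insert_of_mem hp)
    have hqp := hC q (mem_insert_self _ _)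
    simp only [prod_insert hq]
    rw [← ih hC' fun p hp => hg p (mem_insert_of_mem hp)]
    refine CRTb.crt_two _ _ _ _ hqp.pos (prod_pos fun p hp => (hC' p hp).pos)
      (Nat.Coprime.prod_right fun p hp => (Nat.coprime_primes hqp (hC' p hp)).2
        fun h => hq (h ▸ hp)) (hg q (mem_insert_self _ _)) fun y => prod_congr rfl fun p hp => ?_
    obtain ⟨k, hk⟩ := dvd_prod_of_mem (fun p : ℕ => p) hp
    rw [hk, CRTb.crt_per _ _ (hg p (mem_insert_of_mem hp))]

end Pool.Agent.P.PAR
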