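import Pool.Agent.P.MP_e94e4b_nt.PAR.IfM

/-! Step CSN. -/

namespace Pool.Agent.P.PAR

open Finset Real Filter Topology MeasureTheory
open Pool.Agent.P.MP_e86632_nt (ee ee_add norm_ee ee_neg ee_zero)
open Pool.Agent.P.MP_8be758_nt.Avg (gs nsq gs_pos gs_le_one gs_neg gs_anti)
open Pool.Agent.P.MP_e94e4b_nt.PF (sgm)
open Pool.Agent.P.E2
open ArithmeticFunction (cardFactors vonMangoldt)

namespace CSNb

end CSNb

theorem q_CSN (hCS : S_CS) :
    L_CSN := by
  filter_upwards [eventually_ge_atTop 9, ev_pp 5 one_pos (show 2 < 14 by norm_num)]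
    with r h2 h3 G w v a b c d e f
  have h1 : 1 ≤ r := by linarith
  have w0 : 0 < w := (Real.exp_pos _).trans_le a
  have r0 : 0 < r := by linarith
  have u1 : 1 / r ^ 11 * r ^ 13 = r ^ 2 := by field_simp
  have u0 : 1 / r ^ 11 * r ^ 12 = r := by field_simp
  have u2 : 0 < 1 / r ^ 11 := by positivity
  have u3 := mul_le_mul_of_nonneg_left c u2.le
  have u4 := mul_le_mul_of_nonneg_left d u2.le
  refine (hCS G w v _ (2 * r ^ 7 / w) _ w0 (b.trans (Real.exp_le_one_iff.2 (by linarith)))
    (le_trans (by positivity) c) u2 (by rw [div_le_one (by positivity)]; exact one_le_pow₀ h1)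
    (by positivity) (Real.exp_pos _).le (fun s x y z => e s x y (z.trans_eq (by ring))) f).trans ?_
  have q1 : Real.exp (2 * r) / w ≤ Real.exp (10 * r) := by
    rw [div_le_iff₀ w0, show 2 * r = 10 * r + -(8 * r) by ring, Real.exp_add]
    gcongr
  have q2 : Real.exp ((1 - 1 / r ^ 11) * v) ≤ Real.exp (v - 19 * r - 9) :=
    Real.exp_le_exp.2 (by linarith)
  have q3 : Real.exp ((1 + 1 / r ^ 11) * v) * gs (w * (2 * r ^ 7 / w) / 2) ≤
      Real.exp (v - 19 * r - 9) := by
    refine (mul_le_mul_of_nonneg_left (gs_le_exp (W := r ^ 7) (by positivity)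
      (le_trans (le_of_eq (by field_simp)) (le_abs_self _))) (Real.exp_pos _).le).trans ?_
    rw [← Real.exp_add]
    exact Real.exp_le_exp.2 (by nlinarith)
  have q4 : Real.exp (v - 9 * r) = Real.exp (10 * r) * (Real.exp 9 * Real.exp (v - 19 * r - 9)) := by
    rw [← Real.exp_add, ← Real.exp_add]
    congr 1
    ring
  have q5 := gs_pos (w * (2 * r ^ 7 / w) / 2)
  rw [q4]
  refine mul_le_mul q1 ?_ (by positivity) (by positivity)
  nlinarith [Real.add_one_le_exp 9, Real.exp_pos (v - 19 * r - 9)]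

end Pool.Agent.P.PAR
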