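import Pool.Agent.P.MP_e94e4b_nt.PAR.IfM

/-! Step CV. -/

namespace Pool.Agent.P.PAR

open Finset Real Filter Topology MeasureTheory
open Pool.Agent.P.MP_e86632_nt (ee ee_add norm_ee ee_neg ee_zero)
open Pool.Agent.P.MP_8be758_nt.Avg (gs nsq gs_pos gs_le_one gs_neg gs_anti)
open Pool.Agent.P.MP_e94e4b_nt.PF (sgm)
open Pool.Agent.P.E2
open ArithmeticFunction (cardFactors vonMangoldt)

namespace CVb

theorem om_div (S : Finset ℕ) {p n : ℕ} (h : p ∣ n) : om S (n / p) ≤ om S n := by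
  unfold om
  refine Nat.cast_le.2 (card_le_card fun q hq => ?_)
  rw [mem_filter] at hq ⊢
  exact ⟨hq.1, hq.2.trans (Nat.div_dvd_of_dvd h)⟩

theorem one (c : ℕ → ℂ) {p Y M : ℕ} (h1 : 1 ≤ p) (h2 : p ≤ Y) (t : ℝ) :
    nit t p * dq (Icc 1 M) c t =
      ∑ n ∈ Icc 1 (Y * M), (if p ∣ n ∧ n / p ∈ Icc 1 M then c (n / p) else 0) * nit t n := by
  simp only [ite_mul, zero_mul]
  rw [← sum_filter, dq, mul_sum]
  refine sum_bij (fun m _ => p * m) (fun m hm => ?_) (fun a _ b _ e => ?_) (fun n hn => ?_)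
    fun m hm => ?_
  · have := mem_Icc.1 hm
    refine mem_filter.2 ⟨mem_Icc.2 ⟨Nat.mul_pos h1 this.1, Nat.mul_le_mul h2 this.2⟩,
      dvd_mul_right _ _, ?_⟩
    rwa [Nat.mul_div_cancel_left _ h1]
  · exact Nat.eq_of_mul_eq_mul_left h1 e
  · have := (mem_filter.1 hn).2
    exact ⟨n / p, this.2, Nat.mul_div_cancel' this.1⟩
  · have := mem_Icc.1 hm
    rw [Nat.mul_div_cancel_left _ h1, nit_mul t (by omega) (by omega)]
    ring

end CVb

theorem q_CV :
    L_CV := by
  intro S I b Y N l hS hI hb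
  induction l with
  | zero =>
    refine ⟨fun n => if n ∈ I then b n else 0, fun n => ?_, fun t => ?_⟩
    · rw [pow_zero]
      dsimp only
      split_ifs
      exacts [hb n, by simp]
    · simp only [pow_zero, one_mul, dq, ite_mul, zero_mul]
      rw [← sum_filter, filter_mem_eq_inter, inter_eq_right.2 hI]
  | succ l ih =>
    obtain ⟨c, h1, h2⟩ := ih
    refine ⟨fun n => ∑ p ∈ S, if p ∣ n ∧ n / p ∈ Icc 1 (Y ^ l * N) then c (n / p) else 0,
      fun n => ?_, fun t => ?_⟩
    · rw [pow_succ', om_eq_sum S n, sum_mul, ← om_eq_sum]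
      refine (norm_sum_le _ _).trans (sum_le_sum fun p _ => ?_)
      by_cases e : p ∣ n
      · rw [if_pos e, one_mul]
        split_ifs
        · exact (h1 _).trans (pow_le_pow_left₀ (om_nonneg _ _) (CVb.om_div S e) l)
        · simpa using pow_nonneg (om_nonneg S n) l
      · simp [e]
    · rw [pow_succ', mul_assoc, h2, pow_succ', mul_assoc]
      conv_rhs => rw [dq]
      simp only [sum_mul]
      rw [sum_comm]
      conv_lhs => rw [dq, sum_mul]
      exact sum_congr rfl fun p hp => by rw [one_mul, CVb.one c (hS p hp).1 (hS p hp).2]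

end Pool.Agent.P.PAR
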