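import Pool.Agent.P.MP_e94e4b_nt.PAR.IfE

/-! Step CW2. -/

namespace Pool.Agent.P.PAR

open Finset Real Filter Topology MeasureTheory
open Pool.Agent.P.MP_e86632_nt (ee ee_add norm_ee ee_neg ee_zero)
open Pool.Agent.P.MP_8be758_nt.Avg (gs nsq gs_pos gs_le_one gs_neg gs_anti)
open Pool.Agent.P.MP_e94e4b_nt.PF (sgm)
open Pool.Agent.P.E2
open ArithmeticFunction (cardFactors vonMangoldt)

namespace CW2b

theorem basic {k u : ℕ} (hk : 3 ≤ k) (hu : 20 * k ^ 2 ≤ u) :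
    8 * k ≤ u ∧ 180 * u ≤ u ^ 2 ∧ 3 * u ^ 2 ≤ k * u ^ 2 := by
  have h1 : 3 * k ≤ k ^ 2 := by rw [pow_two]; exact Nat.mul_le_mul_right k hk
  have h2 : 180 ≤ u := by omega
  refine ⟨by omega, ?_, Nat.mul_le_mul_right _ hk⟩
  rw [pow_two]; exact Nat.mul_le_mul_right u h2

theorem cancel {k a b : ℕ} (hk : 3 ≤ k) (h : k * a ≤ k * b) : a ≤ b :=
  Nat.le_of_mul_le_mul_left h (by omega)

theorem bounds {k u m : ℕ} (hk : 3 ≤ k) (hu : 20 * k ^ 2 ≤ u) (hm : m ∈ iu k u) :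
    u ^ 2 ≤ 8 * m ∧ 2 * m ≤ u ^ 2 ∧ 2 * k ^ 2 < m := by
  obtain ⟨b1, b2, b3⟩ := basic hk hu
  obtain ⟨-, h1, h2⟩ := mem_iu.1 hm
  have e1 : k * (8 * m) = 2 * (k * (4 * m)) := by ring
  have e2 : k * (4 * m) = 2 * (k * (2 * m)) := by ring
  have c1 : u ^ 2 ≤ 8 * m := cancel hk (by omega)
  have c2 : 2 * m ≤ u ^ 2 := cancel hk (by omega)
  refine ⟨c1, c2, by omega⟩

theorem eq_Ioc {k u : ℕ} (hk : 3 ≤ k) (hu : 20 * k ^ 2 ≤ u) :
    iu k u = Ioc ((k * u ^ 2 - u - 1) / (4 * k)) ((k * u ^ 2 + u) / (4 * k)) := by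
  obtain ⟨b1, b2, b3⟩ := basic hk hu
  have hD : 0 < 4 * k := by omega
  ext m
  rw [mem_iu, mem_Ioc, Nat.div_lt_iff_lt_mul hD, Nat.le_div_iff_mul_le hD]
  have e1 : m * (4 * k) = k * (4 * m) := by ring
  have e2 : k * (4 * m) = 4 * (k * m) := by ring
  rw [e1]
  constructor
  · rintro ⟨-, h1, h2⟩
    constructor <;> omega
  · rintro ⟨h1, h2⟩
    refine ⟨cancel hk ?_, h2, ?_⟩ <;> omega

theorem ends {k u : ℕ} (hk : 3 ≤ k) (hu : 20 * k ^ 2 ≤ u) :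
    u ^ 2 ≤ 8 * ((k * u ^ 2 - u - 1) / (4 * k)) ∧
      4 * k * ((k * u ^ 2 - u - 1) / (4 * k)) + u ≤ 4 * k * ((k * u ^ 2 + u) / (4 * k)) := by
  obtain ⟨b1, b2, b3⟩ := basic hk hu
  have hD : 0 < 4 * k := by omega
  have a1 := Nat.div_add_mod (k * u ^ 2 - u - 1) (4 * k)
  have a2 := Nat.mod_lt (k * u ^ 2 - u - 1) hD
  have a3 := Nat.div_add_mod (k * u ^ 2 + u) (4 * k)
  have a4 := Nat.mod_lt (k * u ^ 2 + u) hD
  refine ⟨cancel hk ?_, by omega⟩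
  have e : k * (8 * ((k * u ^ 2 - u - 1) / (4 * k))) =
      2 * (4 * k * ((k * u ^ 2 - u - 1) / (4 * k))) := by ring
  omega

end CW2b

theorem q_CW2 :
    L_CW2 := by
  intro k u hk hu
  obtain ⟨b1, b2, b3⟩ := CW2b.basic hk hu
  obtain ⟨e1, e2⟩ := CW2b.ends hk hu
  have hI := CW2b.eq_Ioc hk hu
  generalize (k * u ^ 2 - u - 1) / (4 * k) = A at e1 e2 hI
  generalize (k * u ^ 2 + u) / (4 * k) = B at e2 hI
  have hAB : A ≤ B := Nat.le_of_mul_le_mul_left (show 4 * k * A ≤ 4 * k * B by omega) (by omega)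
  refine ⟨?_, fun m hm => CW2b.bounds hk hu hm, ?_, A, B, e1, hAB, hI⟩
  · rw [hI, Nat.card_Ioc, Nat.cast_sub hAB]
    have hk0 : (0 : ℝ) < 4 * k := by
      have : (3 : ℝ) ≤ k := by exact_mod_cast hk
      linarith
    rw [div_le_iff₀ hk0]
    have : ((4 * k * A + u : ℕ) : ℝ) ≤ ((4 * k * B : ℕ) : ℝ) := by exact_mod_cast e2
    push_cast at this
    linarith
  · intro u' hlt
    rw [Finset.disjoint_left]
    intro m h1 h2
    obtain ⟨-, p1, -⟩ := mem_iu.1 h1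
    obtain ⟨-, -, p2⟩ := mem_iu.1 h2
    obtain ⟨d, rfl⟩ := Nat.exists_eq_add_of_lt hlt
    have e : k * (u + d + 1) ^ 2 = k * u ^ 2 + k * (2 * u + 2 * d + 1) + k * (d * (2 * u + d)) := by
      ring
    have q : 3 * (2 * u + 2 * d + 1) ≤ k * (2 * u + 2 * d + 1) := Nat.mul_le_mul_right _ hk
    omega

end Pool.Agent.P.PAR
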