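import Pool.Agent.P.MP_e94e4b_nt.PAR.IfE

/-! Step CW3. -/

namespace Pool.Agent.P.PAR

open Finset Real Filter Topology MeasureTheory
open Pool.Agent.P.MP_e86632_nt (ee ee_add norm_ee ee_neg ee_zero)
open Pool.Agent.P.MP_8be758_nt.Avg (gs nsq gs_pos gs_le_one gs_neg gs_anti)
open Pool.Agent.P.MP_e94e4b_nt.PF (sgm)
open Pool.Agent.P.E2
open ArithmeticFunction (cardFactors vonMangoldt)

namespace CW3b

theorem lm_single (Y A u : ℕ) (hu : 1 ≤ u) (h : u ^ 2 ≤ 8 * A) :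
    lm Y (fun m => m = A) ≤ 8 * (1 / (u : ℝ) ^ 2) := by
  refine (lm_le_sum (S := {A}) fun n _ _ hn => mem_singleton.2 hn).trans ?_
  have h1 : (u : ℝ) ^ 2 ≤ 8 * A := by exact_mod_cast h
  have h2 : (0 : ℝ) < u := by exact_mod_cast hu
  have h3 : (0 : ℝ) < A := by nlinarith
  rw [sum_singleton, mul_one_div, div_le_div_iff₀ h3 (by positivity)]
  linarith

theorem sum_sq (Y : ℕ) : ∑ u ∈ Icc 1 Y, 1 / (u : ℝ) ^ 2 ≤ 2 := by
  rcases Nat.eq_zero_or_pos Y with rfl | hY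
  · simp
  have h1 := sum_Ioc_inv_sq_le_sub (α := ℝ) (k := 1) one_ne_zero hY
  have h2 : Icc 1 Y = insert 1 (Ioc 1 Y) := (Ioc_insert_left hY).symm
  rw [h2, sum_insert (by simp)]
  have h3 : (0 : ℝ) ≤ (Y : ℝ)⁻¹ := by positivity
  simp only [one_div]
  norm_num at h1 ⊢
  linarith

end CW3b

theorem q_CW3 (hCW2 : L_CW2) :
    L_CW3 := by
  intro k c Y g hk hc
  refine ⟨fun m ⟨u, h1, _, _, h4⟩ => ?_, fun m ⟨u, h1, h2, _, h4⟩ => ?_, fun Z => ?_⟩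
  · have := ((hCW2 k u hk h1).2.1 m h4).2.2
    omega
  · exact (mem_iu.1 h4).1.trans (Nat.pow_le_pow_left h2 2)
  have hex : ∀ u : ℕ, ∃ A B : ℕ, 20 * k ^ 2 ≤ u → u ^ 2 ≤ 8 * A ∧ A ≤ B ∧ iu k u = Ioc A B := by
    intro u
    by_cases hu : 20 * k ^ 2 ≤ u
    · obtain ⟨A, B, h⟩ := (hCW2 k u hk hu).2.2.2
      exact ⟨A, B, fun _ => h⟩
    · exact ⟨0, 0, fun h => absurd h hu⟩
  choose A B hAB using hex
  have hk9 : 1 ≤ 20 * k ^ 2 := by nlinarith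
  calc _ ≤ lm Z (fun m => ∃ u ∈ (Icc 1 Y).filter (fun u => 20 * k ^ 2 ≤ u),
        (m = A u ∨ m = B u)) := by
        refine lm_mono fun m _ _ hm => ?_
        by_cases h0 : Vu k Y g m
        · obtain ⟨u, h1, h2, h3, h4⟩ := id h0
          refine ⟨u, mem_filter.2 ⟨mem_Icc.2 ⟨hk9.trans h1, h2⟩, h1⟩, Or.inr ?_⟩
          by_contra hne
          refine hm ⟨fun _ => ⟨u, h1, h2, h3, ?_⟩, fun _ => h0⟩
          rw [(hAB u h1).2.2, mem_Ioc] at h4 ⊢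
          omega
        · have h1 : Vu k Y g (m + 1) := by
            by_contra h1
            exact hm ⟨fun h => absurd h h0, fun h => absurd h h1⟩
          obtain ⟨u, h1, h2, h3, h4⟩ := h1
          refine ⟨u, mem_filter.2 ⟨mem_Icc.2 ⟨hk9.trans h1, h2⟩, h1⟩, Or.inl ?_⟩
          by_contra hne
          refine h0 ⟨u, h1, h2, h3, ?_⟩
          rw [(hAB u h1).2.2, mem_Ioc] at h4 ⊢
          omega
    _ ≤ ∑ u ∈ (Icc 1 Y).filter (fun u => 20 * k ^ 2 ≤ u),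
        lm Z (fun m => m = A u ∨ m = B u) := lm_exists_le _ _ _
    _ ≤ ∑ u ∈ (Icc 1 Y).filter (fun u => 20 * k ^ 2 ≤ u), 16 * (1 / (u : ℝ) ^ 2) := by
        refine sum_le_sum fun u hu => ?_
        obtain ⟨h1, h2⟩ := mem_filter.1 hu
        obtain ⟨h3, h4, -⟩ := hAB u h2
        have h5 := CW3b.lm_single Z (A u) u (mem_Icc.1 h1).1 h3
        have h6 := CW3b.lm_single Z (B u) u (mem_Icc.1 h1).1 (by omega)
        linarith [lm_or_le Z (fun m => m = A u) (fun m => m = B u)]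
    _ ≤ ∑ u ∈ Icc 1 Y, 16 * (1 / (u : ℝ) ^ 2) :=
        sum_le_sum_of_subset_of_nonneg (filter_subset _ _) fun _ _ _ => by positivity
    _ ≤ 32 := by
        rw [← mul_sum]
        linarith [CW3b.sum_sq Y]

end Pool.Agent.P.PAR
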