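import Pool.Agent.P.MP_e94e4b_nt.PAR.IfE

/-! Step CW4. -/

namespace Pool.Agent.P.PAR

open Finset Real Filter Topology MeasureTheory
open Pool.Agent.P.MP_e86632_nt (ee ee_add norm_ee ee_neg ee_zero)
open Pool.Agent.P.MP_8be758_nt.Avg (gs nsq gs_pos gs_le_one gs_neg gs_anti)
open Pool.Agent.P.MP_e94e4b_nt.PF (sgm)
open Pool.Agent.P.E2
open ArithmeticFunction (cardFactors vonMangoldt)

namespace CW4b

end CW4b

theorem q_CW4 (hCW2 : L_CW2) :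
    L_CW4 := by
  classical
  intro k Y g hk
  have hk0 : (0 : ℝ) < k := by exact_mod_cast (by omega : 0 < k)
  set U := (Icc 1 Y).filter (fun u => 20 * k ^ 2 < u ∧ g u) with hU
  have mU : ∀ u ∈ U, 1 ≤ u ∧ u ≤ Y ∧ 20 * k ^ 2 < u ∧ g u := fun u hu => by
    obtain ⟨h1, h2⟩ := mem_filter.1 hu
    exact ⟨(mem_Icc.1 h1).1, (mem_Icc.1 h1).2, h2⟩
  have h1 : ∑ m ∈ U.biUnion (iu k), 1 / (m : ℝ) ≤ lm (Y ^ 2) (Vu k Y g) := by
    refine le_lm fun m hm => ?_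
    obtain ⟨u, hu, hmu⟩ := mem_biUnion.1 hm
    obtain ⟨a, b, c, d⟩ := mU u hu
    obtain ⟨e1, e2, e3⟩ := (hCW2 k u hk c.le).2.1 m hmu
    refine ⟨by omega, ?_, u, c.le, b, d, hmu⟩
    have := Nat.pow_le_pow_left b 2
    omega
  have h2 : ∑ m ∈ U.biUnion (iu k), 1 / (m : ℝ) = ∑ u ∈ U, ∑ m ∈ iu k u, 1 / (m : ℝ) := by
    refine sum_biUnion fun u hu u' hu' hne => ?_
    rcases lt_or_gt_of_ne hne with h | h
    · exact (hCW2 k u hk (mU u hu).2.2.1.le).2.2.1 u' h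
    · exact ((hCW2 k u' hk (mU u' hu').2.2.1.le).2.2.1 u h).symm
  have h3 : ∀ u ∈ U, 1 / (u : ℝ) / (2 * k) ≤ ∑ m ∈ iu k u, 1 / (m : ℝ) := by
    intro u hu
    obtain ⟨a, b, c, d⟩ := mU u hu
    obtain ⟨e1, e2, -⟩ := hCW2 k u hk c.le
    have hu0 : (0 : ℝ) < u := by exact_mod_cast a
    have h4 : ((iu k u).card : ℝ) * (2 / (u : ℝ) ^ 2) ≤ ∑ m ∈ iu k u, 1 / (m : ℝ) := by
      rw [← nsmul_eq_mul]
      refine card_nsmul_le_sum _ _ _ fun m hm => ?_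
      obtain ⟨f1, f2, f3⟩ := e2 m hm
      have hm0 : (0 : ℝ) < m := by exact_mod_cast (by omega : 0 < m)
      have f4 : 2 * (m : ℝ) ≤ (u : ℝ) ^ 2 := by exact_mod_cast f2
      rw [div_le_div_iff₀ (by positivity) hm0]
      linarith
    refine le_trans (le_of_eq ?_) ((mul_le_mul_of_nonneg_right e1 (by positivity)).trans h4)
    field_simp
    norm_num
  have h5 := lm_le_add Y (20 * k ^ 2) g
  rw [lm_eq Y fun n => 20 * k ^ 2 < n ∧ g n, ← hU] at h5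
  push_cast at h5
  refine le_trans ?_ h1
  rw [h2]
  refine le_trans ?_ (sum_le_sum h3)
  rw [← sum_div]
  exact div_le_div_of_nonneg_right (by linarith) (by positivity)

end Pool.Agent.P.PAR
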