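import Pool.Agent.P.MP_e94e4b_nt.PAR.IfE

/-! Step CW5. -/

namespace Pool.Agent.P.PAR

open Finset Real Filter Topology MeasureTheory
open Pool.Agent.P.MP_e86632_nt (ee ee_add norm_ee ee_neg ee_zero)
open Pool.Agent.P.MP_8be758_nt.Avg (gs nsq gs_pos gs_le_one gs_neg gs_anti)
open Pool.Agent.P.MP_e94e4b_nt.PF (sgm)
open Pool.Agent.P.E2
open ArithmeticFunction (cardFactors vonMangoldt)

namespace CW5b

end CW5b

theorem q_CW5 (hCW1 : L_CW1) (hCW2 : L_CW2) :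
    L_CW5 := by
  intro k c Y τ ε h1 h3 hc hε
  refine (lm_mono (g' := fun m => ∃ u ∈ Icc 1 Y, (20 * k ^ 2 ≤ u ∧ Rig τ ε u ∧ Rig τ ε (k * u)) ∧
    m ∈ (iu k u).filter fun m => par m ≠ par (k ^ 2 * m - c)) ?_).trans
    ((lm_exists_le _ _ _).trans ?_)
  · rintro m - - ⟨⟨u, a1, a2, a3, a4⟩, a5⟩
    exact ⟨u, mem_Icc.2 ⟨by nlinarith, a2⟩, ⟨a1, a3⟩, mem_filter.2 ⟨a4, a5⟩⟩
  refine le_trans (sum_le_sum fun u hu => ?_) ((mul_sum _ _ _).symm.trans_le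
    (mul_le_mul_of_nonneg_left (harm_le Y) (show 0 ≤ 8 * ε * k by positivity)))
  have u0 : (0 : ℝ) < u := by exact_mod_cast (mem_Icc.1 hu).1
  by_cases h : 20 * k ^ 2 ≤ u ∧ Rig τ ε u ∧ Rig τ ε (k * u)
  swap
  · exact (lm_le_sum (S := ∅) fun _ _ _ a => (h a.1).elim).trans (by simp; positivity)
  obtain ⟨a1, ⟨a2, a3⟩, -, a4⟩ := h
  refine (lm_le_sum fun _ _ _ a => a.2).trans
    ((sum_le_card_nsmul _ _ (8 / (u : ℝ) ^ 2) fun m hm => ?_).trans ?_)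
  · have b : (u : ℝ) ^ 2 ≤ 8 * m := by
      exact_mod_cast ((hCW2 k u h3 a1).2.1 m (mem_filter.1 hm).1).1
    rw [div_le_div_iff₀ (by nlinarith) (by positivity)]
    linarith
  have b1 : (((iu k u).filter fun m => par m ≠ par (k ^ 2 * m - c)).card : ℝ) ≤
      dd τ (u / 2) + dd τ (k * u / 2) := by exact_mod_cast hCW1 k c u τ h1 h3 hc a2 a1
  have b2 : ((u / 2 : ℕ) : ℝ) + (k * u / 2 : ℕ) ≤ k * u := by
    have : u ≤ k * u := Nat.le_mul_of_pos_left _ (by omega)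
    exact_mod_cast (show u / 2 + k * u / 2 ≤ k * u by omega)
  rw [nsmul_eq_mul, show 8 * ε * k * (1 / (u : ℝ)) = ε * (k * u) * (8 / u ^ 2) by field_simp]
  exact mul_le_mul_of_nonneg_right (by nlinarith) (by positivity)

end Pool.Agent.P.PAR
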