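import Pool.Agent.P.MP_e94e4b_nt.PAR.IfM

/-! Step DEC. -/

namespace Pool.Agent.P.PAR

open Finset Real Filter Topology MeasureTheory
open Pool.Agent.P.MP_e86632_nt (ee ee_add norm_ee ee_neg ee_zero)
open Pool.Agent.P.MP_8be758_nt.Avg (gs nsq gs_pos gs_le_one gs_neg gs_anti)
open Pool.Agent.P.MP_e94e4b_nt.PF (sgm)
open Pool.Agent.P.E2
open ArithmeticFunction (cardFactors vonMangoldt)

namespace DECb

theorem two_sq {E : ℝ} (hE : 1 ≤ E) {F B D : ℂ} (h : D = E * F + B) :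
    ‖F‖ ^ 2 ≤ 2 / E ^ 2 * ‖D‖ ^ 2 + 2 / E ^ 2 * ‖B‖ ^ 2 := by
  have h1 : E * ‖F‖ ≤ ‖D‖ + ‖B‖ := by
    have := norm_sub_le D B
    rwa [show D - B = E * F by rw [h]; ring, norm_mul, Complex.norm_real,
      Real.norm_of_nonneg (by linarith)] at this
  have h2 := pow_le_pow_left₀ (by positivity) h1 2
  rw [← mul_add, div_mul_eq_mul_div, le_div_iff₀ (by positivity)]
  nlinarith [sq_nonneg (‖D‖ - ‖B‖)]

end DECb

theorem q_DEC (hMV : S_MV) (hDI : L_DI) (hDN : L_DN) :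
    L_DEC := by
  obtain ⟨C, hC, H⟩ := hMV
  refine ⟨1360 * C, by positivity, fun X V P δ Z T hP h0 h1 hE hy hZ hX hT => ?_⟩
  have hN := hDN X V P δ hP h0 h1 hE hy
  have hI := fun t => hDI X V P δ t (by linarith) h0 h1
  have hB := bd_bl X P δ V
  generalize rs (pa P δ V) = E at *
  have hZ0 : 0 < Z := by linarith
  set a : ℕ → ℂ := fun n =>
    lc n * (((if n ∈ Ioc X (8 * X) then E else 0) - ot X P δ V n : ℝ) : ℂ) with ha
  have hD := bd_dq (Icc 1 (16 * X)) a
  have e : ∀ t, dq (Icc 1 (16 * X)) a t = E * FF X t + bl X P δ V t := fun t => by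
    have s : (Icc 1 (16 * X)).filter (· ∈ Ioc X (8 * X)) = Ioc X (8 * X) := by
      ext n
      simp only [mem_filter, mem_Icc, mem_Ioc]
      omega
    rw [hI, FF, ← s, dq, dq, dq, sum_filter, mul_sum, ← sub_eq_add_neg, ← sum_sub_distrib]
    refine sum_congr rfl fun n _ => ?_
    simp only [ha]
    split_ifs <;> push_cast <;> ring
  have h2 := H Z (16 * X) (Icc 1 (16 * X)) a hZ fun n hn =>
    ⟨(mem_Icc.1 hn).1, by exact_mod_cast (mem_Icc.1 hn).2⟩
  have h3 : nsq (Icc 1 (16 * X)) a ≤ 40 * X * (E + δ * E ^ 2) := by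
    refine le_of_eq_of_le (sum_congr rfl fun n _ => ?_) hN
    simp only [ha]
    rw [norm_mul, norm_lc, one_mul, Complex.norm_real, Real.norm_eq_abs, sq_abs]
  have h4 : mq X Z T ≤ ∫ t in T, (2 / E ^ 2 * (gs (t / Z) * ‖dq (Icc 1 (16 * X)) a t‖ ^ 2) +
      2 / E ^ 2 * (gs (t / Z) * ‖bl X P δ V t‖ ^ 2)) :=
    setIntegral_mono_on ((bd_FF X).int hZ0).integrableOn
      (((hD.int hZ0).const_mul _).add ((hB.int hZ0).const_mul _)).integrableOn hT fun t _ =>
      (mul_le_mul_of_nonneg_left (DECb.two_sq hE (e t)) (gs_pos _).le).trans_eq (by ring)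
  rw [integral_add ((hD.int hZ0).const_mul _).integrableOn ((hB.int hZ0).const_mul _).integrableOn,
    integral_const_mul, integral_const_mul] at h4
  refine h4.trans (add_le_add ?_ le_rfl)
  have h5 : 0 ≤ nsq (Icc 1 (16 * X)) a := sum_nonneg fun _ _ => by positivity
  calc _ ≤ 2 / E ^ 2 * (C * (X + 16 * X) * (40 * X * (E + δ * E ^ 2))) := by
        refine mul_le_mul_of_nonneg_left ((hD.set_le hZ0 T).trans (h2.trans ?_)) (by positivity)
        gcongr
    _ = _ := by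
        field_simp
        ring

end Pool.Agent.P.PAR
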