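import Pool.Agent.P.MP_e94e4b_nt.PAR.IfM

/-! Step DN. -/

namespace Pool.Agent.P.PAR

open Finset Real Filter Topology MeasureTheory
open Pool.Agent.P.MP_e86632_nt (ee ee_add norm_ee ee_neg ee_zero)
open Pool.Agent.P.MP_8be758_nt.Avg (gs nsq gs_pos gs_le_one gs_neg gs_anti)
open Pool.Agent.P.MP_e94e4b_nt.PF (sgm)
open Pool.Agent.P.E2
open ArithmeticFunction (cardFactors vonMangoldt)

namespace DNb

theorem ind (S : Finset ℕ) (a : ℕ) {x c : ℝ} (hx : (a : ℝ) ≤ x) (hc : 0 ≤ c) :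
    ∑ n ∈ S, (if n ∈ Ioc a ⌊x⌋₊ then c else 0) ≤ c * (x - a) := by
  have h0 : 0 ≤ x := (Nat.cast_nonneg a).trans hx
  rw [← sum_filter, sum_const, nsmul_eq_mul, mul_comm]
  refine mul_le_mul_of_nonneg_left ?_ hc
  refine (Nat.cast_le.2 (card_le_card (t := Ioc a ⌊x⌋₊) fun n hn => (mem_filter.1 hn).2)).trans ?_
  rw [Nat.card_Ioc, Nat.cast_sub (Nat.le_floor hx)]
  linarith [Nat.floor_le h0]

end DNb

theorem q_DN (hTK : L_TK) (hOT : L_OT) :
    L_DN := by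
  intro X V P δ hP h0 h1 hE hy
  have hX : (0 : ℝ) ≤ X := Nat.cast_nonneg X
  have hδ : 0 ≤ δ * X := mul_nonneg h0 hX
  have hc : ((pa P δ V).card : ℝ) ^ 2 ≤ δ * X :=
    (pow_le_pow_left₀ (Nat.cast_nonneg _) (card_pa_le (by linarith) h0 V) 2).trans hy
  have h2 := hTK (pa P δ V) 0 (16 * X) (fun p hp => (mem_filter.1 hp).2) (Nat.zero_le _)
  have ho := fun n => hOT X V n P δ (by linarith) h0
  generalize rs (pa P δ V) = E at *
  have hE2 : 0 ≤ E ^ 2 := by positivity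
  have h3 := DNb.ind (Icc 1 (16 * X)) X (x := (1 + δ) * X) (c := 3 * E ^ 2) (by linarith)
    (by linarith)
  have h4 := DNb.ind (Icc 1 (16 * X)) (8 * X) (x := 8 * (1 + δ) * X) (c := 2 * E ^ 2)
    (by push_cast; linarith) (by linarith)
  have h5 : ∀ n ∈ Icc 1 (16 * X), ((if n ∈ Ioc X (8 * X) then E else 0) - ot X P δ V n) ^ 2 ≤
      2 * (om (pa P δ V) n - E) ^ 2 + (if n ∈ Ioc X ⌊(1 + δ) * X⌋₊ then 3 * E ^ 2 else 0) +
        (if n ∈ Ioc (8 * X) ⌊8 * (1 + δ) * X⌋₊ then 2 * E ^ 2 else 0) := by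
    intro n _
    obtain ⟨a, b, c, d⟩ := ho n
    generalize ot X P δ V n = t at *
    generalize om (pa P δ V) n = w at *
    have e1 : 0 ≤ (if n ∈ Ioc X ⌊(1 + δ) * X⌋₊ then 3 * E ^ 2 else 0) := by positivity
    have e2 : 0 ≤ (if n ∈ Ioc (8 * X) ⌊8 * (1 + δ) * X⌋₊ then 2 * E ^ 2 else 0) := by positivity
    have e3 : t ^ 2 ≤ 2 * (w - E) ^ 2 + 2 * E ^ 2 := by nlinarith [sq_nonneg (w - 2 * E)]
    have e4 := sq_nonneg (w - E)
    by_cases k : n ∈ Ioc X (8 * X)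
    · rw [if_pos k]
      obtain ⟨k1, k2⟩ := mem_Ioc.1 k
      rcases lt_or_ge ((1 + δ) * X) n with k3 | k3
      · rw [c k3 k2]
        nlinarith
      · rw [if_pos (mem_Ioc.2 ⟨k1, Nat.le_floor k3⟩)]
        nlinarith
    · rw [if_neg k]
      rcases le_or_gt n X with k1 | k1
      · rw [d (.inl k1)]
        nlinarith
      rcases lt_or_ge (8 * (1 + δ) * X) n with k3 | k3
      · rw [d (.inr k3)]
        nlinarith
      · rw [if_pos (mem_Ioc.2 ⟨not_le.1 fun k2 => k (mem_Ioc.2 ⟨k1, k2⟩), Nat.le_floor k3⟩)]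
        nlinarith
  refine (sum_le_sum h5).trans ?_
  rw [sum_add_distrib, sum_add_distrib, ← mul_sum, show Icc 1 (16 * X) = Ioc 0 (16 * X) from rfl]
    at *
  push_cast at h2 h4
  have h6 : δ * X ≤ δ * X * E ^ 2 := le_mul_of_one_le_right hδ (one_le_pow₀ hE)
  have h7 : 0 ≤ X * E := mul_nonneg hX (by linarith)
  nlinarith

end Pool.Agent.P.PAR
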