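import Pool.Agent.P.MP_e94e4b_nt.PAR.IfE

/-! Step EB. -/

namespace Pool.Agent.P.PAR

open Finset Real Filter Topology MeasureTheory
open Pool.Agent.P.MP_e86632_nt (ee ee_add norm_ee ee_neg ee_zero)
open Pool.Agent.P.MP_8be758_nt.Avg (gs nsq gs_pos gs_le_one gs_neg gs_anti)
open Pool.Agent.P.MP_e94e4b_nt.PF (sgm)
open Pool.Agent.P.E2
open ArithmeticFunction (cardFactors vonMangoldt)

namespace EBb

theorem term {η a c P k N T lQ lP : ℝ} (ha : 1 ≤ a) (hc : 1 ≤ c) (hη : 0 < η) (hP : 2 ≤ P)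
    (hk : 1 ≤ k) (hT : 0 ≤ T) (hl : 0 < lP) (hN : P / (2 * a * lP) ≤ N) (hQ : lQ ≤ 3 * P) :
    η / (1152 * a * c ^ 2) / lP * T - 1 / P - 1 / k ≤
      (η * N / (36 * c) * T - Real.log 2) / (16 * c * P) - lQ / (16 * c * (k * P)) := by
  have h2 : Real.log 2 ≤ 1 := by
    have := Real.log_le_sub_one_of_pos (show (0 : ℝ) < 2 by norm_num); linarith
  have hP0 : 0 < P := by linarith
  have h3 : η / (1152 * a * c ^ 2) / lP * T ≤ η * N / (36 * c) * T / (16 * c * P) := by
    calc _ = η * (P / (2 * a * lP)) / (36 * c) * T / (16 * c * P) := by field_simp; ring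
      _ ≤ _ := by gcongr
  have h4 : Real.log 2 / (16 * c * P) ≤ 1 / P :=
    div_le_div₀ zero_le_one h2 hP0 (by nlinarith)
  have h5 : lQ / (16 * c * (k * P)) ≤ 1 / k := by
    rw [div_le_div_iff₀ (by positivity) (by positivity)]
    have h6 : 0 < k * P := by positivity
    nlinarith [mul_le_mul_of_nonneg_right hQ (show 0 ≤ k by positivity)]
  rw [sub_div]
  linarith

end EBb

theorem q_EB (hED : L_ED) (hGDC : L_GDC) (hPQC : L_PQC) :
    L_EB := by
  intro V a c L b J η P k ha hc hL hη hP0 h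
  have key := hED (cy a c L b) L J (fun j => 16 * c * P j) k (fun j => ∏ q ∈ pq a (P j), q)
    (fun j => η * (pq a (P j)).card / (36 * c))
    (fun j => Gd a c (P j) (η * (pq a (P j)).card) (cb V a (P j) L b)) hL
    (fun n => by unfold cy; rw [Nat.add_mod_right]) (Nat.mul_pos (by omega) hP0) (fun j hj => by
      obtain ⟨h1, h2, h3, h4, -⟩ := h j hj
      obtain ⟨g1, g2, g3⟩ := hGDC a c (P j) (η * (pq a (P j)).card) (cb V a (P j) L b) hc
        (by positivity) (cb_subset _ _ _ _ _)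
      refine ⟨h2, by rw [h3]; ring, prod_pos fun q hq => (mem_pq.1 hq).2.1.pos, h4, g1, g2,
        fun x => ?_⟩
      convert g3 x)
  refine le_trans (sum_le_sum fun j hj => ?_) key
  obtain ⟨h1, h2, h3, h4, h5⟩ := h j (mem_range.1 hj)
  have h6 : (2 : ℝ) ≤ P j := by exact_mod_cast h1
  have h7 := EBb.term (T := tb V a c (P j) L η b) (show (1 : ℝ) ≤ a by exact_mod_cast ha)
    (show (1 : ℝ) ≤ c by exact_mod_cast hc) hη h6 (show (1 : ℝ) ≤ k j by exact_mod_cast h2)
    (tb_nonneg _ _ _ _ _ _ _) (Real.log_pos (by linarith)) h5 (hPQC.1 a (P j))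
  refine h7.trans_eq ?_
  simp only [h3]
  push_cast
  rfl

end Pool.Agent.P.PAR
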