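import Pool.Agent.P.MP_e94e4b_nt.PAR.IfE

/-! Step ED. -/

namespace Pool.Agent.P.PAR

open Finset Real Filter Topology MeasureTheory
open Pool.Agent.P.MP_e86632_nt (ee ee_add norm_ee ee_neg ee_zero)
open Pool.Agent.P.MP_8be758_nt.Avg (gs nsq gs_pos gs_le_one gs_neg gs_anti)
open Pool.Agent.P.MP_e94e4b_nt.PF (sgm)
open Pool.Agent.P.E2
open ArithmeticFunction (cardFactors vonMangoldt)

namespace EDb

theorem cost_nonneg (L : ℕ) (ξ : ℕ → BB) {H : ℕ} {ν : (Fin H → BB) → ℝ} (h0 : ∀ x, 0 < ν x)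
    (h1 : ∑ x, ν x ≤ 1) : 0 ≤ cost L ξ ν :=
  div_nonneg (sum_nonneg fun _ _ => neg_nonneg.2 (Real.log_nonpos (h0 _).le
    ((single_le_sum (fun x _ => (h0 x).le) (mem_univ _)).trans h1))) (Nat.cast_nonneg _)

end EDb

theorem q_ED (hED1 : L_ED1) :
    L_ED := by
  intro ξ L J H k Q γ G hL hξ h0 hJ
  classical
  have key : ∀ j ≤ J, 1 ≤ H j ∧ ∃ ν : (Fin (H j) → BB) → ℝ, (∀ x, 0 < ν x) ∧ ∑ x, ν x ≤ 1 ∧
      cost L ξ ν / H j + ∑ i ∈ range j,
        ((γ i * fq L (fun n => G i (fun a => ξ (n + a)) n) - Real.log 2) / H i -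
          Real.log (Q i) / H (i + 1)) ≤ Real.log 4 := by
    intro j
    induction j with
    | zero =>
      refine fun _ => ⟨h0, fun _ => (4 ^ H 0)⁻¹, fun _ => by positivity, ?_, ?_⟩
      · simp
      · have a : (L : ℝ) ≠ 0 := by positivity
        have b : (H 0 : ℝ) ≠ 0 := by positivity
        simp only [cost, Real.log_inv, neg_neg, Real.log_pow, sum_const, card_range, nsmul_eq_mul,
          range_zero, sum_empty, add_zero]
        exact le_of_eq (by field_simp)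
    | succ j ih =>
      intro hj
      obtain ⟨a1, ν, a2, a3, a4⟩ := ih (by omega)
      obtain ⟨b1, b2, b3, b4, b5, b6, b7⟩ := hJ j (by omega)
      obtain ⟨ν', c1, c2, c3⟩ := hED1 ξ L (H j) (k j) (H (j + 1)) (Q j) (γ j) ν
        (fun x y => G j (fun i => if h : i < H j then x ⟨i, h⟩ else default) y) hL hξ b2 b3 b4 a2 a3
        (fun x y => b6 _ y) fun x => b7 _
      rw [fq_congr (g' := fun n => G j (fun a => ξ (n + a)) n) fun n _ =>
        ⟨b5 _ _ _ fun i hi => dif_pos hi, b5 _ _ _ fun i hi => by rw [dif_pos hi]⟩] at c3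
      refine ⟨b2 ▸ Nat.mul_pos b1 a1, ν', c1, c2, ?_⟩
      have k0 : (0 : ℝ) < k j := by exact_mod_cast b1
      have H0 : (0 : ℝ) < H j := by exact_mod_cast a1
      have e : (H (j + 1) : ℝ) = k j * H j := by rw [b2]; push_cast; rfl
      have d := div_le_div_of_nonneg_right c3 (show (0 : ℝ) ≤ H (j + 1) by positivity)
      rw [add_div, e, mul_div_mul_left _ _ k0.ne', ← e, add_div, sub_div] at d
      rw [sum_range_succ, sub_div]
      linarith
  obtain ⟨-, ν, a2, a3, a4⟩ := key J le_rfl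
  have := div_nonneg (EDb.cost_nonneg L ξ a2 a3) (Nat.cast_nonneg (H J))
  linarith

end Pool.Agent.P.PAR
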