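import Pool.Agent.P.MP_e94e4b_nt.PAR.IfE

/-! Step ED0. -/

namespace Pool.Agent.P.PAR

open Finset Real Filter Topology MeasureTheory
open Pool.Agent.P.MP_e86632_nt (ee ee_add norm_ee ee_neg ee_zero)
open Pool.Agent.P.MP_8be758_nt.Avg (gs nsq gs_pos gs_le_one gs_neg gs_anti)
open Pool.Agent.P.MP_e94e4b_nt.PF (sgm)
open Pool.Agent.P.E2
open ArithmeticFunction (cardFactors vonMangoldt)

namespace ED0b

theorem log_le {Z : ℝ} (h : 0 < Z) : Real.log Z ≤ Real.log 2 + Z / 2 - 1 := by
  have h1 := Real.log_le_sub_one_of_pos (show 0 < Z / 2 by positivity)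
  rw [Real.log_div h.ne' (by norm_num)] at h1
  linarith

end ED0b

theorem q_ED0 :
    L_ED0 := by
  classical
  intro H Q γ ν G hQ hν hs hG hc
  obtain ⟨w, hw⟩ : ∃ w : (Fin H → BB) → ℕ → ℝ,
      ∀ x y, w x y = 1 + if G x y then Real.exp γ else 0 := ⟨_, fun _ _ => rfl⟩
  have w0 : ∀ x y, 0 < w x y := fun x y => by
    have := Real.exp_pos γ
    rw [hw]; split_ifs <;> linarith
  have wp : ∀ x y, w x (y + Q) = w x y := fun x y => by rw [hw, hw]; simp only [hG]
  have wl : ∀ x y, (if G x y then γ else 0) ≤ Real.log (w x y) := fun x y => by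
    rw [Real.le_log_iff_exp_le (w0 x y), hw]
    split_ifs <;> simp
  have ws : ∀ x, ∑ y ∈ range Q, w x y ≤ 2 * Q := fun x => by
    simp only [hw]
    rw [sum_add_distrib, ← sum_filter, sum_const, sum_const, card_range, nsmul_eq_mul,
      nsmul_eq_mul]
    have h1 := mul_le_mul_of_nonneg_right (hc x) (Real.exp_pos γ).le
    rw [mul_right_comm, ← Real.exp_add, neg_add_cancel, Real.exp_zero] at h1
    linarith
  have Z0 : ∀ y, 0 < ∑ x, ν x * w x y := fun y =>
    sum_pos (fun x _ => mul_pos (hν x) (w0 x y)) univ_nonempty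
  refine ⟨fun y x => ν x * w x y / ∑ x, ν x * w x y, fun y => Real.log (∑ x, ν x * w x y),
    fun y x => div_pos (mul_pos (hν x) (w0 x y)) (Z0 y), fun y => ?_, fun y => ?_, fun y => ?_,
    ?_, fun y x => ?_⟩
  · rw [← sum_div, div_self (Z0 y).ne']
  · simp only [wp]
  · simp only [wp]
  · have h1 : ∑ y ∈ range Q, ∑ x, ν x * w x y ≤ 2 * Q := by
      rw [sum_comm]
      calc ∑ x, ∑ y ∈ range Q, ν x * w x y ≤ ∑ x, ν x * (2 * Q) :=
            sum_le_sum fun x _ => by
              rw [← mul_sum]; exact mul_le_mul_of_nonneg_left (ws x) (hν x).le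
        _ ≤ 2 * Q := by
            rw [← sum_mul]; exact mul_le_of_le_one_left (by positivity) hs
    refine (sum_le_sum fun y _ => ED0b.log_le (Z0 y)).trans ?_
    rw [sum_sub_distrib, sum_add_distrib, ← sum_div]
    simp only [sum_const, card_range, nsmul_eq_mul]
    linarith
  · rw [Real.log_div (mul_pos (hν x) (w0 x y)).ne' (Z0 y).ne',
      Real.log_mul (hν x).ne' (w0 x y).ne']
    linarith [wl x y]

end Pool.Agent.P.PAR
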