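import Pool.Agent.P.MP_e94e4b_nt.PAR.IfE

/-! Step ED1. -/

namespace Pool.Agent.P.PAR

open Finset Real Filter Topology MeasureTheory
open Pool.Agent.P.MP_e86632_nt (ee ee_add norm_ee ee_neg ee_zero)
open Pool.Agent.P.MP_8be758_nt.Avg (gs nsq gs_pos gs_le_one gs_neg gs_anti)
open Pool.Agent.P.MP_e94e4b_nt.PF (sgm)
open Pool.Agent.P.E2
open ArithmeticFunction (cardFactors vonMangoldt)

namespace ED1b

/-- the `i`-th block of a word of length `k * H` -/
def blk {k H : ℕ} (x : Fin (k * H) → BB) (i : Fin k) : Fin H → BB :=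
  fun j => x (finProdFinEquiv (i, j))

/-- words of length `k * H` as lists of blocks -/
def blkEquiv (k H : ℕ) : (Fin (k * H) → BB) ≃ (Fin k → Fin H → BB) :=
  (Equiv.arrowCongr finProdFinEquiv.symm (Equiv.refl BB)).trans (Equiv.curry _ _ _)

theorem blkEquiv_apply {k H : ℕ} (x : Fin (k * H) → BB) (i : Fin k) :
    blkEquiv k H x i = blk x i := by
  funext j
  simp [blkEquiv, blk, Equiv.arrowCongr, Function.curry]

theorem blk_word {k H : ℕ} (ξ : ℕ → BB) (n : ℕ) (i : Fin k) :
    blk (fun j : Fin (k * H) => ξ (n + j)) i = fun j : Fin H => ξ (n + H * i + j) := by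
  funext j
  simp only [blk, finProdFinEquiv_apply_val]
  congr 1
  ring

theorem mass {k H : ℕ} (f : Fin k → (Fin H → BB) → ℝ) (h0 : ∀ i x, 0 < f i x)
    (h1 : ∀ i, ∑ x, f i x ≤ 1) : ∑ x : Fin (k * H) → BB, ∏ i, f i (blk x i) ≤ 1 := by
  classical
  rw [Fintype.sum_equiv (blkEquiv k H) (fun x => ∏ i, f i (blk x i)) (fun w => ∏ i, f i (w i))
    (fun x => by simp only [blkEquiv_apply])]
  have h2 := Finset.prod_univ_sum (fun _ : Fin k => (univ : Finset (Fin H → BB))) f
  rw [Fintype.piFinset_univ] at h2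
  rw [← h2]
  exact prod_le_one (fun i _ => sum_nonneg fun x _ => (h0 i x).le) fun i _ => h1 i

end ED1b

open ED1b in
theorem q_ED1 (hED0 : L_ED0) :
    L_ED1 := by
  classical
  intro ξ L H k H' Q γ ν G hL hξ hH hQ hQL hν hν1 hG hGc
  subst hH
  obtain ⟨μ, z, hμ0, hμ1, hμp, hzp, hzs, hb⟩ := hED0 H Q γ ν G hQ hν hν1 hG hGc
  have hQ0 : (0 : ℝ) < Q := by exact_mod_cast hQ
  have hL0 : (0 : ℝ) < L := by exact_mod_cast hL
  have hpos : ∀ (x : Fin (k * H) → BB) (y : ℕ), 0 < ∏ i : Fin k, μ (y + H * i) (blk x i) :=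
    fun x y => prod_pos fun i _ => hμ0 _ _
  refine ⟨fun x => (∑ y ∈ range Q, ∏ i : Fin k, μ (y + H * i) (blk x i)) / Q, fun x => ?_, ?_, ?_⟩
  · exact div_pos (sum_pos (fun y _ => hpos x y) ⟨0, mem_range.2 hQ⟩) hQ0
  · rw [← sum_div, div_le_one hQ0, sum_comm]
    calc ∑ y ∈ range Q, ∑ x : Fin (k * H) → BB, ∏ i : Fin k, μ (y + H * i) (blk x i)
        ≤ ∑ _y ∈ range Q, (1 : ℝ) := sum_le_sum fun y _ =>
          mass (fun i x => μ (y + H * i) x) (fun i x => hμ0 _ _) fun i => hμ1 _
      _ = Q := by simp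
  · set F : ℕ → ℝ := fun n => -Real.log (ν fun i : Fin H => ξ (n + i)) -
      (if G (fun i : Fin H => ξ (n + i)) n then γ else 0) + z n with hF
    have hw : ∀ n, (fun i : Fin H => ξ (n + L + i)) = fun i : Fin H => ξ (n + i) := fun n => by
      funext i
      rw [add_right_comm, hξ]
    have hFp : ∀ n, F (n + L) = F n := fun n => by
      have e1 : G (fun i : Fin H => ξ (n + i)) (n + L) = G (fun i : Fin H => ξ (n + i)) n :=
        per_dvd (F := G fun i : Fin H => ξ (n + i)) (fun m => propext (hG _ m)) hQL n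
      simp only [hF, hw, e1, per_dvd hzp hQL n]
    have hpt : ∀ n, -Real.log ((∑ y ∈ range Q, ∏ i : Fin k, μ (y + H * i)
        (blk (fun j : Fin (k * H) => ξ (n + j)) i)) / Q) ≤
        Real.log Q + ∑ i : Fin k, F (n + H * i) := fun n => by
      set x : Fin (k * H) → BB := fun j => ξ (n + j) with hx
      have h1 : ∏ i : Fin k, μ (n % Q + H * i) (blk x i) ≤
          ∑ y ∈ range Q, ∏ i : Fin k, μ (y + H * i) (blk x i) :=
        single_le_sum (f := fun y => ∏ i : Fin k, μ (y + H * i) (blk x i))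
          (fun y _ => (hpos x y).le) (mem_range.2 (Nat.mod_lt n hQ))
      have h2 := Real.log_le_log (hpos x (n % Q)) h1
      rw [Real.log_prod fun i _ => (hμ0 _ _).ne'] at h2
      rw [Real.log_div (sum_pos (fun y _ => hpos x y) ⟨0, mem_range.2 hQ⟩).ne' hQ0.ne']
      have h3 : ∑ i : Fin k, -Real.log (μ (n % Q + H * i) (blk x i)) ≤
          ∑ i : Fin k, F (n + H * i) := sum_le_sum fun i _ => by
        rw [per_mod hμp, hx, blk_word]
        exact hb _ _
      rw [sum_neg_distrib] at h3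
      linarith
    have hsumF : ∑ n ∈ range L, F n ≤ L * (cost L ξ ν -
        γ * fq L (fun n => G (fun i => ξ (n + i)) n) + Real.log 2) := by
      have e1 : ∑ n ∈ range L, (if G (fun i : Fin H => ξ (n + i)) n then γ else 0) =
          γ * (((range L).filter fun n => G (fun i : Fin H => ξ (n + i)) n).card : ℝ) := by
        rw [← sum_boole, mul_sum]
        exact sum_congr rfl fun n _ => by split_ifs <;> simp
      have e2 : ∑ n ∈ range L, z n ≤ L * Real.log 2 := by
        obtain ⟨m, rfl⟩ := hQL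
        rw [sum_per_mul hzp]
        have := mul_le_mul_of_nonneg_left hzs (Nat.cast_nonneg (α := ℝ) m)
        push_cast
        linarith
      have e3 : L * cost L ξ ν = ∑ n ∈ range L, -Real.log (ν fun i : Fin H => ξ (n + i)) := by
        rw [cost]; field_simp
      have e4 : L * fq L (fun n => G (fun i : Fin H => ξ (n + i)) n) =
          (((range L).filter fun n => G (fun i : Fin H => ξ (n + i)) n).card : ℝ) := by
        rw [fq_eq]; field_simp
      simp only [hF]
      rw [sum_add_distrib, sum_sub_distrib, e1, ← e3, ← e4]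
      linarith
    rw [cost, div_le_iff₀ hL0]
    calc ∑ n ∈ range L, -Real.log ((∑ y ∈ range Q, ∏ i : Fin k, μ (y + H * i)
          (blk (fun j : Fin (k * H) => ξ (n + j)) i)) / Q)
        ≤ ∑ n ∈ range L, (Real.log Q + ∑ i : Fin k, F (n + H * i)) := sum_le_sum fun n _ => hpt n
      _ = L * Real.log Q + ∑ i : Fin k, ∑ n ∈ range L, F (n + H * i) := by
          rw [sum_add_distrib, sum_comm]; simp
      _ = L * Real.log Q + k * ∑ n ∈ range L, F n := by
          rw [sum_congr rfl fun (i : Fin k) _ => sum_shift hFp (H * i)]; simp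
      _ ≤ _ := by
          have := mul_le_mul_of_nonneg_left hsumF (Nat.cast_nonneg (α := ℝ) k)
          linarith

end Pool.Agent.P.PAR
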