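import Pool.Agent.P.MP_e94e4b_nt.PAR.IfE

/-! Step EN. -/

namespace Pool.Agent.P.PAR

open Finset Real Filter Topology MeasureTheory
open Pool.Agent.P.MP_e86632_nt (ee ee_add norm_ee ee_neg ee_zero)
open Pool.Agent.P.MP_8be758_nt.Avg (gs nsq gs_pos gs_le_one gs_neg gs_anti)
open Pool.Agent.P.MP_e94e4b_nt.PF (sgm)
open Pool.Agent.P.E2
open ArithmeticFunction (cardFactors vonMangoldt)

namespace ENb

theorem mem {P q : ℕ} (h : q ∈ pr2 P) : P < q ∧ q ≤ 2 * P ∧ q.Prime := by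
  simpa [pr2, and_assoc] using h

theorem odd {P s : ℕ} (hP : 2 ≤ P) (hs : s ∉ (Icc 1 (2 * P)).image (2 * ·)) :
    ((pr2 P ×ˢ pr2 P).filter fun x => x.1 + x.2 = s) = ∅ := by
  refine filter_eq_empty_iff.2 fun x hx e => hs ?_
  obtain ⟨a1, a2, a3⟩ := mem (mem_product.1 hx).1
  obtain ⟨b1, b2, b3⟩ := mem (mem_product.1 hx).2
  have := a3.eq_two_or_odd
  have := b3.eq_two_or_odd
  exact mem_image.2 ⟨s / 2, mem_Icc.2 (by omega), by omega⟩

theorem nd {P p q : ℕ} (hp : p.Prime) (h : p ≤ P) (hq : q ∈ pr2 P) : ¬ p ∣ q := fun d => by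
  obtain ⟨a1, -, a3⟩ := mem hq
  have := (Nat.prime_dvd_prime_iff_eq hp a3).1 d
  omega

end ENb

theorem q_EN (hSV : S_SV) (hSGM : L_SGM) :
    L_EN := by
  obtain ⟨C, C0, hC⟩ := hSV
  obtain ⟨B, B0, hB⟩ := hSGM
  refine ⟨2 * B * C ^ 2, by positivity, ?_⟩
  filter_upwards [tendsto_natCast_atTop_atTop.eventually hC, eventually_ge_atTop 2] with P h hP
  have P1 : (1 : ℝ) ≤ P := by exact_mod_cast (by omega : 1 ≤ P)
  have key : ∀ M ∈ Icc 1 (2 * P),
      (((pr2 P ×ˢ pr2 P).filter fun x => x.1 + x.2 = 2 * M).card : ℝ) ^ 2 ≤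
        (C * P / Real.log P ^ 2) ^ 2 * sgm M ^ 2 := fun M hM => by
    rw [← mul_pow]
    refine pow_le_pow_left₀ (Nat.cast_nonneg _) ?_ 2
    rw [← card_image_of_injOn (f := Prod.fst) fun x hx y hy e => by
      have a := (mem_filter.1 hx).2
      have b := (mem_filter.1 hy).2
      exact Prod.ext e (by omega)]
    refine (h P M _ (by positivity) (mem_Icc.1 hM).1 fun n hn => ?_).trans_eq (by ring)
    obtain ⟨x, hx, rfl⟩ := mem_image.1 hn
    obtain ⟨hx, e⟩ := mem_filter.1 hx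
    obtain ⟨a, b⟩ := mem_product.1 hx
    refine ⟨by exact_mod_cast (ENb.mem a).1, by
      rw [← two_mul]; exact_mod_cast (ENb.mem a).2.1, fun p hp hl => ?_⟩
    have hl' : p ≤ P := by
      exact_mod_cast hl.trans (Real.rpow_le_self_of_one_le P1 (by norm_num))
    refine ⟨ENb.nd hp hl' a, fun d => ENb.nd hp hl' b ?_⟩
    have : (2 * M - x.1 : ℤ) = x.2 := by omega
    rw [this] at d
    exact_mod_cast d
  calc _ ≤ ∑ s ∈ (Icc 1 (2 * P)).image (2 * ·),
        (((pr2 P ×ˢ pr2 P).filter fun x => x.1 + x.2 = s).card : ℝ) ^ 2 := by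
        rw [← sum_filter_ne_zero]
        refine sum_le_sum_of_subset_of_nonneg (fun s hs => ?_) fun _ _ _ => by positivity
        by_contra c
        simpa [ENb.odd hP c] using (mem_filter.1 hs).2
    _ = _ := sum_image fun x _ y _ e => by simpa using e
    _ ≤ _ := sum_le_sum key
    _ = (C * P / Real.log P ^ 2) ^ 2 * ∑ M ∈ Icc 1 (2 * P), sgm M ^ 2 := (mul_sum ..).symm
    _ ≤ (C * P / Real.log P ^ 2) ^ 2 * (B * (2 * P : ℕ)) :=
        mul_le_mul_of_nonneg_left (hB _) (by positivity)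
    _ = _ := by push_cast; ring

end Pool.Agent.P.PAR
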