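import Pool.Agent.P.MP_e94e4b_nt.PAR.IfE

/-! Step ERR. -/

namespace Pool.Agent.P.PAR

open Finset Real Filter Topology MeasureTheory
open Pool.Agent.P.MP_e86632_nt (ee ee_add norm_ee ee_neg ee_zero)
open Pool.Agent.P.MP_8be758_nt.Avg (gs nsq gs_pos gs_le_one gs_neg gs_anti)
open Pool.Agent.P.MP_e94e4b_nt.PF (sgm)
open Pool.Agent.P.E2
open ArithmeticFunction (cardFactors vonMangoldt)

namespace ERRb

/-- the counted event -/
def T (V : ℕ → Prop) (a c P L q j : ℕ) (v : ℕ × ℕ) : Prop :=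
  q ∈ cb V a P L v.1 ∧ q ∣ v.1 * L + v.2 + j + c * eh a q ∧
    par (v.1 * L + v.2 + (j + c * eh a q)) ≠ par (a * (v.1 * L + v.2 + j) + (a - 1) * c)

open Classical in
theorem key {V : ℕ → Prop} {a c P L Z : ℕ} (Y : ℕ) {B : ℝ} (hV : Loc V c Z B) (ha : 1 ≤ a)
    (hP : 1 ≤ P) (hL : 16 * c * P ≤ L) {q j : ℕ} (hj : j < 8 * c * P) :
    ∑ v ∈ (Icc 1 Y ×ˢ range L).filter (T V a c P L q j), 1 / ((v.1 : ℝ) * L) ≤
      3 / P * lm Z (Er V a c) := by
  set s := (Icc 1 Y ×ˢ range L).filter (T V a c P L q j)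
  set μ : ℕ × ℕ → ℕ := fun v => (v.1 * L + v.2 + j + c * eh a q) / q with hμ
  have h : ∀ v ∈ s, v.2 < L ∧ q * μ v = v.1 * L + v.2 + j + c * eh a q ∧ P * μ v ≤ 3 * (v.1 * L) ∧
      1 ≤ μ v ∧ μ v ≤ Z ∧ Er V a c (μ v) := by
    intro v hv
    obtain ⟨h1, h2, h3, h4⟩ := mem_filter.1 hv
    obtain ⟨h5, h6⟩ := mem_product.1 h1
    obtain ⟨h7, h8⟩ := mem_cb.1 h2
    have b1 := (mem_Icc.1 h5).1
    have b2 := mem_range.1 h6
    have b3 : c * eh a q ≤ 2 * (c * P) := (Nat.mul_le_mul_left c (eh_le h7)).trans_eq (by ring)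
    have b4 : q * μ v = _ := Nat.mul_div_cancel' h3
    have b5 : L ≤ v.1 * L := Nat.le_mul_of_pos_left L b1
    rw [mul_assoc] at hj hL
    have b6 : V (μ v) := h8 _ (by omega) (by rw [add_mul]; omega)
    have b7 := hV.lo _ b6
    have b8 : P * μ v ≤ q * μ v := Nat.mul_le_mul_right _ (mem_pq.1 h7).1.1.le
    have b9 : μ v ≤ a * μ v := Nat.le_mul_of_pos_left _ ha
    refine ⟨b2, b4, by omega, by omega, hV.hi _ b6, b6, fun e => h4 ?_⟩
    have e1 : a * (v.1 * L + v.2 + j) + (a - 1) * c = q * (a * μ v - c) := by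
      have := eh_spec h7
      zify [ha, show c ≤ a * μ v by omega] at b4 this ⊢
      linear_combination (c : ℤ) * this - a * b4
    rw [e1, ← add_assoc, ← b4]
    exact (par_cancel (mem_pq.1 h7).2.1.ne_zero (by omega) (by omega)).2 e
  have inj : Set.InjOn μ s := fun v hv w hw e => by
    obtain ⟨h1, h2, -⟩ := h v hv
    obtain ⟨h3, h4, -⟩ := h w hw
    have e1 : v.2 + v.1 * L = w.2 + w.1 * L := by rw [e] at h2; omega
    have e2 := congrArg (· % L) e1
    simp only [Nat.add_mul_mod_self_right, Nat.mod_eq_of_lt h1, Nat.mod_eq_of_lt h3] at e2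
    exact Prod.ext (Nat.eq_of_mul_eq_mul_right (by omega : 0 < L) (by omega)) e2
  calc _ ≤ ∑ v ∈ s, 3 / (P : ℝ) * (1 / (μ v : ℝ)) := sum_le_sum fun v hv => by
        obtain ⟨-, -, h3, h4, -⟩ := h v hv
        have h5 : (0 : ℝ) < P * μ v := by positivity
        have h6 : (P : ℝ) * μ v ≤ 3 * (v.1 * L) := by exact_mod_cast h3
        rw [div_mul_div_comm, mul_one, div_le_div_iff₀ (by linarith) h5, one_mul]
        exact h6
    _ = 3 / P * ∑ m ∈ s.image μ, 1 / (m : ℝ) := by rw [sum_image inj, mul_sum]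
    _ ≤ _ := mul_le_mul_of_nonneg_left (le_lm fun m hm => by
        obtain ⟨v, hv, rfl⟩ := mem_image.1 hm
        exact (h v hv).2.2.2) (by positivity)

end ERRb

open Classical in
theorem q_ERR :
    L_ERR := by
  intro V a c P L Z Y B hV ha hc hP hL
  have h0 := lm_nonneg Z (Er V a c)
  have hP' : (0 : ℝ) < P := by exact_mod_cast hP
  calc _ = ∑ v ∈ Icc 1 Y ×ˢ range L, ∑ q ∈ pq a P, ∑ j ∈ range (8 * c * P),
        if ERRb.T V a c P L q j v then 1 / ((v.1 : ℝ) * L) else 0 := by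
        rw [sum_product]
        refine sum_congr rfl fun b _ => sum_congr rfl fun i _ => ?_
        rw [mul_sum, ← sum_subset (cb_subset V a P L b) fun q _ hq =>
          sum_eq_zero fun j _ => if_neg fun e => hq e.1]
        refine sum_congr rfl fun q hq => ?_
        rw [← sum_filter, sum_const, nsmul_eq_mul, mul_comm, fd]
        congr 2
        exact congrArg card (filter_congr fun j _ => ⟨fun e => ⟨hq, e⟩, fun e => e.2⟩)
    _ = ∑ q ∈ pq a P, ∑ j ∈ range (8 * c * P), ∑ v ∈ (Icc 1 Y ×ˢ range L).filter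
        (ERRb.T V a c P L q j), 1 / ((v.1 : ℝ) * L) := by
        rw [sum_comm]
        refine sum_congr rfl fun q _ => ?_
        rw [sum_comm]
        simp only [sum_filter]
    _ ≤ ∑ q ∈ pq a P, ∑ j ∈ range (8 * c * P), 3 / P * lm Z (Er V a c) :=
        sum_le_sum fun q _ => sum_le_sum fun j hj => ERRb.key Y hV ha hP hL (mem_range.1 hj)
    _ = 24 * c * (pq a P).card * lm Z (Er V a c) := by
        simp only [sum_const, card_range, nsmul_eq_mul]
        push_cast
        field_simp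
        ring
    _ ≤ _ := by gcongr; norm_num

end Pool.Agent.P.PAR
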