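import Pool.Agent.P.MP_e94e4b_nt.PAR.IfE

/-! Step FIN. -/

namespace Pool.Agent.P.PAR

open Finset Real Filter Topology MeasureTheory
open Pool.Agent.P.MP_e86632_nt (ee ee_add norm_ee ee_neg ee_zero)
open Pool.Agent.P.MP_8be758_nt.Avg (gs nsq gs_pos gs_le_one gs_neg gs_anti)
open Pool.Agent.P.MP_e94e4b_nt.PF (sgm)
open Pool.Agent.P.E2
open ArithmeticFunction (cardFactors vonMangoldt)

namespace FINb

end FINb

theorem q_FIN (hRIG : L_RIG) (hMEAN : L_MEAN) (hCNT : L_CNT) :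
    L_FIN := by
  intro δ hδ
  obtain ⟨ε, hε, h1⟩ := hRIG (δ / 4) (by positivity)
  refine ⟨ε / 4, by positivity, ?_⟩
  filter_upwards [h1, hMEAN (ε / 4) (δ / 4) (by positivity) (by positivity),
    ev_log (1 + Real.log (⌈8 / ε⌉₊ : ℕ)) (c := δ / 4) (by positivity)] with Y a b c
  refine (lm_le_add Y ⌈8 / ε⌉₊ _).trans ?_
  have key : lm Y (fun N => ⌈8 / ε⌉₊ < N ∧ ∃ s < 2, ∃ t < 2, (cnt N s t : ℝ) < ε / 4 * N) ≤
      lm Y (fun N => ((dd true N : ℝ) ≤ ε * N ∨ (dd false N : ℝ) ≤ ε * N) ∨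
        ε / 4 * N ≤ |∑ n ∈ Ioc (N ^ 2) ((N + 1) ^ 2), lam n|) := by
    refine lm_mono fun N h1 _ ⟨hK, s, hs, t, ht, h⟩ => ?_
    have h2 := hCNT N s t h1 hs ht
    have h3 : 8 / ε < N := (Nat.le_ceil _).trans_lt (by exact_mod_cast hK)
    rw [div_lt_iff₀ hε] at h3
    by_contra o
    rw [not_or, not_or, not_le, not_le, not_le] at o
    have h4 : ε * N < dd (decide (s ≠ t)) N := by
      cases decide (s ≠ t)
      exacts [o.1.2, o.1.1]
    linarith [o.2]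
  have e1 := lm_or_le Y (fun N => (dd true N : ℝ) ≤ ε * N ∨ (dd false N : ℝ) ≤ ε * N)
    fun N => ε / 4 * N ≤ |∑ n ∈ Ioc (N ^ 2) ((N + 1) ^ 2), lam n|
  have e2 := lm_or_le Y (fun N => (dd true N : ℝ) ≤ ε * N) fun N => (dd false N : ℝ) ≤ ε * N
  linarith [a true, a false]

end Pool.Agent.P.PAR
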