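import Pool.Agent.P.MP_e94e4b_nt.PAR.IfE

/-! Step GDC. -/

namespace Pool.Agent.P.PAR

open Finset Real Filter Topology MeasureTheory
open Pool.Agent.P.MP_e86632_nt (ee ee_add norm_ee ee_neg ee_zero)
open Pool.Agent.P.MP_8be758_nt.Avg (gs nsq gs_pos gs_le_one gs_neg gs_anti)
open Pool.Agent.P.MP_e94e4b_nt.PF (sgm)
open Pool.Agent.P.E2
open ArithmeticFunction (cardFactors vonMangoldt)

namespace GDCb

theorem idx {a c P q j : ℕ} (hq : q ∈ pq a P) (hj : j ∈ range (8 * c * P)) :
    j < 16 * c * P ∧ j + c * eh a q < 16 * c * P := by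
  have h1 := mem_range.1 hj
  have h2 : c * eh a q ≤ c * (2 * P) := Nat.mul_le_mul_left c (eh_le hq)
  have h3 : c * (2 * P) = 2 * (c * P) := by ring
  have h4 : 8 * c * P = 8 * (c * P) := by ring
  have h5 : 16 * c * P = 16 * (c * P) := by ring
  omega

theorem one_res {q : ℕ} (hq : 0 < q) (s : ℕ) :
    ∑ y ∈ range q, (if q ∣ y + s then (1 : ℕ) else 0) = 1 := by
  have h := sum_shift (F := fun n => if q ∣ n then (1 : ℤ) else 0) (L := q)
    (fun n => by simp only [Nat.dvd_add_self_right]) s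
  have h2 : ∑ n ∈ range q, (if q ∣ n then (1 : ℤ) else 0) = 1 := by
    rw [sum_eq_single 0]
    · simp
    · intro b hb hb0
      rw [if_neg]
      exact Nat.not_dvd_of_pos_of_lt (Nat.pos_of_ne_zero hb0) (mem_range.1 hb)
    · intro h0
      exact absurd (mem_range.2 hq) h0
  rw [h2] at h
  exact_mod_cast h

theorem sum_fd (a c P : ℕ) (x : ℕ → BB) {q : ℕ} (hq : 0 < q) :
    ∑ y ∈ range q, fd a c P x q y = dis a c P x q := by
  unfold fd dis
  simp only [card_filter]
  rw [sum_comm]
  refine sum_congr rfl fun j _ => ?_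
  by_cases h : (x (j + c * eh a q)).1 ≠ (x j).2
  · rw [if_pos h]
    refine Eq.trans ?_ (one_res hq (j + c * eh a q))
    refine sum_congr rfl fun y _ => ?_
    simp only [h, and_true, add_assoc, ne_eq, not_false_eq_true]
  · rw [if_neg h]
    exact sum_eq_zero fun y _ => if_neg fun h' => h h'.2

theorem fd_le {a c P q : ℕ} (hc : 1 ≤ c) (hq : q ∈ pq a P) (x : ℕ → BB) (y : ℕ) :
    (fd a c P x q y : ℝ) ≤ 9 * c := by
  obtain ⟨⟨h1, -⟩, h2, -⟩ := mem_pq.1 hq
  have hq0 := h2.pos
  set s := y + c * eh a q + q with hs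
  have h3 : fd a c P x q y ≤ ((Ioc (s - 1) (s - 1 + 8 * c * P)).filter (q ∣ ·)).card := by
    unfold fd
    refine card_le_card_of_injOn (fun j => j + s) (fun j hj => ?_) (fun i _ j _ h => by simpa using h)
    obtain ⟨h4, h5, -⟩ := mem_filter.1 (mem_coe.1 hj)
    have h6 := mem_range.1 h4
    have h7 : s - 1 < j + s ∧ j + s ≤ s - 1 + 8 * c * P := by omega
    refine mem_coe.2 (mem_filter.2 ⟨mem_Ioc.2 h7, ?_⟩)
    have : j + s = y + j + c * eh a q + q := by omega
    show q ∣ j + s
    rw [this]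
    exact Nat.dvd_add_self_right.2 h5
  have h4 := (abs_le.1 (card_dvd_Ioc hq0 (Nat.le_add_right (s - 1) (8 * c * P)))).2
  have h5 : (((s - 1 + 8 * c * P : ℕ) : ℝ) - ((s - 1 : ℕ) : ℝ)) / q ≤ 8 * c := by
    rw [div_le_iff₀ (by exact_mod_cast hq0)]
    push_cast
    have : (P : ℝ) ≤ q := by exact_mod_cast h1.le
    have hc0 : (0 : ℝ) ≤ c := Nat.cast_nonneg c
    nlinarith
  have h6 : (1 : ℝ) ≤ c := by exact_mod_cast hc
  have h7 : (fd a c P x q y : ℝ) ≤ (((Ioc (s - 1) (s - 1 + 8 * c * P)).filter (q ∣ ·)).card : ℝ) := by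
    exact_mod_cast h3
  linarith

theorem fd_per (a c P : ℕ) (x : ℕ → BB) {q L : ℕ} (h : q ∣ L) (y : ℕ) :
    fd a c P x q (y + L) = fd a c P x q y := by
  unfold fd
  congr 1
  refine filter_congr fun j _ => and_congr_left' ?_
  rw [show y + L + j + c * eh a q = y + j + c * eh a q + L by ring]
  exact (Nat.dvd_add_iff_left h).symm

end GDCb

open GDCb in
theorem q_GDC (hCHER : L_CHER) :
    L_GDC := by
  classical
  intro a c P w C hc hw hC
  refine ⟨fun x x' y hx h => ?_, fun x y => ?_, fun x => ?_⟩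
  · have e1 : ∀ q ∈ C, dis a c P x' q = dis a c P x q := fun q hq => by
      unfold dis
      congr 1
      refine filter_congr fun j hj => ?_
      rw [hx _ (idx (hC hq) hj).1, hx _ (idx (hC hq) hj).2]
    have e2 : ∀ q ∈ C, fd a c P x' q y = fd a c P x q y := fun q hq => by
      unfold fd
      congr 1
      refine filter_congr fun j hj => ?_
      rw [hx _ (idx (hC hq) hj).1, hx _ (idx (hC hq) hj).2]
    unfold Gd at h ⊢
    rw [sum_congr rfl fun q hq => by rw [e1 q hq], sum_congr rfl (s₂ := C)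
      (f := fun q => (fd a c P x' q y : ℝ)) (g := fun q => (fd a c P x q y : ℝ))
      fun q hq => by rw [e2 q hq]]
    exact h
  · unfold Gd
    rw [sum_congr rfl (s₂ := C) (f := fun q => (fd a c P x q (y + ∏ q ∈ pq a P, q) : ℝ))
      (g := fun q => (fd a c P x q y : ℝ))
      fun q hq => by rw [fd_per a c P x (dvd_prod_of_mem (fun q => q) (hC hq))]]
  · by_cases h : 2 * w ≤ ∑ q ∈ C, (dis a c P x q : ℝ) / q
    · have hc0 : (0 : ℝ) < c := by exact_mod_cast hc
      have hI : pq a P ∩ C = C := inter_eq_right.2 hC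
      have := hCHER (pq a P) (fun q y => if q ∈ C then (fd a c P x q y : ℝ) else 0) (9 * c) w
        (fun q hq => (mem_pq.1 hq).2.1) (by positivity) hw (fun q hq y => ?_) ?_
      · rw [show 4 * (9 * (c : ℝ)) = 36 * c by ring] at this
        refine le_trans ?_ this
        refine Nat.cast_le.2 (card_le_card fun y hy => ?_)
        obtain ⟨h1, h2⟩ := mem_filter.1 hy
        refine mem_filter.2 ⟨h1, ?_⟩
        rw [sum_ite_mem, hI]
        exact h2.2
      · by_cases hq' : q ∈ C
        · simp only [if_pos hq']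
          exact ⟨by rw [fd_per a c P x dvd_rfl], Nat.cast_nonneg _, fd_le hc hq x y⟩
        · simp only [if_neg hq']
          exact ⟨trivial, le_rfl, by positivity⟩
      · refine h.trans (le_of_eq ?_)
        rw [← hI, ← sum_ite_mem]
        refine sum_congr rfl fun q hq => ?_
        rw [hI]
        by_cases hq' : q ∈ C
        · simp only [if_pos hq']
          rw [← sum_fd a c P x (mem_pq.1 hq).2.1.pos, Nat.cast_sum]
        · simp [if_neg hq']
    · rw [filter_eq_empty_iff.2 fun y _ hy => h hy.1]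
      simp only [card_empty, Nat.cast_zero]
      positivity

end Pool.Agent.P.PAR
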