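import Pool.Agent.P.MP_e94e4b_nt.PAR.IfM

/-! Step INT. -/

namespace Pool.Agent.P.PAR

open Finset Real Filter Topology MeasureTheory
open Pool.Agent.P.MP_e86632_nt (ee ee_add norm_ee ee_neg ee_zero)
open Pool.Agent.P.MP_8be758_nt.Avg (gs nsq gs_pos gs_le_one gs_neg gs_anti)
open Pool.Agent.P.MP_e94e4b_nt.PF (sgm)
open Pool.Agent.P.E2
open ArithmeticFunction (cardFactors vonMangoldt)

theorem q_INT (hVB : S_VB) (hEL : S_EL) :
    L_INT := by
  filter_upwards [hVB, eventually_ge_atTop (10 : ℝ)] with r hV hr M N t hM hMN hN ht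
  have r1 : (1 : ℝ) ≤ r := by linarith
  have p1 : ∀ {a b : ℕ}, a ≤ b → r ^ a ≤ r ^ b := fun h => pow_le_pow_right₀ r1 h
  have p2 : r ≤ r ^ 3 := by simpa using p1 (a := 1) (b := 3) (by norm_num)
  have p3 : r ≤ r ^ 12 := by simpa using p1 (a := 1) (b := 12) (by norm_num)
  have p4 : r ≤ r ^ 13 := by simpa using p1 (a := 1) (b := 13) (by norm_num)
  have M0 : (0 : ℝ) < M := (Real.exp_pos _).trans_le hM
  have e1 : ∀ x : ℝ, x + 1 ≤ Real.exp x := Real.add_one_le_exp
  have t0 : 0 < 1 + |t| := by positivity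
  by_cases h : (M : ℝ) ≤ Real.exp (4 * r) * (2 * π * t) ^ 2
  · have h1 := hV 1 M N (fun _ => 1) t per_one (by simpa using (by linarith : 0 ≤ r))
      ((Real.exp_le_exp.2 (by linarith [p1 (a := 9) (b := 12) (by norm_num)])).trans hM) hMN hN h
      (by
        rw [abs_mul, abs_of_pos (by positivity), show 4 * r ^ 13 = r ^ 13 + 3 * r ^ 13 by ring,
          Real.exp_add]
        exact mul_le_mul (by linarith [Real.pi_lt_four, e1 (r ^ 13)]) ht (abs_nonneg _)
          (Real.exp_pos _).le)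
    have h2 : 20 * r ^ 3 ≤ Real.log M / r ^ 9 := by
      rw [le_div_iff₀ (by positivity), Real.le_log_iff_exp_le M0]
      rwa [show 20 * r ^ 3 * r ^ 9 = 20 * r ^ 12 by ring]
    have h3 : 8 * Real.exp (-(Real.log M / r ^ 9)) ≤ Real.exp (-r) := by
      refine (mul_le_mul_of_nonneg_right (by linarith [e1 r] : (8 : ℝ) ≤ Real.exp r)
        (Real.exp_pos _).le).trans ?_
      rw [← Real.exp_add]
      exact Real.exp_le_exp.2 (by linarith)
    have h4 : 0 ≤ 5 / (1 + |t|) := by positivity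
    nlinarith
  · have h1 := hEL 1 M N (fun _ => 1) t per_one (by exact_mod_cast M0) hN
    have h2 : |t| ≤ √M := Real.abs_le_sqrt (by
      have a1 : 1 ≤ Real.exp (4 * r) := Real.one_le_exp (by linarith)
      have a2 : t ^ 2 ≤ (2 * π * t) ^ 2 := by
        rw [mul_pow]
        exact le_mul_of_one_le_left (by positivity) (one_le_pow₀ (by linarith [Real.pi_gt_three]))
      nlinarith [not_le.1 h])
    have h3 : Real.exp (10 * r ^ 12) ≤ √M := Real.le_sqrt_of_sq_le (by
      rw [← Real.exp_nat_mul]; convert hM using 2; push_cast; ring)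
    have h4 : 60 ≤ √M * Real.exp (-r) := by
      refine le_trans ?_ (mul_le_mul_of_nonneg_right h3 (Real.exp_pos _).le)
      rw [← Real.exp_add]
      linarith [e1 (10 * r ^ 12 + -r)]
    have h5 : 1 ≤ √M := by linarith [e1 (10 * r ^ 12)]
    have h6 := Real.mul_self_sqrt M0.le
    rw [mul_add, ← mul_div_assoc, mul_comm (M : ℝ) 5]
    refine h1.trans (add_le_add le_rfl ?_)
    push_cast
    nlinarith [mul_le_mul_of_nonneg_left h4 (Real.sqrt_nonneg M)]

end Pool.Agent.P.PAR
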