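import Pool.Agent.P.MP_e94e4b_nt.PAR.IfE

/-! Step LAD. -/

namespace Pool.Agent.P.PAR

open Finset Real Filter Topology MeasureTheory
open Pool.Agent.P.MP_e86632_nt (ee ee_add norm_ee ee_neg ee_zero)
open Pool.Agent.P.MP_8be758_nt.Avg (gs nsq gs_pos gs_le_one gs_neg gs_anti)
open Pool.Agent.P.MP_e94e4b_nt.PF (sgm)
open Pool.Agent.P.E2
open ArithmeticFunction (cardFactors vonMangoldt)

namespace LADb

noncomputable def kk (κ : ℝ) (p : ℕ) : ℕ := ⌈Real.log p / κ⌉₊ + 1

noncomputable def PP (κ : ℝ) (p0 : ℕ) : ℕ → ℕ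
  | 0 => p0
  | j + 1 => kk κ (PP κ p0 j) * PP κ p0 j

theorem logsub {u v : ℝ} (hu : 0 < u) (hv : 0 < v) : Real.log v - Real.log u ≤ (v - u) / u := by
  rw [← Real.log_div hv.ne' hu.ne']
  have := Real.log_le_sub_one_of_pos (div_pos hv hu)
  have e : (v - u) / u = v / u - 1 := by field_simp
  linarith

theorem step {l l' : ℝ} (hl : 3 ≤ l) (h1 : l ≤ l') (h2 : l' ≤ l + 2 * Real.log l) :
    Real.log (Real.log l') - Real.log (Real.log l) ≤ 2 * (1 / l) := by
  have hl0 : 0 < l := by linarith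
  have a0 : 0 < Real.log l := Real.log_pos (by linarith)
  have a1 : 0 < Real.log l' := Real.log_pos (by linarith)
  have b1 := logsub a0 a1
  have b2 := logsub hl0 (show 0 < l' by linarith)
  have b3 : (l' - l) / l ≤ 2 * Real.log l / l := div_le_div_of_nonneg_right (by linarith) hl0.le
  have b4 : (Real.log l' - Real.log l) / Real.log l ≤ (2 * Real.log l / l) / Real.log l :=
    div_le_div_of_nonneg_right (by linarith) a0.le
  have e : (2 * Real.log l / l) / Real.log l = 2 * (1 / l) := by field_simp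
  linarith

theorem kk_two {κ : ℝ} (hκ : 0 < κ) {p : ℕ} (h : 3 ≤ Real.log p) : 2 ≤ kk κ p := by
  have : 0 < ⌈Real.log p / κ⌉₊ := Nat.ceil_pos.2 (div_pos (by linarith) hκ)
  unfold kk; omega

theorem kk_ge {κ : ℝ} (hκ : 0 < κ) (p : ℕ) : Real.log p ≤ κ * kk κ p := by
  have h := Nat.le_ceil (Real.log p / κ)
  rw [div_le_iff₀ hκ] at h
  unfold kk; push_cast; nlinarith

theorem kk_le {κ : ℝ} (hκ : 0 < κ) {p : ℕ} (h : 3 ≤ Real.log p) (h2 : 2 / κ ≤ Real.log p) :
    Real.log (kk κ p) ≤ 2 * Real.log (Real.log p) := by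
  have h0 : 0 ≤ Real.log p / κ := div_nonneg (by linarith) hκ.le
  have h1 := Nat.ceil_lt_add_one h0
  have h3 : Real.log p / κ ≤ Real.log p ^ 2 / 2 := by
    have : Real.log p / κ = Real.log p * (2 / κ) / 2 := by field_simp
    rw [this]
    have := mul_le_mul_of_nonneg_left h2 (show 0 ≤ Real.log p by linarith)
    nlinarith
  have h4 : (kk κ p : ℝ) ≤ Real.log p ^ 2 := by
    unfold kk; push_cast; nlinarith
  have h5 : (0 : ℝ) < kk κ p := by
    have := kk_two hκ h
    have : 0 < kk κ p := by omega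
    exact_mod_cast this
  have := Real.log_le_log h5 h4
  rw [Real.log_pow] at this
  exact_mod_cast this

end LADb

theorem q_LAD :
    L_LAD := by
  intro κ T P0 hκ
  set p0 : ℕ := max P0 ⌈Real.exp (max 3 (2 / κ))⌉₊ with hp0
  have hbase : ∀ p : ℕ, p0 ≤ p → max 3 (2 / κ) ≤ Real.log p := by
    intro p hp
    have h1 : Real.exp (max 3 (2 / κ)) ≤ p :=
      (Nat.le_ceil _).trans (by exact_mod_cast (le_max_right _ _).trans hp)
    have := Real.log_le_log (Real.exp_pos _) h1
    rwa [Real.log_exp] at this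
  have h3 : ∀ p : ℕ, p0 ≤ p → 3 ≤ Real.log p := fun p hp => (le_max_left _ _).trans (hbase p hp)
  have hk : ∀ p : ℕ, p0 ≤ p → 2 / κ ≤ Real.log p := fun p hp => (le_max_right _ _).trans (hbase p hp)
  have h2 : ∀ p : ℕ, p0 ≤ p → 2 ≤ p := by
    intro p hp
    by_contra hc
    have := h3 p hp
    have hp1 : p = 0 ∨ p = 1 := by omega
    rcases hp1 with rfl | rfl <;> simp at this <;> linarith
  have hge : ∀ j, p0 + j ≤ LADb.PP κ p0 j := by
    intro j
    induction j with
    | zero => simp [LADb.PP]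
    | succ j ih =>
      have a : p0 ≤ LADb.PP κ p0 j := by omega
      have b := LADb.kk_two hκ (h3 _ a)
      have c := h2 _ a
      have d : 2 * LADb.PP κ p0 j ≤ LADb.kk κ (LADb.PP κ p0 j) * LADb.PP κ p0 j :=
        Nat.mul_le_mul_right _ b
      show p0 + (j + 1) ≤ LADb.kk κ (LADb.PP κ p0 j) * LADb.PP κ p0 j
      omega
  have hp : ∀ j, p0 ≤ LADb.PP κ p0 j := fun j => by have := hge j; omega
  have htel : ∀ J, Real.log (Real.log (Real.log (LADb.PP κ p0 J))) -
      Real.log (Real.log (Real.log (LADb.PP κ p0 0))) ≤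
      2 * ∑ j ∈ range J, 1 / Real.log (LADb.PP κ p0 j) := by
    intro J
    induction J with
    | zero => simp
    | succ J ih =>
      rw [Finset.sum_range_succ]
      have a := hp J
      have b := LADb.kk_two hκ (h3 _ a)
      have c := h2 _ a
      have e : Real.log (LADb.PP κ p0 (J + 1)) =
          Real.log (LADb.kk κ (LADb.PP κ p0 J)) + Real.log (LADb.PP κ p0 J) := by
        show Real.log ((LADb.kk κ (LADb.PP κ p0 J) * LADb.PP κ p0 J : ℕ) : ℝ) = _
        push_cast
        rw [Real.log_mul]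
        · have : LADb.kk κ (LADb.PP κ p0 J) ≠ 0 := by omega
          exact_mod_cast this
        · have : LADb.PP κ p0 J ≠ 0 := by omega
          exact_mod_cast this
      have f := LADb.kk_le hκ (h3 _ a) (hk _ a)
      have g : 0 ≤ Real.log (LADb.kk κ (LADb.PP κ p0 J)) := Real.log_natCast_nonneg _
      have := LADb.step (l' := Real.log (LADb.PP κ p0 (J + 1))) (h3 _ a) (by linarith) (by linarith)
      linarith
  have hT : Tendsto (fun J => Real.log (Real.log (Real.log (LADb.PP κ p0 J)))) atTop atTop := by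
    refine Real.tendsto_log_atTop.comp (Real.tendsto_log_atTop.comp (Real.tendsto_log_atTop.comp
      (tendsto_natCast_atTop_atTop.comp ?_)))
    exact tendsto_atTop_mono (fun j => by have := hge j; show j ≤ _; omega) tendsto_id
  obtain ⟨J, hJ⟩ := (hT.eventually_ge_atTop
    (2 * T + Real.log (Real.log (Real.log (LADb.PP κ p0 0))))).exists
  refine ⟨J, LADb.PP κ p0, fun j => LADb.kk κ (LADb.PP κ p0 j), fun j => ⟨?_, h2 _ (hp j), ?_, rfl,
    LADb.kk_ge hκ _⟩, ?_⟩
  · exact (le_max_left _ _).trans (hp j)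
  · exact le_trans (by norm_num) (LADb.kk_two hκ (h3 _ (hp j)))
  · have := htel J; linarith

end Pool.Agent.P.PAR
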