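import Pool.Agent.P.MP_e94e4b_nt.PAR.IfM

/-! Step LD1. -/

namespace Pool.Agent.P.PAR

open Finset Real Filter Topology MeasureTheory
open Pool.Agent.P.MP_e86632_nt (ee ee_add norm_ee ee_neg ee_zero)
open Pool.Agent.P.MP_8be758_nt.Avg (gs nsq gs_pos gs_le_one gs_neg gs_anti)
open Pool.Agent.P.MP_e94e4b_nt.PF (sgm)
open Pool.Agent.P.E2
open ArithmeticFunction (cardFactors vonMangoldt)

namespace LD1b

theorem pw {ρ : ℝ} (h : 12 ≤ ρ) (j : ℕ) : 2 ^ j * ρ ≤ nx^[j] ρ := by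
  induction j with
  | zero => simp
  | succ j ih =>
    have h1 : (1 : ℝ) ≤ 2 ^ j := one_le_pow₀ (by norm_num)
    have h2 := two_mul_le_nx (ρ := nx^[j] ρ) (by nlinarith)
    rw [Function.iterate_succ_apply', pow_succ]
    linarith

theorem ge12 {ρ : ℝ} (h : 12 ≤ ρ) (j : ℕ) : 12 ≤ nx^[j] ρ := by
  have h1 : (1 : ℝ) ≤ 2 ^ j := one_le_pow₀ (by norm_num)
  have := pw h j
  nlinarith

theorem inv_le {ρ : ℝ} (h : 12 ≤ ρ) (j k : ℕ) :
    1 / (nx^[j] ρ) ^ (k + 1) ≤ (1 / 2) ^ j * (1 / ρ ^ (k + 1)) := by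
  have h0 : 0 < ρ := by linarith
  have h1 : (1 : ℝ) ≤ 2 ^ j := one_le_pow₀ (by norm_num)
  have h2 : (2 ^ j * ρ) ^ (k + 1) ≤ (nx^[j] ρ) ^ (k + 1) :=
    pow_le_pow_left₀ (by positivity) (pw h j) _
  have h3 : (2 : ℝ) ^ j ≤ (2 ^ j) ^ (k + 1) := le_self_pow₀ h1 (by omega)
  rw [one_div_pow, one_div_mul_one_div]
  refine one_div_le_one_div_of_le (by positivity) (le_trans ?_ h2)
  rw [mul_pow]
  exact mul_le_mul_of_nonneg_right h3 (by positivity)

theorem sum_le {ρ : ℝ} (h : 12 ≤ ρ) (J k : ℕ) :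
    ∑ j ∈ range J, 1 / (nx^[j] ρ) ^ (k + 1) ≤ 2 / ρ ^ (k + 1) := by
  have h0 : 0 < ρ := by linarith
  refine (sum_le_sum fun j _ => inv_le h j k).trans ?_
  rw [← sum_mul, div_eq_mul_one_div 2]
  exact mul_le_mul_of_nonneg_right (sum_geometric_two_le J) (by positivity)

end LD1b

open LD1b in
theorem q_LD1 :
    L_LD1 := by
  intro ρ b h
  refine ⟨fun J => ⟨sum_le h J 2, ?_⟩, monotone_nat_of_le_succ fun j => ?_, ?_⟩
  · have e : ∀ j, 1 / Real.log (nx^[j + 1] ρ) = 6 * (1 / (nx^[j] ρ) ^ (1 + 1)) := fun j => by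
      rw [Function.iterate_succ_apply', log_nx, one_div_div, ← div_eq_mul_one_div]
    simp only [e]
    rw [← mul_sum]
    have := sum_le h J 1
    have e2 : 12 / ρ ^ 2 = 6 * (2 / ρ ^ (1 + 1)) := by ring
    rw [e2]
    linarith
  · have h1 := ge12 h j
    have h2 := two_mul_le_nx h1
    rw [Function.iterate_succ_apply']
    linarith
  · filter_upwards [eventually_ge_atTop (2 * ρ ^ 12), eventually_gt_atTop 0,
      Real.tendsto_log_atTop.eventually_ge_atTop (8 * (b : ℝ) + 2)] with r r1 r0 r2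
    have hb : (0 : ℝ) ≤ b := Nat.cast_nonneg b
    have ex : ∃ J : ℕ, b * Real.log r ≤ (nx^[J] ρ) ^ 6 := by
      obtain ⟨J, hJ⟩ := pow_unbounded_of_one_lt (b * Real.log r) (show (1 : ℝ) < 2 by norm_num)
      have h1 := pw h J
      have h2 := ge12 h J
      have h3 : nx^[J] ρ ≤ (nx^[J] ρ) ^ 6 := le_self_pow₀ (by linarith) (by norm_num)
      have h4 : (0 : ℝ) < 2 ^ J := by positivity
      exact ⟨J, by nlinarith⟩
    classical
    refine ⟨Nat.find ex, Nat.find_spec ex, ?_⟩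
    rcases hJ : Nat.find ex with _ | j
    · simpa using r1
    · have h1 := not_le.1 (Nat.find_min ex (show j < Nat.find ex by omega))
      rw [Function.iterate_succ_apply', nx_pow_twelve]
      generalize nx^[j] ρ = x at h1
      have hr : Real.exp (Real.log r) = r := Real.exp_log r0
      generalize Real.log r = L at h1 r2 hr
      have hb2 : (b : ℝ) ≤ (b : ℝ) ^ 2 := by exact_mod_cast Nat.le_self_pow (by norm_num) b
      have h2 : 64 * (b : ℝ) ≤ L ^ 2 := by nlinarith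
      have h3 : (x ^ 2) ^ 3 ≤ (L / 4) ^ 3 := by
        have : (x ^ 2) ^ 3 = x ^ 6 := by ring
        nlinarith
      have h4 : x ^ 2 ≤ L / 4 := le_of_pow_le_pow_left₀ (by norm_num) (by linarith) h3
      have h5 : Real.exp (2 * x ^ 2) ≤ Real.exp (L / 2) := Real.exp_le_exp.2 (by linarith)
      have h6 := Real.add_one_le_exp (L / 2)
      have h7 : Real.exp L = Real.exp (L / 2) * Real.exp (L / 2) := by
        rw [← Real.exp_add]; congr 1; ring
      nlinarith [Real.exp_pos (L / 2)]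

end Pool.Agent.P.PAR
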