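import Pool.Agent.P.MP_e94e4b_nt.PAR.IfM

/-! Step LG. -/

namespace Pool.Agent.P.PAR

open Finset Real Filter Topology MeasureTheory
open Pool.Agent.P.MP_e86632_nt (ee ee_add norm_ee ee_neg ee_zero)
open Pool.Agent.P.MP_8be758_nt.Avg (gs nsq gs_pos gs_le_one gs_neg gs_anti)
open Pool.Agent.P.MP_e94e4b_nt.PF (sgm)
open Pool.Agent.P.E2
open ArithmeticFunction (cardFactors vonMangoldt)

namespace LGb

theorem sub_le {P δ : ℝ} (hP : 1 ≤ P) (hδ : 0 ≤ δ) (V : ℕ) :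
    ∑ p ∈ (MP_8be758_nt.Avg.PL (yy P δ V)).filter
      (fun p : ℕ => P ≤ (p : ℝ) ∧ (p : ℝ) < yy P δ V), 1 / (p : ℝ) ≤ 1 + rs (pa P δ V) := by
  have h0 : 0 ≤ P := by linarith
  have h1 : 1 / ((⌊P⌋₊ : ℕ) : ℝ) ≤ 1 := by
    have : (1 : ℝ) ≤ (⌊P⌋₊ : ℕ) := by exact_mod_cast Nat.le_floor (by simpa using hP)
    rw [div_le_one (by linarith)]; exact this
  calc _ ≤ ∑ p ∈ insert ⌊P⌋₊ (pa P δ V), 1 / (p : ℝ) := by
        refine sum_le_sum_of_subset_of_nonneg (fun p hp => ?_) fun _ _ _ => by positivity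
        obtain ⟨h2, h3, h4⟩ := mem_filter.1 hp
        rcases h3.eq_or_lt with h5 | h5
        · rw [h5, Nat.floor_natCast]; exact mem_insert_self _ _
        · exact mem_insert_of_mem ((mem_pa h0 hδ).2
            ⟨⟨h5, h4.le⟩, MP_8be758_nt.Avg.prime_of_mem_PL h2⟩)
    _ ≤ _ := by
        by_cases h : ⌊P⌋₊ ∈ pa P δ V
        · rw [insert_eq_of_mem h]; unfold rs; linarith
        · rw [sum_insert h]; unfold rs; linarith

theorem lower {r δ A : ℝ} (hδ : 0 < δ) (hδ1 : δ ≤ 1 / 2) (h : 2 ≤ r)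
    (h2 : 21 * Real.exp A * r ^ 12 ≤ δ / 32 * r ^ 13) :
    A ≤ Real.log (Real.log (yy (lP r) δ (lV r)) / Real.log (lP r)) := by
  have h0 : 0 < r ^ 12 := by positivity
  have h13 : 16 ≤ r ^ 13 := le_trans (by norm_num) (pow_le_pow_left₀ (by norm_num) h 13)
  have h1 : δ / 2 ≤ Real.log (1 + δ) := by
    refine le_trans ?_ (Real.le_log_one_add_of_nonneg hδ.le)
    rw [div_le_div_iff₀ (by norm_num) (by positivity)]
    nlinarith
  have h3 : r ^ 13 / 16 ≤ (lV r : ℝ) := by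
    have := Nat.lt_floor_add_one (r ^ 13 / 8)
    unfold lV; linarith
  have h4 := mul_le_mul h3 h1 (by positivity) (by positivity)
  have hP : Real.log (lP r) = 21 * r ^ 12 := Real.log_exp _
  rw [log_yy (P := lP r) (Real.exp_pos _) hδ.le, hP, Real.le_log_iff_exp_le (by
    have := Real.log_nonneg (show 1 ≤ 1 + δ by linarith)
    positivity), le_div_iff₀ (by positivity)]
  nlinarith

theorem one {P δ : ℝ} (hδ : 0 < δ) (hδ1 : δ ≤ 1 / 2) (hP : 2 ≤ P) (v : ℕ)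
    (h : δ / 2 * yy P δ v / Real.log (yy P δ v) ≤ (pv P δ v).card) :
    1 / Real.log (yy P δ v) ≤ 4 / δ * ∑ p ∈ pv P δ v, 1 / (p : ℝ) := by
  have h0 : 0 ≤ P := by linarith
  have hy : 2 ≤ yy P δ v := hP.trans (le_yy h0 hδ.le v)
  have hl : 0 < Real.log (yy P δ v) := Real.log_pos (by linarith)
  have h1 : ((pv P δ v).card : ℝ) * (1 / (2 * yy P δ v)) ≤ ∑ p ∈ pv P δ v, 1 / (p : ℝ) := by
    rw [← nsmul_eq_mul]
    refine card_nsmul_le_sum _ _ _ fun p hp => ?_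
    obtain ⟨⟨a, b⟩, _⟩ := (mem_pv h0 hδ.le).1 hp
    rw [yy_succ] at b
    exact one_div_le_one_div_of_le (by linarith) (by nlinarith)
  refine le_trans (le_of_eq ?_) (mul_le_mul_of_nonneg_left
    ((mul_le_mul_of_nonneg_right h (by positivity)).trans h1) (by positivity))
  field_simp
  ring

theorem fl {y δ : ℝ} (hδ : 0 < δ) (hδ1 : δ ≤ 1 / 2) (hy : 4 ≤ y) :
    ⌊(1 + δ) * y⌋₊ ≤ 2 * ⌊y⌋₊ ∧ Real.log y ≤ 2 * Real.log ⌊y⌋₊ := by
  have h1 := Nat.lt_floor_add_one y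
  constructor
  · have h2 := Nat.floor_le (show 0 ≤ (1 + δ) * y by positivity)
    have h3 : (⌊(1 + δ) * y⌋₊ : ℝ) ≤ 2 * ⌊y⌋₊ := by nlinarith
    exact_mod_cast h3
  · have h2 : y ≤ (⌊y⌋₊ : ℝ) ^ 2 := by nlinarith
    simpa using Real.log_le_log (by linarith) h2

end LGb

theorem q_LG (hPNT : S_PNT) (hMR1 : S_MR1) :
    L_LG := by
  intro δ A hδ hδ1
  have ht : Tendsto lP atTop atTop :=
    Real.tendsto_exp_atTop.comp ((tendsto_pow_atTop (by norm_num)).const_mul_atTop (by norm_num))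
  obtain ⟨u0, hu⟩ := eventually_atTop.1 (hPNT 1 (δ / 2) le_rfl (half_pos hδ))
  filter_upwards [ht.eventually (hMR1.1 1 one_pos), ht.eventually_ge_atTop u0,
    eventually_ge_atTop 2, ev_pp (21 * Real.exp (A + 2)) (c := δ / 32) (by positivity)
      (show 12 < 13 by norm_num), ev_pp 21 (c := 1 / 8) (by norm_num) (show 12 < 13 by norm_num)]
    with r h1 h2 h h3 h4
  have h12 : 1 ≤ r ^ 12 := one_le_pow₀ (by linarith)
  have hP : 4 ≤ lP r := by unfold lP; linarith [Real.add_one_le_exp (21 * r ^ 12)]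
  have h0 : 0 ≤ lP r := by linarith
  have hy : ∀ v, 4 ≤ yy (lP r) δ v := fun v => hP.trans (le_yy h0 hδ.le v)
  refine ⟨by linarith, ?_, ?_, fun v hv => ?_, fun v => ?_,
    fun v => ⟨Nat.floor_le_floor (yy_mono h0 hδ.le v.le_succ), ?_⟩,
    fun v => (LGb.fl hδ hδ1 (hy v)).2⟩
  · have a := (abs_le.1 (h1 _ _ le_rfl (le_yy h0 hδ.le (lV r)))).1
    have b := LGb.sub_le (P := lP r) (by linarith) hδ.le (lV r)
    have c := LGb.lower hδ hδ1 h h3
    linarith
  · rw [rs, sum_pa h0 hδ.le, mul_sum]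
    refine sum_le_sum fun v _ => LGb.one hδ hδ1 (by linarith) v ?_
    have a := (abs_le.1 (hu _ (h2.trans (le_yy h0 hδ.le v)) (yy (lP r) δ (v + 1)) 0
      (yy_mono h0 hδ.le v.le_succ) (by rw [yy_succ]; nlinarith [hy v])
      (Nat.coprime_one_right 0))).1
    simp only [Nat.modEq_one, and_true, Nat.totient_one, Nat.cast_one, one_mul] at a
    have b : (yy (lP r) δ (v + 1) - yy (lP r) δ v) / Real.log (yy (lP r) δ v) =
        2 * (δ / 2 * yy (lP r) δ v / Real.log (yy (lP r) δ v)) := by rw [yy_succ]; ring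
    rw [b] at a
    unfold pv; linarith
  · have a : (1 + δ) ^ v ≤ Real.exp (v * δ) := by
      rw [Real.exp_nat_mul]
      exact pow_le_pow_left₀ (by positivity) (by linarith [Real.add_one_le_exp δ]) v
    have b : (v : ℝ) ≤ r ^ 13 / 8 := (Nat.cast_le.2 hv).trans (Nat.floor_le (by positivity))
    calc _ ≤ Real.exp (21 * r ^ 12) * Real.exp (v * δ) :=
          mul_le_mul_of_nonneg_left a (Real.exp_pos _).le
      _ ≤ _ := by
          rw [← Real.exp_add]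
          exact Real.exp_le_exp.2 (by nlinarith [Nat.cast_nonneg (α := ℝ) v])
  · have a := Nat.lt_floor_add_one (yy (lP r) δ v)
    have b := le_yy h0 hδ.le v
    have c : lP r = Real.exp (20 * r ^ 12) * Real.exp (r ^ 12) := by
      rw [lP, ← Real.exp_add]; congr 1; ring
    have d := Real.add_one_le_exp (r ^ 12)
    have e := Real.one_le_exp (show 0 ≤ 20 * r ^ 12 by positivity)
    nlinarith
  · rw [yy_succ]; exact (LGb.fl hδ hδ1 (hy v)).1

end Pool.Agent.P.PAR
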