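import Pool.Agent.P.MP_e94e4b_nt.PAR.IfM
import Pool.Agent.P.MP_e86632_nt.PNT

/-! Step LX. -/

namespace Pool.Agent.P.PAR

open Finset Real Filter Topology MeasureTheory
open Pool.Agent.P.MP_e86632_nt (ee ee_add norm_ee ee_neg ee_zero)
open Pool.Agent.P.MP_8be758_nt.Avg (gs nsq gs_pos gs_le_one gs_neg gs_anti)
open Pool.Agent.P.MP_e94e4b_nt.PF (sgm)
open Pool.Agent.P.E2
open ArithmeticFunction (cardFactors vonMangoldt)

namespace LXb

noncomputable def g0 (s : ℂ) : ℂ :=
  riemannZeta s - 1 / (s - 1) + riemannZeta (2 * s) / riemannZeta s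

noncomputable def G : ℂ → ℂ := Function.update g0 1 (Real.eulerMascheroniConstant : ℂ)

theorem two_ne {s : ℂ} (hs : 1 ≤ s.re) : 2 * s ≠ 1 := by
  intro h
  have := congrArg Complex.re h
  simp at this
  linarith

theorem cont2 {s : ℂ} (hs : 1 ≤ s.re) : ContinuousAt (fun z : ℂ => riemannZeta (2 * z)) s :=
  ContinuousAt.comp (f := fun z : ℂ => 2 * z) (g := riemannZeta)
    (differentiableAt_riemannZeta (two_ne hs)).continuousAt (by fun_prop)

theorem cont_off {s : ℂ} (hs : 1 ≤ s.re) (h1 : s ≠ 1) : ContinuousAt G s := by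
  rw [G, continuousAt_update_of_ne h1]
  have hz := (differentiableAt_riemannZeta h1).continuousAt
  refine (hz.sub ?_).add ((cont2 hs).div hz (riemannZeta_ne_zero_of_one_le_re hs))
  exact continuousAt_const.div (by fun_prop) (sub_ne_zero.2 h1)

theorem cont_one : ContinuousAt G 1 := by
  rw [G, continuousAt_update_same]
  have a1 : Tendsto (fun s : ℂ => riemannZeta (2 * s) * (s - 1) / ((s - 1) * riemannZeta s))
      (𝓝[≠] 1) (𝓝 (riemannZeta (2 * 1) * (1 - 1) / 1)) := by
    refine Tendsto.div (Tendsto.mul ?_ ?_) riemannZeta_residue_one one_ne_zero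
    · exact ((cont2 (s := 1) (by simp)).tendsto).mono_left nhdsWithin_le_nhds
    · exact ((by fun_prop : Continuous fun s : ℂ => s - 1).tendsto 1).mono_left nhdsWithin_le_nhds
  have a2 : Tendsto (fun s : ℂ => riemannZeta (2 * s) / riemannZeta s) (𝓝[≠] 1) (𝓝 0) := by
    simp only [sub_self, mul_zero, zero_div] at a1
    refine a1.congr' ?_
    filter_upwards [self_mem_nhdsWithin] with s hs
    have : s - 1 ≠ 0 := sub_ne_zero.2 hs
    rw [mul_comm (s - 1), mul_div_mul_right _ _ this]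
  have a3 := tendsto_riemannZeta_sub_one_div.add a2
  rw [add_zero] at a3
  exact a3

theorem contG : ContinuousOn G {s | 1 ≤ s.re} := fun s hs => by
  by_cases h : s = 1
  · subst h; exact cont_one.continuousWithinAt
  · exact (cont_off hs h).continuousWithinAt

end LXb

theorem q_LX (hLZ : L_LZ) :
    L_LX := by
  intro ε hε
  have hf : ∀ n, 0 ≤ 1 + lam n := fun n => by rcases lam_cases n with h | h <;> simp [h]
  have hC : ∀ n : ℕ, ∑ j ∈ Finset.Icc 1 n, (1 + lam j) ≤ 2 * n := fun n => by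
    calc ∑ j ∈ Finset.Icc 1 n, (1 + lam j) ≤ ∑ _j ∈ Finset.Icc 1 n, (2 : ℝ) :=
          sum_le_sum fun j _ => by rcases lam_cases j with h | h <;> rw [h] <;> norm_num
      _ = 2 * n := by simp [mul_comm]
  have hGL : ∀ s : ℂ, 1 < s.re →
      LXb.G s = LSeries (fun n => ((1 + lam n : ℝ) : ℂ)) s - (1 : ℝ) / (s - 1) := by
    intro s hs
    have h1 : s ≠ 1 := by rintro rfl; simp at hs
    have e : (fun n => ((1 + lam n : ℝ) : ℂ)) = (1 : ℕ → ℂ) + lc := by
      funext n; simp [lc]
    have s1 : LSeriesSummable (1 : ℕ → ℂ) s :=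
      LSeriesSummable_of_bounded_of_one_lt_re (m := 1) (fun n _ => by simp) hs
    have s2 : LSeriesSummable lc s :=
      LSeriesSummable_of_bounded_of_one_lt_re (m := 1) (fun n _ => norm_lc_le n) hs
    have hz := riemannZeta_ne_zero_of_one_le_re hs.le
    rw [e, LSeries_add s1 s2, LSeries_one_eq_riemannZeta hs, LXb.G, Function.update_of_ne h1,
      LXb.g0, ← hLZ s hs, mul_div_cancel_right₀ _ hz]
    push_cast
    ring
  have T := Pool.Agent.P.MP_e86632_nt.wiener_ikehara (fun n => 1 + lam n) hf hC LXb.G LXb.contG hGL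
  have T2 := (Metric.tendsto_nhds.1 T) ε hε
  filter_upwards [T2, eventually_gt_atTop 0] with N hN h0
  have hN0 : (0 : ℝ) < N := by exact_mod_cast h0
  rw [Real.dist_eq, sum_add_distrib] at hN
  have e : (∑ _j ∈ Finset.Icc 1 N, (1 : ℝ) + ∑ j ∈ Finset.Icc 1 N, lam j) / N - 1
      = (∑ j ∈ Finset.Icc 1 N, lam j) / N := by
    simp only [sum_const, Nat.card_Icc, add_tsub_cancel_right, nsmul_eq_mul, mul_one]
    field_simp
    ring
  rw [e, abs_div, abs_of_pos hN0, div_lt_iff₀ hN0] at hN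
  exact hN.le

end Pool.Agent.P.PAR
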