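import Pool.Agent.P.MP_e94e4b_nt.PAR.IfE

/-! Step MEAN. -/

namespace Pool.Agent.P.PAR

open Finset Real Filter Topology MeasureTheory
open Pool.Agent.P.MP_e86632_nt (ee ee_add norm_ee ee_neg ee_zero)
open Pool.Agent.P.MP_8be758_nt.Avg (gs nsq gs_pos gs_le_one gs_neg gs_anti)
open Pool.Agent.P.MP_e94e4b_nt.PF (sgm)
open Pool.Agent.P.E2
open ArithmeticFunction (cardFactors vonMangoldt)

namespace MEANb

theorem tel (A i : ℕ) {B : ℕ} (h : A ≤ B) :
    ∑ x ∈ Ioc A B, lam (x + (i + 1)) =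
      ∑ x ∈ Ioc A B, lam (x + i) + lam (B + (i + 1)) - lam (A + (i + 1)) := by
  induction B, h using Nat.le_induction with
  | base => simp
  | succ B h ih =>
    rw [sum_Ioc_succ_top h, sum_Ioc_succ_top h, ih, show B + 1 + i = B + (i + 1) by omega]
    ring

theorem shift {A B : ℕ} (h : A ≤ B) (i : ℕ) :
    |∑ x ∈ Ioc A B, lam (x + i) - ∑ x ∈ Ioc A B, lam x| ≤ 2 * i := by
  induction i with
  | zero => simp
  | succ i ih =>
    have a := abs_le.1 (abs_lam (B + (i + 1))).le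
    have b := abs_le.1 (abs_lam (A + (i + 1))).le
    have c := abs_le.1 ih
    rw [tel A i h, abs_le]
    push_cast
    constructor <;> linarith [a.1, a.2, b.1, b.2, c.1, c.2]

theorem avg {A B : ℕ} (hAB : A ≤ B) (h : ℕ) :
    |∑ x ∈ Ioc A B, sh h x - h * ∑ x ∈ Ioc A B, lam x| ≤ 2 * h ^ 2 := by
  induction h with
  | zero => simp [sh]
  | succ h ih =>
    have e : ∑ x ∈ Ioc A B, sh (h + 1) x =
        ∑ x ∈ Ioc A B, sh h x + ∑ x ∈ Ioc A B, lam (x + (h + 1)) := by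
      rw [← sum_add_distrib]
      exact sum_congr rfl fun x _ => sum_Ioc_succ_top (Nat.le_add_right x h) _
    have a := abs_le.1 (shift hAB (h + 1))
    have c := abs_le.1 ih
    have d : (0 : ℝ) ≤ h := Nat.cast_nonneg h
    rw [e, abs_le]
    push_cast at a ⊢
    constructor <;> nlinarith [a.1, a.2, c.1, c.2]

theorem one {ε : ℝ} (hε : 0 < ε) {h N : ℕ} (hh : 1 ≤ h) (hN : 1 ≤ N) (h4 : 4 * h ≤ ε * N)
    (hS : ε * N ≤ |∑ n ∈ Ioc (N ^ 2) ((N + 1) ^ 2), lam n|) :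
    1 / (N : ℝ) ≤ 8 / (ε * h) * ∑ x ∈ Ioc (N ^ 2) ((N + 1) ^ 2), |sh h x| / x := by
  have h0 : (0 : ℝ) < h := by exact_mod_cast hh
  have N1 : (1 : ℝ) ≤ N := by exact_mod_cast hN
  have a := avg (Nat.pow_le_pow_left N.le_succ 2) h
  have b : |∑ x ∈ Ioc (N ^ 2) ((N + 1) ^ 2), sh h x| ≤
      4 * N ^ 2 * ∑ x ∈ Ioc (N ^ 2) ((N + 1) ^ 2), |sh h x| / x := by
    rw [mul_sum]
    refine (abs_sum_le_sum_abs _ _).trans (sum_le_sum fun x hx => ?_)
    have x0 : (0 : ℝ) < x := by exact_mod_cast (Nat.zero_le _).trans_lt (mem_Ioc.1 hx).1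
    have x1 : (x : ℝ) ≤ (N + 1) ^ 2 := by exact_mod_cast (mem_Ioc.1 hx).2
    rw [mul_div_assoc', le_div_iff₀ x0, mul_comm]
    exact mul_le_mul_of_nonneg_right (by nlinarith) (abs_nonneg _)
  have c := abs_sub_abs_le_abs_sub (h * ∑ x ∈ Ioc (N ^ 2) ((N + 1) ^ 2), lam x)
    (∑ x ∈ Ioc (N ^ 2) ((N + 1) ^ 2), sh h x)
  rw [abs_sub_comm, abs_mul, abs_of_pos h0] at c
  have d := mul_le_mul_of_nonneg_left hS h0.le
  have e := mul_le_mul_of_nonneg_left h4 h0.le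
  set T := ∑ x ∈ Ioc (N ^ 2) ((N + 1) ^ 2), |sh h x| / x
  have f : N * (ε * h) ≤ N * (8 * T * N) := by
    simp only [Nat.succ_eq_add_one] at a
    nlinarith
  rw [div_mul_eq_mul_div, div_le_div_iff₀ (by linarith) (by positivity), one_mul]
  exact le_of_mul_le_mul_left f (by linarith)

theorem tile (F : ℕ → ℝ) (Y : ℕ) :
    ∑ N ∈ Icc 1 Y, ∑ x ∈ Ioc (N ^ 2) ((N + 1) ^ 2), F x = ∑ x ∈ Ioc 1 ((Y + 1) ^ 2), F x := by
  induction Y with
  | zero => simp
  | succ Y ih =>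
    rw [sum_Icc_succ_top (by omega), ih]
    exact sum_Ioc_consecutive _ (Nat.one_le_pow _ _ (by omega))
      (Nat.pow_le_pow_left (by omega) 2)

end MEANb

theorem q_MEAN (hMRL : L_MRL) :
    L_MEAN := by
  classical
  intro ε δ hε hδ
  obtain ⟨h, hh, hZ⟩ := hMRL (ε * δ / 64) (by positivity)
  have h0 : (0 : ℝ) < h := by exact_mod_cast hh
  have ht : Tendsto (fun Y : ℕ => (Y + 1) ^ 2) atTop atTop :=
    tendsto_atTop_mono (fun Y => by simp only [id]; nlinarith) tendsto_id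
  obtain ⟨K, hK⟩ := exists_nat_ge (4 * h / ε)
  filter_upwards [ht.eventually hZ, ev_log (1 + Real.log K) (half_pos hδ),
    eventually_ge_atTop 2] with Y h1 h2 h3
  have Y2 : (2 : ℝ) ≤ Y := by exact_mod_cast h3
  have h4 : Real.log (((Y + 1) ^ 2 : ℕ) : ℝ) ≤ 4 * Real.log Y := by
    rw [show 4 * Real.log Y = Real.log (Y ^ 4) by rw [Real.log_pow]; norm_num]
    refine Real.log_le_log (by positivity) ?_
    push_cast
    rw [show (Y : ℝ) ^ 4 = (Y ^ 2) ^ 2 by ring]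
    exact pow_le_pow_left₀ (by linarith) (by nlinarith) 2
  have h5 : lm Y (fun N => K < N ∧ ε * N ≤ |∑ n ∈ Ioc (N ^ 2) ((N + 1) ^ 2), lam n|) ≤
      8 / (ε * h) * ∑ x ∈ Icc 1 ((Y + 1) ^ 2), |sh h x| / x := by
    refine le_trans ?_ (mul_le_mul_of_nonneg_left (sum_le_sum_of_subset_of_nonneg
      Ioc_subset_Icc_self fun _ _ _ => by positivity) (by positivity))
    rw [lm_ite, ← MEANb.tile, mul_sum]
    refine sum_le_sum fun N hN => ?_
    split_ifs with c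
    · refine MEANb.one hε hh (mem_Icc.1 hN).1 ?_ c.2
      have : (K : ℝ) ≤ N := by exact_mod_cast c.1.le
      rw [div_le_iff₀ hε] at hK
      nlinarith
    · exact mul_nonneg (by positivity) (sum_nonneg fun _ _ => by positivity)
  have h6 : 8 / (ε * h) * ∑ x ∈ Icc 1 ((Y + 1) ^ 2), |sh h x| / x ≤ δ / 2 * Real.log Y := by
    refine (mul_le_mul_of_nonneg_left (h1.trans (mul_le_mul_of_nonneg_left h4 (by positivity)))
      (by positivity)).trans (le_of_eq ?_)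
    field_simp
    ring
  linarith [lm_le_add Y K fun N => ε * N ≤ |∑ n ∈ Ioc (N ^ 2) ((N + 1) ^ 2), lam n|]

end Pool.Agent.P.PAR
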