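import Pool.Agent.P.MP_e94e4b_nt.PAR.IfM

/-! Step MID. -/

namespace Pool.Agent.P.PAR

open Finset Real Filter Topology MeasureTheory
open Pool.Agent.P.MP_e86632_nt (ee ee_add norm_ee ee_neg ee_zero)
open Pool.Agent.P.MP_8be758_nt.Avg (gs nsq gs_pos gs_le_one gs_neg gs_anti)
open Pool.Agent.P.MP_e94e4b_nt.PF (sgm)
open Pool.Agent.P.E2
open ArithmeticFunction (cardFactors vonMangoldt)

namespace MIDb

theorem band {F : ℝ → ℂ} (h : Bd F) {Z Z' : ℝ} (hZ : 0 < Z) (hZ' : 0 < Z') {T : Set ℝ}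
    (hT : MeasurableSet T) (hb : ∀ t ∈ T, |t| ≤ Z') :
    ∫ t in T, gs (t / Z) * ‖F t‖ ^ 2 ≤ Real.exp π * ∫ t, gs (t / Z') * ‖F t‖ ^ 2 := by
  refine le_trans ?_ (mul_le_mul_of_nonneg_left (h.set_le hZ' T) (Real.exp_pos _).le)
  rw [← integral_const_mul]
  refine setIntegral_mono_on (h.int hZ).integrableOn ((h.int hZ').const_mul _).integrableOn hT
    fun t ht => ?_
  rw [← mul_assoc]
  refine mul_le_mul_of_nonneg_right ((gs_le_one _).trans ?_) (by positivity)
  have h1 : gs 1 ≤ gs (t / Z') := gs_anti (by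
    rw [abs_div, abs_of_pos hZ', abs_one, div_le_one hZ']; exact hb t ht)
  have h2 : Real.exp π * gs 1 = 1 := by
    rw [gs, ← Real.exp_add]; simp
  calc (1 : ℝ) = Real.exp π * gs 1 := h2.symm
    _ ≤ _ := mul_le_mul_of_nonneg_left h1 (Real.exp_pos _).le

end MIDb

theorem q_MID (hRM : L_RM) (hLS : L_LS) :
    L_MID := by
  intro ε hε
  obtain ⟨C, hC, hR⟩ := hRM
  obtain ⟨δ, θ, hδ, hδ2, hθ, hL⟩ := hLS ε hε
  set K : ℝ := Real.exp π * C with hK
  have hK0 : 0 < K := by positivity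
  set T1 : ℝ := 4 * K / θ with hT1
  have hT0 : 0 < T1 := by positivity
  refine ⟨T1, ?_⟩
  filter_upwards [hL, ev_pe1 (1 + T1) 0, ev_lin 4 0 (c := 3 / 4) (k := 13) (by norm_num)
    (by norm_num), eventually_ge_atTop 0] with r ⟨hg, hm⟩ h1 h2 h0 X Z hX hZ1 hZX
  have hr : 0 ≤ r ^ 13 := by positivity
  refine hm X Z T1 K _ hX hZ1 hZX hT0.le hK0.le (meas_band _ _)
    (fun t ht => ⟨ht.1, ht.2.trans (Real.exp_le_exp.2 (by linarith))⟩) (fun v hv => ?_) ?_
  · refine (MIDb.band (bd_rv X _ δ v) (by linarith) (Real.exp_pos (4 * r)) (meas_band _ _)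
      fun t ht => ht.2).trans ?_
    rw [hK, mul_assoc]
    refine mul_le_mul_of_nonneg_left (hR X v _ δ _ (by linarith [hg.p2]) hδ.le
      (Real.one_le_exp (by linarith)) ?_) (Real.exp_pos _).le
    refine (mul_le_mul_of_nonneg_left (hg.yu v hv.le) (Real.exp_pos _).le).trans ?_
    rw [← Real.exp_add, hX, XX]
    exact Real.exp_le_exp.2 (by linarith)
  · rw [pow_zero, mul_one] at h1
    have h3 : Real.exp (-r) ≤ 1 / (1 + T1) := by
      rw [Real.exp_neg, ← one_div]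
      exact one_div_le_one_div_of_le (by linarith) h1
    have h4 : (1 / (1 + T1) + Real.exp (-r)) ^ 2 ≤ (2 / (1 + T1)) ^ 2 :=
      pow_le_pow_left₀ (by positivity) (by
        have : 2 / (1 + T1) = 1 / (1 + T1) + 1 / (1 + T1) := by ring
        linarith) 2
    refine (mul_le_mul_of_nonneg_right h4 hK0.le).trans ?_
    have h5 : θ * T1 = 4 * K := by rw [hT1]; field_simp
    rw [div_pow, div_mul_eq_mul_div, div_le_iff₀ (by positivity)]
    nlinarith [mul_pos hθ hT0, mul_pos (mul_pos hθ hT0) hT0]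

end Pool.Agent.P.PAR
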