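import Pool.Agent.P.MP_e94e4b_nt.PAR.IfM

/-! Step MOM. -/

namespace Pool.Agent.P.PAR

open Finset Real Filter Topology MeasureTheory
open Pool.Agent.P.MP_e86632_nt (ee ee_add norm_ee ee_neg ee_zero)
open Pool.Agent.P.MP_8be758_nt.Avg (gs nsq gs_pos gs_le_one gs_neg gs_anti)
open Pool.Agent.P.MP_e94e4b_nt.PF (sgm)
open Pool.Agent.P.E2
open ArithmeticFunction (cardFactors vonMangoldt)

namespace MOMb

theorem key (k : ℕ) {l : ℕ} (hl : 1 ≤ l) :
    (k : ℝ) ^ (2 * l) ≤ (3 * l : ℝ) ^ (2 * l) * 2 ^ k := by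
  have l0 : (0 : ℝ) < l := by exact_mod_cast hl
  have h2 := Real.log_two_gt_d9
  have k0 : (0 : ℝ) ≤ k := Nat.cast_nonneg k
  have h1 : (k : ℝ) ≤ 3 * l * Real.exp (k * Real.log 2 / (2 * l)) := by
    have h3 := Real.add_one_le_exp (k * Real.log 2 / (2 * l))
    have h4 : 3 * (l : ℝ) * (k * Real.log 2 / (2 * l)) = k * (3 / 2 * Real.log 2) := by
      field_simp
    nlinarith [mul_le_mul_of_nonneg_left h3 (show (0 : ℝ) ≤ 3 * l by positivity)]
  refine (pow_le_pow_left₀ k0 h1 _).trans_eq ?_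
  rw [mul_pow, ← Real.exp_nat_mul]
  congr 1
  rw [show ((2 * l : ℕ) : ℝ) * (k * Real.log 2 / (2 * l)) = k * Real.log 2 by
    push_cast; field_simp, Real.exp_nat_mul, Real.exp_log two_pos]

end MOMb

theorem q_MOM (hMV : S_MV) (hW2 : L_W2) (hCV : L_CV) :
    L_MOM := by
  obtain ⟨C, hC, hMV⟩ := hMV
  refine ⟨3 * C, by positivity, fun S I b Y N l Z hS hr hI hb hl hZ => ?_⟩
  obtain ⟨c, hc, e⟩ := hCV S I b Y N l (fun p hp => ⟨(hS p hp).1.one_le, (hS p hp).2⟩) hI hb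
  have h1 := hMV Z ((Y : ℝ) ^ l * N) (Icc 1 (Y ^ l * N)) c hZ fun n hn =>
    ⟨(mem_Icc.1 hn).1, by exact_mod_cast (mem_Icc.1 hn).2⟩
  have h2 := hW2 S (Y ^ l * N) fun p hp => (hS p hp).1
  have h3 : Real.exp (rs S) ≤ 3 :=
    (Real.exp_le_exp.2 hr).trans (Real.exp_one_lt_d9.le.trans (by norm_num))
  have h4 : nsq (Icc 1 (Y ^ l * N)) c ≤ (3 * l : ℝ) ^ (2 * l) * (((Y : ℝ) ^ l * N) * 3) := by
    refine (sum_le_sum (g := fun n => (3 * l : ℝ) ^ (2 * l) * 2 ^ (S.filter (· ∣ n)).card)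
      fun n _ => ?_).trans ?_
    · refine (pow_le_pow_left₀ (norm_nonneg _) (hc n) 2).trans ?_
      rw [← pow_mul, mul_comm l 2]
      exact MOMb.key _ hl
    · rw [← mul_sum]
      push_cast at h2
      exact mul_le_mul_of_nonneg_left (h2.trans (mul_le_mul_of_nonneg_left h3 (by positivity)))
        (by positivity)
  simp only [← e, norm_mul, norm_pow, mul_pow, ← pow_mul, mul_comm l 2] at h1
  refine h1.trans ((mul_le_mul_of_nonneg_left h4 (by positivity)).trans_eq ?_)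
  ring

end Pool.Agent.P.PAR
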