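import Pool.Agent.P.MP_e94e4b_nt.PAR.IfM

/-! Step MRD. -/

namespace Pool.Agent.P.PAR

open Finset Real Filter Topology MeasureTheory
open Pool.Agent.P.MP_e86632_nt (ee ee_add norm_ee ee_neg ee_zero)
open Pool.Agent.P.MP_8be758_nt.Avg (gs nsq gs_pos gs_le_one gs_neg gs_anti)
open Pool.Agent.P.MP_e94e4b_nt.PF (sgm)
open Pool.Agent.P.E2
open ArithmeticFunction (cardFactors vonMangoldt)

namespace MRDb

theorem cont_Phi (X : ℕ) (a : ℝ) (b : ℕ → ℂ) : Continuous (Phi X a b) := by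
  unfold Phi; fun_prop

theorem int_sq (hPL : S_PL) (X : ℕ) (h0 : ℝ) (hX : 1 ≤ X) (hh : 1 ≤ h0) :
    ∫ v : ℝ, ‖Phi X (h0 / X) lc v‖ ^ 2 ≤ mq X (X / h0) Set.univ := by
  have hX' : (0 : ℝ) < X := by exact_mod_cast hX
  have ha : 0 < h0 / X := by positivity
  have hZ : 0 < (X : ℝ) / h0 := by positivity
  have h := hPL (Ioc X (8 * X)) lc (fun n => Real.log n) (h0 / X) (h0 / X) 0 ha ha
  simp only [zero_mul, sub_zero] at h
  unfold Phi
  rw [h, mq, Measure.restrict_univ]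
  refine integral_mono_of_nonneg (ae_of_all _ fun t => by positivity) ((bd_FF X).int hZ)
    (ae_of_all _ fun t => ?_)
  have e : h0 / X * t = t / (X / h0) := by field_simp
  have e2 : FF X t = ∑ j ∈ Ioc X (8 * X), lc j * ee (-(t * Real.log j)) := rfl
  beta_reduce
  rw [e, e2, mul_comm]
  refine mul_le_mul_of_nonneg_right ?_ (by positivity)
  have h1 := gs_pos (t / (X / h0))
  have h2 := gs_le_one (t / (X / h0))
  nlinarith

theorem int_abs {φ : ℝ → ℂ} (hc : Continuous φ) (hi : Integrable fun v => ‖φ v‖ ^ 2)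
    {a b L : ℝ} (hab : a ≤ b) (h1 : b - a ≤ 1) (hL : 0 < L) :
    ∫ v in a..b, ‖φ v‖ ≤ L / 2 + (∫ v, ‖φ v‖ ^ 2) / (2 * L) := by
  have c2 : Continuous fun v => ‖φ v‖ ^ 2 := by fun_prop
  have s1 : ∫ v in a..b, ‖φ v‖ ≤ ∫ v in a..b, (L / 2 + ‖φ v‖ ^ 2 / (2 * L)) := by
    refine intervalIntegral.integral_mono_on hab (hc.norm.intervalIntegrable _ _)
      ((by fun_prop : Continuous fun v => L / 2 + ‖φ v‖ ^ 2 / (2 * L)).intervalIntegrable _ _)
      fun v _ => ?_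
    have : 0 ≤ (‖φ v‖ - L) ^ 2 / (2 * L) := by positivity
    have e : (‖φ v‖ - L) ^ 2 / (2 * L) = L / 2 + ‖φ v‖ ^ 2 / (2 * L) - ‖φ v‖ := by
      field_simp; ring
    linarith
  rw [intervalIntegral.integral_add (continuous_const.intervalIntegrable _ _)
    ((c2.div_const _).intervalIntegrable _ _), intervalIntegral.integral_const,
    intervalIntegral.integral_div, smul_eq_mul] at s1
  have s2 : ∫ v in a..b, ‖φ v‖ ^ 2 ≤ ∫ v, ‖φ v‖ ^ 2 := by
    rw [intervalIntegral.integral_of_le hab]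
    exact setIntegral_le_integral hi (ae_of_all _ fun v => by positivity)
  have s3 : (∫ v in a..b, ‖φ v‖ ^ 2) / (2 * L) ≤ (∫ v, ‖φ v‖ ^ 2) / (2 * L) :=
    div_le_div_of_nonneg_right s2 (by positivity)
  nlinarith

end MRDb

theorem q_MRD (hPL : S_PL) (hFF : L_FF) (hSS : L_SS) (hOVL : L_OVL) :
    L_MRD := by
  intro ε hε
  obtain ⟨h0, hh0, hev⟩ := hFF (ε ^ 2 / 4) (by positivity)
  obtain ⟨C, hC, hS⟩ := hSS
  refine ⟨⌈4 * C * h0 / ε⌉₊ + 1, by omega, ?_⟩
  set h : ℕ := ⌈4 * C * h0 / ε⌉₊ + 1 with hh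
  have hh1 : 1 ≤ h := by omega
  have hh2 : 4 * C * h0 ≤ ε * h := by
    have h1 : 4 * C * h0 / ε ≤ h := by
      rw [hh]; push_cast
      linarith [Nat.le_ceil (4 * C * h0 / ε)]
    rw [div_le_iff₀ hε] at h1
    linarith
  filter_upwards [hev, eventually_ge_atTop h] with X hm hX
  have hX1 : 1 ≤ X := hh1.trans hX
  have hX' : (0 : ℝ) < X := by exact_mod_cast hX1
  have ha : 0 < h0 / X := by positivity
  have hc := MRDb.cont_Phi X (h0 / X) lc
  have k1 : ∀ x ∈ Ioc (2 * X) (4 * X), |sh h x| ≤ C * h0 +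
      ∫ v in (Real.log x)..(Real.log (x + h : ℕ)), ‖Phi X (h0 / X) lc v‖ := by
    intro x hx
    obtain ⟨hx1, hx2⟩ := mem_Ioc.1 hx
    have h1 := hS X x (x + h) h0 lc hX1 hh0 (by omega) (by omega) (by omega) norm_lc_le
    have hle : Real.log x ≤ Real.log (x + h : ℕ) :=
      Real.log_le_log (by exact_mod_cast (by omega : 0 < x)) (by exact_mod_cast (by omega))
    have h2 := intervalIntegral.norm_integral_le_integral_norm (f := Phi X (h0 / X) lc)
      (μ := volume) hle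
    rw [sh, ← norm_sum_lc]
    have h3 := norm_add_le (∑ n ∈ Ioc x (x + h), lc n -
      ∫ v in (Real.log x)..(Real.log (x + h : ℕ)), Phi X (h0 / X) lc v)
      (∫ v in (Real.log x)..(Real.log (x + h : ℕ)), Phi X (h0 / X) lc v)
    rw [sub_add_cancel] at h3
    linarith
  have k2 := hOVL (fun v => ‖Phi X (h0 / X) lc v‖) (2 * X) (4 * X) h hc.norm
    (fun v => norm_nonneg _) (by omega) (by omega)
  have hle : Real.log (2 * X : ℕ) ≤ Real.log (4 * X + h : ℕ) :=
    Real.log_le_log (by exact_mod_cast (by omega : 0 < 2 * X)) (by exact_mod_cast (by omega))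
  have hlen : Real.log (4 * X + h : ℕ) - Real.log (2 * X : ℕ) ≤ 1 := by
    have p1 : (0 : ℝ) < (2 * X : ℕ) := by exact_mod_cast (by omega : 0 < 2 * X)
    have p2 : (0 : ℝ) < (4 * X + h : ℕ) := by exact_mod_cast (by omega : 0 < 4 * X + h)
    rw [← Real.log_div p2.ne' p1.ne', Real.log_le_iff_le_exp (by positivity), div_le_iff₀ p1]
    have e1 := Real.exp_one_gt_d9
    have hx : (h : ℝ) ≤ X := by exact_mod_cast hX
    push_cast
    nlinarith
  have k3 := MRDb.int_abs hc (int_gk_sq _ lc (fun n => Real.log n) ha) hle hlen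
    (L := ε * X / 2) (by positivity)
  have k4 := (MRDb.int_sq hPL X h0 hX1 hh0).trans hm
  have k5 : (∫ v, ‖Phi X (h0 / X) lc v‖ ^ 2) / (2 * (ε * X / 2)) ≤ ε * X / 4 := by
    rw [div_le_iff₀ (by positivity)]
    nlinarith
  have k6 := sum_le_sum k1
  rw [sum_add_distrib, sum_const, Nat.card_Ioc, show 4 * X - 2 * X = 2 * X by omega,
    nsmul_eq_mul] at k6
  have k7 : (h : ℝ) * ∫ v in (Real.log (2 * X : ℕ))..(Real.log (4 * X + h : ℕ)),
      ‖Phi X (h0 / X) lc v‖ ≤ h * (ε * X / 2) :=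
    mul_le_mul_of_nonneg_left (by linarith) (Nat.cast_nonneg _)
  push_cast at k6 k2 k7 ⊢
  nlinarith

end Pool.Agent.P.PAR
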