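import Pool.Agent.P.MP_e94e4b_nt.PAR.IfM

/-! Step MRL. -/

namespace Pool.Agent.P.PAR

open Finset Real Filter Topology MeasureTheory
open Pool.Agent.P.MP_e86632_nt (ee ee_add norm_ee ee_neg ee_zero)
open Pool.Agent.P.MP_8be758_nt.Avg (gs nsq gs_pos gs_le_one gs_neg gs_anti)
open Pool.Agent.P.MP_e94e4b_nt.PF (sgm)
open Pool.Agent.P.E2
open ArithmeticFunction (cardFactors vonMangoldt)

namespace MRLb

theorem dyad {g : ℕ → ℝ} {c : ℝ} {X0 : ℕ} (h0 : 1 ≤ X0) (hg : ∀ x, 0 ≤ g x)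
    (h : ∀ X ≥ X0, ∑ x ∈ Ioc (2 * X) (4 * X), g x ≤ c * X) (j : ℕ) :
    ∑ x ∈ Ioc (2 * X0) (2 * (X0 * 2 ^ j)), g x / x ≤ j * (c / 2) := by
  induction j with
  | zero => simp
  | succ j ih =>
    have h1 : X0 ≤ X0 * 2 ^ j := Nat.le_mul_of_pos_right _ (by positivity)
    have h2 : (0 : ℝ) < (X0 * 2 ^ j : ℕ) := Nat.cast_pos.2 (by omega)
    rw [show 2 * (X0 * 2 ^ (j + 1)) = 4 * (X0 * 2 ^ j) by ring,
      ← sum_Ioc_consecutive _ (show 2 * X0 ≤ 2 * (X0 * 2 ^ j) by omega) (by omega)]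
    have h3 : ∑ x ∈ Ioc (2 * (X0 * 2 ^ j)) (4 * (X0 * 2 ^ j)), g x / x ≤ c / 2 := by
      calc _ ≤ ∑ x ∈ Ioc (2 * (X0 * 2 ^ j)) (4 * (X0 * 2 ^ j)),
            g x / (2 * (X0 * 2 ^ j : ℕ)) := sum_le_sum fun x hx =>
            div_le_div_of_nonneg_left (hg x) (by positivity) (by exact_mod_cast (mem_Ioc.1 hx).1.le)
        _ ≤ _ := by
          rw [← sum_div, div_le_iff₀ (by positivity)]
          linarith [h _ h1]
    push_cast at ih h3 ⊢
    linarith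

theorem log_le {Z : ℕ} (hZ : 2 ≤ 1 / 2 * Real.log Z) : ((Nat.log 2 Z + 1 : ℕ) : ℝ) ≤ 2 * Real.log Z := by
  have h1 : Z ≠ 0 := by
    rintro rfl
    norm_num at hZ
  have h2 : ((2 : ℝ) ^ Nat.log 2 Z) ≤ Z := by exact_mod_cast Nat.pow_log_le_self 2 h1
  have h3 := Real.log_le_log (by positivity) h2
  rw [Real.log_pow] at h3
  have h4 := Real.log_two_gt_d9
  have h5 : (0 : ℝ) ≤ Nat.log 2 Z := Nat.cast_nonneg _
  push_cast
  nlinarith

end MRLb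

theorem q_MRL (hMRD : L_MRD) :
    L_MRL := by
  intro ε hε
  obtain ⟨h, h1, h2⟩ := hMRD (ε / 2) (by positivity)
  obtain ⟨X1, h3⟩ := eventually_atTop.1 h2
  refine ⟨h, h1, ?_⟩
  filter_upwards [ev_log 2 (c := 1 / 2) (by norm_num),
    ev_log (1 + Real.log (2 * (X1 + 1) : ℕ)) (c := ε / 2) (by positivity)] with Z h4 h5
  have h6 := MRLb.dyad (g := fun x => |sh h x|) (c := ε / 2 * h) (X0 := X1 + 1) (by omega)
    (fun _ => abs_nonneg _) (fun X hX => h3 X (by omega)) (Nat.log 2 Z + 1)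
  have h7 := MRLb.log_le h4
  have h8 : Z ≤ 2 * ((X1 + 1) * 2 ^ (Nat.log 2 Z + 1)) := by
    have := Nat.lt_pow_succ_log_self one_lt_two Z
    have := Nat.le_mul_of_pos_left (2 ^ (Nat.log 2 Z + 1)) (show 0 < X1 + 1 by omega)
    simp only [Nat.succ_eq_add_one] at *
    omega
  have h9 : ∑ x ∈ Icc 1 (2 * (X1 + 1)), |sh h x| / x ≤ h * (1 + Real.log (2 * (X1 + 1) : ℕ)) := by
    refine le_trans (sum_le_sum fun x _ => ?_)
      ((mul_sum _ _ _).ge.trans (mul_le_mul_of_nonneg_left (harm_le _) (Nat.cast_nonneg h)))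
    rw [mul_one_div]
    exact div_le_div_of_nonneg_right (abs_sh_le h x) (Nat.cast_nonneg x)
  have h0 : (0 : ℝ) ≤ h := Nat.cast_nonneg h
  have h10 : ∑ x ∈ Icc 1 Z, |sh h x| / x ≤ ∑ x ∈ Icc 1 (2 * (X1 + 1)), |sh h x| / x +
      ∑ x ∈ Ioc (2 * (X1 + 1)) (2 * ((X1 + 1) * 2 ^ (Nat.log 2 Z + 1))), |sh h x| / x := by
    rw [← sum_union (disjoint_left.2 fun x a b => by
      have := mem_Icc.1 a; have := mem_Ioc.1 b; omega)]
    refine sum_le_sum_of_subset_of_nonneg (fun x hx => ?_) fun x _ _ => by positivity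
    have := mem_Icc.1 hx
    simp only [mem_union, mem_Icc, mem_Ioc]
    omega
  have h11 := mul_le_mul_of_nonneg_left h5 h0
  have h12 := mul_le_mul_of_nonneg_right h7 (show 0 ≤ ε / 2 * h / 2 by positivity)
  linarith

end Pool.Agent.P.PAR
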