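import Pool.Agent.P.MP_e94e4b_nt.PAR.IfM

/-! Step OT. -/

namespace Pool.Agent.P.PAR

open Finset Real Filter Topology MeasureTheory
open Pool.Agent.P.MP_e86632_nt (ee ee_add norm_ee ee_neg ee_zero)
open Pool.Agent.P.MP_8be758_nt.Avg (gs nsq gs_pos gs_le_one gs_neg gs_anti)
open Pool.Agent.P.MP_e94e4b_nt.PF (sgm)
open Pool.Agent.P.E2
open ArithmeticFunction (cardFactors vonMangoldt)

namespace OTb

theorem key {X v n p : ℕ} {P δ : ℝ} (hP : 1 ≤ P) (hδ : 0 ≤ δ) (hp : p ∈ pv P δ v) (hd : p ∣ n) :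
    ∃ z : ℝ, z ≤ n ∧ n ≤ (1 + δ) * z ∧ (n / p ∈ rg X P δ v ↔ X < z ∧ z ≤ 8 * X) := by
  obtain ⟨m, rfl⟩ := hd
  have h0 : 0 ≤ P := by linarith
  have hy := yy_pos (by linarith : 0 < P) hδ v
  obtain ⟨⟨h1, h2⟩, h3⟩ := (mem_pv h0 hδ).1 hp
  have hm : (0 : ℝ) ≤ m := m.cast_nonneg
  rw [yy_succ] at h2
  refine ⟨m * yy P δ v, by push_cast; nlinarith, by push_cast; nlinarith, ?_⟩
  rw [Nat.mul_div_cancel_left _ h3.pos, mem_rg h0 hδ, div_lt_iff₀ hy, le_div_iff₀ hy]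

end OTb

theorem q_OT :
    L_OT := by
  intro X V n P δ hP hδ
  have e : om (pa P δ V) n = ∑ v ∈ range V, (((pv P δ v).filter (· ∣ n)).card : ℝ) := by
    rw [om_eq_sum, sum_pa (by linarith) hδ]
    exact sum_congr rfl fun v _ => sum_boole _ _
  rw [e, ot]
  refine ⟨sum_nonneg fun _ _ => Nat.cast_nonneg _, sum_le_sum fun v _ => Nat.cast_le.2
    (card_le_card (monotone_filter_right _ fun p _ h => h.1)), fun h1 h2 =>
    sum_congr rfl fun v _ => by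
      rw [filter_congr fun p hp => and_iff_left_of_imp fun hd => ?_]
      obtain ⟨z, k1, k2, k3⟩ := OTb.key (X := X) hP hδ hp hd
      exact k3.2 ⟨lt_of_mul_lt_mul_left (h1.trans_le k2) (by linarith),
        k1.trans (by exact_mod_cast h2)⟩, fun h => sum_eq_zero fun v _ => ?_⟩
  rw [Nat.cast_eq_zero, card_eq_zero, filter_eq_empty_iff]
  rintro p hp ⟨hd, hr⟩
  obtain ⟨z, k1, k2, k3⟩ := OTb.key (X := X) hP hδ hp hd
  obtain ⟨k4, k5⟩ := k3.1 hr
  rcases h with h | h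
  · have : (n : ℝ) ≤ X := by exact_mod_cast h
    linarith
  · nlinarith

end Pool.Agent.P.PAR
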