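import Pool.Agent.P.MP_e94e4b_nt.PAR.IfE

/-! Step PIG. -/

namespace Pool.Agent.P.PAR

open Finset Real Filter Topology MeasureTheory
open Pool.Agent.P.MP_e86632_nt (ee ee_add norm_ee ee_neg ee_zero)
open Pool.Agent.P.MP_8be758_nt.Avg (gs nsq gs_pos gs_le_one gs_neg gs_anti)
open Pool.Agent.P.MP_e94e4b_nt.PF (sgm)
open Pool.Agent.P.E2
open ArithmeticFunction (cardFactors vonMangoldt)

namespace PIGb

theorem incl (Y : ℕ) (U A : ℕ → Prop) :
    lm Y U + lm Y A ≤ lm Y (fun n => U n ∨ A n) + lm Y fun n => U n ∧ A n := by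
  classical
  rw [lm_ite, lm_ite, lm_ite, lm_ite, ← sum_add_distrib, ← sum_add_distrib]
  refine sum_le_sum fun n _ => ?_
  by_cases a : U n <;> by_cases b : A n <;> simp [a, b]

theorem aux (Y : ℕ) (A : ℕ → ℕ → Prop) {m : ℝ} (hm : 0 ≤ m) (r : ℕ)
    (h : ∀ i < r, ∀ j < r, i < j → lm Y (fun n => A i n ∧ A j n) ≤ m) :
    ∑ i ∈ range r, lm Y (A i) ≤ lm Y (fun n => ∃ i ∈ range r, A i n) + r ^ 2 * m := by
  induction r with
  | zero => simpa using lm_nonneg Y _
  | succ r ih =>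
    have h1 := ih fun i hi j hj => h i (by omega) j (by omega)
    have h2 := incl Y (fun n => ∃ i ∈ range r, A i n) (A r)
    have h3 : lm Y (fun n => (∃ i ∈ range r, A i n) ∨ A r n) ≤
        lm Y fun n => ∃ i ∈ range (r + 1), A i n := lm_mono fun n _ _ c => by
      rcases c with ⟨i, hi, c⟩ | c
      · exact ⟨i, mem_range.2 (Nat.lt_succ_of_lt (mem_range.1 hi)), c⟩
      · exact ⟨r, self_mem_range_succ r, c⟩
    have h4 : lm Y (fun n => (∃ i ∈ range r, A i n) ∧ A r n) ≤ r * m := by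
      refine (lm_mono fun n _ _ c => ?_).trans
        ((lm_exists_le Y (range r) fun i n => A i n ∧ A r n).trans ?_)
      · obtain ⟨⟨i, hi, c⟩, d⟩ := c
        exact ⟨i, hi, c, d⟩
      · refine (sum_le_sum fun i hi => h i (Nat.lt_succ_of_lt (mem_range.1 hi)) r
          (Nat.lt_succ_self r) (mem_range.1 hi)).trans_eq ?_
        rw [sum_const, card_range, nsmul_eq_mul]
    have h5 : 0 ≤ (r : ℝ) * m := by positivity
    rw [sum_range_succ]
    push_cast
    nlinarith

end PIGb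

theorem q_PIG :
    L_PIG := fun Y r A _ h hm =>
  (PIGb.aux Y A hm r h).trans (add_le_add (lm_le Y _) le_rfl)

end Pool.Agent.P.PAR
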