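import Pool.Agent.P.MP_e94e4b_nt.PAR.IfM
import Pool.Agent.P.MP_e94e4b_nt.E2.TBL

/-! Step PQ. -/

namespace Pool.Agent.P.PAR

open Finset Real Filter Topology MeasureTheory
open Pool.Agent.P.MP_e86632_nt (ee ee_add norm_ee ee_neg ee_zero)
open Pool.Agent.P.MP_8be758_nt.Avg (gs nsq gs_pos gs_le_one gs_neg gs_anti)
open Pool.Agent.P.MP_e94e4b_nt.PF (sgm)
open Pool.Agent.P.E2
open ArithmeticFunction (cardFactors vonMangoldt)

theorem q_PQ (hPW : S_PW) (hSH : L_SH) (hINT : L_INT) :
    L_PQ := by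
  filter_upwards [hSH, hINT, eventually_ge_atTop 1, ev_pe1 6 13,
    ev_lin 2 1 (c := 10) (by norm_num) (k := 12) (by norm_num)]
    with r h1 h2 r1 r2 r3 M N t hM hMN hN hN2 ht
  have p0 : 0 ≤ r ^ 12 := by positivity
  have M2 : (2 : ℝ) ≤ M := le_trans (by linarith [Real.add_one_le_exp (20 * r ^ 12)]) hM
  have M3 : 2 ≤ M := by exact_mod_cast M2
  have l0 : 0 < Real.log M := Real.log_pos (by linarith)
  have e0 := Real.exp_pos (-r)
  have key : ∀ n, n ≤ N → ‖∑ i ∈ Ioc M n, (th i : ℂ) * nit t i‖ ≤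
      M * (5 / (1 + |t|) + 3 * Real.exp (-r)) := fun n hn => by
    rcases le_total n M with h | h
    · rw [Ioc_eq_empty (by omega), sum_empty, norm_zero]; positivity
    have n1 : (n : ℝ) ≤ N := by exact_mod_cast hn
    have n2 : (n : ℝ) ≤ 2 * M := by exact_mod_cast hn.trans hN
    have n3 : (M : ℝ) ≤ n := by exact_mod_cast h
    have a1 := h1 M n t hM h (hn.trans hN) (n1.trans hN2) ht
    have a2 := h2 M n t hM h (hn.trans hN) ht
    have a3 := hPW.2 n (Ioc M n) fun i hi => (mem_Ioc.1 hi).2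
    have a4 : ‖dq (Ioc M n) (fun i => ((vonMangoldt i - th i : ℝ) : ℂ)) t‖ ≤ M * Real.exp (-r) := by
      refine (norm_dq_le_sum _ _ t).trans ((le_of_eq (sum_congr rfl fun i _ => ?_)).trans
        (a3.trans ?_))
      · rw [Complex.norm_real, Real.norm_of_nonneg (sub_nonneg.2 (hPW.1 i).2)]
      have b1 : Real.log n ≤ 2 * r ^ 13 := (Real.log_le_iff_le_exp (by linarith)).2 (n1.trans hN2)
      have b2 : Real.exp (10 * r ^ 12) ≤ √(M : ℝ) := by
        refine Real.le_sqrt_of_sq_le (le_trans (le_of_eq ?_) hM)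
        rw [← Real.exp_nat_mul]; congr 1; push_cast; ring
      have b3 : √(n : ℝ) ≤ 3 / 2 * √(M : ℝ) := by
        rw [Real.sqrt_le_left (by positivity), mul_pow, Real.sq_sqrt (by linarith)]; linarith
      have b4 : Real.exp r ≤ Real.exp (10 * r ^ 12) * Real.exp (-r) := by
        rw [← Real.exp_add]; exact Real.exp_le_exp.2 (by linarith)
      have b5 := mul_le_mul_of_nonneg_right b2 e0.le
      have b6 := Real.mul_self_sqrt (show (0 : ℝ) ≤ M by linarith)
      have b7 := Real.sqrt_nonneg (M : ℝ)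
      calc _ ≤ 2 * (3 / 2 * √(M : ℝ)) * (2 * r ^ 13) := by gcongr
        _ = √(M : ℝ) * (6 * r ^ 13) := by ring
        _ ≤ √(M : ℝ) * (√(M : ℝ) * Real.exp (-r)) :=
            mul_le_mul_of_nonneg_left (by linarith) b7
        _ = _ := by rw [← mul_assoc, b6]
    have e : ∑ i ∈ Ioc M n, (th i : ℂ) * nit t i =
        dq (Ioc M n) (fun i => ((vonMangoldt i - on i : ℝ) : ℂ)) t + dq (Ioc M n) (fun _ => 1) t -
          dq (Ioc M n) (fun i => ((vonMangoldt i - th i : ℝ) : ℂ)) t := by
      rw [dq, dq, dq, ← sum_add_distrib, ← sum_sub_distrib]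
      refine sum_congr rfl fun i hi => ?_
      rw [on, if_neg (by have := (mem_Ioc.1 hi).1; omega)]
      push_cast; ring
    rw [e]
    refine (norm_sub_le _ _).trans ((add_le_add (norm_add_le _ _) le_rfl).trans ?_)
    linarith
  have h := BLa.abel _ (fun i => 1 / Real.log i) M N _ (by positivity) key
    (fun i => div_nonneg zero_le_one (Real.log_natCast_nonneg i)) fun i hi =>
      one_div_le_one_div_of_le (Real.log_pos (by exact_mod_cast (by omega : 1 < i)))
        (Real.log_le_log (by exact_mod_cast (by omega : 0 < i)) (by exact_mod_cast i.le_succ))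
  refine le_trans (le_of_eq ?_) (h.trans ?_)
  · rw [dq, sum_filter]
    congr 1
    refine sum_congr rfl fun i _ => ?_
    unfold th
    split_ifs with hi
    · have : (Real.log i : ℂ) ≠ 0 :=
        Complex.ofReal_ne_zero.2 (Real.log_pos (by exact_mod_cast hi.one_lt)).ne'
      push_cast at this ⊢
      field_simp
    · simp
  · have a1 : 1 / Real.log (M + 1 : ℕ) ≤ 2 / Real.log M :=
      (one_div_le_one_div_of_le l0 (Real.log_le_log (by linarith)
        (by exact_mod_cast M.le_succ))).trans (by gcongr; norm_num)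
    refine (mul_le_mul_of_nonneg_left a1 (by positivity)).trans_eq (by ring)

end Pool.Agent.P.PAR
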