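import Pool.Agent.P.MP_e94e4b_nt.PAR.IfE

/-! Step PQC. -/

namespace Pool.Agent.P.PAR

open Finset Real Filter Topology MeasureTheory
open Pool.Agent.P.MP_e86632_nt (ee ee_add norm_ee ee_neg ee_zero)
open Pool.Agent.P.MP_8be758_nt.Avg (gs nsq gs_pos gs_le_one gs_neg gs_anti)
open Pool.Agent.P.MP_e94e4b_nt.PF (sgm)
open Pool.Agent.P.E2
open ArithmeticFunction (cardFactors vonMangoldt)

namespace PQCb

end PQCb

theorem q_PQC (hPNT : S_PNT) :
    L_PQC := by
  refine ⟨fun a P => ?_, fun a ha => ?_⟩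
  · have h1 : ∏ q ∈ pq a P, q ≤ 4 ^ (2 * P) :=
      (Nat.le_of_dvd (primorial_pos _) (prod_dvd_prod_of_subset _ _ _ fun q hq =>
        mem_filter.2 ⟨mem_range.2 (Nat.lt_succ_of_le (mem_pq.1 hq).1.2), (mem_pq.1 hq).2.1⟩)).trans
        (primorial_le_four_pow _)
    have h2 : 0 < ∏ q ∈ pq a P, q := prod_pos fun q hq => (mem_pq.1 hq).2.1.pos
    have h3 := Real.log_le_log (Nat.cast_pos.2 h2) (Nat.cast_le.2 h1)
    rw [Nat.cast_pow, Real.log_pow, show ((4 : ℕ) : ℝ) = 2 ^ 2 by norm_num, Real.log_pow] at h3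
    push_cast at h3 ⊢
    nlinarith [Real.log_two_lt_d9, (Nat.cast_nonneg P : (0 : ℝ) ≤ P)]
  have a0 : (0 : ℝ) < a := by exact_mod_cast ha
  filter_upwards [tendsto_natCast_atTop_atTop.eventually
    (hPNT a (1 / (2 * a)) ha (by positivity)), ev_log 1 one_pos] with P h hl
  have p0 : (0 : ℝ) ≤ P := Nat.cast_nonneg P
  have h1 := (abs_le.1 (h (2 * P) 1 (by linarith) (by linarith) (Nat.coprime_one_left a))).1
  rw [Nat.floor_natCast, show (2 * P : ℝ) = (2 * P : ℕ) by push_cast; rfl, Nat.floor_natCast,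
    ← pq] at h1
  have t0 : (0 : ℝ) < a.totient := by exact_mod_cast Nat.totient_pos.2 ha
  have t1 : (a.totient : ℝ) ≤ a := by exact_mod_cast a.totient_le
  have l0 : 0 < Real.log P := by linarith
  have h2 : P / (a * Real.log P) ≤ (((2 * P : ℕ) : ℝ) - P) / (a.totient * Real.log P) := by
    push_cast
    rw [show (2 * P - P : ℝ) = P by ring]
    gcongr
  have h3 : P / (2 * a * Real.log P) = P / (a * Real.log P) - 1 / (2 * a) * P / Real.log P := by
    field_simp
    ring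
  linarith

end Pool.Agent.P.PAR
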