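import Pool.Agent.P.MP_e94e4b_nt.PAR.IfE

/-! Step REC. -/

namespace Pool.Agent.P.PAR

open Finset Real Filter Topology MeasureTheory
open Pool.Agent.P.MP_e86632_nt (ee ee_add norm_ee ee_neg ee_zero)
open Pool.Agent.P.MP_8be758_nt.Avg (gs nsq gs_pos gs_le_one gs_neg gs_anti)
open Pool.Agent.P.MP_e94e4b_nt.PF (sgm)
open Pool.Agent.P.E2
open ArithmeticFunction (cardFactors vonMangoldt)

namespace RECb

theorem scale (Y : ℕ) {a : ℕ} (ha : 0 < a) (h : ℕ → Prop) :
    lm Y (fun n => h (a * n)) ≤ a * (lm Y h + 1) := by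
  classical
  refine (lm_mono (g' := fun n => (a * n ≤ Y ∧ h (a * n)) ∨ Y < a * n)
    fun n _ _ c => (le_or_gt _ _).imp (fun e => ⟨e, c⟩) id).trans ((lm_or_le _ _ _).trans ?_)
  have h0 : (0 : ℝ) < a := by exact_mod_cast ha
  rw [mul_add, mul_one]
  refine add_le_add ?_ ?_
  · refine le_trans (le_of_eq ?_) (mul_le_mul_of_nonneg_left (le_lm (S := ((Icc 1 Y).filter
      fun n => a * n ≤ Y ∧ h (a * n)).image (a * ·)) fun u hu => ?_) h0.le)
    · rw [sum_image fun x _ y _ e => Nat.eq_of_mul_eq_mul_left ha e, lm_eq, mul_sum]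
      refine sum_congr rfl fun n _ => ?_
      push_cast
      rw [mul_one_div, div_mul_eq_div_div, div_self h0.ne']
    · obtain ⟨n, hn, rfl⟩ := mem_image.1 hu
      obtain ⟨h1, h2⟩ := mem_filter.1 hn
      exact ⟨Nat.mul_pos ha (mem_Icc.1 h1).1, h2⟩
  · rw [lm_eq]
    refine (sum_le_card_nsmul _ _ ((a : ℝ) / Y) fun n hn => ?_).trans ?_
    · obtain ⟨h1, h2⟩ := mem_filter.1 hn
      obtain ⟨h3, h4⟩ := mem_Icc.1 h1
      rw [div_le_div_iff₀ (by exact_mod_cast h3) (by exact_mod_cast h3.trans h4), one_mul]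
      exact_mod_cast h2.le
    · have h1 : (((Icc 1 Y).filter fun n => Y < a * n).card : ℝ) ≤ Y := by
        exact_mod_cast (card_filter_le _ _).trans (by simp)
      rw [nsmul_eq_mul]
      refine (mul_le_mul_of_nonneg_right h1 (by positivity)).trans ?_
      rw [← mul_div_assoc, mul_comm, mul_div_assoc]
      exact mul_le_of_le_one_right h0.le (div_self_le_one _)

end RECb

theorem q_REC (hTK1 : L_TK1) (hPIG : L_PIG) :
    L_REC := by
  intro δ hδ
  obtain ⟨r, hr⟩ := exists_nat_ge (8 / δ)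
  have r0 : (0 : ℝ) < r := lt_of_lt_of_le (by positivity) hr
  rw [div_le_iff₀ hδ] at hr
  obtain ⟨y, hy⟩ := hTK1 (δ / (2 * r)) (by positivity)
  obtain ⟨K, hK⟩ : ∃ K : ℕ, K = (y + 1) ^ r := ⟨_, rfl⟩
  have K0 : (0 : ℝ) < K := by rw [hK]; positivity
  refine ⟨K, 1 / (r ^ 2 * K), by positivity, ?_⟩
  filter_upwards [hy, ev_log (2 + r ^ 2 * K) two_pos] with Y h1 h2 g hg
  choose f f1 f2 f3 f4 using h1
  obtain ⟨k, k0, k1⟩ : ∃ k : ℕ → ℕ, k 0 = 1 ∧ ∀ i, k (i + 1) = k i * f fun n => g (k i * n) :=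
    ⟨fun i => Nat.rec 1 (fun _ x => x * f fun n => g (x * n)) i, rfl, fun _ => rfl⟩
  have hL := Real.log_natCast_nonneg Y
  have k2 : ∀ i d, ∃ c, Odd c ∧ (d ≠ 0 → 3 ≤ c) ∧ c ≤ (y + 1) ^ d ∧ k (i + d) = k i * c :=
    fun i d => by
      induction d with
      | zero => exact ⟨1, odd_one, fun h => absurd rfl h, le_rfl, by simp⟩
      | succ d ih =>
        obtain ⟨c, a1, -, a3, a4⟩ := ih
        refine ⟨c * f fun n => g (k (i + d) * n), a1.mul (f1 _),
          fun _ => (f2 _).trans (Nat.le_mul_of_pos_left _ a1.pos), ?_, ?_⟩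
        · rw [pow_succ]
          exact Nat.mul_le_mul a3 ((f3 _).trans y.le_succ)
        · rw [← add_assoc, k1, ← mul_assoc, ← a4]
  have k3 : ∀ d ≤ r, (y + 1) ^ d ≤ K := fun d h => hK ▸ Nat.pow_le_pow_right y.succ_pos h
  have k4 : ∀ i : ℕ, (δ - i * (δ / (2 * r))) * Real.log Y ≤ lm Y fun n => g (k i * n) := fun i => by
    induction i with
    | zero => simpa [k0] using hg
    | succ i ih =>
      have := f4 fun n => g (k i * n)
      simp only [k1, mul_assoc]
      push_cast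
      linarith
  by_contra hc
  push Not at hc
  have h3 := hPIG Y r (fun i n => g (k i * n)) (K * (1 / (r ^ 2 * K) * Real.log Y + 1))
    (fun i hi j hj hij => by
      obtain ⟨d, rfl⟩ := Nat.exists_eq_add_of_le hij.le
      obtain ⟨c, a1, a2, a3, a4⟩ := k2 i d
      obtain ⟨b, b1, -, b3, b4⟩ := k2 0 i
      rw [zero_add, k0, one_mul] at b4
      have h4 := RECb.scale Y b1.pos fun u => g u ∧ g (c * u)
      have h5 := hc c a1 (a2 (by omega)) (a3.trans (k3 d (by omega)))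
      have h6 : (b : ℝ) ≤ K := by exact_mod_cast b3.trans (k3 i hi.le)
      simp only [a4, b4, mul_comm b c, mul_assoc]
      exact h4.trans (mul_le_mul h6 (by linarith) (by linarith [lm_nonneg Y fun u => g u ∧ g (c * u)])
        K0.le)) (by positivity)
  have h4 : (r : ℝ) * (δ / 2 * Real.log Y) ≤ ∑ i ∈ range r, lm Y fun n => g (k i * n) := by
    refine le_trans (by simp) (card_nsmul_le_sum _ _ (δ / 2 * Real.log Y) fun i hi => ?_)
    refine le_trans (mul_le_mul_of_nonneg_right ?_ hL) (k4 i)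
    have h5 : (i : ℝ) ≤ r := by exact_mod_cast (mem_range.1 hi).le
    have h6 : (r : ℝ) * (δ / (2 * r)) = δ / 2 := by field_simp
    have h7 := mul_le_mul_of_nonneg_right h5 (by positivity : 0 ≤ δ / (2 * r))
    linarith
  have h5 : (r : ℝ) ^ 2 * (K * (1 / (r ^ 2 * K) * Real.log Y + 1)) = Real.log Y + r ^ 2 * K := by
    field_simp
  nlinarith [mul_le_mul_of_nonneg_right hr hL]

end Pool.Agent.P.PAR
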