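import Pool.Agent.P.MP_e94e4b_nt.PAR.IfE

/-! Step RG0. -/

namespace Pool.Agent.P.PAR

open Finset Real Filter Topology MeasureTheory
open Pool.Agent.P.MP_e86632_nt (ee ee_add norm_ee ee_neg ee_zero)
open Pool.Agent.P.MP_8be758_nt.Avg (gs nsq gs_pos gs_le_one gs_neg gs_anti)
open Pool.Agent.P.MP_e94e4b_nt.PF (sgm)
open Pool.Agent.P.E2
open ArithmeticFunction (cardFactors vonMangoldt)

namespace RG0b

theorem cc {k : ℕ} (h : Odd k) : 2 * ((3 * k ^ 2 - 3) / 2) + 3 = 3 * k ^ 2 := by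
  obtain ⟨m, hm⟩ := h.pow (n := 2)
  omega

end RG0b

theorem q_RG0 (hLOC : L_LOC) (hREC : L_REC) (hCW3 : L_CW3) (hCW4 : L_CW4) (hCW5 : L_CW5) :
    L_RG0 := by
  intro δ hδ
  obtain ⟨K, δ1, h1, hR⟩ := hREC δ hδ
  have hK : (0 : ℝ) < K + 1 := by positivity
  have h2 : ∀ k : ℕ, ∃ ε : ℝ, 0 < ε ∧ ∀ᶠ Z : ℕ in atTop, 3 ≤ k → ∀ V : ℕ → Prop,
      Loc V ((3 * k ^ 2 - 3) / 2) Z 32 → δ1 / (8 * (K + 1)) * Real.log Z ≤ lm Z V →
      ε * Real.log Z < lm Z (Er V (k ^ 2) ((3 * k ^ 2 - 3) / 2)) := fun k => by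
    by_cases hk : 3 ≤ k
    · have a : 9 ≤ k ^ 2 := Nat.pow_le_pow_left hk 2
      obtain ⟨ε, b, c⟩ := hLOC (k ^ 2) ((3 * k ^ 2 - 3) / 2) (δ1 / (8 * (K + 1))) (by omega)
        (by omega) (by positivity)
      exact ⟨ε, b, (c 32).mono fun Z d _ => d⟩
    · exact ⟨1, one_pos, Eventually.of_forall fun _ d => absurd d hk⟩
  choose e he hZ using h2
  obtain ⟨k0, -, h0⟩ := exists_min_image (range (K + 1)) e ⟨0, by simp⟩
  have h3 := he k0
  refine ⟨e k0 / (8 * (K + 1)), by positivity, ?_⟩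
  filter_upwards [hR, (eventually_all_finset (range (K + 1))).2 fun k _ =>
    (tendsto_pow_atTop two_ne_zero).eventually (hZ k),
    ev_log (1 + Real.log (20 * (K + 1) ^ 2)) (half_pos h1), ev_log 1 one_pos] with Y a b c d τ
  by_contra hc
  obtain ⟨k, k1, k2, k3, k4⟩ := a _ (not_le.1 hc).le
  have hk : k ∈ range (K + 1) := mem_range.2 (by omega)
  have k5 : (0 : ℝ) < k := by exact_mod_cast (by omega : 0 < k)
  have k6 : (k : ℝ) ≤ K + 1 := by exact_mod_cast (by omega : k ≤ K + 1)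
  have hl : Real.log (Y ^ 2 : ℕ) = 2 * Real.log Y := by rw [Nat.cast_pow, Real.log_pow]; simp
  rw [one_mul] at d
  have f1 := b k hk k2 _ (hCW3 k _ Y _ k2 (RG0b.cc k1)) (le_trans (by
    have g : Real.log (20 * k ^ 2) ≤ Real.log (20 * (K + 1) ^ 2) :=
      Real.log_le_log (by positivity) (by gcongr)
    have g2 : δ1 / (8 * (K + 1)) * (2 * k) ≤ δ1 / 4 := by
      rw [div_mul_eq_mul_div, div_le_div_iff₀ (by positivity) (by positivity)]
      nlinarith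
    rw [hl, le_div_iff₀ (by positivity)]
    nlinarith) (hCW4 k Y _ k2))
  have f2 := hCW5 k _ Y τ (e k0 / (8 * (K + 1))) k1 k2 (RG0b.cc k1) (by positivity)
  have f3 : 8 * (e k0 / (8 * (K + 1))) * k ≤ e k := by
    refine le_trans ?_ (h0 k hk)
    rw [← mul_div_assoc, div_mul_eq_mul_div, div_le_iff₀ (by positivity)]
    nlinarith
  have f4 : 8 * (e k0 / (8 * (K + 1))) * k * (1 + Real.log Y) ≤ e k * (2 * Real.log Y) :=
    mul_le_mul f3 (by linarith) (by linarith) (he k).le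
  rw [hl] at f1
  linarith

end Pool.Agent.P.PAR
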