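import Pool.Agent.P.MP_e94e4b_nt.PAR.IfE

/-! Step RIG. -/

namespace Pool.Agent.P.PAR

open Finset Real Filter Topology MeasureTheory
open Pool.Agent.P.MP_e86632_nt (ee ee_add norm_ee ee_neg ee_zero)
open Pool.Agent.P.MP_8be758_nt.Avg (gs nsq gs_pos gs_le_one gs_neg gs_anti)
open Pool.Agent.P.MP_e94e4b_nt.PF (sgm)
open Pool.Agent.P.E2
open ArithmeticFunction (cardFactors vonMangoldt)

namespace RIGb

theorem key (Y : ℕ) (τ : Bool) (ε : ℝ) :
    lm Y (fun N => (dd τ N : ℝ) ≤ ε * N) ≤ 3 * lm (2 * Y + 1) (Rig τ ε) := by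
  classical
  have h1 := le_lm (Y := 2 * Y + 1) (g := Rig τ ε)
    (S := ((Icc 1 Y).filter fun N => (dd τ N : ℝ) ≤ ε * N).image fun N => 2 * N + 1)
    fun n hn => by
      obtain ⟨N, hN, rfl⟩ := mem_image.1 hn
      obtain ⟨a, b⟩ := mem_filter.1 hN
      have := mem_Icc.1 a
      refine ⟨by omega, by omega, odd_two_mul_add_one N, ?_⟩
      rwa [show (2 * N + 1) / 2 = N by omega]
  rw [sum_image fun a _ b _ e => by simpa using e] at h1
  rw [lm_eq]
  refine le_trans ?_ (mul_le_mul_of_nonneg_left h1 (by norm_num))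
  rw [mul_sum]
  refine sum_le_sum fun N hN => ?_
  have h2 : (1 : ℝ) ≤ N := by exact_mod_cast (mem_Icc.1 (mem_filter.1 hN).1).1
  push_cast
  rw [mul_one_div, div_le_div_iff₀ (by linarith) (by linarith)]
  linarith

end RIGb

theorem q_RIG (hRG0 : L_RG0) :
    L_RIG := by
  intro δ hδ
  obtain ⟨ε, hε, h⟩ := hRG0 (δ / 6) (by positivity)
  have ht : Tendsto (fun Y : ℕ => 2 * Y + 1) atTop atTop :=
    tendsto_atTop_mono (fun Y => by show Y ≤ 2 * Y + 1; omega) tendsto_id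
  refine ⟨ε, hε, ?_⟩
  filter_upwards [ht.eventually h, eventually_ge_atTop 3] with Y hY h3 τ
  have h4 : (3 : ℝ) ≤ Y := by exact_mod_cast h3
  have h5 : Real.log ((2 * Y + 1 : ℕ) : ℝ) ≤ 2 * Real.log Y := by
    rw [show 2 * Real.log Y = Real.log ((Y : ℝ) ^ 2) by rw [Real.log_pow]; norm_num]
    refine Real.log_le_log (by positivity) ?_
    push_cast
    nlinarith
  have h6 := RIGb.key Y τ ε
  have h7 := hY τ
  nlinarith

end Pool.Agent.P.PAR
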