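import Pool.Agent.P.MP_e94e4b_nt.PAR.IfM

/-! Step RM. -/

namespace Pool.Agent.P.PAR

open Finset Real Filter Topology MeasureTheory
open Pool.Agent.P.MP_e86632_nt (ee ee_add norm_ee ee_neg ee_zero)
open Pool.Agent.P.MP_8be758_nt.Avg (gs nsq gs_pos gs_le_one gs_neg gs_anti)
open Pool.Agent.P.MP_e94e4b_nt.PF (sgm)
open Pool.Agent.P.E2
open ArithmeticFunction (cardFactors vonMangoldt)

namespace RMb

end RMb

theorem q_RM (hMV : S_MV) :
    L_RM := by
  obtain ⟨C, hC, h⟩ := hMV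
  refine ⟨72 * C, by positivity, fun X v P δ Z hP hδ hZ hX => ?_⟩
  have hy : 0 < yy P δ v := yy_pos (by linarith) hδ v
  have h1 := h Z (8 * X / yy P δ v) (rg X P δ v) lc hZ fun n hn =>
    ⟨(mem_Icc.1 (rg_subset X P δ v hn)).1, ((mem_rg (by linarith) hδ).1 hn).2⟩
  have h2 := card_rg_le (P := P) (by linarith) hδ X v
  have h3 : Z ≤ X / yy P δ v := (le_div_iff₀ hy).2 hX
  rw [nsq_lc] at h1
  rw [mul_div_assoc] at h1 h2
  refine h1.trans ?_
  have h4 : 0 ≤ (X : ℝ) / yy P δ v := by positivity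
  calc _ ≤ C * (X / yy P δ v + 8 * (X / yy P δ v)) * (8 * (X / yy P δ v)) := by gcongr
    _ = _ := by ring

end Pool.Agent.P.PAR
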