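import Pool.Agent.P.MP_e94e4b_nt.PAR.IfE

/-! Step RN1. -/

namespace Pool.Agent.P.PAR

open Finset Real Filter Topology MeasureTheory
open Pool.Agent.P.MP_e86632_nt (ee ee_add norm_ee ee_neg ee_zero)
open Pool.Agent.P.MP_8be758_nt.Avg (gs nsq gs_pos gs_le_one gs_neg gs_anti)
open Pool.Agent.P.MP_e94e4b_nt.PF (sgm)
open Pool.Agent.P.E2
open ArithmeticFunction (cardFactors vonMangoldt)

namespace RN1b

theorem sh_const {h m : ℕ} (H : ∀ s, 1 ≤ s → s ≤ h → par (m + s) = par (m + s + 1)) :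
    |sh h m| = h := by
  have h1 : ∀ t, t ≤ h → lam (m + 1 + t) = lam (m + 1) := by
    intro t
    induction t with
    | zero => intro _; rfl
    | succ t ih =>
      intro ht
      have h2 := par_eq_iff.1 (H (t + 1) (by omega) ht)
      rw [show m + 1 + (t + 1) = m + (t + 1) + 1 by ring, ← h2,
        show m + (t + 1) = m + 1 + t by ring, ih (by omega)]
  have h2 : sh h m = h * lam (m + 1) := by
    rw [sh, sum_congr rfl (g := fun _ => lam (m + 1)) fun x hx => by
      obtain ⟨a, b⟩ := mem_Ioc.1 hx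
      rw [← h1 (x - (m + 1)) (by omega)]
      congr 1; omega]
    simp
  rw [h2, abs_mul, abs_lam, mul_one, Nat.abs_cast]

theorem card_ge {g A L n : ℕ} (hg : 0 < g) (hA : 1 ≤ A) :
    (L : ℝ) / g - 1 ≤ (((Ico A (A + L)).filter fun i => g ∣ n + i).card : ℝ) := by
  have h1 := (abs_le.1 (card_dvd_Ioc hg (A := n + A - 1) (B := n + A - 1 + L) (by omega))).1
  have h2 : ((Ioc (n + A - 1) (n + A - 1 + L)).filter (g ∣ ·)).card ≤
      ((Ico A (A + L)).filter fun i => g ∣ n + i).card := by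
    refine card_le_card_of_injOn (fun x => x - n) (fun x hx => ?_) fun x hx y hy e => ?_
    · obtain ⟨a, b⟩ := mem_filter.1 (mem_coe.1 hx)
      obtain ⟨a1, a2⟩ := mem_Ioc.1 a
      have a3 : x - n ∈ Ico A (A + L) := mem_Ico.2 ⟨by omega, by omega⟩
      refine mem_coe.2 (mem_filter.2 ⟨a3, ?_⟩)
      rwa [show n + (x - n) = x by omega]
    · have a := (mem_Ioc.1 (mem_filter.1 (mem_coe.1 hx)).1).1
      have b := (mem_Ioc.1 (mem_filter.1 (mem_coe.1 hy)).1).1
      simp only at e
      omega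
  have h3 : (((Ioc (n + A - 1) (n + A - 1 + L)).filter (g ∣ ·)).card : ℝ) ≤
      ((Ico A (A + L)).filter fun i => g ∣ n + i).card := by exact_mod_cast h2
  rw [Nat.cast_add, add_sub_cancel_left] at h1
  linarith

end RN1b

theorem q_RN1 :
    L_RN1 := by
  classical
  intro c P D d h n hc hd hdD hh hP hhP hchg
  have hg : 0 < c * d := Nat.mul_pos hc hd
  set g := c * d with hgd
  set C := (Ico (4 * c * P) (6 * c * P)).filter fun i => par (n + i) ≠ par (n + (i + g)) with hC
  have hCc : chg c P g (fun i => par (n + i)) = C.card := rfl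
  set I := (Ico (4 * c * P) (4 * c * P + c * P)).filter fun i => g ∣ n + i with hI
  have hcP : 1 ≤ c * P := Nat.mul_pos hc (by omega)
  have hI1 : ((c * P : ℕ) : ℝ) / g - 1 ≤ I.card :=
    RN1b.card_ge hg (by rw [mul_assoc]; omega)
  set G := I.filter fun i => ∀ s, s ≤ h → i + s * g ∉ C with hG
  have hcov : I ⊆ G ∪ (range (h + 1)).biUnion fun s => C.image fun j => j - s * g := by
    intro i hi
    by_cases hb : ∀ s, s ≤ h → i + s * g ∉ C
    · exact mem_union_left _ (mem_filter.2 ⟨hi, hb⟩)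
    · simp only [not_forall, not_not] at hb
      obtain ⟨s, hs, hs'⟩ := hb
      exact mem_union_right _ (mem_biUnion.2 ⟨s, mem_range.2 (by omega),
        mem_image.2 ⟨_, hs', Nat.add_sub_cancel _ _⟩⟩)
  have hcard : I.card ≤ G.card + (h + 1) * C.card := by
    refine (card_le_card hcov).trans ((card_union_le _ _).trans (Nat.add_le_add_left ?_ _))
    refine card_biUnion_le.trans ((sum_le_sum fun s _ => card_image_le).trans ?_)
    simp
  have hval : ∀ i ∈ G, |sh h ((n + i) / g)| = h := by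
    intro i hi
    obtain ⟨hiI, hgood⟩ := mem_filter.1 hi
    obtain ⟨hr, m, hm⟩ := mem_filter.1 hiI
    obtain ⟨r1, r2⟩ := mem_Ico.1 hr
    rw [hm, Nat.mul_div_cancel_left _ hg]
    refine RN1b.sh_const fun s s1 s2 => ?_
    have h1 : s * g ≤ c * P := by
      calc s * g = c * (s * d) := by rw [hgd]; ring
        _ ≤ c * ((h + 1) * D) := Nat.mul_le_mul_left _ (Nat.mul_le_mul (by omega) hdD)
        _ ≤ c * P := Nat.mul_le_mul_left _ hhP
    have h2 := hgood s s2
    have h3 : i + s * g ∈ Ico (4 * c * P) (6 * c * P) := by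
      rw [mem_Ico]
      rw [mul_assoc] at r1 r2 ⊢
      rw [mul_assoc]
      omega
    have h4 : par (n + (i + s * g)) = par (n + (i + s * g + g)) := by
      by_contra h5
      exact h2 (mem_filter.2 ⟨h3, h5⟩)
    rw [show n + (i + s * g) = g * (m + s) by rw [← add_assoc, hm]; ring,
      show n + (i + s * g + g) = g * (m + s + 1) by rw [← add_assoc, ← add_assoc, hm]; ring] at h4
    exact (par_cancel hg.ne' (by omega) (by omega)).1 h4
  have hsub : G ⊆ (range (5 * c * P)).filter fun i => g ∣ n + i := by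
    intro i hi
    obtain ⟨hr, hm⟩ := mem_filter.1 (mem_filter.1 hi).1
    have r2 := (mem_Ico.1 hr).2
    refine mem_filter.2 ⟨mem_range.2 ?_, hm⟩
    rw [mul_assoc] at r2 ⊢
    omega
  have hsum : (G.card : ℝ) * h ≤
      ∑ i ∈ (range (5 * c * P)).filter (fun i => g ∣ n + i), |sh h ((n + i) / g)| := by
    refine le_trans ?_ (sum_le_sum_of_subset_of_nonneg hsub fun _ _ _ => abs_nonneg _)
    rw [sum_congr rfl hval]
    simp
  have hD : (0 : ℝ) < D := by exact_mod_cast lt_of_lt_of_le hd hdD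
  have hd0 : (0 : ℝ) < d := by exact_mod_cast hd
  have hc0 : (0 : ℝ) < c := by exact_mod_cast hc
  have hP0 : (4 : ℝ) * D ≤ P := by exact_mod_cast hP
  have hdD' : (d : ℝ) ≤ D := by exact_mod_cast hdD
  have hh0 : (0 : ℝ) ≤ h := Nat.cast_nonneg _
  have e1 : ((c * P : ℕ) : ℝ) / g = P / d := by
    rw [hgd]; push_cast; field_simp
  have e2 : (P : ℝ) / D ≤ P / d := div_le_div_of_nonneg_left (Nat.cast_nonneg _) hd0 hdD'
  have e3 : ((h : ℝ) + 1) * C.card ≤ P / D / 4 := by
    rw [hCc] at hchg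
    refine (mul_le_mul_of_nonneg_left hchg (by positivity)).trans_eq ?_
    field_simp
  have e4 : (4 : ℝ) ≤ P / D := by rw [le_div_iff₀ hD]; exact hP0
  have e5 : (I.card : ℝ) ≤ G.card + (h + 1) * C.card := by exact_mod_cast hcard
  have e6 : (P : ℝ) / D / 2 ≤ G.card := by linarith
  have e7 : (P : ℝ) ≤ 2 * D * G.card := by
    have := mul_le_mul_of_nonneg_left e6 (by positivity : (0 : ℝ) ≤ 2 * D)
    refine le_trans (le_of_eq ?_) this
    field_simp
  calc (P : ℝ) * h ≤ 2 * D * G.card * h := mul_le_mul_of_nonneg_right e7 hh0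
    _ = 2 * D * (G.card * h) := by ring
    _ ≤ _ := mul_le_mul_of_nonneg_left hsum (by positivity)

end Pool.Agent.P.PAR
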