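import Pool.Agent.P.MP_e94e4b_nt.PAR.IfE

/-! Step RUN. -/

namespace Pool.Agent.P.PAR

open Finset Real Filter Topology MeasureTheory
open Pool.Agent.P.MP_e86632_nt (ee ee_add norm_ee ee_neg ee_zero)
open Pool.Agent.P.MP_8be758_nt.Avg (gs nsq gs_pos gs_le_one gs_neg gs_anti)
open Pool.Agent.P.MP_e94e4b_nt.PF (sgm)
open Pool.Agent.P.E2
open ArithmeticFunction (cardFactors vonMangoldt)

namespace RUNb

end RUNb

theorem q_RUN (hSUMS : L_SUMS) (hCHN : L_CHN) :
    L_RUN := by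
  intro a β ha hβ
  obtain ⟨D, hD, hS⟩ := hSUMS a (β / 2) ha (half_pos hβ)
  refine ⟨D, hD, ?_⟩
  filter_upwards [hS, eventually_ge_atTop 1] with P hS hP c η C x hη hC hcard hsum
  classical
  have hP0 : (0 : ℝ) < P := by exact_mod_cast hP
  let g : ℕ → Prop := fun q => (dis a c P x q : ℝ) ≤ 8 * η / β * P
  have h1 : ((C.filter fun q => ¬ g q).card : ℝ) * (4 * η / β) ≤
      ∑ q ∈ C, (dis a c P x q : ℝ) / q := by
    refine le_trans ?_ (sum_le_sum_of_subset_of_nonneg (filter_subset (fun q => ¬ g q) C)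
      fun _ _ _ => by positivity)
    rw [← nsmul_eq_mul]
    refine card_nsmul_le_sum _ _ _ fun q hq => ?_
    obtain ⟨hq1, hq2⟩ := mem_filter.1 hq
    obtain ⟨⟨a1, a2⟩, -⟩ := mem_pq.1 (hC hq1)
    have a3 : (0 : ℝ) < q := by exact_mod_cast (Nat.zero_le P).trans_lt a1
    have a4 : (q : ℝ) ≤ 2 * P := by exact_mod_cast a2
    rw [le_div_iff₀ a3]
    refine le_trans ?_ (not_le.1 hq2).le
    calc 4 * η / β * q ≤ 4 * η / β * (2 * P) := by gcongr
      _ = _ := by ring
  have h2 : ((C.filter g).card : ℝ) + (C.filter fun q => ¬ g q).card = C.card := by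
    exact_mod_cast card_filter_add_card_filter_not (s := C) g
  have h3 : ((C.filter fun q => ¬ g q).card : ℝ) ≤ β / 2 * (pq a P).card := by
    have h4 := (h1.trans hsum.le)
    have h5 : 2 * (η * (pq a P).card) = β / 2 * (pq a P).card * (4 * η / β) := by
      field_simp; ring
    rw [h5] at h4
    exact le_of_mul_le_mul_right h4 (by positivity)
  obtain ⟨q1, m1, q2, m2, q3, m3, q4, m4, d, d1, d2, e⟩ :=
    hS (C.filter g) ((filter_subset _ _).trans hC) (by linarith)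
  obtain ⟨m1, g1⟩ := mem_filter.1 m1
  obtain ⟨m2, g2⟩ := mem_filter.1 m2
  obtain ⟨m3, g3⟩ := mem_filter.1 m3
  obtain ⟨m4, g4⟩ := mem_filter.1 m4
  refine ⟨d, d1, d2, ?_⟩
  have h6 : (chg c P (c * d) (fun i => (x i).1) : ℝ) ≤
      dis a c P x q1 + dis a c P x q2 + dis a c P x q3 + dis a c P x q4 := by
    exact_mod_cast hCHN a c P q1 q2 q3 q4 d x (eh_le (hC m1)) (eh_le (hC m2)) (eh_le (hC m3)) e
  have h7 : 32 * η / β * P = 4 * (8 * η / β * P) := by ring
  simp only [g] at g1 g2 g3 g4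
  linarith

end Pool.Agent.P.PAR
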