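import Pool.Agent.P.MP_e94e4b_nt.PAR.IfE

/-! Step RUNL. -/

namespace Pool.Agent.P.PAR

open Finset Real Filter Topology MeasureTheory
open Pool.Agent.P.MP_e86632_nt (ee ee_add norm_ee ee_neg ee_zero)
open Pool.Agent.P.MP_8be758_nt.Avg (gs nsq gs_pos gs_le_one gs_neg gs_anti)
open Pool.Agent.P.MP_e94e4b_nt.PF (sgm)
open Pool.Agent.P.E2
open ArithmeticFunction (cardFactors vonMangoldt)

namespace RUNLb

theorem inner (h e i K Z : ℕ) (he : 1 ≤ e) (hi : i < K) :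
    ∑ n ∈ (Ioc K Z).filter (fun n => e ∣ n + i), |sh h ((n + i) / e)| / n ≤
      2 * ∑ x ∈ Icc 1 (2 * Z), |sh h x| / x := by
  classical
  set S := (Ioc K Z).filter (fun n => e ∣ n + i) with hS
  have hm : ∀ n ∈ S, 1 ≤ (n + i) / e ∧ (n + i) / e ≤ 2 * n ∧ n ≤ Z ∧ e ∣ n + i := by
    intro n hn
    obtain ⟨h1, h2⟩ := mem_filter.1 hn
    obtain ⟨h3, h4⟩ := mem_Ioc.1 h1
    refine ⟨Nat.div_pos (Nat.le_of_dvd (by omega) h2) he, ?_, h4, h2⟩
    exact (Nat.div_le_self _ _).trans (by omega)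
  have hinj : Set.InjOn (fun n => (n + i) / e) (S : Set ℕ) := by
    intro a ha b hb hab
    have h1 := Nat.div_mul_cancel (hm a ha).2.2.2
    have h2 := Nat.div_mul_cancel (hm b hb).2.2.2
    simp only at hab
    rw [hab] at h1
    omega
  calc ∑ n ∈ S, |sh h ((n + i) / e)| / n
      ≤ ∑ n ∈ S, 2 * (|sh h ((n + i) / e)| / ((n + i) / e : ℕ)) := by
        refine sum_le_sum fun n hn => ?_
        obtain ⟨h1, h2, -, -⟩ := hm n hn
        have h3 : (0 : ℝ) < ((n + i) / e : ℕ) := by exact_mod_cast h1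
        have h4 : (((n + i) / e : ℕ) : ℝ) ≤ 2 * n := by exact_mod_cast h2
        have h5 : (0 : ℝ) < n := by linarith
        rw [← mul_div_assoc, div_le_div_iff₀ h5 h3]
        nlinarith [abs_nonneg (sh h ((n + i) / e))]
    _ = 2 * ∑ m ∈ S.image (fun n => (n + i) / e), |sh h m| / m := by
        rw [← mul_sum, sum_image hinj]
    _ ≤ 2 * ∑ x ∈ Icc 1 (2 * Z), |sh h x| / x := by
        refine mul_le_mul_of_nonneg_left (sum_le_sum_of_subset_of_nonneg ?_
          fun _ _ _ => by positivity) (by norm_num)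
        intro m hm'
        obtain ⟨n, hn, rfl⟩ := mem_image.1 hm'
        obtain ⟨h1, h2, h3, -⟩ := hm n hn
        exact mem_Icc.2 ⟨h1, by omega⟩

theorem main (c D P h Z : ℕ) (g : ℕ → Prop) (hc : 1 ≤ c) (hP : 1 ≤ P) (hh : 1 ≤ h)
    (hg : ∀ n, g n → ∃ d ∈ Icc 1 D, (P : ℝ) * h ≤ 2 * D *
      ∑ i ∈ (range (5 * c * P)).filter (fun i => c * d ∣ n + i), |sh h ((n + i) / (c * d))|) :
    lm Z (fun n => 5 * c * P < n ∧ g n) ≤
      20 * c * D ^ 2 / h * ∑ x ∈ Icc 1 (2 * Z), |sh h x| / x := by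
  classical
  set K := 5 * c * P with hK
  set T := ∑ x ∈ Icc 1 (2 * Z), |sh h x| / (x : ℝ) with hT
  have hP' : (0 : ℝ) < P := by exact_mod_cast hP
  have hh' : (0 : ℝ) < h := by exact_mod_cast hh
  set F : ℕ → ℕ → ℕ → ℝ := fun n d i =>
    if c * d ∣ n + i then |sh h ((n + i) / (c * d))| / n else 0 with hF
  have hF0 : ∀ n d i, 0 ≤ F n d i := fun n d i => by
    simp only [hF]; split_ifs <;> positivity
  have h1 : lm Z (fun n => K < n ∧ g n) ≤ ∑ n ∈ (Ioc K Z).filter g, 1 / (n : ℝ) :=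
    lm_le_sum fun n _ b c => mem_filter.2 ⟨mem_Ioc.2 ⟨c.1, b⟩, c.2⟩
  have h2 : ∀ n ∈ (Ioc K Z).filter g,
      1 / (n : ℝ) ≤ 2 * D / (P * h) * ∑ d ∈ Icc 1 D, ∑ i ∈ range K, F n d i := by
    intro n hn
    obtain ⟨hn1, hn2⟩ := mem_filter.1 hn
    obtain ⟨d, hd, hb⟩ := hg n hn2
    have hn0 : (0 : ℝ) < n := by
      have := (mem_Ioc.1 hn1).1
      exact_mod_cast (by omega : 0 < n)
    have h3 : ∑ i ∈ range K, F n d i ≤ ∑ d ∈ Icc 1 D, ∑ i ∈ range K, F n d i :=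
      single_le_sum (f := fun d => ∑ i ∈ range K, F n d i)
        (fun d _ => sum_nonneg fun i _ => hF0 n d i) hd
    have h4 : ∑ i ∈ range K, F n d i =
        (∑ i ∈ (range K).filter (fun i => c * d ∣ n + i), |sh h ((n + i) / (c * d))|) / n := by
      rw [sum_div, sum_filter]
    refine le_trans ?_ (mul_le_mul_of_nonneg_left h3 (by positivity))
    rw [h4, ← mul_div_assoc]
    refine div_le_div_of_nonneg_right ?_ hn0.le
    rw [div_mul_eq_mul_div, le_div_iff₀ (by positivity), one_mul]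
    exact hb
  have h5 : ∀ d ∈ Icc 1 D, ∀ i ∈ range K, ∑ n ∈ Ioc K Z, F n d i ≤ 2 * T := by
    intro d hd i hi
    have := inner h (c * d) i K Z (Nat.mul_pos hc (mem_Icc.1 hd).1) (mem_range.1 hi)
    rwa [sum_filter] at this
  calc lm Z (fun n => K < n ∧ g n)
      ≤ ∑ n ∈ (Ioc K Z).filter g, 2 * D / (P * h) * ∑ d ∈ Icc 1 D, ∑ i ∈ range K, F n d i :=
        h1.trans (sum_le_sum h2)
    _ ≤ ∑ n ∈ Ioc K Z, 2 * D / (P * h) * ∑ d ∈ Icc 1 D, ∑ i ∈ range K, F n d i :=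
        sum_le_sum_of_subset_of_nonneg (filter_subset _ _) fun n _ _ =>
          mul_nonneg (by positivity) (sum_nonneg fun d _ => sum_nonneg fun i _ => hF0 n d i)
    _ = 2 * D / (P * h) * ∑ d ∈ Icc 1 D, ∑ i ∈ range K, ∑ n ∈ Ioc K Z, F n d i := by
        rw [← mul_sum, sum_comm]
        congr 1
        exact sum_congr rfl fun d _ => sum_comm
    _ ≤ 2 * D / (P * h) * ∑ d ∈ Icc 1 D, ∑ i ∈ range K, 2 * T :=
        mul_le_mul_of_nonneg_left (sum_le_sum fun d hd => sum_le_sum fun i hi => h5 d hd i hi)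
          (by positivity)
    _ = 20 * c * D ^ 2 / h * T := by
        simp only [sum_const, card_range, Nat.card_Icc, nsmul_eq_mul, hK]
        push_cast [Nat.add_sub_cancel]
        field_simp
        ring

end RUNLb

theorem q_RUNL (hMRL : L_MRL) (hRN1 : L_RN1) :
    L_RUNL := by
  intro c D ζ hc hD hζ
  have hc' : (0 : ℝ) < c := by exact_mod_cast hc
  have hD' : (0 : ℝ) < D := by exact_mod_cast hD
  obtain ⟨h, hh, hZ⟩ := hMRL (ζ / (80 * c * D ^ 2)) (by positivity)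
  have hh' : (0 : ℝ) < h := by exact_mod_cast hh
  refine ⟨1 / (4 * (h + 1) * D), by positivity, ?_⟩
  filter_upwards [eventually_ge_atTop (4 * D), eventually_ge_atTop ((h + 1) * D)] with P hP1 hP2
  have ht : Tendsto (fun Z : ℕ => 2 * Z) atTop atTop :=
    tendsto_atTop_mono (fun Z => by simp only [id]; omega) tendsto_id
  filter_upwards [ht.eventually hZ, ev_log (1 + Real.log (5 * c * P : ℕ)) (half_pos hζ),
    eventually_ge_atTop 2] with Z h1 h2 h3
  have h4 := RUNLb.main c D P h Z (fun n => ∃ d : ℕ, 1 ≤ d ∧ d ≤ D ∧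
      (chg c P (c * d) (fun i => par (n + i)) : ℝ) ≤ 1 / (4 * (h + 1) * D) * P) hc (by omega) hh
    (by
      rintro n ⟨d, a1, a2, a3⟩
      exact ⟨d, mem_Icc.2 ⟨a1, a2⟩, hRN1 c P D d h n hc a1 a2 hh hP1 hP2 a3⟩)
  have hZ2 : (2 : ℝ) ≤ Z := by exact_mod_cast h3
  have h5 : Real.log ((2 * Z : ℕ) : ℝ) ≤ 2 * Real.log Z := by
    push_cast
    rw [Real.log_mul (by norm_num) (by positivity)]
    linarith [Real.log_le_log (by norm_num) hZ2]
  have h6 : 20 * c * D ^ 2 / h * ∑ x ∈ Icc 1 (2 * Z), |sh h x| / (x : ℝ) ≤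
      ζ / 2 * Real.log Z := by
    refine (mul_le_mul_of_nonneg_left (h1.trans (mul_le_mul_of_nonneg_left h5 (by positivity)))
      (by positivity)).trans_eq ?_
    field_simp
    ring
  linarith [lm_le_add Z (5 * c * P) (fun n => ∃ d : ℕ, 1 ≤ d ∧ d ≤ D ∧
      (chg c P (c * d) (fun i => par (n + i)) : ℝ) ≤ 1 / (4 * (h + 1) * D) * P)]

end Pool.Agent.P.PAR
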