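import Pool.Agent.P.MP_e94e4b_nt.PAR.IfM

/-! Step SG. -/

namespace Pool.Agent.P.PAR

open Finset Real Filter Topology MeasureTheory
open Pool.Agent.P.MP_e86632_nt (ee ee_add norm_ee ee_neg ee_zero)
open Pool.Agent.P.MP_8be758_nt.Avg (gs nsq gs_pos gs_le_one gs_neg gs_anti)
open Pool.Agent.P.MP_e94e4b_nt.PF (sgm)
open Pool.Agent.P.E2
open ArithmeticFunction (cardFactors vonMangoldt)

namespace SGb

theorem one_le_log {ρ : ℝ} (h : 8 ≤ ρ) : 1 ≤ Real.log ρ := by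
  rw [Real.le_log_iff_exp_le (by linarith)]
  linarith [Real.exp_one_lt_d9]

theorem yu {ρ : ℝ} (h : 8 ≤ ρ) {v : ℕ} (hv : v ≤ sV ρ) :
    yy (sP ρ) (sd ρ) v ≤ Real.exp (2 * ρ ^ 12) := by
  have h0 : 0 < ρ := by linarith
  have h6 : 1 ≤ ρ ^ 6 := one_le_pow₀ (by linarith)
  have hd : 0 < sd ρ := by unfold sd; positivity
  have h1 : (1 + sd ρ) ^ v ≤ Real.exp (v * sd ρ) := by
    rw [Real.exp_nat_mul]
    exact pow_le_pow_left₀ (by positivity) (by linarith [Real.add_one_le_exp (sd ρ)]) v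
  have h2 : (v : ℝ) ≤ ρ ^ 18 + 1 :=
    (Nat.cast_le.2 hv).trans (Nat.ceil_lt_add_one (by positivity)).le
  have h3 : v * sd ρ ≤ ρ ^ 12 + 1 := by
    rw [sd, mul_one_div, div_le_iff₀ (by positivity)]
    nlinarith
  have h4 : 2 ≤ ρ ^ 6 := le_trans (by norm_num) (pow_le_pow_left₀ (by norm_num) h 6)
  calc _ ≤ Real.exp (ρ ^ 6) * Real.exp (v * sd ρ) :=
        mul_le_mul_of_nonneg_left h1 (Real.exp_pos _).le
    _ ≤ _ := by
        rw [← Real.exp_add]
        exact Real.exp_le_exp.2 (by nlinarith)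

theorem lower {ρ : ℝ} (h : 8 ≤ ρ) : 6 * Real.log ρ - 1 ≤
    Real.log (Real.log (yy (sP ρ) (sd ρ) (sV ρ)) / Real.log (sP ρ)) := by
  have h0 : 0 < ρ := by linarith
  have h6 : 1 ≤ ρ ^ 6 := one_le_pow₀ (by linarith)
  have hd : 0 < sd ρ := by unfold sd; positivity
  have hd1 : sd ρ ≤ 1 := by rw [sd, div_le_one (by positivity)]; exact h6
  have h1 : sd ρ / 2 ≤ Real.log (1 + sd ρ) := by
    refine le_trans ?_ (Real.le_log_one_add_of_nonneg hd.le)
    rw [div_le_div_iff₀ (by norm_num) (by positivity)]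
    nlinarith
  have h2 : ρ ^ 18 ≤ (sV ρ : ℝ) := Nat.le_ceil _
  have h3 : ρ ^ 12 / 2 ≤ sV ρ * Real.log (1 + sd ρ) := by
    refine le_trans (le_of_eq ?_) (mul_le_mul h2 h1 (by positivity) (by positivity))
    unfold sd; field_simp
  have hP : Real.log (sP ρ) = ρ ^ 6 := Real.log_exp _
  rw [log_yy (P := sP ρ) (Real.exp_pos _) hd.le, hP]
  have h4 : ρ ^ 6 / 2 ≤ (ρ ^ 6 + sV ρ * Real.log (1 + sd ρ)) / ρ ^ 6 := by
    rw [le_div_iff₀ (by positivity)]
    nlinarith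
  refine le_trans ?_ (Real.log_le_log (by positivity) h4)
  rw [Real.log_div (by positivity) (by norm_num), Real.log_pow]
  have := Real.log_two_lt_d9
  push_cast
  linarith

theorem sub_le {P δ : ℝ} (hP : 1 ≤ P) (hδ : 0 ≤ δ) (V : ℕ) :
    ∑ p ∈ (MP_8be758_nt.Avg.PL (yy P δ V)).filter
      (fun p : ℕ => P ≤ (p : ℝ) ∧ (p : ℝ) < yy P δ V), 1 / (p : ℝ) ≤ 1 + rs (pa P δ V) := by
  have h0 : 0 ≤ P := by linarith
  have h1 : 1 / ((⌊P⌋₊ : ℕ) : ℝ) ≤ 1 := by
    have : (1 : ℝ) ≤ (⌊P⌋₊ : ℕ) := by exact_mod_cast Nat.le_floor (by simpa using hP)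
    rw [div_le_one (by linarith)]; exact this
  calc _ ≤ ∑ p ∈ insert ⌊P⌋₊ (pa P δ V), 1 / (p : ℝ) := by
        refine sum_le_sum_of_subset_of_nonneg (fun p hp => ?_) fun _ _ _ => by positivity
        obtain ⟨h2, h3, h4⟩ := mem_filter.1 hp
        rcases h3.eq_or_lt with h5 | h5
        · rw [h5, Nat.floor_natCast]; exact mem_insert_self _ _
        · exact mem_insert_of_mem ((mem_pa h0 hδ).2
            ⟨⟨h5, h4.le⟩, MP_8be758_nt.Avg.prime_of_mem_PL h2⟩)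
    _ ≤ _ := by
        by_cases h : ⌊P⌋₊ ∈ pa P δ V
        · rw [insert_eq_of_mem h]; unfold rs; linarith
        · rw [sum_insert h]; unfold rs; linarith

end SGb

theorem q_SG (hMR1 : S_MR1) :
    L_SG := by
  have ht : Tendsto sP atTop atTop :=
    Real.tendsto_exp_atTop.comp (tendsto_pow_atTop (by norm_num))
  filter_upwards [ht.eventually (hMR1.1 1 one_pos), eventually_ge_atTop 8] with ρ h1 h
  have h0 : 0 < ρ := by linarith
  have h6 : 4 ≤ ρ ^ 6 := le_trans (by norm_num) (pow_le_pow_left₀ (by norm_num) h 6)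
  have hd : 0 < sd ρ := by unfold sd; positivity
  have hP : 4 ≤ sP ρ := by unfold sP; linarith [Real.add_one_le_exp (ρ ^ 6)]
  have hl := SGb.one_le_log h
  have hel : 3 * Real.log ρ ≤ rs (pa (sP ρ) (sd ρ) (sV ρ)) := by
    have h2 := (abs_le.1 (h1 _ _ le_rfl (le_yy (by linarith) hd.le (sV ρ)))).1
    have h3 := SGb.sub_le (P := sP ρ) (by linarith) hd.le (sV ρ)
    have h4 := SGb.lower h
    linarith
  refine ⟨h, hd, ?_, hP, ?_, fun v => le_yy (Real.exp_pos _).le hd.le v,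
    fun v hv => SGb.yu h hv, by linarith, hel, ?_⟩
  · exact one_div_le_one_div_of_le (by norm_num) (by linarith)
  · have h2 : 1 ≤ ρ ^ 18 := one_le_pow₀ (by linarith)
    have h3 := (Nat.ceil_lt_add_one (a := ρ ^ 18) (by positivity)).le
    unfold sV; linarith
  · refine one_div_le_one_div_of_le (by linarith) ((Real.log_le_self h0.le).trans ?_)
    exact le_self_pow₀ (by linarith) (by norm_num)

end Pool.Agent.P.PAR
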