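import Pool.Agent.P.MP_e94e4b_nt.PAR.IfM

/-! Step SH. -/

namespace Pool.Agent.P.PAR

open Finset Real Filter Topology MeasureTheory
open Pool.Agent.P.MP_e86632_nt (ee ee_add norm_ee ee_neg ee_zero)
open Pool.Agent.P.MP_8be758_nt.Avg (gs nsq gs_pos gs_le_one gs_neg gs_anti)
open Pool.Agent.P.MP_e94e4b_nt.PF (sgm)
open Pool.Agent.P.E2
open ArithmeticFunction (cardFactors vonMangoldt)

namespace SHb

theorem cmp {a : ℕ → ℂ} {b g : ℕ → ℝ} {I : Finset ℕ} (hab : ∀ n, ‖a n‖ ≤ b n)
    (h1 : Summable fun n => a n * (g n : ℂ))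
    (h2 : Summable fun n => b n * |g n - if n ∈ I then 1 else 0|) :
    ‖∑ n ∈ I, a n‖ ≤ ‖∑' n, a n * (g n : ℂ)‖ + ∑' n, b n * |g n - if n ∈ I then 1 else 0| := by
  have h3 : HasSum (fun n => if n ∈ I then a n else 0) (∑ n ∈ I, a n) := by
    have := hasSum_sum_of_ne_finset_zero (f := fun n => if n ∈ I then a n else 0) (s := I)
      (L := SummationFilter.unconditional ℕ) fun n hn => if_neg hn
    rwa [sum_congr rfl fun n hn => if_pos hn] at this
  have h4 := tsum_of_norm_bounded (f := fun n => a n * (g n : ℂ) - if n ∈ I then a n else 0)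
    h2.hasSum fun n => by
      rw [show (a n * (g n : ℂ) - if n ∈ I then a n else 0) =
        a n * ((g n - if n ∈ I then 1 else 0 : ℝ) : ℂ) by split_ifs <;> push_cast <;> ring,
        norm_mul, Complex.norm_real, Real.norm_eq_abs]
      exact mul_le_mul_of_nonneg_right (hab n) (abs_nonneg _)
  rw [(h1.hasSum.sub h3).tsum_eq] at h4
  linarith [norm_sub_norm_le (∑ n ∈ I, a n) (∑' n, a n * (g n : ℂ)),
    norm_sub_rev (∑ n ∈ I, a n) (∑' n, a n * (g n : ℂ))]

theorem bd (n : ℕ) : 0 ≤ |vonMangoldt n - on n| ∧ |vonMangoldt n - on n| ≤ n ∧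
    |vonMangoldt n - on n| ≤ 1 + Real.log n := by
  have h0 : 0 ≤ vonMangoldt n := ArithmeticFunction.vonMangoldt_nonneg
  have h1 := lam_le n
  have h2 := on_bd n
  have h3 : vonMangoldt n ≤ Real.log n := ArithmeticFunction.vonMangoldt_le_log
  have h4 : on n ≤ 1 := by unfold on; split_ifs <;> norm_num
  have h5 := Real.log_natCast_nonneg n
  exact ⟨abs_nonneg _, abs_le.2 ⟨by linarith, by linarith⟩, abs_le.2 ⟨by linarith, by linarith⟩⟩

end SHb

theorem q_SH (hSWP : S_SWP) (hPB : L_PB) (hWIN : L_WIN) :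
    L_SH := by
  filter_upwards [hPB, hWIN, eventually_ge_atTop 2] with r h1 h2 r1 M N t hM hMN hN hN2 ht2
  have hM0 : (0 : ℝ) < M := (Real.exp_pos _).trans_le hM
  have hMN' : (M : ℝ) ≤ N := by exact_mod_cast hMN
  have hN' : (N : ℝ) ≤ 2 * M := by exact_mod_cast hN
  have l1 : 20 * r ^ 12 ≤ Real.log M := (Real.le_log_iff_exp_le hM0).2 hM
  have l2 : Real.log N ≤ 2 * r ^ 13 := (Real.log_le_iff_le_exp (by linarith)).2 hN2
  have l3 : Real.log N ≤ Real.log M + 1 := by
    have := Real.log_le_log (by linarith) hN'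
    rw [Real.log_mul two_ne_zero hM0.ne'] at this
    linarith [Real.log_two_lt_d9]
  have hab : ∀ n, ‖((vonMangoldt n - on n : ℝ) : ℂ) * nit t n‖ ≤ |vonMangoldt n - on n| :=
    fun n => by rw [norm_mul, norm_nit, mul_one, Complex.norm_real, Real.norm_eq_abs]
  obtain ⟨a1, a2⟩ := hSWP (fun n => ((vonMangoldt n - on n : ℝ) : ℂ) * nit t n)
    (Real.exp (-(3 * r)))
    (Real.log M) (Real.log N) (2 * M * Real.exp (-(9 * r))) (Real.exp_pos _)
    (Real.exp_le_one_iff.2 (by linarith)) (Real.log_le_log hM0 hMN')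
    (fun n => (hab n).trans (SHb.bd n).2.1) fun v v1 v2 => by
      refine (h1 _ v t (Real.exp_le_exp.2 (by linarith)) (Real.exp_le_exp.2 (by linarith))
        (by linarith) (by linarith) ht2).trans ?_
      rw [sub_eq_add_neg, Real.exp_add]
      exact mul_le_mul_of_nonneg_right
        (((Real.le_log_iff_exp_le (by linarith)).1 v2).trans hN') (Real.exp_pos _).le
  obtain ⟨b1, b2⟩ := h2 (fun n => |vonMangoldt n - on n|) M N SHb.bd hM hMN hN hN2
  refine (SHb.cmp hab a1 b1).trans ((add_le_add a2 b2).trans ?_)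
  have e1 : Real.exp (-(9 * r)) ≤ Real.exp (-(2 * r)) := Real.exp_le_exp.2 (by linarith)
  have e2 : Real.exp r * Real.exp (-(2 * r)) = Real.exp (-r) := by
    rw [← Real.exp_add]; congr 1; ring
  have e3 : 3 * Real.exp (-(2 * r)) ≤ Real.exp (-r) := by
    nlinarith [Real.add_one_le_exp r, Real.exp_pos (-(2 * r))]
  have e4 : (Real.log N - Real.log M) * (2 * M * Real.exp (-(9 * r))) ≤
      2 * M * Real.exp (-(9 * r)) := mul_le_of_le_one_left (by positivity) (by linarith)
  nlinarith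

end Pool.Agent.P.PAR
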