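import Pool.Agent.P.MP_e94e4b_nt.PAR.IfM
import Pool.Agent.P.MP_8be758_nt.Avg.GS

/-! Step SS. -/

namespace Pool.Agent.P.PAR

open Finset Real Filter Topology MeasureTheory
open Pool.Agent.P.MP_e86632_nt (ee ee_add norm_ee ee_neg ee_zero)
open Pool.Agent.P.MP_8be758_nt.Avg (gs nsq gs_pos gs_le_one gs_neg gs_anti)
open Pool.Agent.P.MP_e94e4b_nt.PF (sgm)
open Pool.Agent.P.E2
open ArithmeticFunction (cardFactors vonMangoldt)

namespace SSb

theorem pt (hWIN1 : S_WIN1) {w α β x : ℝ} (hw : 0 < w) (h : α ≤ β) :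
    |win w α β x - if α < x ∧ x ≤ β then 1 else 0| ≤
      2 * Real.exp (-((x - α) / w) ^ 2) + 2 * Real.exp (-((x - β) / w) ^ 2) := by
  have p1 := Real.exp_pos (-((x - α) / w) ^ 2)
  have p2 := Real.exp_pos (-((x - β) / w) ^ 2)
  have e1 : ((α - x) / w) ^ 2 = ((x - α) / w) ^ 2 := by ring
  have e2 : ((β - x) / w) ^ 2 = ((x - β) / w) ^ 2 := by ring
  split_ifs with hx
  · obtain ⟨hx1, hx2⟩ := hx
    rcases le_total (x - α) (β - x) with hc | hc
    · obtain ⟨a1, a2, a3, -⟩ := hWIN1 w α β x ((x - α) / w) hw h (div_nonneg (by linarith) hw.le)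
      have := a3 (by rw [div_mul_cancel₀ _ hw.ne']; linarith)
        (by rw [div_mul_cancel₀ _ hw.ne']; linarith)
      rw [abs_of_nonpos (by linarith)]
      linarith
    · obtain ⟨a1, a2, a3, -⟩ := hWIN1 w α β x ((β - x) / w) hw h (div_nonneg (by linarith) hw.le)
      have := a3 (by rw [div_mul_cancel₀ _ hw.ne']; linarith)
        (by rw [div_mul_cancel₀ _ hw.ne']; linarith)
      rw [e2] at this
      rw [abs_of_nonpos (by linarith)]
      linarith
  · rw [sub_zero]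
    rcases le_or_gt x α with hc | hc
    · obtain ⟨a1, -, -, a4, -⟩ := hWIN1 w α β x ((α - x) / w) hw h (div_nonneg (by linarith) hw.le)
      have := a4 (Or.inl (by rw [div_mul_cancel₀ _ hw.ne']; linarith))
      rw [e1] at this
      rw [abs_of_nonneg a1]
      linarith
    · have hb : β < x := by
        by_contra hh
        exact hx ⟨hc, not_lt.1 hh⟩
      obtain ⟨a1, -, -, a4, -⟩ := hWIN1 w α β x ((x - β) / w) hw h (div_nonneg (by linarith) hw.le)
      have := a4 (Or.inr (by rw [div_mul_cancel₀ _ hw.ne']; linarith))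
      rw [abs_of_nonneg a1]
      linarith

theorem logd {u v M : ℝ} (hu : 0 < u) (huv : u ≤ v) (hv : v ≤ M) :
    (v - u) / M ≤ Real.log v - Real.log u := by
  have hv0 : 0 < v := hu.trans_le huv
  have h1 := Real.one_sub_inv_le_log_of_pos (div_pos hv0 hu)
  rw [Real.log_div hv0.ne' hu.ne', inv_div] at h1
  refine le_trans ?_ h1
  have e : 1 - u / v = (v - u) / v := by field_simp
  rw [e]
  exact div_le_div_of_nonneg_left (by linarith) hv0 hv

theorem logsq {u v M : ℝ} (hu : 0 < u) (hv : 0 < v) (huM : u ≤ M) (hvM : v ≤ M) :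
    ((v - u) / M) ^ 2 ≤ (Real.log v - Real.log u) ^ 2 := by
  have hM : 0 < M := hu.trans_le huM
  rcases le_total u v with h | h
  · exact pow_le_pow_left₀ (div_nonneg (by linarith) hM.le) (logd hu h hvM) 2
  · have := pow_le_pow_left₀ (div_nonneg (by linarith) hM.le) (logd hv h huM) 2
    calc ((v - u) / M) ^ 2 = ((u - v) / M) ^ 2 := by ring
      _ ≤ (Real.log u - Real.log v) ^ 2 := this
      _ = _ := by ring

theorem gau {X h0 u v : ℝ} (hX : 0 < X) (hh : 0 < h0) (hu : 0 < u) (hv : 0 < v)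
    (huM : u ≤ 8 * X) (hvM : v ≤ 8 * X) :
    Real.exp (-((Real.log v - Real.log u) / (h0 / X)) ^ 2) ≤ gs (1 / (16 * h0) * (v - u)) := by
  rw [gs]
  refine Real.exp_le_exp.2 (neg_le_neg ?_)
  have h1 := logsq hu hv huM hvM
  have e1 : ((Real.log v - Real.log u) / (h0 / X)) ^ 2 =
      (X / h0) ^ 2 * (Real.log v - Real.log u) ^ 2 := by field_simp
  have e2 : (1 / (16 * h0) * (v - u)) ^ 2 = (X / h0) ^ 2 * ((v - u) / (8 * X)) ^ 2 / 4 := by
    field_simp; ring
  rw [e1, e2]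
  have h2 := mul_le_mul_of_nonneg_left h1 (pow_two_nonneg (X / h0))
  have h3 : 0 ≤ (X / h0) ^ 2 * ((v - u) / (8 * X)) ^ 2 := by positivity
  nlinarith [Real.pi_le_four]

theorem gsum {h0 : ℝ} (hh : 1 ≤ h0) (c : ℝ) (S : Finset ℕ) :
    ∑ n ∈ S, gs (1 / (16 * h0) * (n - c)) ≤ 66 * h0 := by
  have h1 := Pool.Agent.P.MP_8be758_nt.Avg.gs_sum_le (r := 1 / (16 * h0)) (by positivity) c
    (S.map ⟨Nat.cast, Nat.cast_injective⟩)
  rw [sum_map] at h1
  simp only [Function.Embedding.coeFn_mk, Int.cast_natCast] at h1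
  have e : 2 / (1 / (16 * h0)) = 32 * h0 := by field_simp; norm_num
  rw [e] at h1
  linarith

theorem cgk (a y : ℝ) : Continuous fun v : ℝ => gk a (y - v) := by
  unfold gk gs
  fun_prop

theorem intg (X : ℕ) (a α β : ℝ) (b : ℕ → ℂ) :
    ∫ v in α..β, Phi X a b v = ∑ n ∈ Ioc X (8 * X), b n * (win a α β (Real.log n) : ℂ) := by
  unfold Phi
  rw [intervalIntegral.integral_finsetSum
    (f := fun (n : ℕ) (v : ℝ) => b n * (gk a (Real.log n - v) : ℂ)) fun n _ =>
    (continuous_const.mul (Complex.continuous_ofReal.comp (cgk a _))).intervalIntegrable _ _]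
  refine sum_congr rfl fun n _ => ?_
  rw [intervalIntegral.integral_const_mul, win, ← intervalIntegral.integral_ofReal]

end SSb

theorem q_SS (hWIN1 : S_WIN1) :
    L_SS := by
  refine ⟨264, by norm_num, fun X A B h0 b hX hh hA hAB hB hb => ?_⟩
  have hX0 : (0 : ℝ) < X := by exact_mod_cast hX
  have hA0 : (0 : ℝ) < A := by exact_mod_cast hX.trans hA
  have hB0 : (0 : ℝ) < B := by exact_mod_cast (hX.trans hA).trans hAB
  have hAB' : (A : ℝ) ≤ B := by exact_mod_cast hAB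
  have hB' : (B : ℝ) ≤ 8 * X := by exact_mod_cast hB
  have hh0 : 0 < h0 := by linarith
  have e1 : ∑ n ∈ Ioc A B, b n =
      ∑ n ∈ Ioc X (8 * X), b n * ((if n ∈ Ioc A B then 1 else 0 : ℝ) : ℂ) := by
    rw [← sum_subset (Ioc_subset_Ioc hA hB) fun n _ hn => by rw [if_neg hn]; simp]
    exact sum_congr rfl fun n hn => by rw [if_pos hn]; simp
  rw [SSb.intg, e1, ← sum_sub_distrib]
  refine (norm_sum_le_of_le _ (n := fun n : ℕ => 2 * gs (1 / (16 * h0) * (n - A)) +
    2 * gs (1 / (16 * h0) * (n - B))) fun n hn => ?_).trans ?_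
  · obtain ⟨n1, n2⟩ := mem_Ioc.1 hn
    have hn0 : (0 : ℝ) < n := by exact_mod_cast (Nat.zero_le _).trans_lt n1
    have hn8 : (n : ℝ) ≤ 8 * X := by exact_mod_cast n2
    rw [← mul_sub, norm_mul, ← Complex.ofReal_sub, Complex.norm_real, Real.norm_eq_abs,
      abs_sub_comm]
    refine (mul_le_of_le_one_left (abs_nonneg _) (hb n)).trans ?_
    have hi : n ∈ Ioc A B ↔ Real.log A < Real.log n ∧ Real.log n ≤ Real.log B := by
      rw [mem_Ioc, Real.log_lt_log_iff hA0 hn0, Real.log_le_log_iff hn0 hB0, Nat.cast_lt,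
        Nat.cast_le]
    have h1 := SSb.pt hWIN1 (x := Real.log n) (div_pos hh0 hX0) (Real.log_le_log hA0 hAB')
    have h2 := SSb.gau hX0 hh0 hA0 hn0 (hAB'.trans hB') hn8
    have h3 := SSb.gau hX0 hh0 hB0 hn0 hB' hn8
    simp only [hi]
    linarith
  · rw [sum_add_distrib, ← mul_sum, ← mul_sum]
    linarith [SSb.gsum hh A (Ioc X (8 * X)), SSb.gsum hh B (Ioc X (8 * X))]

end Pool.Agent.P.PAR
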