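import Pool.Agent.P.MP_e94e4b_nt.PAR.IfM

/-! Step ST1. -/

namespace Pool.Agent.P.PAR

open Finset Real Filter Topology MeasureTheory
open Pool.Agent.P.MP_e86632_nt (ee ee_add norm_ee ee_neg ee_zero)
open Pool.Agent.P.MP_8be758_nt.Avg (gs nsq gs_pos gs_le_one gs_neg gs_anti)
open Pool.Agent.P.MP_e94e4b_nt.PF (sgm)
open Pool.Agent.P.E2
open ArithmeticFunction (cardFactors vonMangoldt)

namespace ST1b

theorem bl_le {X V : ℕ} {P δ Z e K : ℝ} {T : Set ℝ} (hP : 0 < P) (hδ : 0 ≤ δ) (hZ : 0 < Z)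
    (hT : MeasurableSet T) (hq : ∀ v < V, ∀ t ∈ T, ‖qv P δ v t‖ ≤ yy P δ v * e)
    (hr : ∀ v < V, ∫ t, gs (t / Z) * ‖rv X P δ v t‖ ^ 2 ≤ K * (X / yy P δ v) ^ 2) :
    ∫ t in T, gs (t / Z) * ‖bl X P δ V t‖ ^ 2 ≤ (V : ℝ) ^ 2 * e ^ 2 * K * X ^ 2 := by
  have hi : ∀ v, Integrable (fun t => V * (yy P δ v * e) ^ 2 *
      (gs (t / Z) * ‖rv X P δ v t‖ ^ 2)) (volume.restrict T) :=
    fun v => ((bd_rv X P δ v).int hZ).integrableOn.const_mul _
  calc _ ≤ ∫ t in T, ∑ v ∈ range V, V * (yy P δ v * e) ^ 2 *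
        (gs (t / Z) * ‖rv X P δ v t‖ ^ 2) := by
        refine setIntegral_mono_on ((bd_bl X P δ V).int hZ).integrableOn
          (integrable_finsetSum _ fun v _ => hi v) hT fun t ht => ?_
        have h1 := norm_sum_sq_le (range V) fun v => qv P δ v t * rv X P δ v t
        rw [card_range, mul_sum] at h1
        refine (mul_le_mul_of_nonneg_left h1 (gs_pos _).le).trans ?_
        rw [mul_sum]
        refine sum_le_sum fun v hv => ?_
        have h2 := pow_le_pow_left₀ (norm_nonneg _) (hq v (mem_range.1 hv) t ht) 2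
        have h3 := gs_pos (t / Z)
        rw [norm_mul, mul_pow]
        calc _ = V * ‖qv P δ v t‖ ^ 2 * (gs (t / Z) * ‖rv X P δ v t‖ ^ 2) := by ring
          _ ≤ _ := by gcongr
    _ = ∑ v ∈ range V, V * (yy P δ v * e) ^ 2 *
        ∫ t in T, gs (t / Z) * ‖rv X P δ v t‖ ^ 2 := by
        rw [integral_finsetSum _ fun v _ => hi v]
        exact sum_congr rfl fun v _ => integral_const_mul _ _
    _ ≤ ∑ v ∈ range V, V * e ^ 2 * K * X ^ 2 := by
        refine sum_le_sum fun v hv => ?_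
        have h1 := ((bd_rv X P δ v).set_le hZ T).trans (hr v (mem_range.1 hv))
        have h2 := yy_pos hP hδ v
        refine (mul_le_mul_of_nonneg_left h1 (by positivity)).trans_eq ?_
        field_simp
    _ = _ := by rw [sum_const, card_range, nsmul_eq_mul]; ring

end ST1b

theorem q_ST1 (hDEC : L_DEC) (hRM : L_RM) (hSG : L_SG) :
    L_ST1 := by
  obtain ⟨C, hC, hD⟩ := hDEC
  obtain ⟨K, hK, hR⟩ := hRM
  refine ⟨2 * C + 1, by positivity, fun α0 h0 => ?_⟩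
  filter_upwards [hSG, ev_pe (8 * K) 37 (c := 2 * α0) (by positivity)] with ρ g hb α Z X hα hX hZ hZX
  have r8 := g.r8
  have r1 : 1 ≤ ρ := by linarith
  have hP : 0 < sP ρ := by linarith [g.p4]
  have hL : 0 < Real.log ρ := Real.log_pos (by linarith)
  have hZ0 : 0 < Z := by linarith
  have hX0 : (0 : ℝ) < X := (Real.exp_pos _).trans_le hX
  have hZ' : Z ≤ X :=
    (le_mul_of_one_le_right hZ0.le (Real.one_le_exp (by positivity))).trans hZX
  have hy : yy (sP ρ) (sd ρ) (sV ρ) ^ 2 ≤ sd ρ * X := by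
    have h1 := pow_le_pow_left₀ (yy_pos hP g.d0.le _).le (g.yu _ le_rfl) 2
    have h2 : ρ ^ 6 ≤ Real.exp (ρ ^ 12) :=
      (pow_le_pow_right₀ r1 (by norm_num : 6 ≤ 12)).trans (by linarith [Real.add_one_le_exp (ρ ^ 12)])
    have h3 : Real.exp (2 * ρ ^ 12) ^ 2 * Real.exp (ρ ^ 12) = Real.exp (5 * ρ ^ 12) := by
      rw [← Real.exp_nat_mul, ← Real.exp_add]; congr 1; push_cast; ring
    refine h1.trans ?_
    rw [sd, one_div, inv_mul_eq_div, le_div_iff₀ (by positivity)]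
    refine le_trans ?_ hX
    rw [← h3]; gcongr
  have h1 := hD X (sV ρ) (sP ρ) (sd ρ) Z (bad ρ α)ᶜ (by linarith [g.p4]) g.d0.le
    (by linarith [g.d1]) g.e1 hy hZ hZ' (meas_bad ρ α).compl
  have h2 := ST1b.bl_le (X := X) (V := sV ρ) (e := Real.exp (-(α0 * ρ ^ 6))) (K := K) hP g.d0.le hZ0
    (meas_bad ρ α).compl (fun v hv t ht => ?_) fun v hv => hR X v _ _ Z (by linarith [g.p4]) g.d0.le hZ
      ((mul_le_mul_of_nonneg_left (g.yu v hv.le) hZ0.le).trans hZX)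
  · set E := rs (pa (sP ρ) (sd ρ) (sV ρ))
    have e1 : 1 ≤ E := g.e1
    have h3 : 1 / E + sd ρ ≤ 2 / Real.log ρ := by
      have a : 1 / E ≤ 1 / Real.log ρ := one_div_le_one_div_of_le hL (by linarith [g.el])
      have b : 2 / Real.log ρ = 1 / Real.log ρ + 1 / Real.log ρ := by ring
      linarith [g.dl]
    have h4 : 2 / E ^ 2 ≤ 2 := div_le_self (by norm_num) (one_le_pow₀ e1)
    have h5 : 2 * ((sV ρ : ℝ) ^ 2 * Real.exp (-(α0 * ρ ^ 6)) ^ 2 * K) ≤ 1 / Real.log ρ := by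
      have a : Real.exp (2 * α0 * ρ) * Real.exp (-(α0 * ρ ^ 6)) ^ 2 ≤ 1 := by
        rw [← Real.exp_nat_mul, ← Real.exp_add]
        refine Real.exp_le_one_iff.2 ?_
        have : ρ ≤ ρ ^ 6 := le_self_pow₀ r1 (by norm_num)
        push_cast; nlinarith
      have b : Real.log ρ ≤ ρ := Real.log_le_self (by linarith)
      have c := g.vu
      rw [le_div_iff₀ hL]
      calc _ ≤ 2 * ((2 * ρ ^ 18) ^ 2 * Real.exp (-(α0 * ρ ^ 6)) ^ 2 * K) * ρ := by gcongr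
        _ = 8 * K * ρ ^ 37 * Real.exp (-(α0 * ρ ^ 6)) ^ 2 := by ring
        _ ≤ Real.exp (2 * α0 * ρ) * Real.exp (-(α0 * ρ ^ 6)) ^ 2 := by gcongr
        _ ≤ 1 := a
    have h6 : 0 ≤ ∫ t in (bad ρ α)ᶜ, gs (t / Z) * ‖bl X (sP ρ) (sd ρ) (sV ρ) t‖ ^ 2 :=
      integral_nonneg (gsq_nonneg _ Z)
    calc _ ≤ _ := h1
      _ ≤ C * X ^ 2 * (2 / Real.log ρ) +
          2 * ((sV ρ : ℝ) ^ 2 * Real.exp (-(α0 * ρ ^ 6)) ^ 2 * K * X ^ 2) := by gcongr
      _ = C * X ^ 2 * (2 / Real.log ρ) +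
          2 * ((sV ρ : ℝ) ^ 2 * Real.exp (-(α0 * ρ ^ 6)) ^ 2 * K) * X ^ 2 := by ring
      _ ≤ C * X ^ 2 * (2 / Real.log ρ) + 1 / Real.log ρ * X ^ 2 := by gcongr
      _ = _ := by ring
  · have a : ‖qv (sP ρ) (sd ρ) v t‖ ≤ yy (sP ρ) (sd ρ) v ^ (1 - α) :=
      not_lt.1 fun h => ht ⟨v, hv, h⟩
    have y0 := yy_pos hP g.d0.le v
    refine a.trans ?_
    rw [sub_eq_add_neg, Real.rpow_add y0, Real.rpow_one, Real.rpow_def_of_pos y0]
    have b : ρ ^ 6 ≤ Real.log (yy (sP ρ) (sd ρ) v) := (Real.le_log_iff_exp_le y0).2 (g.yl v)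
    have c : α0 * ρ ^ 6 ≤ α * Real.log (yy (sP ρ) (sd ρ) v) := by
      have : 0 ≤ α := by linarith
      gcongr
    exact mul_le_mul_of_nonneg_left (Real.exp_le_exp.2 (by linarith)) y0.le

end Pool.Agent.P.PAR
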