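import Pool.Agent.P.MP_e94e4b_nt.PAR.IfE

/-! Step SUMS. -/

namespace Pool.Agent.P.PAR

open Finset Real Filter Topology MeasureTheory
open Pool.Agent.P.MP_e86632_nt (ee ee_add norm_ee ee_neg ee_zero)
open Pool.Agent.P.MP_8be758_nt.Avg (gs nsq gs_pos gs_le_one gs_neg gs_anti)
open Pool.Agent.P.MP_e94e4b_nt.PF (sgm)
open Pool.Agent.P.E2
open ArithmeticFunction (cardFactors vonMangoldt)

namespace SUMSb

theorem cs {P : ℕ} {C : Finset ℕ} (hC : C ⊆ pr2 P) :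
    (C.card : ℝ) ^ 4 ≤ (((C ×ˢ C).image fun x => x.1 + x.2).card : ℝ) *
      ∑ s ∈ range (4 * P + 1), (((pr2 P ×ˢ pr2 P).filter fun x => x.1 + x.2 = s).card : ℝ) ^ 2 := by
  set T := (C ×ˢ C).image fun x : ℕ × ℕ => x.1 + x.2 with hT
  have hsub : T ⊆ range (4 * P + 1) := by
    intro s hs
    obtain ⟨x, hx, rfl⟩ := mem_image.1 hs
    obtain ⟨h1, h2⟩ := mem_product.1 hx
    have a1 := (mem_pr2.1 (hC h1)).1.2
    have a2 := (mem_pr2.1 (hC h2)).1.2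
    rw [mem_range]; omega
  have h1 : (C ×ˢ C).card = ∑ s ∈ T, ((C ×ˢ C).filter fun x => x.1 + x.2 = s).card :=
    card_eq_sum_card_image (fun x : ℕ × ℕ => x.1 + x.2) (C ×ˢ C)
  have h2 : (C.card : ℝ) ^ 2 = ∑ s ∈ T, (((C ×ˢ C).filter fun x => x.1 + x.2 = s).card : ℝ) := by
    rw [card_product] at h1
    rw [pow_two]; exact_mod_cast h1
  have h3 := sq_sum_le_card_mul_sum_sq (s := T)
    (f := fun s => (((C ×ˢ C).filter fun x => x.1 + x.2 = s).card : ℝ))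
  have h4 : ∑ s ∈ T, (((C ×ˢ C).filter fun x => x.1 + x.2 = s).card : ℝ) ^ 2 ≤
      ∑ s ∈ range (4 * P + 1), (((pr2 P ×ˢ pr2 P).filter fun x => x.1 + x.2 = s).card : ℝ) ^ 2 := by
    refine le_trans (sum_le_sum fun s _ => ?_)
      (sum_le_sum_of_subset_of_nonneg hsub fun _ _ _ => by positivity)
    refine pow_le_pow_left₀ (Nat.cast_nonneg _) ?_ 2
    exact_mod_cast card_le_card (filter_subset_filter _ (product_subset_product hC hC))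
  calc (C.card : ℝ) ^ 4 = ((C.card : ℝ) ^ 2) ^ 2 := by ring
    _ ≤ _ := by rw [h2]; exact h3
    _ ≤ _ := mul_le_mul_of_nonneg_left h4 (Nat.cast_nonneg _)

theorem pigeon {N D : ℕ} {T : Finset ℕ} (hD : 1 ≤ D) (hT : ∀ s ∈ T, s ≤ N)
    (h : N / D + 1 < T.card) : ∃ s ∈ T, ∃ t ∈ T, s < t ∧ t < s + D := by
  have hm : ∀ s ∈ T, s / D ∈ range (N / D + 1) := fun s hs =>
    mem_range.2 (Nat.lt_succ_of_le (Nat.div_le_div_right (hT s hs)))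
  obtain ⟨s, hs, t, ht, hne, he⟩ := exists_ne_map_eq_of_card_lt_of_maps_to
    (f := fun s => s / D) (by rwa [card_range]) hm
  have he' : s / D = t / D := he
  have e1 := Nat.div_add_mod s D
  have e2 := Nat.div_add_mod t D
  have l1 := Nat.mod_lt s (show 0 < D by omega)
  have l2 := Nat.mod_lt t (show 0 < D by omega)
  rw [he'] at e1
  rcases lt_or_gt_of_ne hne with hlt | hlt
  · exact ⟨s, hs, t, ht, hlt, by omega⟩
  · exact ⟨t, ht, s, hs, hlt, by omega⟩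

theorem shift {a q1 q2 q3 q4 e1 e2 e3 e4 D : ℕ} (ha : 1 ≤ a) (h1 : q1 + a = a * e1 + 1)
    (h2 : q2 + a = a * e2 + 1) (h3 : q3 + a = a * e3 + 1) (h4 : q4 + a = a * e4 + 1)
    (hlt : q1 + q3 < q2 + q4) (hD : q2 + q4 < q1 + q3 + D) :
    ∃ d : ℕ, 1 ≤ d ∧ d ≤ D ∧ e2 + e4 = e1 + e3 + d := by
  have hl : a * (e1 + e3) < a * (e2 + e4) := by rw [mul_add, mul_add]; omega
  have hl' : e1 + e3 < e2 + e4 := Nat.lt_of_mul_lt_mul_left hl
  obtain ⟨d, hd⟩ := Nat.exists_eq_add_of_le hl'.le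
  refine ⟨d, by omega, ?_, hd⟩
  have h5 : a * (e2 + e4) = a * (e1 + e3) + a * d := by rw [hd]; ring
  have h6 : d ≤ a * d := Nat.le_mul_of_pos_left d (by omega)
  rw [mul_add, mul_add] at h5
  omega

theorem alg {a β K L P c q t E : ℝ} (ha : 0 < a) (hβ : 0 < β) (hK : 0 < K) (hL : 0 < L)
    (hP : 0 < P) (ht : 0 ≤ t) (hq : P / (2 * a * L) ≤ q) (hc : β * q ≤ c) (h1 : c ^ 4 ≤ t * E)
    (h2 : E ≤ K * P ^ 3 / L ^ 4) : β ^ 4 / (16 * a ^ 4 * K) * P ≤ t := by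
  have h3 : β * (P / (2 * a * L)) ≤ c := (mul_le_mul_of_nonneg_left hq hβ.le).trans hc
  have h4 : (β * (P / (2 * a * L))) ^ 4 ≤ c ^ 4 := pow_le_pow_left₀ (by positivity) h3 4
  have h5 : t * E ≤ t * (K * P ^ 3 / L ^ 4) := mul_le_mul_of_nonneg_left h2 ht
  have h6 : (β * (P / (2 * a * L))) ^ 4 =
      (β ^ 4 / (16 * a ^ 4 * K) * P) * (K * P ^ 3 / L ^ 4) := by
    field_simp; ring
  have h7 : 0 < K * P ^ 3 / L ^ 4 := by positivity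
  exact le_of_mul_le_mul_right (by rw [← h6]; exact h4.trans (h1.trans h5)) h7

end SUMSb

theorem q_SUMS (hPQC : L_PQC) (hEN : L_EN) :
    L_SUMS := by
  intro a β ha hβ
  obtain ⟨K, hK, hE⟩ := hEN
  have ha' : (0 : ℝ) < a := by exact_mod_cast ha
  set σ : ℝ := β ^ 4 / (16 * (a : ℝ) ^ 4 * K) with hσ
  have hσ0 : 0 < σ := by positivity
  have hD0 : (0 : ℝ) < 8 / σ := by positivity
  have hD1 : 1 ≤ ⌈8 / σ⌉₊ := Nat.one_le_iff_ne_zero.2 (Nat.ceil_pos.2 hD0).ne'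
  refine ⟨⌈8 / σ⌉₊, hD1, ?_⟩
  have hbig : ∀ᶠ P : ℕ in atTop, 4 / σ ≤ (P : ℝ) :=
    tendsto_natCast_atTop_atTop.eventually_ge_atTop _
  filter_upwards [hE, hPQC.2 a ha, ev_log 1 one_pos, hbig] with P hE hq hL hP C hC hc
  rw [one_mul] at hL
  have hP0 : (0 : ℝ) < P := lt_of_lt_of_le (by positivity) hP
  have hC2 : C ⊆ pr2 P := hC.trans (pq_subset a P)
  have h1 := SUMSb.cs hC2
  set T := (C ×ˢ C).image fun x : ℕ × ℕ => x.1 + x.2 with hT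
  have h2 : σ * P ≤ T.card :=
    SUMSb.alg ha' hβ hK (by linarith) hP0 (Nat.cast_nonneg _) hq hc h1 hE
  have hTN : ∀ s ∈ T, s ≤ 4 * P := by
    intro s hs
    obtain ⟨x, hx, rfl⟩ := mem_image.1 hs
    obtain ⟨h1, h2⟩ := mem_product.1 hx
    have a1 := (mem_pr2.1 (hC2 h1)).1.2
    have a2 := (mem_pr2.1 (hC2 h2)).1.2
    omega
  have h3 : 4 * P / ⌈8 / σ⌉₊ + 1 < T.card := by
    have e1 : ((4 * P / ⌈8 / σ⌉₊ : ℕ) : ℝ) ≤ ((4 * P : ℕ) : ℝ) / (⌈8 / σ⌉₊ : ℕ) := Nat.cast_div_le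
    have e2 : ((4 * P : ℕ) : ℝ) / (⌈8 / σ⌉₊ : ℕ) ≤ ((4 * P : ℕ) : ℝ) / (8 / σ) :=
      div_le_div_of_nonneg_left (Nat.cast_nonneg _) hD0 (Nat.le_ceil _)
    have e3 : ((4 * P : ℕ) : ℝ) / (8 / σ) = σ * P / 2 := by
      push_cast; field_simp; ring
    have e4 : 4 ≤ σ * P := by
      rw [div_le_iff₀ hσ0] at hP; linarith
    have e5 : ((4 * P / ⌈8 / σ⌉₊ + 1 : ℕ) : ℝ) < T.card := by
      push_cast [Nat.cast_add]
      linarith
    exact_mod_cast e5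
  obtain ⟨s, hs, t, ht, hst, hts⟩ := SUMSb.pigeon hD1 hTN h3
  obtain ⟨x, hx, rfl⟩ := mem_image.1 hs
  obtain ⟨y, hy, rfl⟩ := mem_image.1 ht
  obtain ⟨x1, x2⟩ := mem_product.1 hx
  obtain ⟨y1, y2⟩ := mem_product.1 hy
  obtain ⟨d, hd⟩ := SUMSb.shift ha (eh_spec (hC x1)) (eh_spec (hC y1)) (eh_spec (hC x2))
    (eh_spec (hC y2)) hst hts
  exact ⟨x.1, x1, y.1, y1, x.2, x2, y.2, y2, d, hd⟩

end Pool.Agent.P.PAR
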