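import Pool.Agent.P.MP_e94e4b_nt.PAR.IfE

/-! Step TH. -/

namespace Pool.Agent.P.PAR

open Finset Real Filter Topology MeasureTheory
open Pool.Agent.P.MP_e86632_nt (ee ee_add norm_ee ee_neg ee_zero)
open Pool.Agent.P.MP_8be758_nt.Avg (gs nsq gs_pos gs_le_one gs_neg gs_anti)
open Pool.Agent.P.MP_e94e4b_nt.PF (sgm)
open Pool.Agent.P.E2
open ArithmeticFunction (cardFactors vonMangoldt)

namespace THb

theorem log_le {L : ℕ} (hL : 1 ≤ L) : ∀ᶠ Z : ℕ in atTop,
    Real.log (((Z + 1) * L : ℕ) : ℝ) ≤ 3 * Real.log Z := by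
  filter_upwards [eventually_ge_atTop (L + 2)] with Z hZ
  have h1 : (Z + 1) * L ≤ Z ^ 3 := by
    have h2 : Z + 1 ≤ Z * Z := by nlinarith
    calc (Z + 1) * L ≤ (Z * Z) * Z := Nat.mul_le_mul h2 (by omega)
      _ = Z ^ 3 := by ring
  have h3 : (0 : ℝ) < (((Z + 1) * L : ℕ) : ℝ) := by
    have : 0 < (Z + 1) * L := Nat.mul_pos (by omega) hL
    exact_mod_cast this
  have h4 : (((Z + 1) * L : ℕ) : ℝ) ≤ (Z : ℝ) ^ 3 := by exact_mod_cast h1
  refine (Real.log_le_log h3 h4).trans_eq ?_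
  rw [Real.log_pow]; norm_num

theorem tend {L : ℕ} (hL : 1 ≤ L) : Tendsto (fun Z : ℕ => (Z + 1) * L) atTop atTop :=
  tendsto_atTop_mono (fun Z => by
    show Z ≤ (Z + 1) * L
    nlinarith) tendsto_id

end THb

theorem q_TH (hPQC : L_PQC) (hRUN : L_RUN) (hRUNL : L_RUNL) (hBK2 : L_BK2) (hERR : L_ERR) (hTB : L_TB) (hBS : L_BS) :
    L_TH := by
  classical
  intro a c δ ha hc hδ
  have hc0 : (0 : ℝ) < c := by exact_mod_cast hc
  obtain ⟨D, hD, h1⟩ := hRUN a (δ / 8) ha (by positivity)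
  obtain ⟨η2, hη2, h2⟩ := hRUNL c D (δ / 192) hc hD (by positivity)
  refine ⟨δ / 8 * η2 / 32, δ * (δ / 8 * η2 / 32) / (1024 * c), by positivity, by positivity, ?_⟩
  set η : ℝ := δ / 8 * η2 / 32 with hη
  have hη0 : 0 < η := by positivity
  filter_upwards [h1, h2, hPQC.2 a ha, eventually_ge_atTop 2] with P hr hl hq hP2
  intro L B hL hdv
  have hL1 : 1 ≤ L := le_trans (by nlinarith) hL
  have hL0 : (0 : ℝ) < L := by exact_mod_cast hL1
  have hn : (0 : ℝ) < (pq a P).card := by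
    refine lt_of_lt_of_le ?_ hq
    have h3 : (1 : ℝ) < P := by exact_mod_cast hP2
    have h4 := Real.log_pos h3
    have h5 : (0 : ℝ) < a := by exact_mod_cast ha
    positivity
  have hn' : 0 < (pq a P).card := by exact_mod_cast hn
  filter_upwards [hBK2 δ B L hδ, (THb.tend hL1).eventually hl, THb.log_le hL1] with Z hb hz hlog
  intro V hV hm he
  set R : ℕ → Prop := fun n => ∃ d : ℕ, 1 ≤ d ∧ d ≤ D ∧
      (chg c P (c * d) (fun i => par (n + i)) : ℝ) ≤ η2 * P with hR
  set E : ℕ → ℝ := fun b => ∑ i ∈ range L, ∑ q ∈ cb V a P L b,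
      (fd a c P (fun j => xi a c (b * L + i + j)) q (b * L + i) : ℝ) with hE
  have hE0 : ∀ b, 0 ≤ E b := fun b => sum_nonneg fun _ _ => sum_nonneg fun _ _ => Nat.cast_nonneg _
  have k1 := hb V a c P hV (le_trans (by nlinarith) hL) hn' hm
  have k2 := hBS R L Z hL1
  have k3 := hERR V a c P L Z Z B hV ha hc (by omega) (le_trans (by nlinarith) hL)
  have k4 : ∑ b ∈ Icc 1 Z, 1 / (b : ℝ) * (E b / (η * (pq a P).card * L)) ≤
      δ / 32 * Real.log Z := by
    have e : ∑ b ∈ Icc 1 Z, 1 / (b : ℝ) * (E b / (η * (pq a P).card * L)) =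
        (∑ b ∈ Icc 1 Z, ∑ i ∈ range L, 1 / ((b : ℝ) * L) * ∑ q ∈ cb V a P L b,
          (fd a c P (fun j => xi a c (b * L + i + j)) q (b * L + i) : ℝ)) /
          (η * (pq a P).card) := by
      rw [sum_div]
      refine sum_congr rfl fun b hb => ?_
      have hb0 : (0 : ℝ) < b := by exact_mod_cast (mem_Icc.1 hb).1
      rw [← mul_sum]
      show 1 / (b : ℝ) * (E b / (η * (pq a P).card * L)) =
        1 / ((b : ℝ) * L) * E b / (η * (pq a P).card)
      field_simp
    rw [e, div_le_iff₀ (by positivity)]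
    refine k3.trans ?_
    calc 32 * (c : ℝ) * (pq a P).card * lm Z (Er V a c)
        ≤ 32 * (c : ℝ) * (pq a P).card * (δ * η / (1024 * c) * Real.log Z) :=
          mul_le_mul_of_nonneg_left he (by positivity)
      _ = δ / 32 * Real.log Z * (η * (pq a P).card) := by field_simp; ring
  have k5 : ∀ b ∈ Icc 1 Z,
      (if δ / 8 * (pq a P).card ≤ (cb V a P L b).card then 1 / (b : ℝ) else 0) / 2 -
        1 / (b : ℝ) * fq L (fun i => R (b * L + i)) -
        1 / (b : ℝ) * (E b / (η * (pq a P).card * L)) ≤ 1 / (b : ℝ) * tb V a c P L η b := by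
    intro b _
    have hb0 : (0 : ℝ) ≤ 1 / (b : ℝ) := by positivity
    split_ifs with hg
    · have h6 := hTB V a c P L b η R hc (by omega) hη0 hn' hL hdv fun n hlt => by
        obtain ⟨d, d1, d2, d3⟩ := hr c η (cb V a P L b) (fun j => xi a c (n + j)) hη0
          (cb_subset V a P L b) hg hlt
        refine ⟨d, d1, d2, d3.trans_eq ?_⟩
        rw [hη]; field_simp
      have h7 := mul_le_mul_of_nonneg_left h6 hb0
      refine le_trans (le_of_eq ?_) h7
      show _ = 1 / (b : ℝ) * (1 / 2 - fq L (fun i => R (b * L + i)) -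
        E b / (η * (pq a P).card * L))
      ring
    · have h6 := mul_nonneg hb0 (fq_nonneg L fun i => R (b * L + i))
      have h7 : 0 ≤ 1 / (b : ℝ) * (E b / (η * (pq a P).card * L)) :=
        mul_nonneg hb0 (div_nonneg (hE0 b) (by positivity))
      have h8 := mul_nonneg hb0 (tb_nonneg V a c P L η b)
      linarith
  have k6 := sum_le_sum k5
  rw [sum_sub_distrib, sum_sub_distrib, ← sum_div, ← lm_ite] at k6
  have k7 : δ / 192 * Real.log (((Z + 1) * L : ℕ) : ℝ) ≤ δ / 192 * (3 * Real.log Z) :=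
    mul_le_mul_of_nonneg_left hlog (by positivity)
  linarith

end Pool.Agent.P.PAR
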