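import Pool.Agent.P.MP_e94e4b_nt.PAR.IfM

/-! Step TK. -/

namespace Pool.Agent.P.PAR

open Finset Real Filter Topology MeasureTheory
open Pool.Agent.P.MP_e86632_nt (ee ee_add norm_ee ee_neg ee_zero)
open Pool.Agent.P.MP_8be758_nt.Avg (gs nsq gs_pos gs_le_one gs_neg gs_anti)
open Pool.Agent.P.MP_e94e4b_nt.PF (sgm)
open Pool.Agent.P.E2
open ArithmeticFunction (cardFactors vonMangoldt)

namespace TKb

theorem both {p q A B : ℕ} (hp : p.Prime) (hq : q.Prime) (h : A ≤ B) :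
    ∑ n ∈ Ioc A B, (if p ∣ n then (1 : ℝ) else 0) * (if q ∣ n then (1 : ℝ) else 0) ≤
      ((B : ℝ) - A) / p / q + (if p = q then ((B : ℝ) - A) / p else 0) + 1 := by
  have hL : (0 : ℝ) ≤ (B : ℝ) - A := sub_nonneg.2 (by exact_mod_cast h)
  by_cases e : p = q
  · subst e
    have h1 := (abs_le.1 (card_dvd_Ioc hp.pos h)).2
    have h2 : 0 ≤ ((B : ℝ) - A) / p / p := by positivity
    rw [if_pos rfl, sum_congr rfl fun n _ => show (if p ∣ n then (1 : ℝ) else 0) *
      (if p ∣ n then (1 : ℝ) else 0) = if p ∣ n then (1 : ℝ) else 0 by split_ifs <;> simp,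
      sum_boole]
    linarith
  · have h1 := (abs_le.1 (card_dvd_Ioc (Nat.mul_pos hp.pos hq.pos) h)).2
    rw [if_neg e, sum_congr rfl fun n _ => show (if p ∣ n then (1 : ℝ) else 0) *
      (if q ∣ n then (1 : ℝ) else 0) = if p * q ∣ n then (1 : ℝ) else 0 by
        by_cases h2 : p * q ∣ n
        · rw [if_pos h2, if_pos (dvd_of_mul_right_dvd h2), if_pos (dvd_of_mul_left_dvd h2), one_mul]
        · rw [if_neg h2]
          split_ifs with h3 h4
          · exact absurd (((Nat.coprime_primes hp hq).2 e).mul_dvd_of_dvd_of_dvd h3 h4) h2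
          all_goals simp, sum_boole, div_div]
    push_cast at h1
    linarith

theorem term {p q A B : ℕ} (hp : p.Prime) (hq : q.Prime) (h : A ≤ B) :
    ∑ n ∈ Ioc A B, ((if p ∣ n then (1 : ℝ) else 0) - 1 / p) *
      ((if q ∣ n then (1 : ℝ) else 0) - 1 / q) ≤ (if p = q then ((B : ℝ) - A) / p else 0) + 3 := by
  have h1 := (abs_le.1 (card_dvd_Ioc hp.pos h)).1
  have h2 := (abs_le.1 (card_dvd_Ioc hq.pos h)).1
  have h3 := both hp hq h
  have p1 : (1 : ℝ) ≤ p := by exact_mod_cast hp.one_le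
  have q1 : (1 : ℝ) ≤ q := by exact_mod_cast hq.one_le
  have p2 : 1 / (p : ℝ) ≤ 1 := (div_le_one (by linarith)).2 p1
  have q2 : 1 / (q : ℝ) ≤ 1 := (div_le_one (by linarith)).2 q1
  have p3 : 0 ≤ 1 / (p : ℝ) := by positivity
  have q3 : 0 ≤ 1 / (q : ℝ) := by positivity
  rw [sum_congr rfl fun n _ => show ((if p ∣ n then (1 : ℝ) else 0) - 1 / p) *
      ((if q ∣ n then (1 : ℝ) else 0) - 1 / q) = (if p ∣ n then (1 : ℝ) else 0) *
      (if q ∣ n then (1 : ℝ) else 0) - (if p ∣ n then (1 : ℝ) else 0) * (1 / q) -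
      (if q ∣ n then (1 : ℝ) else 0) * (1 / p) + 1 / p * (1 / q) by ring, sum_add_distrib,
    sum_sub_distrib, sum_sub_distrib, ← sum_mul, ← sum_mul, sum_boole, sum_boole, sum_const,
    Nat.card_Ioc, nsmul_eq_mul, Nat.cast_sub h]
  have e1 : ((B : ℝ) - A) / p / q = ((B : ℝ) - A) * (1 / p * (1 / q)) := by ring
  have e2 : ((B : ℝ) - A) / p * (1 / q) = ((B : ℝ) - A) * (1 / p * (1 / q)) := by ring
  have e3 : ((B : ℝ) - A) / q * (1 / p) = ((B : ℝ) - A) * (1 / p * (1 / q)) := by ring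
  nlinarith [mul_le_mul_of_nonneg_right h1 q3, mul_le_mul_of_nonneg_right h2 p3]

end TKb

theorem q_TK :
    L_TK := by
  intro S A B hS h
  rw [sum_congr rfl fun n _ => show (om S n - rs S) ^ 2 = ∑ p ∈ S, ∑ q ∈ S,
      ((if p ∣ n then (1 : ℝ) else 0) - 1 / p) * ((if q ∣ n then (1 : ℝ) else 0) - 1 / q) by
    rw [om_eq_sum, rs, ← sum_sub_distrib, pow_two, sum_mul_sum], sum_comm]
  refine (sum_le_sum (g := fun p : ℕ => ((B : ℝ) - A) * (1 / p) + 3 * S.card)
    fun p hp => ?_).trans (le_of_eq ?_)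
  · rw [sum_comm]
    refine (sum_le_sum fun q hq => TKb.term (hS p hp) (hS q hq) h).trans (le_of_eq ?_)
    rw [sum_add_distrib, sum_ite_eq, if_pos hp, sum_const, nsmul_eq_mul]
    ring
  · rw [sum_add_distrib, ← mul_sum, sum_const, nsmul_eq_mul, rs]
    ring

end Pool.Agent.P.PAR
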