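import Pool.Agent.P.MP_e94e4b_nt.PAR.IfE

/-! Step TK1. -/

namespace Pool.Agent.P.PAR

open Finset Real Filter Topology MeasureTheory
open Pool.Agent.P.MP_e86632_nt (ee ee_add norm_ee ee_neg ee_zero)
open Pool.Agent.P.MP_8be758_nt.Avg (gs nsq gs_pos gs_le_one gs_neg gs_anti)
open Pool.Agent.P.MP_e94e4b_nt.PF (sgm)
open Pool.Agent.P.E2
open ArithmeticFunction (cardFactors vonMangoldt)

namespace TK1b

theorem big (K : ℝ) : ∃ S : Finset ℕ, (∀ p ∈ S, p.Prime ∧ p ≠ 2) ∧ K ≤ rs S := by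
  classical
  by_contra hc
  push Not at hc
  apply not_summable_one_div_on_primes
  refine summable_of_sum_le (c := K + 1 / 2) (fun n => ?_) fun u => ?_
  · exact Set.indicator_nonneg (fun _ _ => by positivity) n
  · have h1 := hc ((u.filter Nat.Prime).erase 2) fun p hp =>
      ⟨(mem_filter.1 (mem_of_mem_erase hp)).2, ne_of_mem_erase hp⟩
    have h2 : ∑ x ∈ u, Set.indicator {p : ℕ | p.Prime} (fun n : ℕ => (1 : ℝ) / n) x =
        ∑ p ∈ u.filter Nat.Prime, (1 : ℝ) / p := by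
      rw [sum_filter]
      refine sum_congr rfl fun x _ => ?_
      by_cases hx : x.Prime <;> simp [Set.indicator, hx]
    rw [h2]
    by_cases h : 2 ∈ u.filter Nat.Prime
    · rw [← add_sum_erase _ _ h]
      unfold rs at h1
      push_cast
      linarith
    · rw [erase_eq_of_notMem h] at h1
      unfold rs at h1
      linarith

theorem dil (Y : ℕ) (g : ℕ → Prop) [DecidablePred g] {p : ℕ} (hp : 0 < p) :
    ∑ m ∈ (Icc 1 Y).filter g, (if p ∣ m then (1 : ℝ) else 0) / m ≤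
      1 / (p : ℝ) * lm Y fun n => g (p * n) := by
  classical
  have h1 : ∑ m ∈ (Icc 1 Y).filter g, (if p ∣ m then (1 : ℝ) else 0) / m =
      ∑ m ∈ ((Icc 1 Y).filter g).filter (p ∣ ·), 1 / (m : ℝ) := by
    rw [sum_filter (p := (p ∣ ·))]
    refine sum_congr rfl fun m _ => ?_
    split_ifs <;> simp
  have h2 : ∑ m ∈ ((Icc 1 Y).filter g).filter (p ∣ ·), 1 / (m : ℝ) =
      1 / (p : ℝ) * ∑ n ∈ (((Icc 1 Y).filter g).filter (p ∣ ·)).image (· / p), 1 / (n : ℝ) := by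
    rw [sum_image, mul_sum]
    · refine sum_congr rfl fun m hm => ?_
      obtain ⟨n, rfl⟩ := (mem_filter.1 hm).2
      rw [Nat.mul_div_cancel_left _ hp]
      push_cast
      rw [one_div_mul_one_div]
    · intro a ha b hb hab
      obtain ⟨n, rfl⟩ := (mem_filter.1 ha).2
      obtain ⟨k, rfl⟩ := (mem_filter.1 hb).2
      simp only [Nat.mul_div_cancel_left _ hp] at hab
      rw [hab]
  rw [h1, h2]
  refine mul_le_mul_of_nonneg_left (le_lm fun n hn => ?_) (by positivity)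
  obtain ⟨m, hm, rfl⟩ := mem_image.1 hn
  obtain ⟨hm1, k, rfl⟩ := mem_filter.1 hm
  obtain ⟨hm2, hm3⟩ := mem_filter.1 hm1
  obtain ⟨h3, h4⟩ := mem_Icc.1 hm2
  rw [Nat.mul_div_cancel_left _ hp]
  refine ⟨Nat.pos_of_ne_zero ?_, (Nat.le_mul_of_pos_left k hp).trans h4, hm3⟩
  rintro rfl
  simp at h3

theorem amgm {w E L : ℝ} (hL : 0 < L) : E - (L / 2 + (w - E) ^ 2 / (2 * L)) ≤ w := by
  have h : E - w - L / 2 ≤ (w - E) ^ 2 / (2 * L) := by
    rw [le_div_iff₀ (by positivity)]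
    nlinarith [sq_nonneg (w - E + L)]
  linarith

end TK1b

theorem q_TK1 (hTKL : L_TKL) :
    L_TK1 := by
  classical
  intro η hη
  obtain ⟨S, hS, hE⟩ := TK1b.big (max 1 (9 / η ^ 2))
  obtain ⟨C, hC⟩ := hTKL S fun p hp => (hS p hp).1
  have hE1 : 1 ≤ rs S := (le_max_left _ _).trans hE
  have hE2 : 9 ≤ rs S * η ^ 2 := (div_le_iff₀ (by positivity)).1 ((le_max_right _ _).trans hE)
  have hne : S.Nonempty := by
    rw [nonempty_iff_ne_empty]
    rintro rfl
    norm_num [rs] at hE1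
  set E := rs S with hEd
  have hL : 0 < η * E / 2 := by positivity
  set L := η * E / 2 with hLd
  refine ⟨S.sup id, ?_⟩
  filter_upwards [ev_log (L / 2 + C / (2 * L)) hL, eventually_ge_atTop 1] with Y hY hY1 g
  have hlog : 0 ≤ Real.log Y := Real.log_natCast_nonneg Y
  have h1 : ∑ m ∈ (Icc 1 Y).filter g, om S m / m ≤
      ∑ p ∈ S, 1 / (p : ℝ) * lm Y fun n => g (p * n) := by
    simp only [om_eq_sum, sum_div]
    rw [sum_comm]
    exact sum_le_sum fun p hp => TK1b.dil Y g (hS p hp).1.pos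
  have h2 : ∑ m ∈ (Icc 1 Y).filter g,
      (E * (1 / (m : ℝ)) - (L / 2 * (1 / (m : ℝ)) + (om S m - E) ^ 2 / m / (2 * L))) ≤
      ∑ m ∈ (Icc 1 Y).filter g, om S m / m := by
    refine sum_le_sum fun m _ => ?_
    have h := mul_le_mul_of_nonneg_right (TK1b.amgm (w := om S m) (E := E) hL)
      (show (0 : ℝ) ≤ 1 / (m : ℝ) by positivity)
    calc _ = (E - (L / 2 + (om S m - E) ^ 2 / (2 * L))) * (1 / (m : ℝ)) := by ring
      _ ≤ _ := h
      _ = _ := by ring
  rw [sum_sub_distrib, sum_add_distrib, ← mul_sum, ← mul_sum, ← sum_div, ← lm_eq] at h2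
  have h3 : ∑ m ∈ (Icc 1 Y).filter g, (om S m - E) ^ 2 / m ≤ 2 * E * Real.log Y + C :=
    (sum_le_sum_of_subset_of_nonneg (filter_subset _ _) fun _ _ _ => by positivity).trans (hC Y)
  have h4 : (∑ m ∈ (Icc 1 Y).filter g, (om S m - E) ^ 2 / m) / (2 * L) ≤
      2 / η * Real.log Y + C / (2 * L) := by
    refine (div_le_div_of_nonneg_right h3 (by positivity)).trans_eq ?_
    rw [hLd]
    field_simp
  have h5 : 2 / η ≤ L / 2 := by
    rw [div_le_iff₀ hη, hLd]
    nlinarith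
  have h6 := mul_le_mul_of_nonneg_right h5 hlog
  have h7 := mul_le_mul_of_nonneg_left (lm_le Y g) (show 0 ≤ L / 2 by positivity)
  have h8 : ∑ p ∈ S, 1 / (p : ℝ) * (lm Y g - η * Real.log Y) ≤
      ∑ p ∈ S, 1 / (p : ℝ) * lm Y fun n => g (p * n) := by
    rw [← sum_mul]
    change E * _ ≤ _
    have h9 : E * (η * Real.log Y) = 2 * (L * Real.log Y) := by rw [hLd]; ring
    nlinarith
  obtain ⟨p, hp, hle⟩ := exists_le_of_sum_le hne h8
  obtain ⟨hp1, hp2⟩ := hS p hp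
  have hp0 : (0 : ℝ) < 1 / (p : ℝ) := by have := hp1.pos; positivity
  refine ⟨p, hp1.odd_of_ne_two hp2, ?_, le_sup (f := id) hp, le_of_mul_le_mul_left hle hp0⟩
  have := hp1.two_le
  omega

end Pool.Agent.P.PAR
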