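import Pool.Agent.P.MP_e94e4b_nt.PAR.IfE

/-! Step TKL. -/

namespace Pool.Agent.P.PAR

open Finset Real Filter Topology MeasureTheory
open Pool.Agent.P.MP_e86632_nt (ee ee_add norm_ee ee_neg ee_zero)
open Pool.Agent.P.MP_8be758_nt.Avg (gs nsq gs_pos gs_le_one gs_neg gs_anti)
open Pool.Agent.P.MP_e94e4b_nt.PF (sgm)
open Pool.Agent.P.E2
open ArithmeticFunction (cardFactors vonMangoldt)

namespace TKLb

theorem dy (hTK : L_TK) (S : Finset ℕ) (hS : ∀ p ∈ S, p.Prime) (J : ℕ) :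
    ∑ m ∈ Ioc 1 (2 ^ J), (om S m - rs S) ^ 2 / m ≤
      J * rs S + 6 * (S.card : ℝ) ^ 2 * (1 - 1 / 2 ^ J) := by
  induction J with
  | zero => simp
  | succ J ih =>
    have hle : 2 ^ J ≤ 2 ^ (J + 1) := Nat.pow_le_pow_right (by norm_num) J.le_succ
    have h1 := hTK S (2 ^ J) (2 ^ (J + 1)) hS hle
    have hp : (0 : ℝ) < 2 ^ J := by positivity
    have h2 : ∑ m ∈ Ioc (2 ^ J) (2 ^ (J + 1)), (om S m - rs S) ^ 2 / m ≤
        (∑ m ∈ Ioc (2 ^ J) (2 ^ (J + 1)), (om S m - rs S) ^ 2) / 2 ^ J := by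
      rw [sum_div]
      refine sum_le_sum fun m hm => ?_
      have h3 : ((2 : ℝ) ^ J) ≤ m := by exact_mod_cast (mem_Ioc.1 hm).1.le
      exact div_le_div_of_nonneg_left (by positivity) hp h3
    have h4 : (∑ m ∈ Ioc (2 ^ J) (2 ^ (J + 1)), (om S m - rs S) ^ 2) / 2 ^ J ≤
        rs S + 3 * (S.card : ℝ) ^ 2 * (1 / 2 ^ J) := by
      rw [div_le_iff₀ hp]
      refine h1.trans_eq ?_
      push_cast
      field_simp
      ring
    rw [← sum_Ioc_consecutive _ Nat.one_le_two_pow hle]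
    have e : (1 : ℝ) / 2 ^ (J + 1) = 1 / 2 ^ J / 2 := by rw [pow_succ]; field_simp
    rw [e]
    push_cast
    nlinarith

end TKLb

theorem q_TKL (hTK : L_TK) :
    L_TKL := by
  intro S hS
  have h0 := rs_nonneg S
  refine ⟨(om S 1 - rs S) ^ 2 + rs S + 6 * (S.card : ℝ) ^ 2, fun Y => ?_⟩
  rcases Nat.eq_zero_or_pos Y with rfl | hY
  · simp; positivity
  have hJ : Y ≤ 2 ^ (Nat.log 2 Y + 1) := (Nat.lt_pow_succ_log_self (by norm_num) Y).le
  have h1 := TKLb.dy hTK S hS (Nat.log 2 Y + 1)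
  have h2 : ∑ m ∈ Icc 1 Y, (om S m - rs S) ^ 2 / m ≤
      (om S 1 - rs S) ^ 2 + ∑ m ∈ Ioc 1 (2 ^ (Nat.log 2 Y + 1)), (om S m - rs S) ^ 2 / m := by
    rw [← Finset.Ioc_insert_left hY, sum_insert (by simp)]
    refine add_le_add (by simp) ?_
    exact sum_le_sum_of_subset_of_nonneg (Ioc_subset_Ioc_right hJ) fun _ _ _ => by positivity
  have h3 : (Nat.log 2 Y : ℝ) ≤ 2 * Real.log Y := by
    have h4 : ((2 : ℝ)) ^ Nat.log 2 Y ≤ Y := by exact_mod_cast Nat.pow_log_le_self 2 hY.ne'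
    have h5 := Real.log_le_log (by positivity) h4
    rw [Real.log_pow] at h5
    have h6 := Real.log_two_gt_d9
    have h7 : (0 : ℝ) ≤ Nat.log 2 Y := Nat.cast_nonneg _
    nlinarith
  have h8 : (0 : ℝ) ≤ 1 / 2 ^ (Nat.log 2 Y + 1) := by positivity
  have h9 : (0 : ℝ) ≤ (S.card : ℝ) ^ 2 := by positivity
  have h10 := mul_le_mul_of_nonneg_right h3 h0
  have h11 := mul_nonneg h9 h8
  push_cast at h1
  nlinarith

end Pool.Agent.P.PAR
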