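import Pool.Agent.P.MP_e94e4b_nt.PAR.IfM

/-! Step W2. -/

namespace Pool.Agent.P.PAR

open Finset Real Filter Topology MeasureTheory
open Pool.Agent.P.MP_e86632_nt (ee ee_add norm_ee ee_neg ee_zero)
open Pool.Agent.P.MP_8be758_nt.Avg (gs nsq gs_pos gs_le_one gs_neg gs_anti)
open Pool.Agent.P.MP_e94e4b_nt.PF (sgm)
open Pool.Agent.P.E2
open ArithmeticFunction (cardFactors vonMangoldt)

namespace W2b

theorem two_pow_le {S : Finset ℕ} (hS : ∀ p ∈ S, p.Prime) (n : ℕ) :
    (2 : ℝ) ^ (S.filter (· ∣ n)).card ≤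
      ∑ T ∈ S.powerset, if (∏ p ∈ T, p) ∣ n then (1 : ℝ) else 0 := by
  rw [sum_boole]
  have h : 2 ^ (S.filter (· ∣ n)).card ≤ (S.powerset.filter fun T => (∏ p ∈ T, p) ∣ n).card := by
    rw [← card_powerset]
    refine card_le_card fun T hT => ?_
    have h1 := mem_powerset.1 hT
    refine mem_filter.2 ⟨mem_powerset.2 (h1.trans (filter_subset _ _)), ?_⟩
    exact Finset.prod_primes_dvd n (fun p hp => (hS p (mem_filter.1 (h1 hp)).1).prime)
      fun p hp => (mem_filter.1 (h1 hp)).2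
  exact_mod_cast h

end W2b

theorem q_W2 :
    L_W2 := by
  intro S x hS
  refine (sum_le_sum fun n _ => W2b.two_pow_le hS n).trans ?_
  rw [sum_comm]
  have h1 : ∀ T ∈ S.powerset, (∑ n ∈ Icc 1 x, if (∏ p ∈ T, p) ∣ n then (1 : ℝ) else 0) ≤
      x * ∏ p ∈ T, 1 / (p : ℝ) := fun T _ => by
    have e : Icc 1 x = Ioc 0 x := by ext n; simp [Nat.one_le_iff_ne_zero, Nat.pos_iff_ne_zero]
    rw [sum_boole, e, Nat.Ioc_filter_dvd_card_eq_div, prod_div_distrib, prod_const_one,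
      mul_one_div, ← Nat.cast_prod]
    exact Nat.cast_div_le
  refine (sum_le_sum h1).trans ?_
  rw [← mul_sum, ← prod_one_add]
  exact mul_le_mul_of_nonneg_left (Real.prod_one_add_le_exp_sum S fun p => by positivity)
    (Nat.cast_nonneg x)

end Pool.Agent.P.PAR
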