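import Pool.Agent.P.MP_e94e4b_nt.PAR.IfM
import Pool.Agent.P.MP_e94e4b_nt.E2.TWIN2

/-! Step WIN. -/

namespace Pool.Agent.P.PAR

open Finset Real Filter Topology MeasureTheory
open Pool.Agent.P.MP_e86632_nt (ee ee_add norm_ee ee_neg ee_zero)
open Pool.Agent.P.MP_8be758_nt.Avg (gs nsq gs_pos gs_le_one gs_neg gs_anti)
open Pool.Agent.P.MP_e94e4b_nt.PF (sgm)
open Pool.Agent.P.E2
open ArithmeticFunction (cardFactors vonMangoldt)

namespace WINb

open WIN2a (nr nr_nonneg nr_sum pw)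

theorem far (hTAIL : S_TAIL) (hWIN1 : S_WIN1) {b : ℕ → ℝ}
    (hb : ∀ n, 0 ≤ b n ∧ b n ≤ n ∧ b n ≤ 1 + Real.log n) {w : ℝ} (hw : 0 < w) (hw1 : w ≤ 1) {M N : ℕ}
    (hM : M ≠ 0) (hMN : M ≤ N) (hN : N ≤ 2 * M) (S : Finset ℕ) (hS : ∀ n ∈ S, 4 * M < n) :
    ∑ n ∈ S, b n * |win w (Real.log M) (Real.log N) (Real.log n) -
      if n ∈ Ioc M N then 1 else 0| ≤ 30 * Real.exp (4 * Real.log N - (1 / 2 / w) ^ 2) / w := by
  have hM' : (0 : ℝ) < M := by exact_mod_cast Nat.pos_of_ne_zero hM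
  have hMN' : (M : ℝ) ≤ N := by exact_mod_cast hMN
  have l2 := Real.log_two_gt_d9
  have l3 := Real.log_two_lt_d9
  have h1 : Real.log N ≤ Real.log 2 + Real.log M := by
    rw [← Real.log_mul two_ne_zero hM'.ne']
    exact Real.log_le_log (by linarith) (by exact_mod_cast hN)
  have h2 : ∀ n ∈ S, Real.log 2 + Real.log N ≤ Real.log n := fun n hn => by
    have := hS n hn
    rw [← Real.log_mul two_ne_zero (by linarith)]
    exact Real.log_le_log (by linarith) (by exact_mod_cast (by omega : 2 * N ≤ n))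
  refine le_trans (sum_le_sum fun n hn => ?_) ((hTAIL b w (Real.log N) (1 / 2) hw hw1
    (by norm_num) fun n => ⟨(hb n).1, (hb n).2.1⟩).2.2 S fun n hn =>
      le_trans (by linarith [h2 n hn]) (le_abs_self _))
  obtain ⟨a1, -, -, -, a5⟩ := hWIN1 w _ _ (Real.log n) 0 hw (Real.log_le_log hM' hMN') le_rfl
  have := hS n hn
  rw [if_neg (by rw [mem_Ioc]; omega), sub_zero, abs_of_nonneg a1]
  refine mul_le_mul_of_nonneg_left ((a5 (by linarith [h2 n hn])).trans ?_)
    (hb n).1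
  exact mul_le_of_le_one_left (gk_nonneg hw _) (by linarith)

theorem near (hWIN1 : S_WIN1) {b : ℕ → ℝ}
    (hb : ∀ n, 0 ≤ b n ∧ b n ≤ n ∧ b n ≤ 1 + Real.log n) {w W l : ℝ} (hw : 0 < w) (hW : 0 ≤ W) (hd : W * w ≤ 1) {M N : ℕ}
    (hM : M ≠ 0) (hMN : M ≤ N) (hN : N ≤ 2 * M) (hl : 1 + Real.log (4 * M) ≤ l) (S : Finset ℕ)
    (hS : ∀ n ∈ S, n ≤ 4 * M) :
    ∑ n ∈ S, b n * |win w (Real.log M) (Real.log N) (Real.log n) -
      if n ∈ Ioc M N then 1 else 0| ≤ l * (10 * M * Real.exp (-W ^ 2) + 9 * (W * w) * M + 2) := by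
  have hM' : (1 : ℝ) ≤ M := by exact_mod_cast Nat.pos_of_ne_zero hM
  have hN' : (N : ℝ) ≤ 2 * M := by exact_mod_cast hN
  have hl0 : 0 ≤ l := by linarith [Real.log_nonneg (show (1 : ℝ) ≤ 4 * M by linarith)]
  have hd0 : 0 ≤ W * w := by positivity
  have e := Real.exp_pos (-W ^ 2)
  have hc : (S.card : ℝ) ≤ 5 * M := by
    have : S.card ≤ 4 * M + 1 := by
      simpa using card_le_card fun n hn => mem_range.2 (Nat.lt_succ_of_le (hS n hn))
    exact_mod_cast (by omega : S.card ≤ 5 * M)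
  calc _ ≤ ∑ n ∈ S, l * (2 * Real.exp (-W ^ 2) + nr (W * w) M n + nr (W * w) N n) := by
        refine sum_le_sum fun n hn => ?_
        rcases eq_or_ne n 0 with rfl | h0
        · have := nr_nonneg (W * w) M 0
          have := nr_nonneg (W * w) N 0
          rw [le_antisymm ((hb 0).2.1.trans_eq Nat.cast_zero) (hb 0).1, zero_mul]; positivity
        refine mul_le_mul ((hb n).2.2.trans (le_trans (add_le_add le_rfl ?_) hl))
          (pw hWIN1 hw hW hM hMN h0) (abs_nonneg _) hl0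
        exact Real.log_le_log (by exact_mod_cast Nat.pos_of_ne_zero h0) (by exact_mod_cast hS n hn)
    _ ≤ _ := by
        rw [← mul_sum, sum_add_distrib, sum_add_distrib, sum_const, nsmul_eq_mul]
        have h1 := nr_sum hd0 hd hM S
        have h2 := nr_sum hd0 hd (X := N) (by omega) S
        refine mul_le_mul_of_nonneg_left ?_ hl0
        nlinarith [mul_le_mul_of_nonneg_right hc e.le, mul_le_mul_of_nonneg_left hN' hd0]

end WINb

open WINb in
theorem q_WIN (hTAIL : S_TAIL) (hWIN1 : S_WIN1) :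
    L_WIN := by
  filter_upwards [eventually_ge_atTop 1, ev_pe 72 13 (c := 6) (by norm_num), ev_pe1 180 13,
    ev_pe1 162 20, ev_lin 3 0 (c := 20) (by norm_num) (k := 12) (by norm_num),
    ev_lin 3 3 one_pos (k := 13) (by norm_num)] with r r1 r2 r3 r4 r5 r6 b M N hb hM hMN hN hN2
  have p1 : r ≤ r ^ 13 := le_self_pow₀ r1 (by norm_num)
  have p2 : r ^ 13 ≤ (r ^ 7) ^ 2 := by rw [← pow_mul]; exact pow_le_pow_right₀ r1 (by norm_num)
  have p3 : r ^ 7 ≤ r ^ 20 := pow_le_pow_right₀ r1 (by norm_num)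
  have p4 : 0 ≤ r ^ 7 := by positivity
  have hM1 : (1 : ℝ) ≤ M := le_trans (Real.one_le_exp (by positivity)) hM
  have hM0 : M ≠ 0 := by rintro rfl; norm_num at hM1
  have hMN' : (M : ℝ) ≤ N := by exact_mod_cast hMN
  have hlN : Real.log N ≤ 2 * r ^ 13 := (Real.log_le_iff_le_exp (by linarith)).2 hN2
  have hl : 1 + Real.log (4 * M) ≤ 3 * r ^ 13 := by
    rw [Real.log_mul (by norm_num) (by linarith), show (4 : ℝ) = 2 ^ 2 by norm_num, Real.log_pow]
    have := Real.log_le_log (by linarith) hMN'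
    push_cast
    linarith [Real.log_two_lt_d9]
  set w := Real.exp (-(3 * r)) with hw
  set E := Real.exp (-(2 * r)) with hE
  have w0 : 0 < w := Real.exp_pos _
  have E0 : 0 < E := Real.exp_pos _
  have E1 : E ≤ 1 := Real.exp_le_one_iff.2 (by linarith)
  have q0 : Real.exp r * w = E := by rw [← Real.exp_add]; congr 1; ring
  have q1 : 162 * (r ^ 20 * w) ≤ E := by nlinarith
  have q2 : 180 * (r ^ 13 * Real.exp (-(r ^ 7) ^ 2)) ≤ E := by
    have : Real.exp (-(r ^ 7) ^ 2) ≤ w := Real.exp_le_exp.2 (by linarith)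
    nlinarith [Real.exp_pos (-(r ^ 7) ^ 2), Real.exp_pos r]
  have q3 : 180 * r ^ 13 ≤ M * E := by
    have : Real.exp r ≤ Real.exp (20 * r ^ 12) * E := by
      rw [← Real.exp_add]; exact Real.exp_le_exp.2 (by linarith)
    nlinarith
  have q4 : 30 * Real.exp (4 * Real.log N - (1 / 2 / w) ^ 2) / w ≤ E / 3 := by
    have a : (1 / 2 / w) ^ 2 = Real.exp (6 * r) / 4 := by
      rw [show 6 * r = -(-(3 * r)) + -(-(3 * r)) by ring, Real.exp_add, Real.exp_neg (-(3 * r)),
        ← hw]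
      field_simp; norm_num
    have b : Real.exp (4 * Real.log N - (1 / 2 / w) ^ 2) * Real.exp r ≤ E * w := by
      rw [← Real.exp_add, ← Real.exp_add, a]; exact Real.exp_le_exp.2 (by linarith)
    rw [div_le_iff₀ w0]
    nlinarith [Real.exp_pos (4 * Real.log N - (1 / 2 / w) ^ 2)]
  have key : ∀ S : Finset ℕ, ∑ n ∈ S, b n *
      |win w (Real.log M) (Real.log N) (Real.log n) - if n ∈ Ioc M N then 1 else 0| ≤ M * E := by
    intro S
    have h1 := near hWIN1 hb w0 p4 (by nlinarith) hM0 hMN hN hl (S.filter (· ≤ 4 * M))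
      fun n hn => (mem_filter.1 hn).2
    have h2 := far hTAIL hWIN1 hb w0 (Real.exp_le_one_iff.2 (by linarith)) hM0 hMN hN
      (S.filter fun n => ¬ n ≤ 4 * M) fun n hn => not_le.1 (mem_filter.1 hn).2
    rw [← sum_filter_add_sum_filter_not S (· ≤ 4 * M)]
    have h3 := mul_le_mul_of_nonneg_left q1 (zero_le_one.trans hM1)
    have h4 := mul_le_mul_of_nonneg_left q2 (zero_le_one.trans hM1)
    have h5 := mul_le_mul_of_nonneg_right hM1 E0.le
    linarith
  have h0 := fun n : ℕ => mul_nonneg (hb n).1 (abs_nonneg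
    (win w (Real.log M) (Real.log N) (Real.log n) - if n ∈ Ioc M N then 1 else 0))
  exact ⟨summable_of_sum_le h0 key, Real.tsum_le_of_sum_le h0 key⟩


end Pool.Agent.P.PAR
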