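import Pool.Agent.P.MP_e94e4b_nt.PAR.TLZ
import Pool.Agent.P.MP_e94e4b_nt.PAR.TLX
import Pool.Agent.P.MP_e94e4b_nt.PAR.TSMT
import Pool.Agent.P.MP_e94e4b_nt.PAR.TCSN
import Pool.Agent.P.MP_e94e4b_nt.PAR.TPB
import Pool.Agent.P.MP_e94e4b_nt.PAR.TWIN
import Pool.Agent.P.MP_e94e4b_nt.PAR.TSH
import Pool.Agent.P.MP_e94e4b_nt.PAR.TINT
import Pool.Agent.P.MP_e94e4b_nt.PAR.TPQ
import Pool.Agent.P.MP_e94e4b_nt.PAR.TTK
import Pool.Agent.P.MP_e94e4b_nt.PAR.TDI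
import Pool.Agent.P.MP_e94e4b_nt.PAR.TOT
import Pool.Agent.P.MP_e94e4b_nt.PAR.TDN
import Pool.Agent.P.MP_e94e4b_nt.PAR.TDEC
import Pool.Agent.P.MP_e94e4b_nt.PAR.TRM
import Pool.Agent.P.MP_e94e4b_nt.PAR.TW2
import Pool.Agent.P.MP_e94e4b_nt.PAR.TCV
import Pool.Agent.P.MP_e94e4b_nt.PAR.TMOM
import Pool.Agent.P.MP_e94e4b_nt.PAR.TSG
import Pool.Agent.P.MP_e94e4b_nt.PAR.TST1
import Pool.Agent.P.MP_e94e4b_nt.PAR.TT2
import Pool.Agent.P.MP_e94e4b_nt.PAR.TST2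
import Pool.Agent.P.MP_e94e4b_nt.PAR.TLD1
import Pool.Agent.P.MP_e94e4b_nt.PAR.TCH
import Pool.Agent.P.MP_e94e4b_nt.PAR.TBM
import Pool.Agent.P.MP_e94e4b_nt.PAR.TLG
import Pool.Agent.P.MP_e94e4b_nt.PAR.TBW
import Pool.Agent.P.MP_e94e4b_nt.PAR.TLS
import Pool.Agent.P.MP_e94e4b_nt.PAR.TMID
import Pool.Agent.P.MP_e94e4b_nt.PAR.TUU
import Pool.Agent.P.MP_e94e4b_nt.PAR.TFF
import Pool.Agent.P.MP_e94e4b_nt.PAR.TSS
import Pool.Agent.P.MP_e94e4b_nt.PAR.TOVL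
import Pool.Agent.P.MP_e94e4b_nt.PAR.TMRD
import Pool.Agent.P.MP_e94e4b_nt.PAR.TMRL
import Pool.Agent.P.MP_e94e4b_nt.PAR.TED0
import Pool.Agent.P.MP_e94e4b_nt.PAR.TED1
import Pool.Agent.P.MP_e94e4b_nt.PAR.TED
import Pool.Agent.P.MP_e94e4b_nt.PAR.TCRT
import Pool.Agent.P.MP_e94e4b_nt.PAR.TCHER
import Pool.Agent.P.MP_e94e4b_nt.PAR.TGDC
import Pool.Agent.P.MP_e94e4b_nt.PAR.TPQC
import Pool.Agent.P.MP_e94e4b_nt.PAR.TSGM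
import Pool.Agent.P.MP_e94e4b_nt.PAR.TEN
import Pool.Agent.P.MP_e94e4b_nt.PAR.TSUMS
import Pool.Agent.P.MP_e94e4b_nt.PAR.TCHN
import Pool.Agent.P.MP_e94e4b_nt.PAR.TRUN
import Pool.Agent.P.MP_e94e4b_nt.PAR.TRN1
import Pool.Agent.P.MP_e94e4b_nt.PAR.TRUNL
import Pool.Agent.P.MP_e94e4b_nt.PAR.TBK1
import Pool.Agent.P.MP_e94e4b_nt.PAR.TBK2
import Pool.Agent.P.MP_e94e4b_nt.PAR.TERR
import Pool.Agent.P.MP_e94e4b_nt.PAR.TTB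
import Pool.Agent.P.MP_e94e4b_nt.PAR.TBS
import Pool.Agent.P.MP_e94e4b_nt.PAR.TTH
import Pool.Agent.P.MP_e94e4b_nt.PAR.TLAD
import Pool.Agent.P.MP_e94e4b_nt.PAR.TEB
import Pool.Agent.P.MP_e94e4b_nt.PAR.TLOC
import Pool.Agent.P.MP_e94e4b_nt.PAR.TTKL
import Pool.Agent.P.MP_e94e4b_nt.PAR.TTK1
import Pool.Agent.P.MP_e94e4b_nt.PAR.TPIG
import Pool.Agent.P.MP_e94e4b_nt.PAR.TREC
import Pool.Agent.P.MP_e94e4b_nt.PAR.TCW1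
import Pool.Agent.P.MP_e94e4b_nt.PAR.TCW2
import Pool.Agent.P.MP_e94e4b_nt.PAR.TCW3
import Pool.Agent.P.MP_e94e4b_nt.PAR.TCW4
import Pool.Agent.P.MP_e94e4b_nt.PAR.TCW5
import Pool.Agent.P.MP_e94e4b_nt.PAR.TRG0
import Pool.Agent.P.MP_e94e4b_nt.PAR.TRIG
import Pool.Agent.P.MP_e94e4b_nt.PAR.TMEAN
import Pool.Agent.P.MP_e94e4b_nt.PAR.TCNT
import Pool.Agent.P.MP_e94e4b_nt.PAR.TFIN
import Pool.Agent.P.MP_e94e4b_nt.E2.TGF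
import Pool.Agent.P.MP_e94e4b_nt.E2.TCS
import Pool.Agent.P.MP_e94e4b_nt.E2.TEL
import Pool.Agent.P.MP_e94e4b_nt.E2.TSH
import Pool.Agent.P.MP_e94e4b_nt.E2.TEXP
import Pool.Agent.P.MP_e94e4b_nt.E2.TDY
import Pool.Agent.P.MP_e94e4b_nt.E2.TPS
import Pool.Agent.P.MP_e94e4b_nt.E2.THALC
import Pool.Agent.P.MP_e94e4b_nt.E2.TIL
import Pool.Agent.P.MP_e94e4b_nt.E2.THB
import Pool.Agent.P.MP_e94e4b_nt.E2.THF
import Pool.Agent.P.MP_e94e4b_nt.E2.TAP1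
import Pool.Agent.P.MP_e94e4b_nt.E2.TAP2
import Pool.Agent.P.MP_e94e4b_nt.E2.TAPX
import Pool.Agent.P.MP_e94e4b_nt.E2.TVB
import Pool.Agent.P.MP_e94e4b_nt.E2.TBL
import Pool.Agent.P.MP_e94e4b_nt.E2.TLB
import Pool.Agent.P.MP_e94e4b_nt.E2.TBC
import Pool.Agent.P.MP_e94e4b_nt.E2.TZL1
import Pool.Agent.P.MP_e94e4b_nt.E2.TZL2
import Pool.Agent.P.MP_e94e4b_nt.E2.TLA1
import Pool.Agent.P.MP_e94e4b_nt.E2.TLAN
import Pool.Agent.P.MP_e94e4b_nt.E2.TT341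
import Pool.Agent.P.MP_e94e4b_nt.E2.TZF
import Pool.Agent.P.MP_e94e4b_nt.E2.TLD
import Pool.Agent.P.MP_e94e4b_nt.E2.TMEL
import Pool.Agent.P.MP_e94e4b_nt.E2.TMV
import Pool.Agent.P.MP_e94e4b_nt.E2.TPL
import Pool.Agent.P.MP_e94e4b_nt.E2.TPW
import Pool.Agent.P.MP_e94e4b_nt.E2.TSWP
import Pool.Agent.P.MP_e94e4b_nt.E2.TTAIL
import Pool.Agent.P.MP_e94e4b_nt.E2.TMOM
import Pool.Agent.P.MP_e94e4b_nt.E2.TUM
import Pool.Agent.P.MP_e94e4b_nt.E2.TWIN1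
import Pool.Agent.P.MP_b60056_nt.AA.Wb
import Pool.Agent.P.MP_b60056_nt.AA.Vmvt
import Pool.Agent.P.MP_b60056_nt.AA.Tree
import Pool.Agent.P.MP_b60056_nt.AA.Coll
import Pool.Agent.P.MP_b60056_nt.AA.Linnik
import Pool.Agent.P.MP_b60056_nt.AA.Bilin
import Pool.Agent.P.MP_b60056_nt.AA.Sj
import Pool.Agent.P.MP_b60056_nt.AA.Rep
import Pool.Agent.P.MP_e94e4b_nt.PF.WLS
import Pool.Agent.P.MP_e94e4b_nt.PF.MLS
import Pool.Agent.P.MP_e94e4b_nt.PF.HG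
import Pool.Agent.P.MP_e94e4b_nt.PF.PNT
import Pool.Agent.P.MP_e94e4b_nt.PF.FL
import Pool.Agent.P.MP_e94e4b_nt.PF.MR1
import Pool.Agent.P.MP_e94e4b_nt.PF.TEN
import Pool.Agent.P.MP_e94e4b_nt.PF.SV

/-! Assembly of all steps. -/

namespace Pool.Agent.P.PAR

open Pool.Agent.P.E2

open Pool.Agent.P.MP_b60056_nt.AA in
theorem a_WB : E2.S_WB := wb (vmvt tree (coll linnik)) bilin sj

theorem a_REP : S_REP := Pool.Agent.P.MP_b60056_nt.AA.rep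

open Pool.Agent.P.MP_e94e4b_nt.PF in
theorem a_HG : E2.S_HG := t_HG (t_WLS t_MLS)

theorem a_PNT : S_PNT := Pool.Agent.P.MP_e94e4b_nt.PF.t_PNT

theorem a_MR1 : S_MR1 := Pool.Agent.P.MP_e94e4b_nt.PF.t_MR1

open Pool.Agent.P.MP_e94e4b_nt.PF in
theorem a_SV : S_SV := t_SV (t_FL t_MR1 t_TEN t_BLK)

theorem a_GF : S_GF := p_GF

theorem a_CS : S_CS := p_CS a_GF

theorem a_EL : S_EL := p_EL

theorem a_SH : S_SH := p_SH a_WB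

theorem a_EXP : S_EXP := p_EXP a_SH

theorem a_DY : S_DY := p_DY

theorem a_PS : S_PS := p_PS a_EXP a_EL a_DY

theorem a_HALC : S_HALC := p_HALC

theorem a_IL : S_IL := p_IL

theorem a_HB : S_HB := p_HB a_PS a_HALC a_IL

theorem a_HF : S_HF := p_HF

theorem a_AP1 : S_AP1 := p_AP1

theorem a_AP2 : S_AP2 := p_AP2

theorem a_APX : S_APX := p_APX a_AP1 a_AP2

theorem a_VB : S_VB := p_VB a_EXP

theorem a_BL : S_BL := p_BL a_VB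

theorem a_LB : S_LB := p_LB a_APX a_BL a_DY

theorem a_BC : S_BC := p_BC

theorem a_ZL1 : S_ZL1 := p_ZL1

theorem a_ZL2 : S_ZL2 := p_ZL2

theorem a_LA1 : S_LA1 := p_LA1

theorem a_LAN : S_LAN := p_LAN a_BC a_LA1

theorem a_T341 : S_T341 := p_T341 a_ZL2

theorem a_ZF : S_ZF := p_ZF a_LB a_LAN a_ZL1 a_ZL2 a_T341

theorem a_LD : S_LD := p_LD a_LB a_BC a_ZL1 a_ZL2 a_ZF

theorem a_MEL : S_MEL := p_MEL a_GF

theorem a_MV : S_MV := p_MV a_HG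

theorem a_PL : S_PL := p_PL

theorem a_PW : S_PW := p_PW

theorem a_SWP : S_SWP := p_SWP

theorem a_TAIL : S_TAIL := p_TAIL

theorem a_MOM : S_MOM := p_MOM a_MV a_REP

theorem a_UM : S_UM := p_UM a_MOM

theorem a_WIN1 : S_WIN1 := p_WIN1

theorem b_LZ : L_LZ := q_LZ

theorem b_LX : L_LX := q_LX b_LZ

theorem b_SMT : L_SMT := q_SMT b_LX

theorem b_CSN : L_CSN := q_CSN a_CS

theorem b_PB : L_PB := q_PB a_LB a_ZL1 a_ZL2 a_LD a_HF a_MEL b_CSN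

theorem b_WIN : L_WIN := q_WIN a_TAIL a_WIN1

theorem b_SH : L_SH := q_SH a_SWP b_PB b_WIN

theorem b_INT : L_INT := q_INT a_VB a_EL

theorem b_PQ : L_PQ := q_PQ a_PW b_SH b_INT

theorem b_TK : L_TK := q_TK

theorem b_DI : L_DI := q_DI

theorem b_OT : L_OT := q_OT

theorem b_DN : L_DN := q_DN b_TK b_OT

theorem b_DEC : L_DEC := q_DEC a_MV b_DI b_DN

theorem b_RM : L_RM := q_RM a_MV

theorem b_W2 : L_W2 := q_W2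

theorem b_CV : L_CV := q_CV

theorem b_MOM : L_MOM := q_MOM a_MV b_W2 b_CV

theorem b_SG : L_SG := q_SG a_MR1

theorem b_ST1 : L_ST1 := q_ST1 b_DEC b_RM b_SG

theorem b_T2 : L_T2 := q_T2 b_MOM

theorem b_ST2 : L_ST2 := q_ST2 b_DEC b_SG b_T2

theorem b_LD1 : L_LD1 := q_LD1

theorem b_CH : L_CH := q_CH b_SG b_ST1 b_ST2 b_LD1

theorem b_BM : L_BM := q_BM a_UM

theorem b_LG : L_LG := q_LG a_PNT a_MR1

theorem b_BW : L_BW := q_BW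

theorem b_LS : L_LS := q_LS b_PQ b_DEC b_LG b_BW

theorem b_MID : L_MID := q_MID b_RM b_LS

theorem b_UU : L_UU := q_UU a_HB b_LS

theorem b_FF : L_FF := q_FF b_SMT b_CH b_BM b_MID b_UU

theorem b_SS : L_SS := q_SS a_WIN1

theorem b_OVL : L_OVL := q_OVL

theorem b_MRD : L_MRD := q_MRD a_PL b_FF b_SS b_OVL

theorem b_MRL : L_MRL := q_MRL b_MRD

theorem b_ED0 : L_ED0 := q_ED0

theorem b_ED1 : L_ED1 := q_ED1 b_ED0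

theorem b_ED : L_ED := q_ED b_ED1

theorem b_CRT : L_CRT := q_CRT

theorem b_CHER : L_CHER := q_CHER b_CRT

theorem b_GDC : L_GDC := q_GDC b_CHER

theorem b_PQC : L_PQC := q_PQC a_PNT

theorem b_SGM : L_SGM := q_SGM

theorem b_EN : L_EN := q_EN a_SV b_SGM

theorem b_SUMS : L_SUMS := q_SUMS b_PQC b_EN

theorem b_CHN : L_CHN := q_CHN

theorem b_RUN : L_RUN := q_RUN b_SUMS b_CHN

theorem b_RN1 : L_RN1 := q_RN1

theorem b_RUNL : L_RUNL := q_RUNL b_MRL b_RN1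

theorem b_BK1 : L_BK1 := q_BK1

theorem b_BK2 : L_BK2 := q_BK2 b_BK1

theorem b_ERR : L_ERR := q_ERR

theorem b_TB : L_TB := q_TB b_GDC

theorem b_BS : L_BS := q_BS

theorem b_TH : L_TH := q_TH b_PQC b_RUN b_RUNL b_BK2 b_ERR b_TB b_BS

theorem b_LAD : L_LAD := q_LAD

theorem b_EB : L_EB := q_EB b_ED b_GDC b_PQC

theorem b_LOC : L_LOC := q_LOC b_PQC b_TH b_LAD b_EB

theorem b_TKL : L_TKL := q_TKL b_TK

theorem b_TK1 : L_TK1 := q_TK1 b_TKL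

theorem b_PIG : L_PIG := q_PIG

theorem b_REC : L_REC := q_REC b_TK1 b_PIG

theorem b_CW1 : L_CW1 := q_CW1

theorem b_CW2 : L_CW2 := q_CW2

theorem b_CW3 : L_CW3 := q_CW3 b_CW2

theorem b_CW4 : L_CW4 := q_CW4 b_CW2

theorem b_CW5 : L_CW5 := q_CW5 b_CW1 b_CW2

theorem b_RG0 : L_RG0 := q_RG0 b_LOC b_REC b_CW3 b_CW4 b_CW5

theorem b_RIG : L_RIG := q_RIG b_RG0

theorem b_MEAN : L_MEAN := q_MEAN b_MRL

theorem b_CNT : L_CNT := q_CNT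

theorem b_FIN : L_FIN := q_FIN b_RIG b_MEAN b_CNT

end Pool.Agent.P.PAR
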