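import Pool.Agent.P.MP_e94e4b_nt.PAR.Defs

/-! Small facts about the definitions, shared by all steps. -/

namespace Pool.Agent.P.PAR

open Finset Real Filter Topology MeasureTheory
open Pool.Agent.P.MP_8be758_nt.Avg (gs nsq gs_pos gs_le_one)
open Pool.Agent.P.E2
open ArithmeticFunction (cardFactors vonMangoldt)

/-! ### Parity -/

theorem lam_par (n : ℕ) : lam n = if par n then 1 else -1 := by
  unfold lam par
  rcases Nat.even_or_odd (cardFactors n) with h | h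
  · simp [h, h.neg_one_pow]
  · simp [Nat.not_even_iff_odd.2 h, h.neg_one_pow]

theorem lam_cases (n : ℕ) : lam n = 1 ∨ lam n = -1 := by
  rw [lam_par]; split_ifs <;> simp

theorem abs_lam (n : ℕ) : |lam n| = 1 := by rcases lam_cases n with h | h <;> simp [h]

theorem norm_lc (n : ℕ) : ‖lc n‖ = 1 := by rw [lc, Complex.norm_real, Real.norm_eq_abs, abs_lam]

theorem norm_lc_le (n : ℕ) : ‖lc n‖ ≤ 1 := (norm_lc n).le

theorem lam_mul {m n : ℕ} (hm : m ≠ 0) (hn : n ≠ 0) : lam (m * n) = lam m * lam n := by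
  rw [lam, lam, lam, ArithmeticFunction.cardFactors_mul hm hn, pow_add]

theorem lc_mul {m n : ℕ} (hm : m ≠ 0) (hn : n ≠ 0) : lc (m * n) = lc m * lc n := by
  rw [lc, lc, lc, lam_mul hm hn, Complex.ofReal_mul]

theorem lam_prime {p : ℕ} (hp : p.Prime) : lam p = -1 := by
  rw [lam, ArithmeticFunction.cardFactors_apply_prime hp, pow_one]

theorem lc_prime {p : ℕ} (hp : p.Prime) : lc p = -1 := by rw [lc, lam_prime hp]; simp

theorem lam_one : lam 1 = 1 := by simp [lam]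

theorem par_eq_iff {m n : ℕ} : par m = par n ↔ lam m = lam n := by
  rw [lam_par, lam_par]
  cases par m <;> cases par n <;> norm_num

theorem par_mul {m n : ℕ} (hm : m ≠ 0) (hn : n ≠ 0) : par (m * n) = (par m == par n) := by
  unfold par
  rw [ArithmeticFunction.cardFactors_mul hm hn]
  by_cases h1 : Even (cardFactors m) <;> by_cases h2 : Even (cardFactors n) <;>
    simp [Nat.even_add, h1, h2]

theorem par_cancel {q m n : ℕ} (hq : q ≠ 0) (hm : m ≠ 0) (hn : n ≠ 0) :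
    par (q * m) = par (q * n) ↔ par m = par n := by
  rw [par_mul hq hm, par_mul hq hn]
  cases par q <;> cases par m <;> cases par n <;> simp

theorem par_sq_mul {k m : ℕ} (hk : k ≠ 0) (hm : m ≠ 0) : par (k ^ 2 * m) = par m := by
  rw [par_mul (pow_ne_zero 2 hk) hm, pow_two, par_mul hk hk]
  cases par k <;> cases par m <;> simp

theorem par_iff_mod {n : ℕ} : par n = true ↔ cardFactors n % 2 = 0 := by
  simp [par, Nat.even_iff]

theorem abs_sum_lam_le (S : Finset ℕ) : |∑ n ∈ S, lam n| ≤ S.card :=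
  (abs_sum_le_sum_abs _ _).trans_eq (by simp [abs_lam])

theorem abs_sh_le (h x : ℕ) : |sh h x| ≤ h := (abs_sum_lam_le _).trans_eq (by simp)

theorem norm_sum_lc (S : Finset ℕ) : ‖∑ n ∈ S, lc n‖ = |∑ n ∈ S, lam n| := by
  simp only [lc]
  rw [← Complex.ofReal_sum, Complex.norm_real, Real.norm_eq_abs]

/-! ### Logarithmic mass -/

theorem harm_le (Y : ℕ) : ∑ n ∈ Icc 1 Y, 1 / (n : ℝ) ≤ 1 + Real.log Y :=
  Pool.Agent.P.MP_e86632_nt.sum_inv_le Y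

theorem lm_eq (Y : ℕ) (g : ℕ → Prop) [DecidablePred g] :
    lm Y g = ∑ n ∈ (Icc 1 Y).filter g, 1 / (n : ℝ) := by
  unfold lm; congr

theorem lm_ite (Y : ℕ) (g : ℕ → Prop) [DecidablePred g] :
    lm Y g = ∑ n ∈ Icc 1 Y, if g n then 1 / (n : ℝ) else 0 := by
  rw [lm_eq, sum_filter]

theorem lm_nonneg (Y : ℕ) (g : ℕ → Prop) : 0 ≤ lm Y g := sum_nonneg fun _ _ => by positivity

/-- any finite set of witnesses gives a lower bound -/
theorem le_lm {Y : ℕ} {g : ℕ → Prop} {S : Finset ℕ} (h : ∀ n ∈ S, 1 ≤ n ∧ n ≤ Y ∧ g n) :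
    ∑ n ∈ S, 1 / (n : ℝ) ≤ lm Y g := by
  classical
  rw [lm_eq]
  exact sum_le_sum_of_subset_of_nonneg
    (fun n hn => mem_filter.2 ⟨mem_Icc.2 ⟨(h n hn).1, (h n hn).2.1⟩, (h n hn).2.2⟩)
    fun _ _ _ => by positivity

/-- any finite cover gives an upper bound -/
theorem lm_le_sum {Y : ℕ} {g : ℕ → Prop} {S : Finset ℕ} (h : ∀ n, 1 ≤ n → n ≤ Y → g n → n ∈ S) :
    lm Y g ≤ ∑ n ∈ S, 1 / (n : ℝ) := by
  classical
  rw [lm_eq]
  refine sum_le_sum_of_subset_of_nonneg (fun n hn => ?_) fun _ _ _ => by positivity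
  obtain ⟨h1, h2⟩ := mem_filter.1 hn
  exact h n (mem_Icc.1 h1).1 (mem_Icc.1 h1).2 h2

theorem lm_mono' {Y Y' : ℕ} {g g' : ℕ → Prop} (h : ∀ n, 1 ≤ n → n ≤ Y → g n → n ≤ Y' ∧ g' n) :
    lm Y g ≤ lm Y' g' := by
  classical
  rw [lm_eq Y g]
  refine le_lm fun n hn => ?_
  obtain ⟨h1, h2⟩ := mem_filter.1 hn
  exact ⟨(mem_Icc.1 h1).1, h n (mem_Icc.1 h1).1 (mem_Icc.1 h1).2 h2⟩

theorem lm_mono {Y : ℕ} {g g' : ℕ → Prop} (h : ∀ n, 1 ≤ n → n ≤ Y → g n → g' n) :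
    lm Y g ≤ lm Y g' := lm_mono' fun n a b c => ⟨b, h n a b c⟩

theorem lm_le (Y : ℕ) (g : ℕ → Prop) : lm Y g ≤ 1 + Real.log Y :=
  (lm_le_sum fun _ a b _ => mem_Icc.2 ⟨a, b⟩).trans (harm_le Y)

theorem lm_or_le (Y : ℕ) (g g' : ℕ → Prop) : lm Y (fun n => g n ∨ g' n) ≤ lm Y g + lm Y g' := by
  classical
  rw [lm_ite, lm_ite, lm_ite, ← sum_add_distrib]
  refine sum_le_sum fun n _ => ?_
  have : (0 : ℝ) ≤ 1 / n := by positivity
  by_cases a : g n <;> by_cases b : g' n <;> simp [a, b]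

theorem lm_small (Y K : ℕ) : lm Y (fun n => n ≤ K) ≤ 1 + Real.log K :=
  (lm_mono' (g' := fun _ => True) fun _ _ _ c => ⟨c, trivial⟩).trans (lm_le K _)

/-- discard the small values -/
theorem lm_le_add (Y K : ℕ) (g : ℕ → Prop) :
    lm Y g ≤ 1 + Real.log K + lm Y fun n => K < n ∧ g n :=
  ((lm_mono fun n _ _ c => (le_or_gt n K).imp id fun h => ⟨h, c⟩).trans
    (lm_or_le Y (fun n => n ≤ K) _)).trans (add_le_add (lm_small Y K) le_rfl)

theorem lm_exists_le (Y : ℕ) (S : Finset ℕ) (g : ℕ → ℕ → Prop) :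
    lm Y (fun n => ∃ d ∈ S, g d n) ≤ ∑ d ∈ S, lm Y (g d) := by
  induction S using Finset.induction_on with
  | empty => exact (lm_le_sum (S := ∅) fun _ _ _ h => by simp at h).trans (by simp)
  | insert d S hd ih =>
    rw [sum_insert hd]
    refine le_trans (lm_mono fun n _ _ h => ?_) ((lm_or_le Y _ _).trans (add_le_add le_rfl ih))
    simpa using h

/-- a constant is beaten by the logarithm -/
theorem ev_log (K : ℝ) {c : ℝ} (hc : 0 < c) : ∀ᶠ Y : ℕ in atTop, K ≤ c * Real.log Y :=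
  ((Real.tendsto_log_atTop.comp tendsto_natCast_atTop_atTop).const_mul_atTop hc).eventually_ge_atTop K

theorem fq_eq (L : ℕ) (g : ℕ → Prop) [DecidablePred g] :
    fq L g = (((range L).filter g).card : ℝ) / L := by
  unfold fq; congr

theorem fq_nonneg (L : ℕ) (g : ℕ → Prop) : 0 ≤ fq L g := by unfold fq; positivity

theorem fq_congr {L : ℕ} {g g' : ℕ → Prop} (h : ∀ n < L, g n ↔ g' n) : fq L g = fq L g' := by
  classical
  rw [fq_eq, fq_eq, filter_congr fun n hn => h n (mem_range.1 hn)]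

theorem tb_nonneg (V : ℕ → Prop) (a c P L : ℕ) (η : ℝ) (b : ℕ) : 0 ≤ tb V a c P L η b :=
  fq_nonneg _ _

theorem om_nonneg (S : Finset ℕ) (n : ℕ) : 0 ≤ om S n := Nat.cast_nonneg _

theorem om_eq_sum (S : Finset ℕ) (n : ℕ) : om S n = ∑ p ∈ S, if p ∣ n then 1 else 0 := by
  rw [om, sum_boole]

theorem rs_nonneg (S : Finset ℕ) : 0 ≤ rs S := sum_nonneg fun _ _ => by positivity

/-- multiples of `d` in an interval -/
theorem card_dvd_Ioc {d : ℕ} (hd : 0 < d) {A B : ℕ} (h : A ≤ B) :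
    |(((Ioc A B).filter (d ∣ ·)).card : ℝ) - ((B : ℝ) - A) / d| ≤ 1 := by
  have h1 : ((Ioc A B).filter (d ∣ ·)).card + A / d = B / d := by
    rw [← Nat.Ioc_filter_dvd_card_eq_div, ← Nat.Ioc_filter_dvd_card_eq_div, add_comm,
      ← card_union_of_disjoint (disjoint_filter_filter (Ioc_disjoint_Ioc_of_le le_rfl)),
      ← filter_union, Ioc_union_Ioc_eq_Ioc (Nat.zero_le A) h]
  have h2 : ∀ x : ℕ, (x : ℝ) / d - 1 ≤ (x / d : ℕ) ∧ ((x / d : ℕ) : ℝ) ≤ (x : ℝ) / d := fun x => by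
    refine ⟨?_, Nat.cast_div_le⟩
    have h0 : (0 : ℝ) < d := by exact_mod_cast hd
    have h3 : (x : ℝ) ≤ d * ((x / d : ℕ) + 1) := by exact_mod_cast (Nat.lt_mul_div_succ x hd).le
    rw [sub_le_iff_le_add, div_le_iff₀ h0]; linarith
  have h3 : (((Ioc A B).filter (d ∣ ·)).card : ℝ) + (A / d : ℕ) = (B / d : ℕ) := by
    exact_mod_cast h1
  rw [sub_div, abs_le]
  constructor <;> linarith [h2 A, h2 B]

/-- a periodic function has the same sum over every period -/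
theorem sum_shift {E : Type*} [AddCommGroup E] {F : ℕ → E} {L : ℕ} (h : ∀ n, F (n + L) = F n)
    (s : ℕ) : ∑ n ∈ range L, F (n + s) = ∑ n ∈ range L, F n := by
  induction s with
  | zero => rfl
  | succ s ih =>
    have h1 := sum_range_succ (fun n => F (n + s)) L
    have h2 := sum_range_succ' (fun n => F (n + s)) L
    rw [show L + s = s + L from add_comm _ _, h, ih] at h1
    rw [h1, zero_add, add_left_inj] at h2
    rw [h2]
    exact sum_congr rfl fun n _ => by rw [add_assoc, add_comm 1 s]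

theorem per_mul {E : Type*} {F : ℕ → E} {Q : ℕ} (h : ∀ n, F (n + Q) = F n) (n k : ℕ) :
    F (n + Q * k) = F n := by
  induction k with
  | zero => rfl
  | succ k ih => rw [Nat.mul_succ, ← add_assoc, h, ih]

theorem per_dvd {E : Type*} {F : ℕ → E} {Q L : ℕ} (h : ∀ n, F (n + Q) = F n) (hL : Q ∣ L) (n : ℕ) :
    F (n + L) = F n := by
  obtain ⟨k, rfl⟩ := hL
  exact per_mul h n k

theorem per_mod {E : Type*} {F : ℕ → E} {Q : ℕ} (h : ∀ n, F (n + Q) = F n) (n s : ℕ) :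
    F (n % Q + s) = F (n + s) := by
  conv_rhs => rw [← Nat.mod_add_div n Q, add_right_comm, per_mul h]

theorem sum_per_mul {F : ℕ → ℝ} {Q : ℕ} (h : ∀ n, F (n + Q) = F n) (k : ℕ) :
    ∑ n ∈ range (Q * k), F n = k * ∑ n ∈ range Q, F n := by
  induction k with
  | zero => simp
  | succ k ih =>
    have e : ∑ n ∈ range Q, F (Q * k + n) = ∑ n ∈ range Q, F n :=
      sum_congr rfl fun n _ => by rw [add_comm, per_mul h]
    rw [Nat.mul_succ, sum_range_add, ih, e]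
    push_cast; ring

/-! ### The primes near `P` -/

theorem mem_pq {a P q : ℕ} : q ∈ pq a P ↔ (P < q ∧ q ≤ 2 * P) ∧ q.Prime ∧ q ≡ 1 [MOD a] := by
  rw [pq, mem_filter, mem_Ioc]

theorem mem_pr2 {P q : ℕ} : q ∈ pr2 P ↔ (P < q ∧ q ≤ 2 * P) ∧ q.Prime := by
  rw [pr2, mem_filter, mem_Ioc]

theorem pq_subset (a P : ℕ) : pq a P ⊆ pr2 P := fun _ h =>
  mem_pr2.2 ⟨(mem_pq.1 h).1, (mem_pq.1 h).2.1⟩

theorem eh_le {a P q : ℕ} (h : q ∈ pq a P) : eh a q ≤ 2 * P := by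
  have h1 := (mem_pq.1 h).1
  have h2 := Nat.div_le_self (q - 1) a
  unfold eh; omega

theorem eh_spec {a P q : ℕ} (h : q ∈ pq a P) : q + a = a * eh a q + 1 := by
  obtain ⟨h1, h2, h3⟩ := mem_pq.1 h
  have h4 := Nat.mul_div_cancel' ((Nat.modEq_iff_dvd' h2.one_le).1 h3.symm)
  have h5 := h2.one_le
  rw [eh, mul_add, h4]; omega

theorem mem_cb {V : ℕ → Prop} {a P L b q : ℕ} :
    q ∈ cb V a P L b ↔ q ∈ pq a P ∧ ∀ n, b * L ≤ n → n < (b + 2) * L → V (n / q) := by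
  classical
  unfold cb; simp only [mem_filter]

theorem cb_subset (V : ℕ → Prop) (a P L b : ℕ) : cb V a P L b ⊆ pq a P :=
  fun _ h => (mem_cb.1 h).1

theorem mem_iu {k u m : ℕ} : m ∈ iu k u ↔
    m ≤ u ^ 2 ∧ k * (4 * m) ≤ k * u ^ 2 + u ∧ k * u ^ 2 ≤ k * (4 * m) + u := by
  rw [iu, mem_filter, mem_range, Nat.lt_succ_iff]

/-! ### Short ranges -/

theorem yy_zero (P δ : ℝ) : yy P δ 0 = P := by simp [yy]

theorem yy_succ (P δ : ℝ) (v : ℕ) : yy P δ (v + 1) = (1 + δ) * yy P δ v := by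
  rw [yy, yy, pow_succ]; ring

theorem le_yy {P δ : ℝ} (hP : 0 ≤ P) (hδ : 0 ≤ δ) (v : ℕ) : P ≤ yy P δ v :=
  le_mul_of_one_le_right hP (one_le_pow₀ (by linarith))

theorem yy_pos {P δ : ℝ} (hP : 0 < P) (hδ : 0 ≤ δ) (v : ℕ) : 0 < yy P δ v :=
  hP.trans_le (le_yy hP.le hδ v)

theorem yy_mono {P δ : ℝ} (hP : 0 ≤ P) (hδ : 0 ≤ δ) {u v : ℕ} (h : u ≤ v) :
    yy P δ u ≤ yy P δ v :=
  mul_le_mul_of_nonneg_left (pow_le_pow_right₀ (by linarith) h) hP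

theorem log_yy {P δ : ℝ} (hP : 0 < P) (hδ : 0 ≤ δ) (v : ℕ) :
    Real.log (yy P δ v) = Real.log P + v * Real.log (1 + δ) := by
  rw [yy, Real.log_mul hP.ne' (by positivity), Real.log_pow]

theorem mem_pv {P δ : ℝ} (hP : 0 ≤ P) (hδ : 0 ≤ δ) {v p : ℕ} :
    p ∈ pv P δ v ↔ (yy P δ v < p ∧ (p : ℝ) ≤ yy P δ (v + 1)) ∧ p.Prime := by
  rw [pv, mem_filter, mem_Ioc, Nat.floor_lt (hP.trans (le_yy hP hδ v)),
    Nat.le_floor_iff (hP.trans (le_yy hP hδ _))]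

theorem mem_pa {P δ : ℝ} (hP : 0 ≤ P) (hδ : 0 ≤ δ) {V p : ℕ} :
    p ∈ pa P δ V ↔ (P < p ∧ (p : ℝ) ≤ yy P δ V) ∧ p.Prime := by
  rw [pa, mem_filter, mem_Ioc, Nat.floor_lt hP, Nat.le_floor_iff (hP.trans (le_yy hP hδ _))]

theorem mem_rg {P δ : ℝ} (hP : 0 ≤ P) (hδ : 0 ≤ δ) {X v m : ℕ} :
    m ∈ rg X P δ v ↔ X / yy P δ v < m ∧ (m : ℝ) ≤ 8 * X / yy P δ v := by
  have := hP.trans (le_yy hP hδ v)
  rw [rg, mem_Ioc, Nat.floor_lt (by positivity), Nat.le_floor_iff (by positivity)]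

theorem rg_subset (X : ℕ) (P δ : ℝ) (v : ℕ) : rg X P δ v ⊆ Icc 1 ⌊8 * X / yy P δ v⌋₊ :=
  fun _ h => mem_Icc.2 ⟨Nat.one_le_of_lt (mem_Ioc.1 h).1, (mem_Ioc.1 h).2⟩

theorem card_rg_le {P δ : ℝ} (hP : 0 ≤ P) (hδ : 0 ≤ δ) (X v : ℕ) :
    ((rg X P δ v).card : ℝ) ≤ 8 * X / yy P δ v := by
  have := hP.trans (le_yy hP hδ v)
  refine le_trans (Nat.cast_le.2 (card_le_card (rg_subset X P δ v))) ?_
  rw [Nat.card_Icc, Nat.add_sub_cancel]
  exact Nat.floor_le (by positivity)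

theorem nsq_lc (S : Finset ℕ) : nsq S lc = S.card := by simp [nsq, norm_lc]

theorem card_pa_le {P δ : ℝ} (hP : 0 ≤ P) (hδ : 0 ≤ δ) (V : ℕ) :
    ((pa P δ V).card : ℝ) ≤ yy P δ V := by
  refine le_trans (Nat.cast_le.2 ((card_filter_le _ _).trans ?_))
    (Nat.floor_le (hP.trans (le_yy hP hδ V)))
  rw [Nat.card_Ioc]; exact Nat.sub_le _ _

/-- the ranges partition the primes of a stage -/
theorem sum_pa {E : Type*} [AddCommMonoid E] {P δ : ℝ} (hP : 0 ≤ P) (hδ : 0 ≤ δ) (V : ℕ)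
    (f : ℕ → E) : ∑ p ∈ pa P δ V, f p = ∑ v ∈ range V, ∑ p ∈ pv P δ v, f p := by
  induction V with
  | zero => simp [pa, yy_zero]
  | succ V ih =>
    rw [sum_range_succ, ← ih, pa, pa, pv, sum_filter, sum_filter, sum_filter]
    exact (sum_Ioc_consecutive _ (Nat.floor_le_floor (le_yy hP hδ V))
      (Nat.floor_le_floor (yy_mono hP hδ V.le_succ))).symm

/-! ### Mean squares -/

@[fun_prop] theorem cont_FF (X : ℕ) : Continuous (FF X) := cont_dq _ _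

@[fun_prop] theorem cont_qv (P δ : ℝ) (v : ℕ) : Continuous (qv P δ v) := cont_dq _ _

@[fun_prop] theorem cont_rv (X : ℕ) (P δ : ℝ) (v : ℕ) : Continuous (rv X P δ v) := cont_dq _ _

@[fun_prop] theorem cont_bl (X : ℕ) (P δ : ℝ) (V : ℕ) : Continuous (bl X P δ V) := by
  unfold bl; fun_prop

/-- a bounded continuous function -/
def Bd (F : ℝ → ℂ) : Prop := Continuous F ∧ ∃ B, ∀ t, ‖F t‖ ≤ B

theorem bd_dq (I : Finset ℕ) (a : ℕ → ℂ) : Bd (dq I a) := ⟨cont_dq I a, _, norm_dq_le_sum I a⟩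

theorem Bd.mul {F G : ℝ → ℂ} (h : Bd F) (h' : Bd G) : Bd fun t => F t * G t := by
  obtain ⟨c, B, hB⟩ := h
  obtain ⟨c', B', hB'⟩ := h'
  refine ⟨c.mul c', B * B', fun t => ?_⟩
  rw [norm_mul]
  exact mul_le_mul (hB t) (hB' t) (norm_nonneg _) ((norm_nonneg _).trans (hB t))

theorem Bd.pow {F : ℝ → ℂ} (h : Bd F) (k : ℕ) : Bd fun t => F t ^ k := by
  obtain ⟨c, B, hB⟩ := h
  exact ⟨c.pow k, B ^ k, fun t => by
    rw [norm_pow]; exact pow_le_pow_left₀ (norm_nonneg _) (hB t) k⟩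

theorem Bd.sum {F : ℕ → ℝ → ℂ} (S : Finset ℕ) (h : ∀ v, Bd (F v)) :
    Bd fun t => ∑ v ∈ S, F v t := by
  choose c B hB using h
  exact ⟨continuous_finsetSum _ fun v _ => c v, ∑ v ∈ S, B v,
    fun t => norm_sum_le_of_le _ fun v _ => hB v t⟩

theorem bd_FF (X : ℕ) : Bd (FF X) := bd_dq _ _

theorem bd_qv (P δ : ℝ) (v : ℕ) : Bd (qv P δ v) := bd_dq _ _

theorem bd_rv (X : ℕ) (P δ : ℝ) (v : ℕ) : Bd (rv X P δ v) := bd_dq _ _

theorem bd_bl (X : ℕ) (P δ : ℝ) (V : ℕ) : Bd (bl X P δ V) :=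
  Bd.sum (range V) fun v => (bd_qv P δ v).mul (bd_rv X P δ v)

/-- the weighted square of a bounded continuous function is integrable -/
theorem Bd.int {F : ℝ → ℂ} (h : Bd F) {Z : ℝ} (hZ : 0 < Z) :
    Integrable fun t => gs (t / Z) * ‖F t‖ ^ 2 := by
  obtain ⟨c, B, hB⟩ := h
  refine int_gs_mul (B := B ^ 2) hZ (by fun_prop) fun t => ?_
  rw [abs_of_nonneg (by positivity)]
  exact pow_le_pow_left₀ (norm_nonneg _) (hB t) 2

theorem gsq_nonneg (F : ℝ → ℂ) (Z t : ℝ) : 0 ≤ gs (t / Z) * ‖F t‖ ^ 2 :=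
  mul_nonneg (gs_pos _).le (by positivity)

theorem Bd.set_le {F : ℝ → ℂ} (h : Bd F) {Z : ℝ} (hZ : 0 < Z) (T : Set ℝ) :
    ∫ t in T, gs (t / Z) * ‖F t‖ ^ 2 ≤ ∫ t, gs (t / Z) * ‖F t‖ ^ 2 :=
  setIntegral_le_integral (h.int hZ) (ae_of_all _ (gsq_nonneg F Z))

theorem Bd.mono {F : ℝ → ℂ} (h : Bd F) {Z : ℝ} (hZ : 0 < Z) {T T' : Set ℝ} (hT : T ⊆ T') :
    ∫ t in T, gs (t / Z) * ‖F t‖ ^ 2 ≤ ∫ t in T', gs (t / Z) * ‖F t‖ ^ 2 :=
  setIntegral_mono_set (h.int hZ).integrableOn (ae_of_all _ (gsq_nonneg F Z)) hT.eventuallyLE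

theorem Bd.union {F : ℝ → ℂ} (h : Bd F) {Z : ℝ} (hZ : 0 < Z) {T T' : Set ℝ}
    (hT : MeasurableSet T) : ∫ t in T ∪ T', gs (t / Z) * ‖F t‖ ^ 2 ≤
      (∫ t in T, gs (t / Z) * ‖F t‖ ^ 2) + ∫ t in T', gs (t / Z) * ‖F t‖ ^ 2 := by
  rw [← integral_inter_add_sdiff hT (h.int hZ).integrableOn]
  exact add_le_add (h.mono hZ Set.inter_subset_right)
    (h.mono hZ fun t ht => ht.1.resolve_left ht.2)

/-- a set covered by finitely many measurable sets -/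
theorem Bd.cover {F : ℝ → ℂ} (h : Bd F) {Z : ℝ} (hZ : 0 < Z) (S : Finset ℕ) {A : ℕ → Set ℝ}
    (hA : ∀ u, MeasurableSet (A u)) {T : Set ℝ} (hT : ∀ t ∈ T, ∃ u ∈ S, t ∈ A u) :
    ∫ t in T, gs (t / Z) * ‖F t‖ ^ 2 ≤ ∑ u ∈ S, ∫ t in A u, gs (t / Z) * ‖F t‖ ^ 2 := by
  induction S using Finset.induction_on generalizing T with
  | empty =>
    have e : T = ∅ := Set.eq_empty_of_forall_notMem fun t ht => by simpa using hT t ht
    rw [e]; simp
  | insert u S hu ih =>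
    rw [sum_insert hu]
    refine le_trans (h.mono hZ (T' := A u ∪ {t | ∃ u ∈ S, t ∈ A u}) fun t ht => ?_)
      ((h.union hZ (hA u)).trans (add_le_add le_rfl (ih fun _ ht => ht)))
    simpa using hT t ht

theorem mq_nonneg (X : ℕ) (Z : ℝ) (T : Set ℝ) : 0 ≤ mq X Z T :=
  integral_nonneg (gsq_nonneg _ Z)

theorem mq_mono (X : ℕ) {Z : ℝ} (hZ : 0 < Z) {T T' : Set ℝ} (hT : T ⊆ T') :
    mq X Z T ≤ mq X Z T' := (bd_FF X).mono hZ hT

theorem mq_union (X : ℕ) {Z : ℝ} (hZ : 0 < Z) {T T' : Set ℝ} (hT : MeasurableSet T) :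
    mq X Z (T ∪ T') ≤ mq X Z T + mq X Z T' := (bd_FF X).union hZ hT

theorem norm_FF_le (X : ℕ) (t : ℝ) : ‖FF X t‖ ≤ 7 * X := by
  refine (norm_dq_le (B := 1) (fun n _ => norm_lc_le n) t).trans_eq ?_
  rw [Nat.card_Ioc, show 8 * X - X = 7 * X by omega]; simp

theorem meas_lt (c : ℝ) {F : ℝ → ℂ} (h : Continuous F) : MeasurableSet {t | c < ‖F t‖} :=
  measurableSet_lt measurable_const h.norm.measurable

theorem meas_le (c : ℝ) {F : ℝ → ℂ} (h : Continuous F) : MeasurableSet {t | ‖F t‖ ≤ c} :=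
  measurableSet_le h.norm.measurable measurable_const

theorem meas_abs_le (c : ℝ) : MeasurableSet {t : ℝ | |t| ≤ c} :=
  measurableSet_le (by fun_prop) measurable_const

theorem meas_band (c d : ℝ) : MeasurableSet {t : ℝ | c ≤ |t| ∧ |t| ≤ d} :=
  (meas_abs_ge c).inter (meas_abs_le d)

theorem meas_bad (ρ α : ℝ) : MeasurableSet (bad ρ α) := by
  have : bad ρ α = ⋃ v ∈ range (sV ρ),
      {t | yy (sP ρ) (sd ρ) v ^ (1 - α) < ‖qv (sP ρ) (sd ρ) v t‖} := by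
    ext t; simp [bad]
  rw [this]
  exact Finset.measurableSet_biUnion _ fun v _ => meas_lt _ (cont_qv _ _ v)

/-! ### Scales -/

theorem nx_pow_six (ρ : ℝ) : nx ρ ^ 6 = Real.exp (ρ ^ 2) := by
  rw [nx, ← Real.exp_nat_mul]; congr 1; push_cast; ring

theorem nx_pow_twelve (ρ : ℝ) : nx ρ ^ 12 = Real.exp (2 * ρ ^ 2) := by
  rw [nx, ← Real.exp_nat_mul]; congr 1; push_cast; ring

theorem nx_pow_eighteen (ρ : ℝ) : nx ρ ^ 18 = Real.exp (3 * ρ ^ 2) := by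
  rw [nx, ← Real.exp_nat_mul]; congr 1; push_cast; ring

theorem log_nx (ρ : ℝ) : Real.log (nx ρ) = ρ ^ 2 / 6 := Real.log_exp _

theorem two_mul_le_nx {ρ : ℝ} (h : 12 ≤ ρ) : 2 * ρ ≤ nx ρ := by
  have := Real.add_one_le_exp (ρ ^ 2 / 6)
  unfold nx; nlinarith

theorem tendsto_nx : Tendsto nx atTop atTop :=
  tendsto_atTop_mono' _ ((eventually_ge_atTop 12).mono fun ρ h => by
    linarith [two_mul_le_nx h] : ∀ᶠ ρ : ℝ in atTop, ρ ≤ nx ρ) tendsto_id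

/-- passing from the parameter `r` to the integer `X` -/
theorem ev_X {p : ℝ → Prop} (h : ∀ᶠ r : ℝ in atTop, p r) :
    ∀ᶠ X : ℕ in atTop, ∃ r : ℝ, p r ∧ (X : ℝ) = XX r := by
  have ht : Tendsto (fun X : ℕ => Real.log X ^ (1 / 13 : ℝ)) atTop atTop :=
    (tendsto_rpow_atTop (by norm_num)).comp
      (Real.tendsto_log_atTop.comp tendsto_natCast_atTop_atTop)
  filter_upwards [ht.eventually h, eventually_ge_atTop 1] with X h1 h2
  have h3 : (1 : ℝ) ≤ X := by exact_mod_cast h2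
  refine ⟨_, h1, ?_⟩
  rw [XX, ← Real.rpow_natCast, ← Real.rpow_mul (Real.log_nonneg h3)]
  norm_num
  rw [Real.exp_log (by linarith)]

end Pool.Agent.P.PAR
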