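import Pool.Agent.P.MP_e94e4b_nt.E2.IfC

/-! Definitions for the theorem on parity patterns of the pairs between consecutive squares. -/

namespace Pool.Agent.P.PAR

open Finset Real Filter Topology MeasureTheory
open Pool.Agent.P.MP_8be758_nt.Avg (gs nsq)
open Pool.Agent.P.E2 (dq gk)
open ArithmeticFunction (cardFactors)

noncomputable section

/-! ### Parity of the number of prime factors -/

/-- `true` when the number of prime factors is even -/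
def par (n : ℕ) : Bool := decide (Even (cardFactors n))

/-- the Liouville function -/
def lam (n : ℕ) : ℝ := (-1) ^ cardFactors n

/-- the Liouville function with complex values -/
def lc (n : ℕ) : ℂ := (lam n : ℂ)

open Classical in
/-- logarithmic mass of a property up to `Y` -/
def lm (Y : ℕ) (g : ℕ → Prop) : ℝ := ∑ n ∈ (Icc 1 Y).filter g, 1 / (n : ℝ)

/-- short sum -/
def sh (h x : ℕ) : ℝ := ∑ n ∈ Ioc x (x + h), lam n

/-- number of divisors taken from `S` -/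
def om (S : Finset ℕ) (n : ℕ) : ℝ := ((S.filter (· ∣ n)).card : ℝ)

/-- sum of reciprocals -/
def rs (S : Finset ℕ) : ℝ := ∑ p ∈ S, 1 / (p : ℝ)

/-! ### Dirichlet polynomials -/

/-- the main polynomial -/
def FF (X : ℕ) (t : ℝ) : ℂ := dq (Ioc X (8 * X)) lc t

/-- weighted mean square of the main polynomial on a set -/
def mq (X : ℕ) (Z : ℝ) (T : Set ℝ) : ℝ := ∫ t in T, gs (t / Z) * ‖FF X t‖ ^ 2

/-- ends of the short ranges -/
def yy (P δ : ℝ) (v : ℕ) : ℝ := P * (1 + δ) ^ v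

/-- primes in a short range -/
def pv (P δ : ℝ) (v : ℕ) : Finset ℕ := (Ioc ⌊yy P δ v⌋₊ ⌊yy P δ (v + 1)⌋₊).filter Nat.Prime

/-- prime polynomial of a short range -/
def qv (P δ : ℝ) (v : ℕ) (t : ℝ) : ℂ := dq (pv P δ v) (fun _ => 1) t

/-- range of the cofactor -/
def rg (X : ℕ) (P δ : ℝ) (v : ℕ) : Finset ℕ := Ioc ⌊X / yy P δ v⌋₊ ⌊8 * X / yy P δ v⌋₊

/-- cofactor polynomial -/
def rv (X : ℕ) (P δ : ℝ) (v : ℕ) (t : ℝ) : ℂ := dq (rg X P δ v) lc t

/-- all primes of the first `V` ranges -/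
def pa (P δ : ℝ) (V : ℕ) : Finset ℕ := (Ioc ⌊P⌋₊ ⌊yy P δ V⌋₊).filter Nat.Prime

/-- the bilinear main term -/
def bl (X : ℕ) (P δ : ℝ) (V : ℕ) (t : ℝ) : ℂ := ∑ v ∈ range V, qv P δ v t * rv X P δ v t

/-- number of factorizations used by the bilinear term -/
def ot (X : ℕ) (P δ : ℝ) (V n : ℕ) : ℝ :=
  ∑ v ∈ range V, (((pv P δ v).filter fun p => p ∣ n ∧ n / p ∈ rg X P δ v).card : ℝ)

/-- start of a stage -/
def sP (ρ : ℝ) : ℝ := Real.exp (ρ ^ 6)

/-- relative width of the ranges of a stage -/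
def sd (ρ : ℝ) : ℝ := 1 / ρ ^ 6

/-- number of ranges of a stage -/
def sV (ρ : ℝ) : ℕ := ⌈ρ ^ 18⌉₊

/-- frequencies where a prime polynomial of the stage is large -/
def bad (ρ α : ℝ) : Set ℝ :=
  {t | ∃ v < sV ρ, yy (sP ρ) (sd ρ) v ^ (1 - α) < ‖qv (sP ρ) (sd ρ) v t‖}

/-- the next stage -/
def nx (ρ : ℝ) : ℝ := Real.exp (ρ ^ 2 / 6)

/-- size facts for a stage -/
structure Sg (ρ : ℝ) : Prop where
  r8 : 8 ≤ ρ
  d0 : 0 < sd ρ
  d1 : sd ρ ≤ 1 / 2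
  p4 : 4 ≤ sP ρ
  vu : (sV ρ : ℝ) ≤ 2 * ρ ^ 18
  yl : ∀ v, Real.exp (ρ ^ 6) ≤ yy (sP ρ) (sd ρ) v
  yu : ∀ v ≤ sV ρ, yy (sP ρ) (sd ρ) v ≤ Real.exp (2 * ρ ^ 12)
  e1 : 1 ≤ rs (pa (sP ρ) (sd ρ) (sV ρ))
  el : 3 * Real.log ρ ≤ rs (pa (sP ρ) (sd ρ) (sV ρ))
  dl : sd ρ ≤ 1 / Real.log ρ

/-- start of the last stage -/
def lP (r : ℝ) : ℝ := Real.exp (21 * r ^ 12)

/-- number of ranges of the last stage -/
def lV (r : ℝ) : ℕ := ⌊r ^ 13 / 8⌋₊

/-- size facts for the last stage -/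
structure Lg (r δ A : ℝ) : Prop where
  p2 : 2 ≤ lP r
  ea : A ≤ rs (pa (lP r) δ (lV r))
  sl : ∑ v ∈ range (lV r), 1 / Real.log (yy (lP r) δ v) ≤ 4 / δ * rs (pa (lP r) δ (lV r))
  yu : ∀ v ≤ lV r, yy (lP r) δ v ≤ Real.exp (r ^ 13 / 4)
  ml : ∀ v, Real.exp (20 * r ^ 12) ≤ ⌊yy (lP r) δ v⌋₊
  mn : ∀ v, ⌊yy (lP r) δ v⌋₊ ≤ ⌊yy (lP r) δ (v + 1)⌋₊ ∧
    ⌊yy (lP r) δ (v + 1)⌋₊ ≤ 2 * ⌊yy (lP r) δ v⌋₊
  lg : ∀ v, Real.log (yy (lP r) δ v) ≤ 2 * Real.log ⌊yy (lP r) δ v⌋₊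

/-- smoothed short sum -/
def Phi (X : ℕ) (a : ℝ) (b : ℕ → ℂ) (v : ℝ) : ℂ :=
  ∑ n ∈ Ioc X (8 * X), b n * (gk a (Real.log n - v) : ℂ)

/-! ### Patterns -/

/-- the alphabet -/
abbrev BB : Type := Bool × Bool

/-- average description length of the patterns of length `H` -/
def cost (L : ℕ) (ξ : ℕ → BB) {H : ℕ} (ν : (Fin H → BB) → ℝ) : ℝ :=
  (∑ n ∈ range L, -Real.log (ν fun i => ξ (n + i))) / L

open Classical in
/-- frequency of a property below `L` -/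
def fq (L : ℕ) (g : ℕ → Prop) : ℝ := (((range L).filter g).card : ℝ) / L

/-- primes between `P` and `2 P` -/
def pr2 (P : ℕ) : Finset ℕ := (Ioc P (2 * P)).filter Nat.Prime

/-- primes between `P` and `2 P` that are one modulo `a` -/
def pq (a P : ℕ) : Finset ℕ := (Ioc P (2 * P)).filter fun q => q.Prime ∧ q ≡ 1 [MOD a]

/-- the shift attached to a prime -/
def eh (a q : ℕ) : ℕ := (q - 1) / a + 1

/-- the pair of parities -/
def xi (a c n : ℕ) : BB := (par n, par (a * n + (a - 1) * c))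

/-- disagreements at the shift of `q` -/
def dis (a c P : ℕ) (x : ℕ → BB) (q : ℕ) : ℕ :=
  ((range (8 * c * P)).filter fun j => (x (j + c * eh a q)).1 ≠ (x j).2).card

/-- disagreements at the shift of `q` on multiples of `q` -/
def fd (a c P : ℕ) (x : ℕ → BB) (q y : ℕ) : ℕ :=
  ((range (8 * c * P)).filter fun j =>
    q ∣ y + j + c * eh a q ∧ (x (j + c * eh a q)).1 ≠ (x j).2).card

/-- many disagreements on average, few on the multiples -/
def Gd (a c P : ℕ) (w : ℝ) (C : Finset ℕ) (x : ℕ → BB) (y : ℕ) : Prop :=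
  2 * w ≤ ∑ q ∈ C, (dis a c P x q : ℝ) / q ∧ ∑ q ∈ C, (fd a c P x q y : ℝ) ≤ w

open Classical in
/-- the primes that move block `b` into `V` -/
def cb (V : ℕ → Prop) (a P L b : ℕ) : Finset ℕ :=
  (pq a P).filter fun q => ∀ n, b * L ≤ n → n < (b + 2) * L → V (n / q)

/-- the cyclic sequence of block `b` -/
def cy (a c L b n : ℕ) : BB := xi a c (b * L + n % L)

/-- number of sign changes at step `g` -/
def chg (c P g : ℕ) (x : ℕ → Bool) : ℕ :=
  ((Ico (4 * c * P) (6 * c * P)).filter fun i => x i ≠ x (i + g)).card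

/-- the set `V` lies in `(c, Z]` and has small boundary -/
structure Loc (V : ℕ → Prop) (c Z : ℕ) (B : ℝ) : Prop where
  lo : ∀ m, V m → c < m
  hi : ∀ m, V m → m ≤ Z
  bd : ∀ Y, lm Y (fun m => ¬ (V m ↔ V (m + 1))) ≤ B

/-- the exceptional elements of `V` -/
def Er (V : ℕ → Prop) (a c m : ℕ) : Prop := V m ∧ par m ≠ par (a * m - c)

/-- frequency of the good positions in block `b` -/
def tb (V : ℕ → Prop) (a c P L : ℕ) (η : ℝ) (b : ℕ) : ℝ :=
  fq L fun n => Gd a c P (η * (pq a P).card) (cb V a P L b) (fun i => cy a c L b (n + i)) n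

/-! ### The windows -/

/-- number of pairs whose product of signs differs from `τ` -/
def dd (τ : Bool) (N : ℕ) : ℕ :=
  ((Icc 2 (2 * N)).filter fun k => (par (N ^ 2 + k + 1) == par ((N + 1) ^ 2 - k)) ≠ τ).card

/-- rigid windows, indexed by `u = 2 N + 1` -/
def Rig (τ : Bool) (ε : ℝ) (u : ℕ) : Prop := Odd u ∧ (dd τ (u / 2) : ℝ) ≤ ε * (u / 2 : ℕ)

/-- central part of a window -/
def iu (k u : ℕ) : Finset ℕ :=
  (range (u ^ 2 + 1)).filter fun m => k * (4 * m) ≤ k * u ^ 2 + u ∧ k * u ^ 2 ≤ k * (4 * m) + u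

/-- union of central parts -/
def Vu (k Y : ℕ) (g : ℕ → Prop) (m : ℕ) : Prop :=
  ∃ u, 20 * k ^ 2 ≤ u ∧ u ≤ Y ∧ g u ∧ m ∈ iu k u

/-- number of pairs with given parities -/
def cnt (N s t : ℕ) : ℕ :=
  ((Icc 2 (2 * N)).filter fun k =>
    cardFactors (N ^ 2 + k + 1) % 2 = s ∧ cardFactors ((N + 1) ^ 2 - k) % 2 = t).card

end

end Pool.Agent.P.PAR
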