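import Pool.Agent.P.MP_e94e4b_nt.PAR.IfM

/-! Statements of the steps, part E: the coding argument and the windows. -/

namespace Pool.Agent.P.PAR

open Finset Real Filter Topology MeasureTheory
open Pool.Agent.P.MP_8be758_nt.Avg (gs nsq)
open Pool.Agent.P.MP_e94e4b_nt.PF (sgm)
open Pool.Agent.P.E2
open ArithmeticFunction (cardFactors vonMangoldt)

/-! ### The coding argument -/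

open Classical in
-- deps:
def L_ED0 : Prop := ∀ (H Q : ℕ) (γ : ℝ) (ν : (Fin H → BB) → ℝ) (G : (Fin H → BB) → ℕ → Prop),
  0 < Q → (∀ x, 0 < ν x) → ∑ x, ν x ≤ 1 → (∀ x y, G x (y + Q) ↔ G x y) →
  (∀ x, (((range Q).filter (G x)).card : ℝ) ≤ Real.exp (-γ) * Q) →
  ∃ (μ : ℕ → (Fin H → BB) → ℝ) (z : ℕ → ℝ), (∀ y x, 0 < μ y x) ∧ (∀ y, ∑ x, μ y x ≤ 1) ∧
    (∀ y, μ (y + Q) = μ y) ∧ (∀ y, z (y + Q) = z y) ∧ ∑ y ∈ range Q, z y ≤ Q * Real.log 2 ∧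
    ∀ y x, -Real.log (μ y x) ≤ -Real.log (ν x) - (if G x y then γ else 0) + z y

open Classical in
-- deps: L_ED0
def L_ED1 : Prop := ∀ (ξ : ℕ → BB) (L H k H' Q : ℕ) (γ : ℝ) (ν : (Fin H → BB) → ℝ)
  (G : (Fin H → BB) → ℕ → Prop), 0 < L → (∀ n, ξ (n + L) = ξ n) → H' = k * H → 0 < Q → Q ∣ L →
  (∀ x, 0 < ν x) → ∑ x, ν x ≤ 1 → (∀ x y, G x (y + Q) ↔ G x y) →
  (∀ x, (((range Q).filter (G x)).card : ℝ) ≤ Real.exp (-γ) * Q) →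
  ∃ ν' : (Fin H' → BB) → ℝ, (∀ x, 0 < ν' x) ∧ ∑ x, ν' x ≤ 1 ∧
    cost L ξ ν' ≤ Real.log Q +
      k * (cost L ξ ν - γ * fq L (fun n => G (fun i => ξ (n + i)) n) + Real.log 2)

open Classical in
-- deps: L_ED1
def L_ED : Prop := ∀ (ξ : ℕ → BB) (L J : ℕ) (H k Q : ℕ → ℕ) (γ : ℕ → ℝ)
  (G : ℕ → (ℕ → BB) → ℕ → Prop), 0 < L → (∀ n, ξ (n + L) = ξ n) → 1 ≤ H 0 →
  (∀ j < J, 1 ≤ k j ∧ H (j + 1) = k j * H j ∧ 0 < Q j ∧ Q j ∣ L ∧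
    (∀ x x' y, (∀ i < H j, x i = x' i) → G j x y → G j x' y) ∧
    (∀ x y, G j x (y + Q j) ↔ G j x y) ∧
    ∀ x, (((range (Q j)).filter (G j x)).card : ℝ) ≤ Real.exp (-γ j) * Q j) →
  ∑ j ∈ range J, ((γ j * fq L (fun n => G j (fun i => ξ (n + i)) n) - Real.log 2) / H j -
    Real.log (Q j) / H (j + 1)) ≤ Real.log 4

-- deps:
def L_CRT : Prop := ∀ (S : Finset ℕ) (g : ℕ → ℕ → ℝ), (∀ q ∈ S, q.Prime) →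
  (∀ q ∈ S, ∀ y, g q (y + q) = g q y) →
  ∑ y ∈ range (∏ q ∈ S, q), ∏ q ∈ S, g q y = ∏ q ∈ S, ∑ y ∈ range q, g q y

-- deps: L_CRT
def L_CHER : Prop := ∀ (S : Finset ℕ) (f : ℕ → ℕ → ℝ) (R w : ℝ), (∀ q ∈ S, q.Prime) → 0 < R →
  0 ≤ w → (∀ q ∈ S, ∀ y, f q (y + q) = f q y ∧ 0 ≤ f q y ∧ f q y ≤ R) →
  2 * w ≤ ∑ q ∈ S, (∑ y ∈ range q, f q y) / q →
  (((range (∏ q ∈ S, q)).filter fun y => ∑ q ∈ S, f q y ≤ w).card : ℝ) ≤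
    Real.exp (-(w / (4 * R))) * (∏ q ∈ S, q : ℕ)

open Classical in
-- deps: L_CHER
def L_GDC : Prop := ∀ (a c P : ℕ) (w : ℝ) (C : Finset ℕ), 1 ≤ c → 0 ≤ w → C ⊆ pq a P →
  (∀ x x' y, (∀ i < 16 * c * P, x i = x' i) → Gd a c P w C x y → Gd a c P w C x' y) ∧
  (∀ x y, Gd a c P w C x (y + ∏ q ∈ pq a P, q) ↔ Gd a c P w C x y) ∧
  ∀ x, (((range (∏ q ∈ pq a P, q)).filter (Gd a c P w C x)).card : ℝ) ≤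
    Real.exp (-(w / (36 * c))) * (∏ q ∈ pq a P, q : ℕ)

/-! ### Sums of two primes -/

-- deps: S_PNT
def L_PQC : Prop := (∀ a P : ℕ, Real.log (∏ q ∈ pq a P, q : ℕ) ≤ 3 * P) ∧
  ∀ a : ℕ, 1 ≤ a → ∀ᶠ P : ℕ in atTop, P / (2 * a * Real.log P) ≤ (pq a P).card

-- deps:
def L_SGM : Prop := ∃ C : ℝ, 0 < C ∧ ∀ Y : ℕ, ∑ M ∈ Icc 1 Y, sgm M ^ 2 ≤ C * Y

-- deps: S_SV L_SGM
def L_EN : Prop := ∃ C : ℝ, 0 < C ∧ ∀ᶠ P : ℕ in atTop,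
  ∑ s ∈ range (4 * P + 1), (((pr2 P ×ˢ pr2 P).filter fun x => x.1 + x.2 = s).card : ℝ) ^ 2 ≤
    C * P ^ 3 / Real.log P ^ 4

-- deps: L_PQC L_EN
def L_SUMS : Prop := ∀ (a : ℕ) (β : ℝ), 1 ≤ a → 0 < β → ∃ D : ℕ, 1 ≤ D ∧ ∀ᶠ P : ℕ in atTop,
  ∀ C ⊆ pq a P, β * (pq a P).card ≤ C.card → ∃ q1 ∈ C, ∃ q2 ∈ C, ∃ q3 ∈ C, ∃ q4 ∈ C, ∃ d : ℕ,
    1 ≤ d ∧ d ≤ D ∧ eh a q2 + eh a q4 = eh a q1 + eh a q3 + d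

-- deps:
def L_CHN : Prop := ∀ (a c P q1 q2 q3 q4 d : ℕ) (x : ℕ → BB), eh a q1 ≤ 2 * P → eh a q2 ≤ 2 * P →
  eh a q3 ≤ 2 * P → eh a q2 + eh a q4 = eh a q1 + eh a q3 + d →
  chg c P (c * d) (fun i => (x i).1) ≤
    dis a c P x q1 + dis a c P x q2 + dis a c P x q3 + dis a c P x q4

-- deps: L_SUMS L_CHN
def L_RUN : Prop := ∀ (a : ℕ) (β : ℝ), 1 ≤ a → 0 < β → ∃ D : ℕ, 1 ≤ D ∧ ∀ᶠ P : ℕ in atTop,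
  ∀ (c : ℕ) (η : ℝ) (C : Finset ℕ) (x : ℕ → BB), 0 < η → C ⊆ pq a P →
    β * (pq a P).card ≤ C.card → ∑ q ∈ C, (dis a c P x q : ℝ) / q < 2 * (η * (pq a P).card) →
    ∃ d : ℕ, 1 ≤ d ∧ d ≤ D ∧ (chg c P (c * d) (fun i => (x i).1) : ℝ) ≤ 32 * η / β * P

-- deps:
def L_RN1 : Prop := ∀ (c P D d h n : ℕ), 1 ≤ c → 1 ≤ d → d ≤ D → 1 ≤ h → 4 * D ≤ P →
  (h + 1) * D ≤ P → (chg c P (c * d) (fun i => par (n + i)) : ℝ) ≤ 1 / (4 * (h + 1) * D) * P →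
  (P : ℝ) * h ≤ 2 * D *
    ∑ i ∈ (range (5 * c * P)).filter (fun i => c * d ∣ n + i), |sh h ((n + i) / (c * d))|

-- deps: L_MRL L_RN1
def L_RUNL : Prop := ∀ (c D : ℕ) (ζ : ℝ), 1 ≤ c → 1 ≤ D → 0 < ζ → ∃ η : ℝ, 0 < η ∧
  ∀ᶠ P : ℕ in atTop, ∀ᶠ Z : ℕ in atTop,
    lm Z (fun n => ∃ d : ℕ, 1 ≤ d ∧ d ≤ D ∧
      (chg c P (c * d) (fun i => par (n + i)) : ℝ) ≤ η * P) ≤ ζ * Real.log Z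

/-! ### Blocks -/

-- deps:
def L_BK1 : Prop := ∀ (V : ℕ → Prop) (c Z q L : ℕ) (B : ℝ), Loc V c Z B → 1 ≤ q → q ≤ L →
  lm Z V / 2 - (1 + Real.log L) - 9 * L * B ≤
    lm Z fun b => ∀ n, b * L ≤ n → n < (b + 2) * L → V (n / q)

-- deps: L_BK1
def L_BK2 : Prop := ∀ (δ B : ℝ) (L : ℕ), 0 < δ → ∀ᶠ Z : ℕ in atTop,
  ∀ (V : ℕ → Prop) (a c P : ℕ), Loc V c Z B → 2 * P ≤ L → 0 < (pq a P).card →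
    δ * Real.log Z ≤ lm Z V →
    δ / 4 * Real.log Z ≤ lm Z fun b => δ / 8 * (pq a P).card ≤ (cb V a P L b).card

-- deps:
def L_ERR : Prop := ∀ (V : ℕ → Prop) (a c P L Z Y : ℕ) (B : ℝ), Loc V c Z B → 1 ≤ a → 1 ≤ c →
  1 ≤ P → 16 * c * P ≤ L →
  ∑ b ∈ Icc 1 Y, ∑ i ∈ range L, 1 / ((b : ℝ) * L) *
      ∑ q ∈ cb V a P L b, (fd a c P (fun j => xi a c (b * L + i + j)) q (b * L + i) : ℝ) ≤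
    32 * c * (pq a P).card * lm Z (Er V a c)

open Classical in
-- deps: L_GDC
def L_TB : Prop := ∀ (V : ℕ → Prop) (a c P L b : ℕ) (η : ℝ) (R : ℕ → Prop), 1 ≤ c → 1 ≤ P →
  0 < η → 0 < (pq a P).card → 32 * c * P ≤ L → (∀ q ∈ pq a P, q ∣ L) →
  (∀ n, ∑ q ∈ cb V a P L b, (dis a c P (fun j => xi a c (n + j)) q : ℝ) / q <
    2 * (η * (pq a P).card) → R n) →
  1 / 2 - fq L (fun i => R (b * L + i)) -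
    (∑ i ∈ range L, ∑ q ∈ cb V a P L b,
      (fd a c P (fun j => xi a c (b * L + i + j)) q (b * L + i) : ℝ)) / (η * (pq a P).card * L) ≤
    tb V a c P L η b

-- deps:
def L_BS : Prop := ∀ (R : ℕ → Prop) (L Z : ℕ), 1 ≤ L →
  ∑ b ∈ Icc 1 Z, 1 / (b : ℝ) * fq L (fun i => R (b * L + i)) ≤ 2 * lm ((Z + 1) * L) R

-- deps: L_PQC L_RUN L_RUNL L_BK2 L_ERR L_TB L_BS
def L_TH : Prop := ∀ (a c : ℕ) (δ : ℝ), 1 ≤ a → 1 ≤ c → 0 < δ → ∃ η ε : ℝ, 0 < η ∧ 0 < ε ∧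
  ∀ᶠ P : ℕ in atTop, ∀ (L : ℕ) (B : ℝ), 32 * c * P ≤ L → (∀ q ∈ pq a P, q ∣ L) →
    ∀ᶠ Z : ℕ in atTop, ∀ V : ℕ → Prop, Loc V c Z B → δ * Real.log Z ≤ lm Z V →
      lm Z (Er V a c) ≤ ε * Real.log Z →
      δ / 16 * Real.log Z ≤ ∑ b ∈ Icc 1 Z, 1 / (b : ℝ) * tb V a c P L η b

-- deps:
def L_LAD : Prop := ∀ (κ T : ℝ) (P0 : ℕ), 0 < κ → ∃ (J : ℕ) (P k : ℕ → ℕ),
  (∀ j, P0 ≤ P j ∧ 2 ≤ P j ∧ 1 ≤ k j ∧ P (j + 1) = k j * P j ∧ Real.log (P j) ≤ κ * k j) ∧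
  T ≤ ∑ j ∈ range J, 1 / Real.log (P j)

-- deps: L_ED L_GDC L_PQC
def L_EB : Prop := ∀ (V : ℕ → Prop) (a c L b J : ℕ) (η : ℝ) (P k : ℕ → ℕ), 1 ≤ a → 1 ≤ c → 0 < L →
  0 < η → 1 ≤ P 0 →
  (∀ j < J, 2 ≤ P j ∧ 1 ≤ k j ∧ P (j + 1) = k j * P j ∧ (∏ q ∈ pq a (P j), q) ∣ L ∧
    P j / (2 * a * Real.log (P j)) ≤ (pq a (P j)).card) →
  ∑ j ∈ range J, (η / (1152 * a * c ^ 2) / Real.log (P j) * tb V a c (P j) L η b -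
    1 / P j - 1 / k j) ≤ Real.log 4

-- deps: L_PQC L_TH L_LAD L_EB
def L_LOC : Prop := ∀ (a c : ℕ) (δ : ℝ), 1 ≤ a → 1 ≤ c → 0 < δ → ∃ ε : ℝ, 0 < ε ∧ ∀ B : ℝ,
  ∀ᶠ Z : ℕ in atTop, ∀ V : ℕ → Prop, Loc V c Z B → δ * Real.log Z ≤ lm Z V →
    ε * Real.log Z < lm Z (Er V a c)

/-! ### Recurrence -/

-- deps: L_TK
def L_TKL : Prop := ∀ S : Finset ℕ, (∀ p ∈ S, p.Prime) → ∃ C : ℝ, ∀ Y : ℕ,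
  ∑ m ∈ Icc 1 Y, (om S m - rs S) ^ 2 / m ≤ 2 * rs S * Real.log Y + C

-- deps: L_TKL
def L_TK1 : Prop := ∀ η : ℝ, 0 < η → ∃ y : ℕ, ∀ᶠ Y : ℕ in atTop, ∀ g : ℕ → Prop,
  ∃ p : ℕ, Odd p ∧ 3 ≤ p ∧ p ≤ y ∧ lm Y g - η * Real.log Y ≤ lm Y fun n => g (p * n)

-- deps:
def L_PIG : Prop := ∀ (Y r : ℕ) (A : ℕ → ℕ → Prop) (m : ℝ),
  (∀ i < r, ∀ j < r, i < j → lm Y (fun n => A i n ∧ A j n) ≤ m) → 0 ≤ m →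
  ∑ i ∈ range r, lm Y (A i) ≤ 1 + Real.log Y + r ^ 2 * m

-- deps: L_TK1 L_PIG
def L_REC : Prop := ∀ δ : ℝ, 0 < δ → ∃ (K : ℕ) (δ1 : ℝ), 0 < δ1 ∧ ∀ᶠ Y : ℕ in atTop,
  ∀ g : ℕ → Prop, δ * Real.log Y ≤ lm Y g →
    ∃ k : ℕ, Odd k ∧ 3 ≤ k ∧ k ≤ K ∧ δ1 * Real.log Y ≤ lm Y fun u => g u ∧ g (k * u)

/-! ### Concentric windows -/

-- deps:
def L_CW1 : Prop := ∀ (k c u : ℕ) (τ : Bool), Odd k → 3 ≤ k → 2 * c + 3 = 3 * k ^ 2 → Odd u →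
  20 * k ^ 2 ≤ u →
  ((iu k u).filter fun m => par m ≠ par (k ^ 2 * m - c)).card ≤ dd τ (u / 2) + dd τ (k * u / 2)

-- deps:
def L_CW2 : Prop := ∀ k u : ℕ, 3 ≤ k → 20 * k ^ 2 ≤ u →
  (u : ℝ) / (4 * k) ≤ (iu k u).card ∧
  (∀ m ∈ iu k u, u ^ 2 ≤ 8 * m ∧ 2 * m ≤ u ^ 2 ∧ 2 * k ^ 2 < m) ∧
  (∀ u', u < u' → Disjoint (iu k u) (iu k u')) ∧
  ∃ A B : ℕ, u ^ 2 ≤ 8 * A ∧ A ≤ B ∧ iu k u = Ioc A B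

-- deps: L_CW2
def L_CW3 : Prop := ∀ (k c Y : ℕ) (g : ℕ → Prop), 3 ≤ k → 2 * c + 3 = 3 * k ^ 2 →
  Loc (Vu k Y g) c (Y ^ 2) 32

-- deps: L_CW2
def L_CW4 : Prop := ∀ (k Y : ℕ) (g : ℕ → Prop), 3 ≤ k →
  (lm Y g - (1 + Real.log (20 * k ^ 2))) / (2 * k) ≤ lm (Y ^ 2) (Vu k Y g)

-- deps: L_CW1 L_CW2
def L_CW5 : Prop := ∀ (k c Y : ℕ) (τ : Bool) (ε : ℝ), Odd k → 3 ≤ k → 2 * c + 3 = 3 * k ^ 2 →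
  0 ≤ ε → lm (Y ^ 2) (Er (Vu k Y fun u => Rig τ ε u ∧ Rig τ ε (k * u)) (k ^ 2) c) ≤
    8 * ε * k * (1 + Real.log Y)

-- deps: L_LOC L_REC L_CW3 L_CW4 L_CW5
def L_RG0 : Prop := ∀ δ : ℝ, 0 < δ → ∃ ε : ℝ, 0 < ε ∧ ∀ᶠ Y : ℕ in atTop, ∀ τ : Bool,
  lm Y (Rig τ ε) ≤ δ * Real.log Y

-- deps: L_RG0
def L_RIG : Prop := ∀ δ : ℝ, 0 < δ → ∃ ε : ℝ, 0 < ε ∧ ∀ᶠ Y : ℕ in atTop, ∀ τ : Bool,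
  lm Y (fun N => (dd τ N : ℝ) ≤ ε * N) ≤ δ * Real.log Y

-- deps: L_MRL
def L_MEAN : Prop := ∀ ε δ : ℝ, 0 < ε → 0 < δ → ∀ᶠ Y : ℕ in atTop,
  lm Y (fun N => ε * N ≤ |∑ n ∈ Ioc (N ^ 2) ((N + 1) ^ 2), lam n|) ≤ δ * Real.log Y

-- deps:
def L_CNT : Prop := ∀ N s t : ℕ, 1 ≤ N → s < 2 → t < 2 →
  2 * (dd (decide (s ≠ t)) N : ℝ) - 2 * |∑ n ∈ Ioc (N ^ 2) ((N + 1) ^ 2), lam n| - 4 ≤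
    4 * cnt N s t

-- deps: L_RIG L_MEAN L_CNT
def L_FIN : Prop := ∀ δ : ℝ, 0 < δ → ∃ ε : ℝ, 0 < ε ∧ ∀ᶠ Y : ℕ in atTop,
  lm Y (fun N => ∃ s < 2, ∃ t < 2, (cnt N s t : ℝ) < ε * N) ≤ δ * Real.log Y

end Pool.Agent.P.PAR
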