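import Pool.Agent.P.MP_e94e4b_nt.PAR.Basic

/-! Statements of the steps, part M: the Liouville function in short intervals. -/

namespace Pool.Agent.P.PAR

open Finset Real Filter Topology MeasureTheory
open Pool.Agent.P.MP_8be758_nt.Avg (gs nsq)
open Pool.Agent.P.E2
open ArithmeticFunction (cardFactors vonMangoldt)

abbrev S_MR1 : Prop := MP_e94e4b_nt.PF.S_MR1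
abbrev S_SV : Prop := MP_e94e4b_nt.PF.S_SV

/-! ### Mean value of the Liouville function -/

-- deps:
def L_LZ : Prop := ∀ s : ℂ, 1 < s.re → LSeries lc s * riemannZeta s = riemannZeta (2 * s)

-- deps: L_LZ
def L_LX : Prop := ∀ ε : ℝ, 0 < ε → ∀ᶠ N : ℕ in atTop, |∑ n ∈ Icc 1 N, lam n| ≤ ε * N

-- deps: L_LX
def L_SMT : Prop := ∀ T ε : ℝ, 0 < ε → ∀ᶠ X : ℕ in atTop, ∀ t : ℝ, |t| ≤ T → ‖FF X t‖ ≤ ε * X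

/-! ### Prime sums -/

-- deps: S_CS
def L_CSN : Prop := ∀ᶠ r : ℝ in atTop, ∀ (G : ℂ → ℂ) (w v : ℝ), Real.exp (-(8 * r)) ≤ w →
  w ≤ Real.exp (-(2 * r)) → 20 * r ^ 12 ≤ v → v ≤ 2 * r ^ 13 →
  (∀ s : ℂ, 1 - 1 / r ^ 11 ≤ s.re → s.re ≤ 1 + 1 / r ^ 11 → |s.im| ≤ 4 * π * r ^ 7 / w →
    DifferentiableAt ℂ G s ∧ ‖G s‖ ≤ Real.exp (2 * r)) →
  (∀ s : ℂ, s.re = 1 + 1 / r ^ 11 → ContinuousAt G s ∧ ‖G s‖ ≤ Real.exp (2 * r)) →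
  ‖∫ u : ℝ, G (pt (1 + 1 / r ^ 11) u) * km w v (pt (1 + 1 / r ^ 11) u)‖ ≤ Real.exp (v - 9 * r)

-- deps: S_LB S_ZL1 S_ZL2 S_LD S_HF S_MEL L_CSN
def L_PB : Prop := ∀ᶠ r : ℝ in atTop, ∀ w v t : ℝ, Real.exp (-(8 * r)) ≤ w →
  w ≤ Real.exp (-(2 * r)) → 20 * r ^ 12 ≤ v → v ≤ 2 * r ^ 13 → |t| ≤ Real.exp (3 * r ^ 13) →
  ‖∑' n : ℕ, ((vonMangoldt n - on n : ℝ) : ℂ) * nit t n * (gk w (Real.log n - v) : ℂ)‖ ≤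
    Real.exp (v - 9 * r)

-- deps: S_TAIL S_WIN1
def L_WIN : Prop := ∀ᶠ r : ℝ in atTop, ∀ (b : ℕ → ℝ) (M N : ℕ),
  (∀ n, 0 ≤ b n ∧ b n ≤ n ∧ b n ≤ 1 + Real.log n) → Real.exp (20 * r ^ 12) ≤ M → M ≤ N →
  N ≤ 2 * M → (N : ℝ) ≤ Real.exp (2 * r ^ 13) →
  Summable (fun n : ℕ => b n *
    |win (Real.exp (-(3 * r))) (Real.log M) (Real.log N) (Real.log n) -
      if n ∈ Ioc M N then 1 else 0|) ∧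
  ∑' n : ℕ, b n * |win (Real.exp (-(3 * r))) (Real.log M) (Real.log N) (Real.log n) -
      if n ∈ Ioc M N then 1 else 0| ≤ M * Real.exp (-(2 * r))

-- deps: S_SWP L_PB L_WIN
def L_SH : Prop := ∀ᶠ r : ℝ in atTop, ∀ (M N : ℕ) (t : ℝ), Real.exp (20 * r ^ 12) ≤ M → M ≤ N →
  N ≤ 2 * M → (N : ℝ) ≤ Real.exp (2 * r ^ 13) → |t| ≤ Real.exp (3 * r ^ 13) →
  ‖dq (Ioc M N) (fun n => ((vonMangoldt n - on n : ℝ) : ℂ)) t‖ ≤ M * Real.exp (-r)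

-- deps: S_VB S_EL
def L_INT : Prop := ∀ᶠ r : ℝ in atTop, ∀ (M N : ℕ) (t : ℝ), Real.exp (20 * r ^ 12) ≤ M → M ≤ N →
  N ≤ 2 * M → |t| ≤ Real.exp (3 * r ^ 13) →
  ‖dq (Ioc M N) (fun _ => 1) t‖ ≤ M * (5 / (1 + |t|) + Real.exp (-r))

-- deps: S_PW L_SH L_INT
def L_PQ : Prop := ∀ᶠ r : ℝ in atTop, ∀ (M N : ℕ) (t : ℝ), Real.exp (20 * r ^ 12) ≤ M → M ≤ N →
  N ≤ 2 * M → (N : ℝ) ≤ Real.exp (2 * r ^ 13) → |t| ≤ Real.exp (3 * r ^ 13) →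
  ‖dq ((Ioc M N).filter Nat.Prime) (fun _ => 1) t‖ ≤
    2 * M / Real.log M * (5 / (1 + |t|) + 3 * Real.exp (-r))

/-! ### The decomposition -/

-- deps:
def L_TK : Prop := ∀ (S : Finset ℕ) (A B : ℕ), (∀ p ∈ S, p.Prime) → A ≤ B →
  ∑ n ∈ Ioc A B, (om S n - rs S) ^ 2 ≤ ((B : ℝ) - A) * rs S + 3 * (S.card : ℝ) ^ 2

-- deps:
def L_DI : Prop := ∀ (X V : ℕ) (P δ t : ℝ), 1 ≤ P → 0 ≤ δ → δ ≤ 1 →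
  bl X P δ V t = -dq (Icc 1 (16 * X)) (fun n => lc n * (ot X P δ V n : ℂ)) t

-- deps:
def L_OT : Prop := ∀ (X V n : ℕ) (P δ : ℝ), 1 ≤ P → 0 ≤ δ →
  0 ≤ ot X P δ V n ∧ ot X P δ V n ≤ om (pa P δ V) n ∧
  ((1 + δ) * X < n → n ≤ 8 * X → ot X P δ V n = om (pa P δ V) n) ∧
  (n ≤ X ∨ 8 * (1 + δ) * X < n → ot X P δ V n = 0)

-- deps: L_TK L_OT
def L_DN : Prop := ∀ (X V : ℕ) (P δ : ℝ), 2 ≤ P → 0 ≤ δ → δ ≤ 1 → 1 ≤ rs (pa P δ V) →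
  yy P δ V ^ 2 ≤ δ * X →
  ∑ n ∈ Icc 1 (16 * X), ((if n ∈ Ioc X (8 * X) then rs (pa P δ V) else 0) - ot X P δ V n) ^ 2 ≤
    40 * X * (rs (pa P δ V) + δ * rs (pa P δ V) ^ 2)

-- deps: S_MV L_DI L_DN
def L_DEC : Prop := ∃ C : ℝ, 0 < C ∧ ∀ (X V : ℕ) (P δ Z : ℝ) (T : Set ℝ), 2 ≤ P → 0 ≤ δ → δ ≤ 1 →
  1 ≤ rs (pa P δ V) → yy P δ V ^ 2 ≤ δ * X → 1 ≤ Z → Z ≤ X → MeasurableSet T →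
  mq X Z T ≤ C * X ^ 2 * (1 / rs (pa P δ V) + δ) +
    2 / rs (pa P δ V) ^ 2 * ∫ t in T, gs (t / Z) * ‖bl X P δ V t‖ ^ 2

-- deps: S_MV
def L_RM : Prop := ∃ C : ℝ, 0 < C ∧ ∀ (X v : ℕ) (P δ Z : ℝ), 1 ≤ P → 0 ≤ δ → 1 ≤ Z →
  Z * yy P δ v ≤ X → ∫ t : ℝ, gs (t / Z) * ‖rv X P δ v t‖ ^ 2 ≤ C * (X / yy P δ v) ^ 2

/-! ### Moments -/

-- deps:
def L_W2 : Prop := ∀ (S : Finset ℕ) (x : ℕ), (∀ p ∈ S, p.Prime) →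
  ∑ n ∈ Icc 1 x, (2 : ℝ) ^ (S.filter (· ∣ n)).card ≤ x * Real.exp (rs S)

-- deps:
def L_CV : Prop := ∀ (S I : Finset ℕ) (b : ℕ → ℂ) (Y N l : ℕ), (∀ p ∈ S, 1 ≤ p ∧ p ≤ Y) →
  I ⊆ Icc 1 N → (∀ n, ‖b n‖ ≤ 1) → ∃ c : ℕ → ℂ, (∀ n, ‖c n‖ ≤ om S n ^ l) ∧
    ∀ t : ℝ, dq S (fun _ => 1) t ^ l * dq I b t = dq (Icc 1 (Y ^ l * N)) c t

-- deps: S_MV L_W2 L_CV
def L_MOM : Prop := ∃ C : ℝ, 0 < C ∧ ∀ (S I : Finset ℕ) (b : ℕ → ℂ) (Y N l : ℕ) (Z : ℝ),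
  (∀ p ∈ S, p.Prime ∧ p ≤ Y) → rs S ≤ 1 → I ⊆ Icc 1 N → (∀ n, ‖b n‖ ≤ 1) → 1 ≤ l → 1 ≤ Z →
  ∫ t : ℝ, gs (t / Z) * (‖dq S (fun _ => 1) t‖ ^ (2 * l) * ‖dq I b t‖ ^ 2) ≤
    C * (Z + (Y : ℝ) ^ l * N) * ((Y : ℝ) ^ l * N) * (3 * l : ℝ) ^ (2 * l)

/-! ### The stages -/

-- deps: S_MR1
def L_SG : Prop := ∀ᶠ ρ : ℝ in atTop, Sg ρ

-- deps: L_DEC L_RM L_SG
def L_ST1 : Prop := ∃ C : ℝ, 0 < C ∧ ∀ α0 : ℝ, 0 < α0 → ∀ᶠ ρ : ℝ in atTop,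
  ∀ (α Z : ℝ) (X : ℕ), α0 ≤ α → Real.exp (5 * ρ ^ 12) ≤ X → 1 ≤ Z →
    Z * Real.exp (2 * ρ ^ 12) ≤ X → mq X Z (bad ρ α)ᶜ ≤ C * X ^ 2 / Real.log ρ

-- deps: L_MOM
def L_T2 : Prop := ∃ C : ℝ, 0 < C ∧ ∀ (ρ α Z : ℝ) (X u v : ℕ), Sg ρ → Sg (nx ρ) → 0 ≤ α →
  α ≤ 1 / 2 → 1 ≤ Z → Z ≤ X → u < sV ρ → v < sV (nx ρ) →
  ∫ t in {t : ℝ | yy (sP ρ) (sd ρ) u ^ (1 - α) < ‖qv (sP ρ) (sd ρ) u t‖ ∧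
      ‖qv (sP (nx ρ)) (sd (nx ρ)) v t‖ ≤ yy (sP (nx ρ)) (sd (nx ρ)) v ^ (1 - (α + 1 / ρ ^ 3))},
    gs (t / Z) * ‖qv (sP (nx ρ)) (sd (nx ρ)) v t * rv X (sP (nx ρ)) (sd (nx ρ)) v t‖ ^ 2 ≤
    C * X ^ 2 * Real.exp (2 * ρ ^ 12 - Real.exp (ρ ^ 2) / ρ ^ 3)

-- deps: L_DEC L_SG L_T2
def L_ST2 : Prop := ∃ C : ℝ, 0 < C ∧ ∀ᶠ ρ : ℝ in atTop, ∀ (α Z : ℝ) (X : ℕ), 0 ≤ α → α ≤ 1 / 2 →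
  Real.exp (5 * nx ρ ^ 12) ≤ X → 1 ≤ Z → Z ≤ X →
  mq X Z (bad ρ α \ bad (nx ρ) (α + 1 / ρ ^ 3)) ≤ C * X ^ 2 / Real.log (nx ρ)

-- deps:
def L_LD1 : Prop := ∀ (ρ : ℝ) (b : ℕ), 12 ≤ ρ →
  (∀ J : ℕ, ∑ j ∈ range J, 1 / (nx^[j] ρ) ^ 3 ≤ 2 / ρ ^ 3 ∧
    ∑ j ∈ range J, 1 / Real.log (nx^[j + 1] ρ) ≤ 12 / ρ ^ 2) ∧
  Monotone (fun j : ℕ => nx^[j] ρ) ∧
  ∀ᶠ r : ℝ in atTop, ∃ J : ℕ, b * Real.log r ≤ (nx^[J] ρ) ^ 6 ∧ 2 * (nx^[J] ρ) ^ 12 ≤ r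

-- deps: L_SG L_ST1 L_ST2 L_LD1
def L_CH : Prop := ∀ (α ε : ℝ) (b : ℕ), 0 < α → 0 < ε → ∃ h0 : ℝ, 1 ≤ h0 ∧ ∀ᶠ r : ℝ in atTop,
  ∀ X : ℕ, (X : ℝ) = XX r → ∃ ρ α' : ℝ, Sg ρ ∧ b * Real.log r ≤ ρ ^ 6 ∧ 2 * ρ ^ 12 ≤ r ∧ α' ≤ α ∧
    mq X (X / h0) (bad ρ α')ᶜ ≤ ε * X ^ 2

-- deps: S_UM
def L_BM : Prop := ∀ κ : ℝ, 0 < κ → ∃ (α : ℝ) (b : ℕ), 0 < α ∧ ∀ᶠ r : ℝ in atTop, ∀ ρ α' : ℝ,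
  Sg ρ → b * Real.log r ≤ ρ ^ 6 → 2 * ρ ^ 12 ≤ r → α' ≤ α →
  Us (Real.exp (4 * r)) (Real.exp (2 * r ^ 13)) (Real.exp (κ * r ^ 13))
    (bad ρ α' ∩ {t | Real.exp (4 * r) ≤ |t| ∧ |t| ≤ Real.exp (2 * r ^ 13)})

-- deps: S_PNT S_MR1
def L_LG : Prop := ∀ δ A : ℝ, 0 < δ → δ ≤ 1 / 2 → ∀ᶠ r : ℝ in atTop, Lg r δ A

-- deps:
def L_BW : Prop := ∀ (X V : ℕ) (P δ Z η K : ℝ) (T : Set ℝ), 2 ≤ P → 0 ≤ δ → 0 < Z → 0 ≤ η →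
  0 ≤ K → MeasurableSet T →
  (∀ v < V, ∀ t ∈ T, ‖qv P δ v t‖ ≤ η * (yy P δ v / Real.log (yy P δ v))) →
  (∀ v < V, ∫ t in T, gs (t / Z) * ‖rv X P δ v t‖ ^ 2 ≤ K * (X / yy P δ v) ^ 2) →
  ∫ t in T, gs (t / Z) * ‖bl X P δ V t‖ ^ 2 ≤
    (η * ∑ v ∈ range V, 1 / Real.log (yy P δ v)) ^ 2 * K * X ^ 2

-- deps: L_PQ L_DEC L_LG L_BW
def L_LS : Prop := ∀ ε : ℝ, 0 < ε → ∃ δ θ : ℝ, 0 < δ ∧ δ ≤ 1 / 2 ∧ 0 < θ ∧ ∀ᶠ r : ℝ in atTop,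
  Lg r δ 1 ∧ ∀ (X : ℕ) (Z T0 K : ℝ) (T : Set ℝ), (X : ℝ) = XX r → 1 ≤ Z → Z ≤ X → 0 ≤ T0 → 0 ≤ K →
    MeasurableSet T → (∀ t ∈ T, T0 ≤ |t| ∧ |t| ≤ Real.exp (2 * r ^ 13)) →
    (∀ v < lV r, ∫ t in T, gs (t / Z) * ‖rv X (lP r) δ v t‖ ^ 2 ≤ K * (X / yy (lP r) δ v) ^ 2) →
    (1 / (1 + T0) + Real.exp (-r)) ^ 2 * K ≤ θ → mq X Z T ≤ ε * X ^ 2

-- deps: L_RM L_LS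
def L_MID : Prop := ∀ ε : ℝ, 0 < ε → ∃ T1 : ℝ, ∀ᶠ r : ℝ in atTop, ∀ (X : ℕ) (Z : ℝ),
  (X : ℝ) = XX r → 1 ≤ Z → Z ≤ X →
  mq X Z {t | T1 ≤ |t| ∧ |t| ≤ Real.exp (4 * r)} ≤ ε * X ^ 2

-- deps: S_HB L_LS
def L_UU : Prop := ∃ κ : ℝ, 0 < κ ∧ ∀ ε : ℝ, 0 < ε → ∀ᶠ r : ℝ in atTop,
  ∀ (X : ℕ) (Z : ℝ) (U : Set ℝ), (X : ℝ) = XX r → 1 ≤ Z → Z ≤ X →
    Us (Real.exp (4 * r)) (Real.exp (2 * r ^ 13)) (Real.exp (κ * r ^ 13)) U →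
    mq X Z U ≤ ε * X ^ 2

-- deps: L_SMT L_CH L_BM L_MID L_UU
def L_FF : Prop := ∀ ε : ℝ, 0 < ε → ∃ h0 : ℝ, 1 ≤ h0 ∧ ∀ᶠ X : ℕ in atTop,
  mq X (X / h0) Set.univ ≤ ε * X ^ 2

/-! ### Back to short intervals -/

-- deps: S_WIN1
def L_SS : Prop := ∃ C : ℝ, 0 < C ∧ ∀ (X A B : ℕ) (h0 : ℝ) (b : ℕ → ℂ), 1 ≤ X → 1 ≤ h0 →
  X ≤ A → A ≤ B → B ≤ 8 * X → (∀ n, ‖b n‖ ≤ 1) →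
  ‖∑ n ∈ Ioc A B, b n - ∫ v in (Real.log A)..(Real.log B), Phi X (h0 / X) b v‖ ≤ C * h0

-- deps:
def L_OVL : Prop := ∀ (φ : ℝ → ℝ) (A B h : ℕ), Continuous φ → (∀ v, 0 ≤ φ v) → 1 ≤ A → A ≤ B →
  ∑ x ∈ Ioc A B, ∫ v in (Real.log x)..(Real.log (x + h : ℕ)), φ v ≤
    h * ∫ v in (Real.log A)..(Real.log (B + h : ℕ)), φ v

-- deps: S_PL L_FF L_SS L_OVL
def L_MRD : Prop := ∀ ε : ℝ, 0 < ε → ∃ h : ℕ, 1 ≤ h ∧ ∀ᶠ X : ℕ in atTop,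
  ∑ x ∈ Ioc (2 * X) (4 * X), |sh h x| ≤ ε * h * X

-- deps: L_MRD
def L_MRL : Prop := ∀ ε : ℝ, 0 < ε → ∃ h : ℕ, 1 ≤ h ∧ ∀ᶠ Z : ℕ in atTop,
  ∑ x ∈ Icc 1 Z, |sh h x| / x ≤ ε * h * Real.log Z

end Pool.Agent.P.PAR
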