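import Pool.Agent.P.MP_e94e4b_nt.PAR.IfM

/-! Step DI. -/

namespace Pool.Agent.P.PAR

open Finset Real Filter Topology MeasureTheory
open Pool.Agent.P.MP_e86632_nt (ee ee_add norm_ee ee_neg ee_zero)
open Pool.Agent.P.MP_8be758_nt.Avg (gs nsq gs_pos gs_le_one gs_neg gs_anti)
open Pool.Agent.P.MP_e94e4b_nt.PF (sgm)
open Pool.Agent.P.E2
open ArithmeticFunction (cardFactors vonMangoldt)

namespace DIb

end DIb

theorem q_DI :
    L_DI := by
  intro X V P δ t hP h0 h1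
  have hP0 : 0 ≤ P := by linarith
  simp only [bl, ot, qv, rv, dq, card_filter, Nat.cast_sum, Complex.ofReal_sum, mul_sum, sum_mul]
  rw [sum_comm, ← sum_neg_distrib]
  refine sum_congr rfl fun v _ => ?_
  rw [sum_comm, sum_comm (s := Icc 1 (16 * X)), ← sum_neg_distrib]
  refine sum_congr rfl fun p hp => ?_
  obtain ⟨⟨p1, p2⟩, pp⟩ := (mem_pv hP0 h0).1 hp
  have y0 := yy_pos (by linarith : 0 < P) h0 v
  have e : ∀ m ∈ rg X P δ v, m ≠ 0 := fun m hm => Nat.ne_zero_of_lt (mem_Ioc.1 hm).1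
  rw [← sum_neg_distrib, ← sum_subset (filter_subset (fun n => p ∣ n ∧ n / p ∈ rg X P δ v)
    (Icc 1 (16 * X))) fun n hn hn' => by rw [if_neg fun h => hn' (mem_filter.2 ⟨hn, h⟩)]; simp]
  refine sum_bij (fun m _ => p * m) (fun m hm => mem_filter.2 ⟨mem_Icc.2
    ⟨Nat.mul_pos pp.pos (Nat.pos_of_ne_zero (e m hm)), ?_⟩, dvd_mul_right _ _, ?_⟩)
    (fun m _ m' _ h => Nat.eq_of_mul_eq_mul_left pp.pos h) (fun n hn => ?_) fun m hm => ?_
  · have a := ((mem_rg hP0 h0).1 hm).2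
    rw [le_div_iff₀ y0] at a
    rw [yy_succ] at p2
    have b : (p : ℝ) * m ≤ 2 * yy P δ v * m := by
      gcongr
      nlinarith
    have c : (p : ℝ) * m ≤ 16 * X := by linarith
    exact_mod_cast c
  · rwa [Nat.mul_div_cancel_left _ pp.pos]
  · obtain ⟨-, a, b⟩ := mem_filter.1 hn
    exact ⟨n / p, b, Nat.mul_div_cancel' a⟩
  · rw [if_pos ⟨dvd_mul_right _ _, by rwa [Nat.mul_div_cancel_left _ pp.pos]⟩,
      lc_mul pp.ne_zero (e m hm), lc_prime pp, nit_mul t pp.ne_zero (e m hm)]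
    push_cast
    ring

end Pool.Agent.P.PAR
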