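import Pool.Agent.P.MP_e94e4b_nt.PAR.IfM

/-! Step LZ. -/

namespace Pool.Agent.P.PAR

open Finset Real Filter Topology MeasureTheory
open Pool.Agent.P.MP_e86632_nt (ee ee_add norm_ee ee_neg ee_zero)
open Pool.Agent.P.MP_8be758_nt.Avg (gs nsq gs_pos gs_le_one gs_neg gs_anti)
open Pool.Agent.P.MP_e94e4b_nt.PF (sgm)
open Pool.Agent.P.E2
open ArithmeticFunction (cardFactors vonMangoldt)

namespace LZb

end LZb

theorem q_LZ :
    L_LZ := by
  intro s hs
  have h0 : s ≠ 0 := fun e => by rw [e] at hs; norm_num at hs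
  let f : ℕ →*₀ ℂ :=
    { toFun := fun n => lc n * (n : ℂ) ^ (-s)
      map_zero' := by simp [h0]
      map_one' := by simp [lc, lam_one]
      map_mul' := fun m n => by
        rcases eq_or_ne m 0 with rfl | hm
        · simp [h0]
        rcases eq_or_ne n 0 with rfl | hn
        · simp [h0]
        rw [lc_mul hm hn, Nat.cast_mul, Complex.natCast_mul_natCast_cpow]
        ring }
  have hf : ∀ n, f n = lc n * (n : ℂ) ^ (-s) := fun _ => rfl
  have h1 := EulerProduct.eulerProduct_completely_multiplicative_hasProd (f := f)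
    ((summable_riemannZetaSummand hs).congr fun n => by rw [hf, norm_mul, norm_lc, one_mul]; rfl)
  have e : ∑' n, f n = LSeries lc s := tsum_congr fun n => by
    rw [hf, LSeries.term_of_ne_zero' h0, Complex.cpow_neg, div_eq_mul_inv]
  rw [e] at h1
  refine (h1.mul (riemannZeta_eulerProduct_hasProd hs)).unique ?_
  refine (riemannZeta_eulerProduct_hasProd (s := 2 * s) (by simp; linarith)).congr_fun
    fun p => ?_
  rw [hf, lc_prime p.2, ← mul_inv, show -(2 * s) = (2 : ℕ) * -s by push_cast; ring,
    Complex.cpow_nat_mul]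
  ring

end Pool.Agent.P.PAR
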