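import Pool.Agent.P.MP_e94e4b_nt.PAR.IfM

/-! Step OVL. -/

namespace Pool.Agent.P.PAR

open Finset Real Filter Topology MeasureTheory
open Pool.Agent.P.MP_e86632_nt (ee ee_add norm_ee ee_neg ee_zero)
open Pool.Agent.P.MP_8be758_nt.Avg (gs nsq gs_pos gs_le_one gs_neg gs_anti)
open Pool.Agent.P.MP_e94e4b_nt.PF (sgm)
open Pool.Agent.P.E2
open ArithmeticFunction (cardFactors vonMangoldt)

namespace OVLb

theorem key {F : ℕ → ℝ} {A B : ℕ} (hAB : A ≤ B) (h0 : ∀ m, A ≤ m → 0 ≤ F m)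
    (h1 : ∀ m, A ≤ m → F m ≤ F (m + 1)) (h : ℕ) :
    ∑ x ∈ Ioc A B, (F (x + h) - F x) ≤ h * F (B + h) := by
  induction h with
  | zero => simp
  | succ h ih =>
    have e := Pool.Agent.P.MP_e86632_nt.tele_Ioc (fun i => F (i + h)) A B hAB
    have e' : ∑ x ∈ Ioc A B, (F (x + (h + 1)) - F x) =
        ∑ x ∈ Ioc A B, (F (x + h) - F x) + ∑ x ∈ Ioc A B, (F (x + 1 + h) - F (x + h)) := by
      rw [← sum_add_distrib]
      exact sum_congr rfl fun x _ => by rw [add_right_comm, add_assoc]; ring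
    have k0 := h0 (A + 1 + h) (by omega)
    have k1 := mul_le_mul_of_nonneg_left (h1 (B + h) (by omega)) h.cast_nonneg
    rw [e', e, add_right_comm B 1 h, ← add_assoc]
    push_cast
    linarith

end OVLb

theorem q_OVL :
    L_OVL := by
  intro φ A B h hc h0 hA hAB
  have e : ∀ a b : ℕ, ∫ v in (Real.log a)..(Real.log b), φ v =
      (∫ v in (Real.log A)..(Real.log b), φ v) - ∫ v in (Real.log A)..(Real.log a), φ v :=
    fun a b => (intervalIntegral.integral_interval_sub_left (hc.intervalIntegrable _ _)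
      (hc.intervalIntegrable _ _)).symm
  have p : ∀ a b : ℕ, A ≤ a → a ≤ b → 0 ≤ ∫ v in (Real.log a)..(Real.log b), φ v :=
    fun a b h1 h2 => intervalIntegral.integral_nonneg
      (Real.log_le_log (by exact_mod_cast hA.trans h1) (by exact_mod_cast h2)) fun v _ => h0 v
  rw [sum_congr rfl fun x _ => e x (x + h)]
  exact OVLb.key (F := fun m => ∫ v in (Real.log A)..(Real.log m), φ v) hAB (p A · le_rfl)
    (fun m hm => sub_nonneg.1 (e m (m + 1) ▸ p m (m + 1) hm m.le_succ)) h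

end Pool.Agent.P.PAR
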