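import Pool.Agent.P.MP_e94e4b_nt.PAR.IfE
import Pool.Agent.P.MP_e94e4b_nt.PF.SM

/-! Step SGM. -/

namespace Pool.Agent.P.PAR

open Finset Real Filter Topology MeasureTheory
open Pool.Agent.P.MP_e86632_nt (ee ee_add norm_ee ee_neg ee_zero)
open Pool.Agent.P.MP_8be758_nt.Avg (gs nsq gs_pos gs_le_one gs_neg gs_anti)
open Pool.Agent.P.MP_e94e4b_nt.PF (sgm)
open Pool.Agent.P.E2
open ArithmeticFunction (cardFactors vonMangoldt)

namespace SGMb

end SGMb

theorem q_SGM :
    L_SGM := by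
  obtain ⟨C, hC, hτ⟩ := MP_8be758_nt.Avg.t_DIV (1 / 8) (by norm_num)
  have hs : Summable fun d : ℕ => 1 / (d : ℝ) ^ (3 / 2 : ℝ) :=
    Real.summable_one_div_nat_rpow.2 (by norm_num)
  set S := ∑' d : ℕ, 1 / (d : ℝ) ^ (3 / 2 : ℝ)
  have hS : 0 ≤ S := tsum_nonneg fun _ => by positivity
  refine ⟨C ^ 4 * (S + 1), by positivity, fun Y => ?_⟩
  calc ∑ M ∈ Icc 1 Y, sgm M ^ 2
      ≤ ∑ M ∈ Icc 1 Y, ∑ d ∈ Icc 1 Y,
          if d ∣ M then (9 : ℝ) ^ d.primeFactors.card / d else 0 := by
        refine sum_le_sum fun M hM => ?_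
        rw [mem_Icc] at hM
        refine (MP_e94e4b_nt.PF.sm_sq (by omega)).trans ?_
        rw [← sum_filter]
        refine sum_le_sum_of_subset_of_nonneg (fun d hd => ?_) fun _ _ _ => by positivity
        rw [mem_filter, Nat.mem_divisors] at hd
        have h1 := Nat.le_of_dvd (by omega) hd.1.1
        exact mem_filter.2 ⟨mem_Icc.2 ⟨Nat.pos_of_ne_zero hd.2.ne_zero, by omega⟩, hd.1.1⟩
    _ ≤ ∑ d ∈ Icc 1 Y, C ^ 4 * (Y * (1 / (d : ℝ) ^ (3 / 2 : ℝ))) := by
        rw [sum_comm]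
        refine sum_le_sum fun d hd => ?_
        rw [mem_Icc] at hd
        have h0 : (0 : ℝ) < d := by exact_mod_cast hd.1
        have h2 : (9 : ℝ) ^ d.primeFactors.card ≤ (d.divisors.card : ℝ) ^ 4 := by
          have h3 : (2 : ℝ) ^ d.primeFactors.card ≤ d.divisors.card := by
            exact_mod_cast MP_e94e4b_nt.PF.sm_two (by omega)
          refine le_trans ?_ (pow_le_pow_left₀ (by positivity) h3 4)
          rw [← pow_mul, mul_comm, pow_mul]
          exact pow_le_pow_left₀ (by norm_num) (by norm_num) _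
        have h3 : (d.divisors.card : ℝ) ^ 4 ≤ C ^ 4 * √(d : ℝ) := by
          refine (pow_le_pow_left₀ (by positivity) (hτ d) 4).trans_eq ?_
          rw [mul_pow, ← Real.rpow_natCast (_ ^ _), ← Real.rpow_mul h0.le, Real.sqrt_eq_rpow]
          norm_num
        have h4 : (d : ℝ) ^ (3 / 2 : ℝ) = d * √(d : ℝ) := by
          rw [Real.sqrt_eq_rpow, show (3 / 2 : ℝ) = 1 + 1 / 2 by norm_num, Real.rpow_add h0,
            Real.rpow_one]
        have h5 := Real.mul_self_sqrt h0.le
        have h6 := Real.sqrt_pos.2 h0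
        have h7 : (((Icc 1 Y).filter fun M => d ∣ M).card : ℝ) ≤ Y / d := by
          rw [show Icc 1 Y = Ioc 0 Y from rfl, Nat.Ioc_filter_dvd_card_eq_div]
          exact Nat.cast_div_le
        rw [← sum_filter, sum_const, nsmul_eq_mul]
        calc _ ≤ (Y / d) * (C ^ 4 * √(d : ℝ) / d) := by
              gcongr
              exact h2.trans h3
          _ = _ := by
              rw [h4]
              generalize √(d : ℝ) = r at h5 h6
              rw [← h5]
              field_simp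
    _ ≤ _ := by
        rw [← mul_sum, ← mul_sum, mul_assoc]
        refine mul_le_mul_of_nonneg_left ?_ (by positivity)
        have h1 : ∑ d ∈ Icc 1 Y, 1 / (d : ℝ) ^ (3 / 2 : ℝ) ≤ S :=
          hs.sum_le_tsum _ fun _ _ => by positivity
        have h4 := mul_le_mul_of_nonneg_left h1 (Nat.cast_nonneg (α := ℝ) Y)
        nlinarith [Nat.cast_nonneg (α := ℝ) Y]

end Pool.Agent.P.PAR
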