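import Pool.Agent.P.MP_e94e4b_nt.PAR.IfM

/-! Step ST2. -/

namespace Pool.Agent.P.PAR

open Finset Real Filter Topology MeasureTheory
open Pool.Agent.P.MP_e86632_nt (ee ee_add norm_ee ee_neg ee_zero)
open Pool.Agent.P.MP_8be758_nt.Avg (gs nsq gs_pos gs_le_one gs_neg gs_anti)
open Pool.Agent.P.MP_e94e4b_nt.PF (sgm)
open Pool.Agent.P.E2
open ArithmeticFunction (cardFactors vonMangoldt)

namespace ST2b

theorem cs {F : ℕ → ℝ → ℂ} (hF : ∀ v, Bd (F v)) (V : ℕ) {Z : ℝ} (hZ : 0 < Z) (T : Set ℝ) :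
    ∫ t in T, gs (t / Z) * ‖∑ v ∈ range V, F v t‖ ^ 2 ≤
      V * ∑ v ∈ range V, ∫ t in T, gs (t / Z) * ‖F v t‖ ^ 2 := by
  rw [← integral_finsetSum _ fun v _ => ((hF v).int hZ).integrableOn, ← integral_const_mul]
  refine integral_mono ((Bd.sum (range V) hF).int hZ).integrableOn
    ((integrable_finsetSum _ fun v _ => ((hF v).int hZ).integrableOn).const_mul _) fun t => ?_
  have h1 : ‖∑ v ∈ range V, F v t‖ ^ 2 ≤ V * ∑ v ∈ range V, ‖F v t‖ ^ 2 := by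
    refine (pow_le_pow_left₀ (norm_nonneg _) (norm_sum_le _ _) 2).trans ?_
    simpa using sq_sum_le_card_mul_sum_sq (s := range V) (f := fun v => ‖F v t‖)
  simp only [← mul_sum]
  rw [mul_left_comm]
  exact mul_le_mul_of_nonneg_left h1 (gs_pos _).le

theorem small (C : ℝ) : ∀ᶠ ρ : ℝ in atTop, 16 * C * ρ ^ 20 *
    (Real.exp (3 * ρ ^ 2) ^ 2 * Real.exp (2 * ρ ^ 12 - Real.exp (ρ ^ 2) / ρ ^ 3)) ≤ 1 := by
  filter_upwards [ev_pe1 (16 * C) 20, ev_pp 9 (c := 1 / 40320) (by norm_num) (show 12 < 13 by norm_num),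
    eventually_ge_atTop 1] with ρ h1 h2 h3
  have h0 : 0 < ρ := by linarith
  have h4 : ρ ^ 13 / 40320 ≤ Real.exp (ρ ^ 2) / ρ ^ 3 := by
    have := Real.pow_div_factorial_le_exp (ρ ^ 2) (by positivity) 8
    rw [le_div_iff₀ (by positivity)]
    refine le_trans (le_of_eq ?_) this
    norm_num [Nat.factorial]
    ring
  have h5 : ρ ^ 1 ≤ ρ ^ 12 := pow_le_pow_right₀ h3 (by norm_num)
  have h6 : ρ ^ 2 ≤ ρ ^ 12 := pow_le_pow_right₀ h3 (by norm_num)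
  refine (mul_le_mul_of_nonneg_right h1 (by positivity)).trans ?_
  rw [← Real.exp_nat_mul, ← Real.exp_add, ← Real.exp_add, Real.exp_le_one_iff]
  push_cast
  linarith [pow_one ρ]

end ST2b

theorem q_ST2 (hDEC : L_DEC) (hSG : L_SG) (hT2 : L_T2) :
    L_ST2 := by
  obtain ⟨C, hC, hDEC⟩ := hDEC
  obtain ⟨C2, hC2, hT2⟩ := hT2
  refine ⟨2 * C + 6, by linarith, ?_⟩
  filter_upwards [hSG, tendsto_nx.eventually hSG, ST2b.small C2] with ρ s1 s2 hs α Z X h0 h1 hX hZ hZX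
  have hZ0 : 0 < Z := by linarith
  have hρ : 0 < ρ := by linarith [s1.r8]
  have hσ : 1 < nx ρ := by linarith [s2.r8]
  have hL : 0 < Real.log (nx ρ) := Real.log_pos hσ
  have hy : yy (sP (nx ρ)) (sd (nx ρ)) (sV (nx ρ)) ^ 2 ≤ sd (nx ρ) * X := by
    refine (pow_le_pow_left₀ ((Real.exp_pos _).le.trans (s2.yl _)) (s2.yu _ le_rfl) 2).trans
      (le_trans ?_ (mul_le_mul_of_nonneg_left hX s2.d0.le))
    have h2 : nx ρ ^ 6 ≤ Real.exp (nx ρ ^ 12) :=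
      (pow_le_pow_right₀ hσ.le (show 6 ≤ 12 by norm_num)).trans
        (by linarith [Real.add_one_le_exp (nx ρ ^ 12)])
    rw [sd, one_div_mul_eq_div, le_div_iff₀ (by positivity), ← Real.exp_nat_mul,
      show 5 * nx ρ ^ 12 = (2 : ℕ) * (2 * nx ρ ^ 12) + nx ρ ^ 12 by push_cast; ring, Real.exp_add]
    exact mul_le_mul_of_nonneg_left h2 (Real.exp_pos _).le
  refine (hDEC X _ _ _ Z _ (by linarith [s2.p4]) s2.d0.le (by linarith [s2.d1]) s2.e1 hy hZ hZX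
    ((meas_bad _ _).diff (meas_bad _ _))).trans ?_
  set E := Real.exp (2 * ρ ^ 12 - Real.exp (ρ ^ 2) / ρ ^ 3) with hE
  have hE0 : 0 < E := Real.exp_pos _
  have h2 : ∫ t in bad ρ α \ bad (nx ρ) (α + 1 / ρ ^ 3),
      gs (t / Z) * ‖bl X (sP (nx ρ)) (sd (nx ρ)) (sV (nx ρ)) t‖ ^ 2 ≤
      sV (nx ρ) * (sV (nx ρ) * (sV ρ * (C2 * X ^ 2 * E))) := by
    refine (ST2b.cs (fun v => (bd_qv _ _ v).mul (bd_rv X _ _ v)) _ hZ0 _).trans
      (mul_le_mul_of_nonneg_left ?_ (Nat.cast_nonneg _))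
    refine (sum_le_card_nsmul _ _ (sV ρ * (C2 * X ^ 2 * E)) fun v hv => ?_).trans
      (by rw [card_range, nsmul_eq_mul])
    refine (((bd_qv _ _ v).mul (bd_rv X _ _ v)).cover hZ0 (range (sV ρ))
      (A := fun u => {t : ℝ | yy (sP ρ) (sd ρ) u ^ (1 - α) < ‖qv (sP ρ) (sd ρ) u t‖ ∧
        ‖qv (sP (nx ρ)) (sd (nx ρ)) v t‖ ≤ yy (sP (nx ρ)) (sd (nx ρ)) v ^ (1 - (α + 1 / ρ ^ 3))})
      (fun u => (meas_lt _ (cont_qv _ _ u)).inter (meas_le _ (cont_qv _ _ v))) ?_).trans ?_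
    · rintro t ⟨⟨u, hu, h3⟩, h4⟩
      exact ⟨u, mem_range.2 hu, h3, not_lt.1 fun h5 => h4 ⟨v, mem_range.1 hv, h5⟩⟩
    · refine (sum_le_card_nsmul _ _ (C2 * X ^ 2 * E) fun u hu => ?_).trans
        (by rw [card_range, nsmul_eq_mul])
      exact hT2 ρ α Z X u v s1 s2 h0 h1 hZ hZX (mem_range.1 hu) (mem_range.1 hv)
  have h3 := s2.vu
  rw [nx_pow_eighteen] at h3
  have h4 : (sV (nx ρ) : ℝ) * (sV (nx ρ) * (sV ρ * (C2 * X ^ 2 * E))) ≤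
      2 * Real.exp (3 * ρ ^ 2) * (2 * Real.exp (3 * ρ ^ 2) * (2 * ρ ^ 18 * (C2 * X ^ 2 * E))) := by
    have := s1.vu
    gcongr
  set R := rs (pa (sP (nx ρ)) (sd (nx ρ)) (sV (nx ρ))) with hR
  have h5 : 1 / R ≤ 1 / Real.log (nx ρ) := one_div_le_one_div_of_le hL (by linarith [s2.el])
  have h6 : 2 / R ^ 2 ≤ 2 := div_le_self (by norm_num) (one_le_pow₀ s2.e1)
  have h7 := mul_le_mul h6 (h2.trans h4) (integral_nonneg (gsq_nonneg _ Z)) (by norm_num)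
  have h8 : 2 * (2 * Real.exp (3 * ρ ^ 2) * (2 * Real.exp (3 * ρ ^ 2) *
      (2 * ρ ^ 18 * (C2 * X ^ 2 * E)))) ≤ 6 * X ^ 2 / Real.log (nx ρ) := by
    rw [le_div_iff₀ hL, log_nx]
    have := mul_le_mul_of_nonneg_left hs (show (0 : ℝ) ≤ X ^ 2 / 6 by positivity)
    have h9 : (0 : ℝ) ≤ X ^ 2 := by positivity
    calc _ = X ^ 2 / 6 * (16 * C2 * ρ ^ 20 * (Real.exp (3 * ρ ^ 2) ^ 2 * E)) := by ring
      _ ≤ _ := by linarith
  have h9 := mul_le_mul_of_nonneg_left (add_le_add h5 s2.dl)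
    (show (0 : ℝ) ≤ C * X ^ 2 by positivity)
  refine (add_le_add h9 (h7.trans h8)).trans (le_of_eq ?_)
  ring

end Pool.Agent.P.PAR
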