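import Pool.Agent.P.MP_e94e4b_nt.PAR.IfE

/-! Step TB. -/

namespace Pool.Agent.P.PAR

open Finset Real Filter Topology MeasureTheory
open Pool.Agent.P.MP_e86632_nt (ee ee_add norm_ee ee_neg ee_zero)
open Pool.Agent.P.MP_8be758_nt.Avg (gs nsq gs_pos gs_le_one gs_neg gs_anti)
open Pool.Agent.P.MP_e94e4b_nt.PF (sgm)
open Pool.Agent.P.E2
open ArithmeticFunction (cardFactors vonMangoldt)

namespace TBb

theorem fd_shift (a c P : ℕ) (x : ℕ → BB) (q L b i : ℕ) (h : q ∣ L) :
    fd a c P x q i = fd a c P x q (b * L + i) := by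
  unfold fd
  congr 1
  refine filter_congr fun j _ => ?_
  have h1 : q ∣ b * L := Dvd.dvd.mul_left h b
  have e : b * L + i + j + c * eh a q = b * L + (i + j + c * eh a q) := by ring
  rw [e, Nat.dvd_add_right h1]

theorem markov (L : ℕ) (F : ℕ → ℝ) (w : ℝ) (hF : ∀ i, 0 ≤ F i) :
    (((range L).filter fun i => w < F i).card : ℝ) * w ≤ ∑ i ∈ range L, F i := by
  calc (((range L).filter fun i => w < F i).card : ℝ) * w
      = ∑ _i ∈ (range L).filter fun i => w < F i, w := by rw [sum_const, nsmul_eq_mul]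
    _ ≤ ∑ i ∈ (range L).filter fun i => w < F i, F i :=
        sum_le_sum fun i hi => (mem_filter.1 hi).2.le
    _ ≤ ∑ i ∈ range L, F i :=
        sum_le_sum_of_subset_of_nonneg (filter_subset _ _) fun i _ _ => hF i

end TBb

theorem q_TB (hGDC : L_GDC) :
    L_TB := by
  classical
  intro V a c P L b η R hc hP hη hpq hL hdv hR
  have hCs : cb V a P L b ⊆ pq a P := by
    unfold cb; exact filter_subset _ _
  have hcP : 1 ≤ c * P := Nat.mul_pos hc hP
  have hL0 : 0 < L := by
    have : 32 * c * P = 32 * (c * P) := by ring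
    omega
  have hLr : (0 : ℝ) < L := by exact_mod_cast hL0
  have hpr : (0 : ℝ) < (pq a P).card := by exact_mod_cast hpq
  obtain ⟨w, hw⟩ : ∃ w : ℝ, w = η * (pq a P).card := ⟨_, rfl⟩
  have hw0 : 0 < w := by rw [hw]; positivity
  obtain ⟨F, hF⟩ : ∃ F : ℕ → ℝ, F = fun i => ∑ q ∈ cb V a P L b,
      (fd a c P (fun j => xi a c (b * L + i + j)) q (b * L + i) : ℝ) := ⟨_, rfl⟩
  have hF0 : ∀ i, 0 ≤ F i := by
    intro i; rw [hF]; exact sum_nonneg fun _ _ => Nat.cast_nonneg _
  have hG := (hGDC a c P w (cb V a P L b) hc hw0.le hCs).1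
  have key : ∀ i, i + 16 * c * P ≤ L → i < L → ¬ R (b * L + i) → F i ≤ w →
      Gd a c P w (cb V a P L b) (fun j => cy a c L b (i + j)) i := by
    intro i hi _ hnR hFi
    refine hG (fun j => xi a c (b * L + i + j)) _ i ?_ ?_
    · intro j hj
      have hlt : i + j < L := by omega
      show xi a c (b * L + i + j) = cy a c L b (i + j)
      unfold cy
      rw [Nat.mod_eq_of_lt hlt, add_assoc]
    · refine ⟨?_, ?_⟩
      · by_contra hlt
        push Not at hlt
        rw [hw] at hlt
        exact hnR (hR (b * L + i) hlt)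
      · rw [hF] at hFi
        refine le_trans (le_of_eq ?_) hFi
        refine sum_congr rfl fun q hq => ?_
        rw [TBb.fd_shift a c P _ q L b i (hdv q (hCs hq))]
  have hsub : range (L - 16 * c * P) ⊆
      ((range L).filter fun i => Gd a c P w (cb V a P L b) (fun j => cy a c L b (i + j)) i) ∪
        (((range L).filter fun i => R (b * L + i)) ∪ (range L).filter fun i => w < F i) := by
    intro i hi
    have hi' := mem_range.1 hi
    have hiL : i < L := by omega
    by_cases h1 : R (b * L + i)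
    · exact mem_union_right _ (mem_union_left _ (mem_filter.2 ⟨mem_range.2 hiL, h1⟩))
    by_cases h2 : w < F i
    · exact mem_union_right _ (mem_union_right _ (mem_filter.2 ⟨mem_range.2 hiL, h2⟩))
    · exact mem_union_left _ (mem_filter.2 ⟨mem_range.2 hiL,
        key i (by omega) hiL h1 (not_lt.1 h2)⟩)
  have hcard := card_le_card hsub
  rw [card_range] at hcard
  have hc2 := le_trans hcard (le_trans (card_union_le _ _)
    (Nat.add_le_add_left (card_union_le _ _) _))
  have hhalf : L ≤ 2 * (L - 16 * c * P) := by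
    have e1 : 32 * c * P = 2 * (16 * c * P) := by ring
    omega
  obtain ⟨g, hg⟩ : ∃ g : ℕ, g = ((range L).filter fun i =>
      Gd a c P w (cb V a P L b) (fun j => cy a c L b (i + j)) i).card := ⟨_, rfl⟩
  obtain ⟨r, hr⟩ : ∃ r : ℕ, r = ((range L).filter fun i => R (b * L + i)).card := ⟨_, rfl⟩
  obtain ⟨m, hm⟩ : ∃ m : ℕ, m = ((range L).filter fun i => w < F i).card := ⟨_, rfl⟩
  have hM := TBb.markov L F w hF0
  rw [← hg, ← hr, ← hm] at hc2
  rw [← hm] at hM
  have h3 : (L : ℝ) ≤ 2 * (g + (r + m)) := by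
    have : L ≤ 2 * (g + (r + m)) := by omega
    exact_mod_cast this
  have etb : tb V a c P L η b = (g : ℝ) / L := by
    unfold tb
    rw [fq_eq, ← hw, hg]
  have efq : fq L (fun i => R (b * L + i)) = (r : ℝ) / L := by
    rw [fq_eq, hr]
  have eS : (∑ i ∈ range L, ∑ q ∈ cb V a P L b,
      (fd a c P (fun j => xi a c (b * L + i + j)) q (b * L + i) : ℝ)) = ∑ i ∈ range L, F i := by
    rw [hF]
  rw [etb, efq, eS, ← hw]
  have h4 : (m : ℝ) / L ≤ (∑ i ∈ range L, F i) / (w * L) := by
    rw [div_le_div_iff₀ hLr (by positivity)]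
    nlinarith
  have h5 : (1 : ℝ) / 2 ≤ (g : ℝ) / L + (r : ℝ) / L + (m : ℝ) / L := by
    rw [← add_div, ← add_div, div_le_div_iff₀ (by norm_num) hLr]
    linarith
  linarith

end Pool.Agent.P.PAR
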